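import Pool.Agent.K6.H24.MH.Pt3

open scoped ContDiff
open Set MeasureTheory Filter Topology

namespace Pool.Agent.K6.H24.MH

open Pool.Agent.H729R2

noncomputable section

set_option linter.unusedSectionVars false

/-- `F` is bounded and `O(1/N)`-close to `G` on `A`, and `G` is bounded -/
structure Ap (A : Set X) (F G : ℕ → X → ℝ) : Prop where
  c : O1 A (fun N z => F N z - G N z)
  b : B1 A G

variable {A : Set X} {F G F' G' : ℕ → X → ℝ}

lemma Ap.bl (h : Ap A F G) : B1 A F :=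
  (h.c.toB1.add h.b).congr fun N _ z _ => by ring

lemma Ap.add (h : Ap A F G) (h' : Ap A F' G') :
    Ap A (fun N z => F N z + F' N z) (fun N z => G N z + G' N z) :=
  ⟨(h.c.add h'.c).congr fun N _ z _ => by ring, h.b.add h'.b⟩

lemma Ap.neg (h : Ap A F G) : Ap A (fun N z => - F N z) (fun N z => - G N z) :=
  ⟨h.c.neg.congr fun N _ z _ => by ring, h.b.neg⟩

lemma Ap.sub (h : Ap A F G) (h' : Ap A F' G') :
    Ap A (fun N z => F N z - F' N z) (fun N z => G N z - G' N z) :=
  ⟨(h.c.sub h'.c).congr fun N _ z _ => by ring,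
    (h.b.add h'.b.neg).congr fun N _ z _ => by ring⟩

lemma Ap.mul (h : Ap A F G) (h' : Ap A F' G') :
    Ap A (fun N z => F N z * F' N z) (fun N z => G N z * G' N z) :=
  ⟨((h.c.mul h'.bl).add (h'.c.mul h.b)).congr fun N _ z _ => by ring, h.b.mul h'.b⟩

lemma Ap.refl (h : B1 A F) : Ap A F F :=
  ⟨⟨0, le_rfl, fun N _ z _ => by simp⟩, h⟩

lemma Ap.sum {ι : Type} (s : Finset ι) {F G : ι → ℕ → X → ℝ} (h : ∀ i ∈ s, Ap A (F i) (G i)) :
    Ap A (fun N z => ∑ i ∈ s, F i N z) (fun N z => ∑ i ∈ s, G i N z) :=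
  ⟨(O1.sum s fun i hi => (h i hi).c).congr fun N _ z _ => by rw [Finset.sum_sub_distrib],
    B1.sum s fun i hi => (h i hi).b⟩

lemma Ap.congr (h : Ap A F G) (h1 : ∀ N : ℕ, 1 ≤ N → ∀ z ∈ A, F' N z = F N z)
    (h2 : ∀ N : ℕ, 1 ≤ N → ∀ z ∈ A, G' N z = G N z) : Ap A F' G' :=
  ⟨h.c.congr fun N hN z hz => by rw [h1 N hN z hz, h2 N hN z hz], h.b.congr h2⟩

lemma Ap.const (hA : IsCompact A) {f : X → ℝ} (hf : Continuous f) :
    Ap A (fun _ => f) (fun _ => f) := Ap.refl (B1.const hA hf)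

/-- the normalised specific volume -/
def rho (s r : ℝ) : ℝ := (r - 1) / s
/-- the relative amplitude -/
def alf (s r : ℝ) : ℝ := s * tau (rho s r) / r

section smooth

variable {Z : Type} [NormedAddCommGroup Z] [NormedSpace ℝ Z] {f : Z → ℝ} {s : ℝ}

lemma rho_smooth (hf : ContDiff ℝ ∞ f) (s : ℝ) : ContDiff ℝ ∞ (fun z => rho s (f z)) :=
  (hf.sub contDiff_const).div_const _

lemma tau_smooth (hf : ContDiff ℝ ∞ f) : ContDiff ℝ ∞ (fun z => tau (f z)) :=
  contDiff_const.mul (contDiff_const.sub (hf.pow 2))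

lemma hh_smooth (hf : ContDiff ℝ ∞ f) : ContDiff ℝ ∞ (fun z => hh (f z)) :=
  contDiff_const.sub (hf.pow 2)

lemma alf_smooth (hf : ContDiff ℝ ∞ f) (h0 : ∀ z, f z ≠ 0) :
    ContDiff ℝ ∞ (fun z => alf s (f z)) :=
  (contDiff_const.mul (tau_smooth (rho_smooth hf s))).div hf h0

end smooth

lemma tau_pos {ρ : ℝ} (h : |ρ| < 1) : 0 < tau ρ := by
  have h1 : ρ ^ 2 < 1 := by
    rw [← sq_abs]
    have := abs_nonneg ρ
    nlinarith
  unfold tau; linarith

lemma r_bounds {s r : ℝ} (hs : 0 < s) (hs1 : s ≤ 1 / 10000) (h : |rho s r| < 1) :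
    9999 / 10000 ≤ r ∧ r ≤ 10001 / 10000 := by
  unfold rho at h
  rw [abs_div, abs_of_pos hs, div_lt_one hs] at h
  have := abs_lt.1 h
  constructor <;> linarith [this.1, this.2]

lemma alf_pos {s r : ℝ} (hs : 0 < s) (hs1 : s ≤ 1 / 10000) (h : |rho s r| < 1) :
    0 < alf s r := by
  have h1 := (r_bounds hs hs1 h).1
  have h2 := tau_pos h
  unfold alf
  have : 0 < r := by linarith
  positivity

lemma alf_le {s r : ℝ} (hs : 0 < s) (hs1 : s ≤ 1 / 10000) (h : |rho s r| < 1) :
    alf s r ≤ 1 / 100000 := by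
  have h1 := (r_bounds hs hs1 h).1
  have h2 := tau_pos h
  have h3 := tau_le (rho s r)
  unfold alf
  rw [div_le_iff₀ (by linarith)]
  have : s * tau (rho s r) ≤ 1 / 10000 * (1 / 1000) :=
    mul_le_mul hs1 h3 h2.le (by norm_num)
  linarith

/-- the new normalised specific volume -/
lemma rho_new {s r c : ℝ} (hs : 0 < s) (hr : r ≠ 0) :
    rho s (r * (1 + alf s r * c)) = rho s r + tau (rho s r) * c := by
  unfold alf
  have : r * (1 + s * tau (rho s r) / r * c) = r + s * tau (rho s r) * c := by field_simp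
  rw [this]
  unfold rho
  field_simp
  ring

lemma rho_new_lt {ρ c : ℝ} (h : |ρ| < 1) (hc : |c| ≤ 1) : |ρ + tau ρ * c| < 1 := by
  have h0 := (tau_pos h).le
  have h1 : |ρ + tau ρ * c| ≤ |ρ| + tau ρ := by
    refine (abs_add_le _ _).trans ?_
    rw [abs_mul, abs_of_nonneg h0]
    have := mul_le_mul_of_nonneg_left hc h0
    linarith
  have h2 : tau ρ = 1 / 1000 * ((1 - |ρ|) * (1 + |ρ|)) := by
    unfold tau
    rw [← sq_abs]; ring
  have h3 := abs_nonneg ρ
  nlinarith

/-- the profile decreases by a small factor only -/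
lemma tau_new {ρ c : ℝ} (h : |ρ| ≤ 1) (hc : |c| ≤ 1) :
    997 / 1000 * tau ρ ≤ tau (ρ + tau ρ * c) := by
  have h0 := tau_nonneg h
  have h1 := tau_le ρ
  have h2 : (ρ + tau ρ * c) ^ 2 ≤ ρ ^ 2 + 2001 / 1000 * tau ρ := by
    have e : (ρ + tau ρ * c) ^ 2 = ρ ^ 2 + tau ρ * (2 * (ρ * c) + tau ρ * c ^ 2) := by ring
    rw [e]
    have e1 : ρ * c ≤ 1 := by
      have h3 : |ρ * c| ≤ 1 := by
        rw [abs_mul]
        have := mul_le_mul h hc (abs_nonneg _) zero_le_one
        linarith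
      exact (le_abs_self _).trans h3
    have e2 : tau ρ * c ^ 2 ≤ 1 / 1000 * 1 :=
      mul_le_mul h1 (abs_le_one_sq hc) (sq_nonneg _) (by norm_num)
    have := mul_le_mul_of_nonneg_left (by linarith : 2 * (ρ * c) + tau ρ * c ^ 2 ≤ 2001 / 1000) h0
    linarith
  have h3 : tau (ρ + tau ρ * c) = 1 / 1000 * (1 - (ρ + tau ρ * c) ^ 2) := rfl
  have h4 : tau ρ = 1 / 1000 * (1 - ρ ^ 2) := rfl
  rw [h3]
  nlinarith

/-- the Riemann-Lebesgue lemma with a nondegenerate smooth phase, derivatives in direction `v` -/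
lemma riemann_lebesgue' {g θ : X → ℝ} (hg : ContDiff ℝ ∞ g) (hc : HasCompactSupport g)
    (hθ : ContDiff ℝ ∞ θ) (v : X) (hnd : ∀ z ∈ tsupport g, D v θ z ≠ 0) :
    ∃ C : ℝ, ∀ N : ℕ, 1 ≤ N → |∫ z, g z * Real.cos (N * θ z)| ≤ C / N := by
  set h : X → ℝ := fun z => g z / D v θ z with hh
  have hhs : ContDiff ℝ ∞ h := contDiff_div_of_tsupport hg (D_smooth hθ v) hnd
  have hhc : HasCompactSupport h := by
    refine hc.mono fun z hz => ?_
    simp only [hh, Function.mem_support] at hz ⊢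
    intro h0
    exact hz (by rw [h0, zero_div])
  have hsin : ∀ N : ℕ, ContDiff ℝ ∞ (fun z => Real.sin (N * θ z)) := fun N =>
      Real.contDiff_sin.comp (contDiff_const.mul hθ)
  have hcos : ∀ N : ℕ, ContDiff ℝ ∞ (fun z => Real.cos (N * θ z)) := fun N =>
      Real.contDiff_cos.comp (contDiff_const.mul hθ)
  have hDc : HasCompactSupport (D v h) :=
    hhc.mono' (subset_closure.trans (tsupport_D_subset v h))
  refine ⟨∫ z, |D v h z|, fun N hN => ?_⟩
  have hN' : (0:ℝ) < N := by exact_mod_cast hN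
  have h1 := integral_D_eq_zero (hhs.mul (hsin N)) hhc.mul_right v
  rw [D_mul hhs (hsin N), D_sin hθ] at h1
  have h2 : ∀ z, D v h z * Real.sin (N * θ z) + h z * (N * D v θ z * Real.cos (N * θ z))
      = D v h z * Real.sin (N * θ z) + N * (g z * Real.cos (N * θ z)) := by
    intro z
    by_cases hz : D v θ z = 0
    · have hg0 : g z = 0 := by
        by_contra hne
        exact hnd z (subset_tsupport _ hne) hz
      simp [hh, hg0]
    · simp only [hh]
      field_simp
  simp only [h2] at h1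
  have i1 : Integrable (fun z => D v h z * Real.sin (N * θ z)) :=
    ((D_smooth hhs v).mul (hsin N)).continuous.integrable_of_hasCompactSupport hDc.mul_right
  have i2 : Integrable (fun z => g z * Real.cos (N * θ z)) :=
    (hg.mul (hcos N)).continuous.integrable_of_hasCompactSupport hc.mul_right
  rw [integral_add i1 (i2.const_mul _), integral_const_mul] at h1
  have h3 : ∫ z, g z * Real.cos (N * θ z) = - (∫ z, D v h z * Real.sin (N * θ z)) / N := by
    field_simp
    linarith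
  rw [h3, abs_div, abs_neg, abs_of_pos hN']
  apply div_le_div_of_nonneg_right _ hN'.le
  refine (abs_integral_le_integral_abs).trans ?_
  refine integral_mono i1.abs
    ((D_smooth hhs v).continuous.abs.integrable_of_hasCompactSupport hDc.abs) fun z => ?_
  simp only [abs_mul]
  have := Real.abs_sin_le_one (N * θ z)
  nlinarith [abs_nonneg (D v h z), abs_nonneg (Real.sin (N * θ z))]

end

end Pool.Agent.K6.H24.MH
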