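import Pool.Agent.K6.H24.MH.Ax3

open scoped ContDiff
open Set MeasureTheory Filter Topology

namespace Pool.Agent.K6.H24.MH

open Pool.Agent.H729R2 (E3 X ev et D St Good lab vec phx phy slab O1 B1 nv n2 vK)
open Pool.Agent.H729R2

noncomputable section

set_option linter.unusedSectionVars false

/-- size of the highest derivatives at one point -/
def M2 (S : St) (z : X) : ℝ := nv S.b z ^ 2 + nv S.gp z ^ 2
/-- weight -/
def Hw (s : ℝ) (S : St) (z : X) : ℝ := hh (rho s (S.R1 z)) * hh (rho s (S.R2 z))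
/-- normalised size of the error at one point -/
def Eh (m s : ℝ) (S : St) (z : X) : ℝ := nv (em S m) z ^ 2 / Wf S s z
def Tw (s : ℝ) (S : St) (z : X) : ℝ :=
  tau (rho s (S.R1 z)) ^ 2 + tau (rho s (S.R2 z)) ^ 2

def XX (s : ℝ) (S : St) : ℝ := ∫ z, M2 S z * Hw s S z
def YY (m s : ℝ) (S : St) : ℝ := ∫ z, Eh m s S z
def TT (s : ℝ) (S : St) : ℝ := ∫ z, Tw s S z * M2 S z

lemma nvsq_smooth {F : Fin 3 → X → ℝ} (hF : ∀ i, ContDiff ℝ ∞ (F i)) :
    ContDiff ℝ ∞ (fun z => nv F z ^ 2) := by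
  simp only [nv_sq]
  exact ContDiff.sum fun i _ => (hF i).pow 2

section good

variable {S : St} {K₀ : Set X} {s m : ℝ}

lemma em_smooth (hg : Good K₀ S) (hK : IsCompact K₀) (i : Fin 3) : ContDiff ℝ ∞ (em S m i) :=
  ((contDiff_const.mul (hg.accs i)).add ((hg.R2s hK).mul (hg.bs i))).sub
    (hg.R1s.mul (hg.gps i))

lemma em_zero' (hg : Good K₀ S) {z : X} (hz : z ∉ K₀) (i : Fin 3) : em S m i z = 0 := by
  unfold em
  rw [hg.acc_zero hz, hg.b_zero hz, hg.gp_zero hz]
  ring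

lemma M2_smooth (hg : Good K₀ S) : ContDiff ℝ ∞ (M2 S) :=
  (nvsq_smooth hg.bs).add (nvsq_smooth hg.gps)

lemma M2_zero (hg : Good K₀ S) {z : X} (hz : z ∉ K₀) : M2 S z = 0 := by
  unfold M2
  rw [nv_zero fun i => hg.b_zero hz i, nv_zero fun i => hg.gp_zero hz i]
  ring

lemma M2_nonneg (z : X) : 0 ≤ M2 S z := by unfold M2; positivity

lemma Hw_smooth (hg : Good K₀ S) (hK : IsCompact K₀) : ContDiff ℝ ∞ (Hw s S) :=
  (hh_smooth (rho_smooth hg.R1s s)).mul (hh_smooth (rho_smooth (hg.R2s hK) s))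

lemma Tw_smooth (hg : Good K₀ S) (hK : IsCompact K₀) : ContDiff ℝ ∞ (Tw s S) :=
  ((tau_smooth (rho_smooth hg.R1s s)).pow 2).add ((tau_smooth (rho_smooth (hg.R2s hK) s)).pow 2)

lemma Hw_ge (hlt : ∀ x, |rho s (S.r x)| < 1) (z : X) : 1 ≤ Hw s S z := by
  have h1 := hh_ge (hlt z.2).le
  have h2 := hh_ge (hlt (vec fun i => lab S.u i z)).le
  exact one_le_mul_of_one_le_of_one_le h1 h2

lemma Wf_pos (hs : 0 < s) (hs1 : s ≤ 1 / 10000) (hlt : ∀ x, |rho s (S.r x)| < 1) (z : X) :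
    0 < Wf S s z := by
  have h1 : 0 < am1 S s z := alf_pos hs hs1 (hlt _)
  unfold Wf; positivity

lemma Wf_smooth (hg : Good K₀ S) (hK : IsCompact K₀) (hs : 0 < s) (hs1 : s ≤ 1 / 10000)
    (hlt : ∀ x, |rho s (S.r x)| < 1) : ContDiff ℝ ∞ (Wf S s) := by
  have h1 : ∀ z, S.R1 z ≠ 0 := fun z => by linarith [(r_bounds hs hs1 (hlt z.2)).1,
    (show S.R1 z = S.r z.2 from rfl)]
  have h2 : ∀ z, S.R2 z ≠ 0 := fun z => by
    linarith [(r_bounds hs hs1 (hlt (vec fun i => lab S.u i z))).1,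
      (show S.R2 z = S.r (vec fun i => lab S.u i z) from rfl)]
  exact ((alf_smooth hg.R1s h1).pow 2).add ((alf_smooth (hg.R2s hK) h2).pow 2)

lemma Eh_smooth (hg : Good K₀ S) (hK : IsCompact K₀) (hs : 0 < s) (hs1 : s ≤ 1 / 10000)
    (hlt : ∀ x, |rho s (S.r x)| < 1) : ContDiff ℝ ∞ (Eh m s S) :=
  (nvsq_smooth (em_smooth hg hK)).div (Wf_smooth hg hK hs hs1 hlt)
    fun z => (Wf_pos hs hs1 hlt z).ne'

lemma Eh_zero (hg : Good K₀ S) {z : X} (hz : z ∉ K₀) : Eh m s S z = 0 := by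
  unfold Eh
  rw [nv_zero fun i => em_zero' hg hz i]
  simp

lemma Eh_nonneg (z : X) : 0 ≤ Eh m s S z := by unfold Eh Wf; positivity

/-- integrability of continuous functions which vanish outside of `K₀` -/
lemma int0 (hK : IsCompact K₀) {F : X → ℝ} (hF : Continuous F) (h0 : ∀ z, z ∉ K₀ → F z = 0) :
    Integrable F :=
  hF.integrable_of_hasCompactSupport (HasCompactSupport.intro hK h0)

lemma XX_nonneg (hlt : ∀ x, |rho s (S.r x)| < 1) : 0 ≤ XX s S :=
  integral_nonneg fun z => mul_nonneg (M2_nonneg z) (by linarith [Hw_ge hlt z])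

lemma YY_nonneg : 0 ≤ YY m s S := integral_nonneg fun z => Eh_nonneg z

lemma TT_nonneg : 0 ≤ TT s S := integral_nonneg fun z =>
  mul_nonneg (by unfold Tw; positivity) (M2_nonneg z)

end good

/-- sequences of functions whose integrals are `O(1/N)` -/
structure Z0 (F : ℕ → X → ℝ) : Prop where
  i : ∀ N, Integrable (F N) (volume : Measure X)
  b : ∃ C : ℝ, ∀ N : ℕ, 1 ≤ N → |∫ z, F N z| ≤ C / N

lemma Z0.add {F G : ℕ → X → ℝ} (hF : Z0 F) (hG : Z0 G) : Z0 (fun N z => F N z + G N z) := by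
  refine ⟨fun N => (hF.i N).add (hG.i N), ?_⟩
  obtain ⟨C, hC⟩ := hF.b
  obtain ⟨C', hC'⟩ := hG.b
  refine ⟨C + C', fun N hN => ?_⟩
  rw [integral_add (hF.i N) (hG.i N), add_div]
  exact (abs_add_le _ _).trans (add_le_add (hC N hN) (hC' N hN))

lemma Z0.neg {F : ℕ → X → ℝ} (hF : Z0 F) : Z0 (fun N z => - F N z) := by
  refine ⟨fun N => (hF.i N).neg, ?_⟩
  obtain ⟨C, hC⟩ := hF.b
  refine ⟨C, fun N hN => ?_⟩
  rw [integral_neg, abs_neg]
  exact hC N hN

lemma Z0.congr {F G : ℕ → X → ℝ} (hF : Z0 F) (h : ∀ N z, G N z = F N z) : Z0 G := by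
  have : G = F := by ext N z; exact h N z
  rw [this]; exact hF

lemma Z0.sub {F G : ℕ → X → ℝ} (hF : Z0 F) (hG : Z0 G) : Z0 (fun N z => F N z - G N z) :=
  (hF.add hG.neg).congr fun N z => by ring

lemma Z0.zero : Z0 (fun _ _ => 0) :=
  ⟨fun _ => integrable_zero _ _ _, 0, fun N _ => by simp⟩

lemma Z0.sum {ι : Type} (s : Finset ι) {F : ι → ℕ → X → ℝ} (h : ∀ i ∈ s, Z0 (F i)) :
    Z0 (fun N z => ∑ i ∈ s, F i N z) := by
  classical
  induction s using Finset.induction_on with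
  | empty => simpa using Z0.zero
  | insert i s hi ih =>
    simp only [Finset.sum_insert hi]
    exact (h i (Finset.mem_insert_self i s)).add
      (ih fun j hj => h j (Finset.mem_insert_of_mem hj))

lemma Z0.const_mul {F : ℕ → X → ℝ} (hF : Z0 F) (c : ℝ) : Z0 (fun N z => c * F N z) := by
  refine ⟨fun N => (hF.i N).const_mul c, ?_⟩
  obtain ⟨C, hC⟩ := hF.b
  refine ⟨|c| * C, fun N hN => ?_⟩
  rw [integral_const_mul, abs_mul, mul_div_assoc]
  exact mul_le_mul_of_nonneg_left (hC N hN) (abs_nonneg c)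

variable {S : St} {k : Fin 3 → ℝ} {ζ : X → ℝ} {m s : ℝ} {K₀ : Set X} {T₀ : ℝ}

namespace Req

variable (h : Req S k ζ s K₀ T₀)
include h

/-- oscillating functions have small integrals -/
lemma z0 {g : X → ℝ} (hg : ContDiff ℝ ∞ g) (hz : ∀ z, ζ z = 0 → g z = 0) (j l : ℝ)
    (hjl : j ≠ 0 ∨ l ≠ 0) :
    Z0 (fun N z => g z * Real.cos (N * (j * phx k z + l * phy S.u k z))) := by
  have hsub : tsupport g ⊆ tsupport ζ := by
    refine closure_mono fun z hz' => ?_
    intro h0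
    exact hz' (hz z h0)
  have hcs : HasCompactSupport g := HasCompactSupport.of_support_subset_isCompact h.ζc
    (subset_closure.trans hsub)
  have hph : ContDiff ℝ ∞ (fun z => j * phx k z + l * phy S.u k z) :=
    (contDiff_const.mul (phx_smooth k)).add (contDiff_const.mul h.phys)
  refine ⟨fun N => ?_, ?_⟩
  · have hcos : ContDiff ℝ ∞ (fun z => Real.cos (N * (j * phx k z + l * phy S.u k z))) :=
      Real.contDiff_cos.comp (contDiff_const.mul hph)
    exact (hg.mul hcos).continuous.integrable_of_hasCompactSupport hcs.mul_right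
  · have hD : ∀ v z, D v (fun z => j * phx k z + l * phy S.u k z) z
        = j * D v (phx k) z + l * D v (phy S.u k) z := by
      intro v z
      rw [D_add (contDiff_const.mul (phx_smooth k)) (contDiff_const.mul h.phys),
        D_const_mul (phx_smooth k), D_const_mul h.phys]
    by_cases hl : l = 0
    · have hj : j ≠ 0 := by
        rcases hjl with hj | hl'
        · exact hj
        · exact absurd hl hl'
      obtain ⟨i, hi⟩ : ∃ i, k i ≠ 0 := by
        by_contra hcon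
        push Not at hcon
        exact h.k0 (funext hcon)
      refine riemann_lebesgue' hg hcs hph (ev i) fun z _ => ?_
      rw [hD, hl, D_phx, zero_mul, add_zero]
      exact mul_ne_zero hj hi
    · refine riemann_lebesgue' hg hcs hph et fun z hz' => ?_
      rw [hD, Dt_phx, mul_zero, zero_add]
      refine mul_ne_zero hl ?_
      unfold phy
      rw [D_phy h.hY.smooth]
      exact (h.ζt z (hsub hz')).2.1

lemma z0x {g : X → ℝ} (hg : ContDiff ℝ ∞ g) (hz : ∀ z, ζ z = 0 → g z = 0) :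
    Z0 (fun N z => g z * Real.cos (N * phx k z)) :=
  (h.z0 hg hz 1 0 (Or.inl one_ne_zero)).congr fun N z => by ring_nf

lemma z0y {g : X → ℝ} (hg : ContDiff ℝ ∞ g) (hz : ∀ z, ζ z = 0 → g z = 0) :
    Z0 (fun N z => g z * Real.cos (N * phy S.u k z)) :=
  (h.z0 hg hz 0 1 (Or.inr one_ne_zero)).congr fun N z => by ring_nf

lemma z02x {g : X → ℝ} (hg : ContDiff ℝ ∞ g) (hz : ∀ z, ζ z = 0 → g z = 0) :
    Z0 (fun N z => g z * Real.cos (N * (2 * phx k z))) :=
  (h.z0 hg hz 2 0 (Or.inl two_ne_zero)).congr fun N z => by ring_nf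

lemma z02y {g : X → ℝ} (hg : ContDiff ℝ ∞ g) (hz : ∀ z, ζ z = 0 → g z = 0) :
    Z0 (fun N z => g z * Real.cos (N * (2 * phy S.u k z))) :=
  (h.z0 hg hz 0 2 (Or.inr two_ne_zero)).congr fun N z => by ring_nf

lemma z0xy {g : X → ℝ} (hg : ContDiff ℝ ∞ g) (hz : ∀ z, ζ z = 0 → g z = 0) :
    Z0 (fun N z => g z * Real.cos (N * (phx k z + phy S.u k z))) :=
  (h.z0 hg hz 1 1 (Or.inl one_ne_zero)).congr fun N z => by ring_nf

lemma z0θ {g : X → ℝ} (hg : ContDiff ℝ ∞ g) (hz : ∀ z, ζ z = 0 → g z = 0) :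
    Z0 (fun N z => g z * Real.cos (N * (phx k z - phy S.u k z))) :=
  (h.z0 hg hz 1 (-1) (Or.inl one_ne_zero)).congr fun N z => by ring_nf

lemma z02θ {g : X → ℝ} (hg : ContDiff ℝ ∞ g) (hz : ∀ z, ζ z = 0 → g z = 0) :
    Z0 (fun N z => g z * Real.cos (N * (2 * (phx k z - phy S.u k z)))) :=
  (h.z0 hg hz 2 (-2) (Or.inl two_ne_zero)).congr fun N z => by ring_nf

lemma z0cc {g : X → ℝ} (hg : ContDiff ℝ ∞ g) (hz : ∀ z, ζ z = 0 → g z = 0) :
    Z0 (fun N z => g z * (Real.cos (N * phx k z) * Real.cos (N * phy S.u k z))) := by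
  refine (((h.z0xy hg hz).add (h.z0θ hg hz)).const_mul (1 / 2)).congr fun N z => ?_
  have a1 : (N:ℝ) * (phx k z + phy S.u k z) = N * phx k z + N * phy S.u k z := by ring
  have a2 : (N:ℝ) * (phx k z - phy S.u k z) = N * phx k z - N * phy S.u k z := by ring
  rw [a1, a2, Real.cos_add, Real.cos_sub]
  ring

/-- the oscillating part of the bound of the size -/
lemma z0_osc (m : ℝ) : Z0 (fun N z => ζ z * (M2 S z * (- (2 * rho s (S.R1 z)
          * tau (rho s (S.R1 z)) * hh (rho s (S.R2 z))) * (pnt S k ζ m s N z).cx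
          - (2 * rho s (S.R2 z) * tau (rho s (S.R2 z)) * hh (rho s (S.R1 z)))
            * (pnt S k ζ m s N z).cy
          + (4 * rho s (S.R1 z) * rho s (S.R2 z) * tau (rho s (S.R1 z))
            * tau (rho s (S.R2 z))) * ((pnt S k ζ m s N z).cx * (pnt S k ζ m s N z).cy)
          - (tau (rho s (S.R1 z)) ^ 2 * hh (rho s (S.R2 z)) / 2) * (pnt S k ζ m s N z).c2x
          - (tau (rho s (S.R2 z)) ^ 2 * hh (rho s (S.R1 z)) / 2) * (pnt S k ζ m s N z).c2y)
        + hh (rho s (S.R1 z)) * hh (rho s (S.R2 z)) *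
          (2 * inner ℝ (pnt S k ζ m s N z).b (pnt S k ζ m s N z).G
            + 2 * inner ℝ (pnt S k ζ m s N z).g (pnt S k ζ m s N z).q))) := by
  have hg := h.good
  have hζ := h.ζs
  have hM := M2_smooth hg
  have r1 := rho_smooth hg.R1s s
  have r2 := rho_smooth (hg.R2s h.hK) s
  have t1 := tau_smooth r1
  have t2 := tau_smooth r2
  have w1 := hh_smooth r1
  have w2 := hh_smooth r2
  have hQ1 := h.Q1fs (m := m)
  have hQ2 := h.Q2fs (m := m)
  have A1 := h.z0x (g := fun z => ζ z * (M2 S z * (2 * rho s (S.R1 z)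
    * tau (rho s (S.R1 z)) * hh (rho s (S.R2 z)))))
    (hζ.mul (hM.mul (((contDiff_const.mul r1).mul t1).mul w2))) (fun z hz => by simp [hz])
  have A2 := h.z0y (g := fun z => ζ z * (M2 S z * (2 * rho s (S.R2 z)
    * tau (rho s (S.R2 z)) * hh (rho s (S.R1 z)))))
    (hζ.mul (hM.mul (((contDiff_const.mul r2).mul t2).mul w1))) (fun z hz => by simp [hz])
  have A3 := h.z0cc (g := fun z => ζ z * (M2 S z * (4 * rho s (S.R1 z) * rho s (S.R2 z)
    * tau (rho s (S.R1 z)) * tau (rho s (S.R2 z)))))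
    (hζ.mul (hM.mul ((((contDiff_const.mul r1).mul r2).mul t1).mul t2))) (fun z hz => by simp [hz])
  have A4 := h.z02x (g := fun z => ζ z * (M2 S z * (tau (rho s (S.R1 z)) ^ 2
    * hh (rho s (S.R2 z)) / 2)))
    (hζ.mul (hM.mul (((t1.pow 2).mul w2).div_const _))) (fun z hz => by simp [hz])
  have A5 := h.z02y (g := fun z => ζ z * (M2 S z * (tau (rho s (S.R2 z)) ^ 2
    * hh (rho s (S.R1 z)) / 2)))
    (hζ.mul (hM.mul (((t2.pow 2).mul w1).div_const _))) (fun z hz => by simp [hz])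
  -- the inner products
  have gl : ∀ l : Fin 5, ContDiff ℝ ∞ (fun z => ζ z * (hh (rho s (S.R1 z)) * hh (rho s (S.R2 z))
      * (2 * ∑ i, S.b i z * Af S k ζ m s l i z))) := fun l =>
    hζ.mul ((w1.mul w2).mul (contDiff_const.mul (ContDiff.sum fun i _ =>
      (hg.bs i).mul (h.Afs l i))))
  have B : ∀ l : Fin 5, Z0 (fun N z => ζ z * (hh (rho s (S.R1 z)) * hh (rho s (S.R2 z))
      * (2 * ∑ i, S.b i z * Af S k ζ m s l i z)) * Real.cos (N * Pf S k l z)) := by
    intro l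
    have hz : ∀ z, ζ z = 0 → ζ z * (hh (rho s (S.R1 z)) * hh (rho s (S.R2 z))
      * (2 * ∑ i, S.b i z * Af S k ζ m s l i z)) = 0 := fun z hz => by simp [hz]
    fin_cases l
    · exact h.z0y (gl 0) hz
    · exact h.z0x (gl 1) hz
    · exact h.z0xy (gl 2) hz
    · exact h.z02x (gl 3) hz
    · exact h.z02y (gl 4) hz
  have B' := Z0.sum (Finset.univ : Finset (Fin 5)) fun l _ => B l
  have C1 := h.z0x (g := fun z => ζ z * (hh (rho s (S.R1 z)) * hh (rho s (S.R2 z))
      * (2 * ∑ i, S.gp i z * (Q1f S k ζ m s z * k i))))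
    (hζ.mul ((w1.mul w2).mul (contDiff_const.mul (ContDiff.sum fun i _ =>
      (hg.gps i).mul (hQ1.mul contDiff_const))))) (fun z hz => by simp [hz])
  have C2 := h.z0y (g := fun z => ζ z * (hh (rho s (S.R1 z)) * hh (rho s (S.R2 z))
      * (2 * ∑ i, S.gp i z * (Q2f S k ζ m s z * kap S k i z))))
    (hζ.mul ((w1.mul w2).mul (contDiff_const.mul (ContDiff.sum fun i _ =>
      (hg.gps i).mul (hQ2.mul (h.kaps i)))))) (fun z hz => by simp [hz])
  refine (((((A3.sub A1).sub A2).sub A4).sub A5).add (B'.add (C1.add C2))).congr fun N z => ?_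
  have e1 : inner ℝ (pnt S k ζ m s N z).b (pnt S k ζ m s N z).G
      = ∑ l, (∑ i, S.b i z * Af S k ζ m s l i z) * Real.cos (N * Pf S k l z) := by
    have : inner ℝ (pnt S k ζ m s N z).b (pnt S k ζ m s N z).G
        = ∑ i, S.b i z * (pnt S k ζ m s N z).G i := by
      simp only [PiLp.inner_apply, RCLike.inner_apply, conj_trivial]
      refine Finset.sum_congr rfl fun i _ => ?_
      rw [mul_comm]
      rfl
    rw [this]
    simp only [Req.pnt_G, Finset.mul_sum, Finset.sum_mul]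
    rw [Finset.sum_comm]
    refine Finset.sum_congr rfl fun l _ => Finset.sum_congr rfl fun i _ => by ring
  have e2 : inner ℝ (pnt S k ζ m s N z).g (pnt S k ζ m s N z).q
      = (∑ i, S.gp i z * (Q1f S k ζ m s z * k i)) * Real.cos (N * phx k z)
        + (∑ i, S.gp i z * (Q2f S k ζ m s z * kap S k i z)) * Real.cos (N * phy S.u k z) := by
    have : inner ℝ (pnt S k ζ m s N z).g (pnt S k ζ m s N z).q
        = ∑ i, S.gp i z * (pnt S k ζ m s N z).q i := by
      simp only [PiLp.inner_apply, RCLike.inner_apply, conj_trivial]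
      refine Finset.sum_congr rfl fun i _ => ?_
      rw [mul_comm]
      rfl
    rw [this]
    simp only [Req.pnt_q, Finset.sum_mul]
    rw [← Finset.sum_add_distrib]
    refine Finset.sum_congr rfl fun i _ => by ring
  rw [e1, e2, Req.pnt_c2x, Req.pnt_c2y]
  have e3 : (pnt S k ζ m s N z).cx = Real.cos (N * phx k z) := rfl
  have e4 : (pnt S k ζ m s N z).cy = Real.cos (N * phy S.u k z) := rfl
  rw [e3, e4]
  have e5 : ∑ l, ζ z * (hh (rho s (S.R1 z)) * hh (rho s (S.R2 z))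
      * (2 * ∑ i, S.b i z * Af S k ζ m s l i z)) * Real.cos (N * Pf S k l z)
      = ζ z * (hh (rho s (S.R1 z)) * hh (rho s (S.R2 z))) * (2 *
        ∑ l, (∑ i, S.b i z * Af S k ζ m s l i z) * Real.cos (N * Pf S k l z)) := by
    rw [Finset.mul_sum, Finset.mul_sum]
    refine Finset.sum_congr rfl fun l _ => by ring
  rw [e5]
  ring

end Req

end

end Pool.Agent.K6.H24.MH
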