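import Pool.Agent.K6.H24.MH.Av

open scoped ContDiff
open Set MeasureTheory Filter Topology

namespace Pool.Agent.K6.H24.MH

open Pool.Agent.H729R2 (E3 X ev et D St Good lab vec phx phy slab O1 B1 nv n2 vK)
open Pool.Agent.H729R2

noncomputable section

set_option linter.unusedSectionVars false

variable {S : St} {k : Fin 3 → ℝ} {ζ : X → ℝ} {m s : ℝ} {K₀ : Set X} {T₀ : ℝ}

lemma norm_sq_sum (v : E3) : ‖v‖ ^ 2 = ∑ i, v i * v i := by
  rw [EuclideanSpace.norm_sq_eq]
  refine Finset.sum_congr rfl fun i _ => ?_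
  rw [Real.norm_eq_abs, sq_abs, sq]

lemma nv_sq_sum (F : Fin 3 → X → ℝ) (z : X) : nv F z ^ 2 = ∑ i, F i z * F i z := by
  rw [nv_sq]
  refine Finset.sum_congr rfl fun i _ => ?_
  rw [sq]

/-- a bound of a set integral against a constant -/
lemma int_ind (hK : IsCompact K₀) (c : ℝ) :
    Integrable (K₀.indicator fun _ => c) (volume : Measure X) ∧
    ∫ z, K₀.indicator (fun _ => c) z = c * (volume : Measure X).real K₀ := by
  constructor
  · exact (integrable_indicator_iff hK.measurableSet).2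
      (integrableOn_const hK.measure_lt_top.ne)
  · rw [integral_indicator_const _ hK.measurableSet, smul_eq_mul, mul_comm]

namespace Mic

variable {w : ℕ → Fin 3 → X → ℝ} {π : ℕ → X → ℝ} {C : ℝ}
variable (h : Req S k ζ s K₀ T₀) (hm : Mic S k ζ m s w π C)
include h hm

lemma M_ap : Ap K₀ (fun N z => M2 (nst S k ζ m s (w N) (π N) N) z)
    (fun N z => ‖(pnt S k ζ m s N z).b + (pnt S k ζ m s N z).G‖ ^ 2
      + ‖(pnt S k ζ m s N z).g + (pnt S k ζ m s N z).q‖ ^ 2) := by
  refine ((Ap.sum Finset.univ fun i _ => (hm.b_ap h i).mul (hm.b_ap h i)).add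
    (Ap.sum Finset.univ fun i _ => (hm.gp_ap h i).mul (hm.gp_ap h i))).congr
    (fun N _ z _ => ?_) fun N _ z _ => ?_
  · unfold M2
    rw [nv_sq_sum, nv_sq_sum]
  · rw [norm_sq_sum, norm_sq_sum]

/-- the bound of the size of the highest derivatives -/
lemma X_step {δ₁ : ℝ} (hcut : ∫ z, (1 - ζ z) * (M2 S z + Eh m s S z) ≤ δ₁) :
    ∃ (N₀ : ℕ) (C : ℝ), ∀ N : ℕ, N₀ ≤ N → 1 ≤ N →
      XX s (nst S k ζ m s (w N) (π N) N) ≤ XX s S - 4 / 10 * TT s S + 1800 * YY m s S
        + 60 * δ₁ + C / N := by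
  have hg := h.good
  have hK := h.hK
  obtain ⟨N₀, -, hgood⟩ := hm.good h
  obtain ⟨C1, hC10, hC1⟩ := ((hm.M_ap h).mul ((hm.h1_ap h).mul (hm.h2_ap h))).c
  obtain ⟨hZi, C2, hC2⟩ := h.z0_osc m
  set Z : ℕ → X → ℝ := fun N z => ζ z * (M2 S z * (- (2 * rho s (S.R1 z)
          * tau (rho s (S.R1 z)) * hh (rho s (S.R2 z))) * (pnt S k ζ m s N z).cx
          - (2 * rho s (S.R2 z) * tau (rho s (S.R2 z)) * hh (rho s (S.R1 z)))
            * (pnt S k ζ m s N z).cy
          + (4 * rho s (S.R1 z) * rho s (S.R2 z) * tau (rho s (S.R1 z))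
            * tau (rho s (S.R2 z))) * ((pnt S k ζ m s N z).cx * (pnt S k ζ m s N z).cy)
          - (tau (rho s (S.R1 z)) ^ 2 * hh (rho s (S.R2 z)) / 2) * (pnt S k ζ m s N z).c2x
          - (tau (rho s (S.R2 z)) ^ 2 * hh (rho s (S.R1 z)) / 2) * (pnt S k ζ m s N z).c2y)
        + hh (rho s (S.R1 z)) * hh (rho s (S.R2 z)) *
          (2 * inner ℝ (pnt S k ζ m s N z).b (pnt S k ζ m s N z).G
            + 2 * inner ℝ (pnt S k ζ m s N z).g (pnt S k ζ m s N z).q)) with hZ
  refine ⟨N₀, C2 + C1 * (volume : Measure X).real K₀, fun N hN hN1 => ?_⟩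
  have hg' := hgood N hN
  set S' := nst S k ζ m s (w N) (π N) N with hS'
  have hMs := (M2_smooth hg).continuous
  have hHs := (Hw_smooth (s := s) hg hK).continuous
  have hTs := (Tw_smooth (s := s) hg hK).continuous
  have hEs := (Eh_smooth (m := m) hg hK h.s0 h.s1 h.lt).continuous
  have hζc := h.ζs.continuous
  have hζ0' : ∀ z, z ∉ K₀ → ζ z = 0 := fun z hz =>
    image_eq_zero_of_notMem_tsupport fun h' => hz (h.htK h')
  -- integrability
  have i1 : Integrable (fun z => M2 S z * Hw s S z) :=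
    int0 hK (hMs.mul hHs) fun z hz => by simp [M2_zero hg hz]
  have i2 : Integrable (fun z => Tw s S z * M2 S z) :=
    int0 hK (hTs.mul hMs) fun z hz => by simp [M2_zero hg hz]
  have i3 : Integrable (fun z => Eh m s S z) :=
    int0 hK hEs fun z hz => Eh_zero hg hz
  have i4 : Integrable (fun z => (1 - ζ z) * (M2 S z + Eh m s S z)) :=
    int0 hK ((continuous_const.sub hζc).mul (hMs.add hEs)) fun z hz => by
      simp [M2_zero hg hz, Eh_zero hg hz]
  obtain ⟨i5, e5⟩ := int_ind hK (C1 / N)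
  have i6 : Integrable (fun z => M2 S' z * Hw s S' z) :=
    int0 hK ((M2_smooth hg').continuous.mul (Hw_smooth hg' hK).continuous) fun z hz => by
      simp [M2_zero hg' hz]
  -- the pointwise bound
  have hpt : ∀ z, M2 S' z * Hw s S' z ≤ M2 S z * Hw s S z - 4 / 10 * (Tw s S z * M2 S z)
      + 1800 * Eh m s S z + 60 * ((1 - ζ z) * (M2 S z + Eh m s S z)) + Z N z
      + K₀.indicator (fun _ => C1 / (N:ℝ)) z := by
    intro z
    by_cases hz : z ∈ K₀
    · have hzs := h.hKT hz
      have hok := h.pnt_ok (m := m) N hzs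
      have q1 := hC1 N hN1 z hz
      beta_reduce at q1
      have q2 := (abs_le.1 q1).2
      have q3 : M2 S' z * Hw s S' z ≤ (‖(pnt S k ζ m s N z).b + (pnt S k ζ m s N z).G‖ ^ 2
          + ‖(pnt S k ζ m s N z).g + (pnt S k ζ m s N z).q‖ ^ 2) *
          (hh (rho s (S.R1 z) + tau (rho s (S.R1 z)) * (pnt S k ζ m s N z).cx) *
            hh (rho s (S.R2 z) + tau (rho s (S.R2 z)) * (pnt S k ζ m s N z).cy)) + C1 / N := by
        have : M2 S' z * Hw s S' z = M2 (nst S k ζ m s (w N) (π N) N) z *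
          (hh (rho s ((nst S k ζ m s (w N) (π N) N).R1 z)) *
            hh (rho s ((nst S k ζ m s (w N) (π N) N).R2 z))) := rfl
        rw [this]
        have e1 : (pnt S k ζ m s N z).cx = Real.cos (N * phx k z) := rfl
        have e2 : (pnt S k ζ m s N z).cy = Real.cos (N * phy S.u k z) := rfl
        rw [e1, e2]
        linarith
      have a1 := hok.X_le h.s0 h.s1 (h.lt1 z).le (h.lt2 z).le rfl rfl
      have a2 := hok.X_crude (h.lt1 z).le (h.lt2 z).le
      have b1 : ‖(pnt S k ζ m s N z).b‖ ^ 2 + ‖(pnt S k ζ m s N z).g‖ ^ 2 = M2 S z := rfl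
      have b2 : ‖(pnt S k ζ m s N z).e‖ ^ 2 / (pnt S k ζ m s N z).W = Eh m s S z := by
        rw [Req.pnt_e]; rfl
      rw [b1, b2] at a1 a2
      rw [indicator_of_mem hz]
      set Pm := (‖(pnt S k ζ m s N z).b + (pnt S k ζ m s N z).G‖ ^ 2
          + ‖(pnt S k ζ m s N z).g + (pnt S k ζ m s N z).q‖ ^ 2) *
          (hh (rho s (S.R1 z) + tau (rho s (S.R1 z)) * (pnt S k ζ m s N z).cx) *
            hh (rho s (S.R2 z) + tau (rho s (S.R2 z)) * (pnt S k ζ m s N z).cy)) with hPm
      have z0 := h.ζ0 z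
      have z1 : 0 ≤ 1 - ζ z := by linarith [h.ζ1 z]
      have hM0 := M2_nonneg (S := S) z
      have hE0 := Eh_nonneg (m := m) (s := s) (S := S) z
      have hH1 : 1 ≤ Hw s S z := Hw_ge h.lt z
      have hTle : Tw s S z ≤ 1 := by
        have t1 := tau_le (rho s (S.R1 z))
        have t2 := tau_le (rho s (S.R2 z))
        have t3 := tau_nonneg (h.lt1 z).le
        have t4 := tau_nonneg (h.lt2 z).le
        unfold Tw
        nlinarith
      have hT0 : 0 ≤ Tw s S z := by unfold Tw; positivity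
      have c1 := mul_le_mul_of_nonneg_left a1 z0
      have c2 := mul_le_mul_of_nonneg_left a2 z1
      have c3 : Pm = ζ z * Pm + (1 - ζ z) * Pm := by ring
      have c4 : 0 ≤ (1 - ζ z) * (M2 S z * Hw s S z) := by positivity
      have c5 : (1 - ζ z) * (Tw s S z * M2 S z) ≤ (1 - ζ z) * (1 * M2 S z) :=
        mul_le_mul_of_nonneg_left (mul_le_mul_of_nonneg_right hTle hM0) z1
      have c6 : 0 ≤ (1 - ζ z) * M2 S z := by positivity
      have c7 : 0 ≤ (1 - ζ z) * Eh m s S z := by positivity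
      have c8 : Z N z = ζ z * (M2 S z * (- (2 * rho s (S.R1 z)
          * tau (rho s (S.R1 z)) * hh (rho s (S.R2 z))) * (pnt S k ζ m s N z).cx
          - (2 * rho s (S.R2 z) * tau (rho s (S.R2 z)) * hh (rho s (S.R1 z)))
            * (pnt S k ζ m s N z).cy
          + (4 * rho s (S.R1 z) * rho s (S.R2 z) * tau (rho s (S.R1 z))
            * tau (rho s (S.R2 z))) * ((pnt S k ζ m s N z).cx * (pnt S k ζ m s N z).cy)
          - (tau (rho s (S.R1 z)) ^ 2 * hh (rho s (S.R2 z)) / 2) * (pnt S k ζ m s N z).c2x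
          - (tau (rho s (S.R2 z)) ^ 2 * hh (rho s (S.R1 z)) / 2) * (pnt S k ζ m s N z).c2y)
        + hh (rho s (S.R1 z)) * hh (rho s (S.R2 z)) *
          (2 * inner ℝ (pnt S k ζ m s N z).b (pnt S k ζ m s N z).G
            + 2 * inner ℝ (pnt S k ζ m s N z).g (pnt S k ζ m s N z).q)) := rfl
      rw [c8]
      have c9 : hh (rho s (S.R1 z)) * hh (rho s (S.R2 z)) = Hw s S z := rfl
      have c10 : tau (rho s (S.R1 z)) ^ 2 + tau (rho s (S.R2 z)) ^ 2 = Tw s S z := rfl
      rw [c9] at c1 ⊢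
      rw [c10] at c1
      linarith
    · have e1 : M2 S' z = 0 := M2_zero hg' hz
      have e2 : M2 S z = 0 := M2_zero hg hz
      have e3 : Eh m s S z = 0 := Eh_zero hg hz
      have e4 : ζ z = 0 := hζ0' z hz
      have e5 : Z N z = 0 := by simp only [hZ, e4, zero_mul]
      rw [e1, e2, e3, e5, indicator_of_notMem hz]
      simp
  have iA : Integrable (fun z => M2 S z * Hw s S z - 4 / 10 * (Tw s S z * M2 S z)) :=
    i1.sub (i2.const_mul _)
  have iB : Integrable (fun z => M2 S z * Hw s S z - 4 / 10 * (Tw s S z * M2 S z)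
      + 1800 * Eh m s S z) := iA.add (i3.const_mul _)
  have iC : Integrable (fun z => M2 S z * Hw s S z - 4 / 10 * (Tw s S z * M2 S z)
      + 1800 * Eh m s S z + 60 * ((1 - ζ z) * (M2 S z + Eh m s S z))) := iB.add (i4.const_mul _)
  have iD : Integrable (fun z => M2 S z * Hw s S z - 4 / 10 * (Tw s S z * M2 S z)
      + 1800 * Eh m s S z + 60 * ((1 - ζ z) * (M2 S z + Eh m s S z)) + Z N z) := iC.add (hZi N)
  have hint := integral_mono i6 (iD.add i5) hpt
  have e : ∫ z, (M2 S z * Hw s S z - 4 / 10 * (Tw s S z * M2 S z)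
      + 1800 * Eh m s S z + 60 * ((1 - ζ z) * (M2 S z + Eh m s S z)) + Z N z
      + K₀.indicator (fun _ => C1 / (N:ℝ)) z)
      = XX s S - 4 / 10 * TT s S + 1800 * YY m s S
        + 60 * (∫ z, (1 - ζ z) * (M2 S z + Eh m s S z)) + (∫ z, Z N z)
        + C1 / N * (volume : Measure X).real K₀ := by
    rw [integral_add iD i5, integral_add iC (hZi N), integral_add iB (i4.const_mul _),
      integral_add iA (i3.const_mul _), integral_sub i1 (i2.const_mul _), integral_const_mul,
      integral_const_mul, integral_const_mul, e5]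
    rfl
  have hint' : XX s S' ≤ XX s S - 4 / 10 * TT s S + 1800 * YY m s S
        + 60 * (∫ z, (1 - ζ z) * (M2 S z + Eh m s S z)) + (∫ z, Z N z)
        + C1 / N * (volume : Measure X).real K₀ := by
    rw [← e]
    exact hint
  have hz := (abs_le.1 (hC2 N hN1)).2
  have e7 : (C2 + C1 * (volume : Measure X).real K₀) / N
      = C2 / N + C1 / N * (volume : Measure X).real K₀ := by ring
  rw [e7]
  linarith

end Mic

end

end Pool.Agent.K6.H24.MH
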