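import Pool.Agent.K6.H24.MH.Av2

open scoped ContDiff
open Set MeasureTheory Filter Topology

namespace Pool.Agent.K6.H24.MH

open Pool.Agent.H729R2 (E3 X ev et D St Good lab vec phx phy slab O1 B1 nv n2 vK)
open Pool.Agent.H729R2

noncomputable section

set_option linter.unusedSectionVars false

variable {S : St} {k : Fin 3 → ℝ} {ζ : X → ℝ} {m s : ℝ} {K₀ : Set X} {T₀ : ℝ}

/-- lower bound for the new amplitude -/
lemma alf_new {s r r' ρ c : ℝ} (hs : 0 < s) (hs1 : s ≤ 1 / 10000) (hρ : |rho s r| < 1)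
    (hρd : ρ = rho s r) (hc : |c| ≤ 1) (hr' : |rho s r'| < 1)
    (h1 : |r' - r * (1 + alf s r * c)| ≤ 1 / 100000)
    (h2 : |r' - r * (1 + alf s r * c)| ≤ 1 / 4 * (s * tau (rho s r))) :
    996 / 1000 * alf s r ≤ alf s r' := by
  subst hρd
  obtain ⟨ra, rb⟩ := r_bounds hs hs1 hρ
  obtain ⟨ra', rb'⟩ := r_bounds hs hs1 hr'
  have hr0 : r ≠ 0 := by linarith
  have ha0 := alf_pos hs hs1 hρ
  have ha1 := alf_le hs hs1 hρ
  have ht0 := tau_pos hρ
  set rt := r * (1 + alf s r * c) with hrt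
  have e1 : rho s rt = rho s r + tau (rho s r) * c := rho_new hs hr0
  have e2 : |rho s rt| < 1 := by rw [e1]; exact rho_new_lt hρ hc
  have e3 : 997 / 1000 * tau (rho s r) ≤ tau (rho s rt) := by
    rw [e1]; exact tau_new hρ.le hc
  have e4 := amp_lip hs hr'.le e2.le
  have e5 := (abs_le.1 e4).1
  have e6 : s * (997 / 1000 * tau (rho s r)) ≤ s * tau (rho s rt) :=
    mul_le_mul_of_nonneg_left e3 hs.le
  -- numerator
  have e7 : 9965 / 10000 * (s * tau (rho s r)) ≤ s * tau (rho s r') := by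
    have : 1 / 500 * |r' - rt| ≤ 1 / 500 * (1 / 4 * (s * tau (rho s r))) := by linarith
    linarith
  -- denominator
  have e8 : r' ≤ 10001 / 10000 * r := by
    have f1 : rt ≤ r * (1 + 1 / 100000) := by
      rw [hrt]
      refine mul_le_mul_of_nonneg_left ?_ (by linarith)
      have : alf s r * c ≤ 1 / 100000 * 1 := by
        have f2 : alf s r * c ≤ |alf s r * c| := le_abs_self _
        rw [abs_mul, abs_of_pos ha0] at f2
        exact f2.trans (mul_le_mul ha1 hc (abs_nonneg _) (by norm_num))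
      linarith
    have f3 := (abs_le.1 h1).2
    linarith
  have hrp : 0 < r := by linarith
  have hrp' : 0 < r' := by linarith
  unfold alf
  rw [mul_div_assoc', div_le_div_iff₀ hrp hrp']
  have hst : 0 < s * tau (rho s r) := by positivity
  calc 996 / 1000 * (s * tau (rho s r)) * r'
      ≤ 996 / 1000 * (s * tau (rho s r)) * (10001 / 10000 * r) :=
        mul_le_mul_of_nonneg_left e8 (by positivity)
    _ ≤ 9965 / 10000 * (s * tau (rho s r)) * r := by nlinarith [mul_pos hst hrp]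
    _ ≤ s * tau (rho s r') * r := mul_le_mul_of_nonneg_right e7 hrp.le

/-- `W` is small -/
lemma Wf_le (hs : 0 < s) (hs1 : s ≤ 1 / 10000) (hlt : ∀ x, |rho s (S.r x)| < 1) (z : X) :
    Wf S s z ≤ 11 / 1000000000 * Tw s S z := by
  have hs2 : s ^ 2 ≤ 1 / 100000000 := by
    have := pow_le_pow_left₀ hs.le hs1 2
    norm_num at this ⊢
    linarith
  have key : ∀ {r : ℝ}, |rho s r| < 1 → alf s r ^ 2 ≤ 11 / 1000000000 * tau (rho s r) ^ 2 := by
    intro r hr
    have hR := (r_bounds hs hs1 hr).1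
    have hRp : 0 < r := by linarith
    unfold alf
    rw [div_pow, div_le_iff₀ (by positivity), mul_pow]
    have h1 : (9998 / 10000 : ℝ) ≤ r ^ 2 := by nlinarith
    have h0 : 0 ≤ tau (rho s r) ^ 2 := by positivity
    have h2 : s ^ 2 * tau (rho s r) ^ 2 ≤ 1 / 100000000 * tau (rho s r) ^ 2 :=
      mul_le_mul_of_nonneg_right hs2 h0
    have h3 : 9998 / 10000 * tau (rho s r) ^ 2 ≤ r ^ 2 * tau (rho s r) ^ 2 :=
      mul_le_mul_of_nonneg_right h1 h0
    nlinarith
  have k1 := key (hlt z.2)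
  have k2 := key (hlt (vec fun i => lab S.u i z))
  have e1 : Wf S s z = alf s (S.r z.2) ^ 2 + alf s (S.r (vec fun i => lab S.u i z)) ^ 2 := rfl
  have e2 : Tw s S z = tau (rho s (S.r z.2)) ^ 2
    + tau (rho s (S.r (vec fun i => lab S.u i z))) ^ 2 := rfl
  rw [e1, e2]
  linarith

namespace Req

variable (h : Req S k ζ s K₀ T₀)
include h

/-- normalised second projection -/
def gy (_h : Req S k ζ s K₀ T₀) (m : ℝ) (z : X) : ℝ := ζ z * s2f S k m z / nk S k z
def v0f (_h : Req S k ζ s K₀ T₀) (m : ℝ) (i : Fin 3) (z : X) : ℝ :=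
  em S m i z - 1 / 2 * (am1 S s z ^ 2 / Wf S s z) * (ζ z * s1f S k m z / ∑ i, k i ^ 2) * k i
    - 1 / 2 * (am2 S s z ^ 2 / Wf S s z) * (ζ z * s2f S k m z / nk S k z) * kap S k i z
def v1f (_h : Req S k ζ s K₀ T₀) (m : ℝ) (i : Fin 3) (z : X) : ℝ :=
  1 / 2 * (am1 S s z * am2 S s z / Wf S s z) * (ζ z * s1f S k m z / ∑ i, k i ^ 2) * k i
    + 1 / 2 * (am1 S s z * am2 S s z / Wf S s z) * (ζ z * s2f S k m z / nk S k z) * kap S k i z

lemma gys : ContDiff ℝ ∞ (fun z => ζ z * s2f S k m z / nk S k z) := by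
  refine contDiff_div_of_tsupport (h.ζs.mul h.s2fs) h.nks fun z hz => ?_
  have hz' : z ∈ tsupport ζ := by
    refine closure_mono (fun y hy => ?_) hz
    intro h0
    exact hy (by simp [h0])
  exact (h.nk_pos (h.hKT (h.htK hz'))).ne'

lemma v0s (i : Fin 3) : ContDiff ℝ ∞ (h.v0f m i) := by
  have hW := fun z => (h.Wfpos z).ne'
  exact ((h.ems i).sub (((contDiff_const.mul ((h.am1s.pow 2).div h.Wfs hW)).mul
    ((h.ζs.mul h.s1fs).div_const _)).mul contDiff_const)).sub
    (((contDiff_const.mul ((h.am2s.pow 2).div h.Wfs hW)).mul h.gys).mul (h.kaps i))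

lemma v1s (i : Fin 3) : ContDiff ℝ ∞ (h.v1f m i) := by
  have hW := fun z => (h.Wfpos z).ne'
  exact (((contDiff_const.mul ((h.am1s.mul h.am2s).div h.Wfs hW)).mul
    ((h.ζs.mul h.s1fs).div_const _)).mul contDiff_const).add
    (((contDiff_const.mul ((h.am1s.mul h.am2s).div h.Wfs hW)).mul h.gys).mul (h.kaps i))

lemma v1z (i : Fin 3) {z : X} (hz : ζ z = 0) : h.v1f m i z = 0 := by
  simp [v1f, hz]

lemma pnt_v0 (N : ℕ) (z : X) (i : Fin 3) : (pnt S k ζ m s N z).v0 i = h.v0f m i z := by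
  have e1 := pnt_s1 (S := S) (k := k) (ζ := ζ) (m := m) (s := s) N z
  have e2 := pnt_s2 (S := S) (k := k) (ζ := ζ) (m := m) (s := s) N z
  have e3 := pnt_n1 (S := S) (k := k) (ζ := ζ) (m := m) (s := s) N z
  have e4 := pnt_n2 (S := S) (k := k) (ζ := ζ) (m := m) (s := s) N z
  have e5 := pnt_W (S := S) (k := k) (ζ := ζ) (m := m) (s := s) N z
  have e6 := pnt_e (S := S) (k := k) (ζ := ζ) (m := m) (s := s) N z
  unfold Pt.v0 Pt.x Pt.y
  rw [e1, e2, e3, e4, e5, e6]
  simp only [PiLp.sub_apply, PiLp.smul_apply, smul_eq_mul, vec_apply]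
  unfold v0f
  have e7 : (pnt S k ζ m s N z).ζ = ζ z := rfl
  have e8 : (pnt S k ζ m s N z).a1 = am1 S s z := rfl
  have e9 : (pnt S k ζ m s N z).a2 = am2 S s z := rfl
  have e10 : (pnt S k ζ m s N z).k i = k i := rfl
  have e11 : (pnt S k ζ m s N z).κ i = kap S k i z := rfl
  rw [e7, e8, e9, e10, e11]
  ring

lemma pnt_v1 (N : ℕ) (z : X) (i : Fin 3) : (pnt S k ζ m s N z).v1 i = h.v1f m i z := by
  have e1 := pnt_s1 (S := S) (k := k) (ζ := ζ) (m := m) (s := s) N z
  have e2 := pnt_s2 (S := S) (k := k) (ζ := ζ) (m := m) (s := s) N z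
  have e3 := pnt_n1 (S := S) (k := k) (ζ := ζ) (m := m) (s := s) N z
  have e4 := pnt_n2 (S := S) (k := k) (ζ := ζ) (m := m) (s := s) N z
  have e5 := pnt_W (S := S) (k := k) (ζ := ζ) (m := m) (s := s) N z
  unfold Pt.v1 Pt.x Pt.y
  rw [e1, e2, e3, e4, e5]
  simp only [PiLp.add_apply, PiLp.smul_apply, smul_eq_mul]
  unfold v1f
  have e7 : (pnt S k ζ m s N z).ζ = ζ z := rfl
  have e8 : (pnt S k ζ m s N z).a1 = am1 S s z := rfl
  have e9 : (pnt S k ζ m s N z).a2 = am2 S s z := rfl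
  have e10 : (pnt S k ζ m s N z).k i = k i := rfl
  have e11 : (pnt S k ζ m s N z).κ i = kap S k i z := rfl
  rw [e7, e8, e9, e10, e11]
  ring

/-- the oscillating part of the square of the main part of the new error -/
def zm (_h : Req S k ζ s K₀ T₀) (m : ℝ) (N : ℕ) (z : X) : ℝ :=
  (2 * ∑ i, _h.v0f m i z * _h.v1f m i z) / Wf S s z * Real.cos (N * (phx k z - phy S.u k z))
    + (1 / 2 * ∑ i, _h.v1f m i z * _h.v1f m i z) / Wf S s z *
      Real.cos (N * (2 * (phx k z - phy S.u k z)))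

lemma z0_m (m : ℝ) : Z0 (h.zm m) := by
  have hW := fun z => (h.Wfpos z).ne'
  refine (h.z0θ (g := fun z => (2 * ∑ i, h.v0f m i z * h.v1f m i z) / Wf S s z)
    ((contDiff_const.mul (ContDiff.sum fun i _ => (h.v0s i).mul (h.v1s i))).div h.Wfs hW)
    (fun z hz => ?_)).add (h.z02θ (g := fun z => (1 / 2 * ∑ i, h.v1f m i z * h.v1f m i z)
      / Wf S s z) ((contDiff_const.mul (ContDiff.sum fun i _ => (h.v1s i).mul (h.v1s i))).div
        h.Wfs hW) (fun z hz => ?_))
  · simp [h.v1z _ hz]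
  · simp [h.v1z _ hz]

/-- the square of the main part of the new error -/
lemma m_eq (N : ℕ) (z : X) : ‖(pnt S k ζ m s N z).m‖ ^ 2 / Wf S s z
    = (‖(pnt S k ζ m s N z).v0‖ ^ 2 + ‖(pnt S k ζ m s N z).v1‖ ^ 2 / 2) / Wf S s z
      + h.zm m N z := by
  have e1 := pnt_cθ (S := S) (k := k) (ζ := ζ) (m := m) (s := s) N z
  have e2 : inner ℝ (pnt S k ζ m s N z).v0 (pnt S k ζ m s N z).v1
      = ∑ i, h.v0f m i z * h.v1f m i z := by
    simp only [PiLp.inner_apply, RCLike.inner_apply, conj_trivial]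
    refine Finset.sum_congr rfl fun i _ => ?_
    rw [h.pnt_v0, h.pnt_v1, mul_comm]
  have e3 : ‖(pnt S k ζ m s N z).v1‖ ^ 2 = ∑ i, h.v1f m i z * h.v1f m i z := by
    rw [norm_sq_sum]
    refine Finset.sum_congr rfl fun i _ => ?_
    rw [h.pnt_v1]
  have e4 : Real.cos (N * (2 * (phx k z - phy S.u k z)))
      = 2 * Real.cos (N * (phx k z - phy S.u k z)) ^ 2 - 1 := by
    rw [← Real.cos_two_mul]
    congr 1
    ring
  rw [Pt.Ok.m_sq, e1, e2, e3]
  unfold zm
  rw [e4]
  ring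

end Req

namespace Mic

variable {w : ℕ → Fin 3 → X → ℝ} {π : ℕ → X → ℝ} {C : ℝ}
variable (h : Req S k ζ s K₀ T₀) (hm : Mic S k ζ m s w π C)
include h hm

lemma W_new : ∃ N₀ : ℕ, ∀ N ≥ N₀, ∀ z ∈ K₀,
    991 / 1000 * Wf S s z ≤ Wf (nst S k ζ m s (w N) (π N) N) s z := by
  have hc : ContinuousOn (fun z => s * tau (rho s (S.R2 z))) K₀ :=
    (contDiff_const.mul (tau_smooth (rho_smooth (h.good.R2s h.hK) s))).continuous.continuousOn
      (f := fun z => s * tau (rho s (S.R2 z)))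
  obtain ⟨c, hc0, hc⟩ : ∃ c : ℝ, 0 < c ∧ ∀ z ∈ K₀, c ≤ s * tau (rho s (S.R2 z)) := by
    rcases K₀.eq_empty_or_nonempty with he | hne
    · exact ⟨1, one_pos, fun z hz => by rw [he] at hz; exact absurd hz (notMem_empty z)⟩
    · obtain ⟨z₀, hz₀, hmin⟩ := IsCompact.exists_isMinOn h.hK hne hc
      exact ⟨_, mul_pos h.s0 (tau_pos (h.lt2 z₀)), fun z hz => hmin hz⟩
  obtain ⟨N₀, hN1, hN₀⟩ := (hm.R2_close h).small (η := min (1 / 100000) (1 / 4 * c))
    (lt_min (by norm_num) (by positivity))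
  refine ⟨N₀, fun N hN z hz => ?_⟩
  have h1 := hN₀ N hN z (h.hKT hz)
  have hc1 := hc z hz
  have a1 : 996 / 1000 * am1 S s z ≤ am1 (nst S k ζ m s (w N) (π N) N) s z := by
    refine alf_new (c := Real.cos (N * phx k z)) h.s0 h.s1 (h.lt1 z) rfl
      (Real.abs_cos_le_one _) (hm.rho_lt h N _) ?_ ?_
    · have : (nst S k ζ m s (w N) (π N) N).R1 z
          - S.R1 z * (1 + alf s (S.R1 z) * Real.cos (N * phx k z)) = 0 := sub_self _
      rw [this, abs_zero]
      norm_num
    · have : (nst S k ζ m s (w N) (π N) N).R1 z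
          - S.R1 z * (1 + alf s (S.R1 z) * Real.cos (N * phx k z)) = 0 := sub_self _
      rw [this, abs_zero]
      have := tau_pos (h.lt1 z)
      have := h.s0
      positivity
  have a2 : 996 / 1000 * am2 S s z ≤ am2 (nst S k ζ m s (w N) (π N) N) s z := by
    refine alf_new (c := Real.cos (N * phy S.u k z)) h.s0 h.s1 (h.lt2 z) rfl
      (Real.abs_cos_le_one _) (hm.rho_lt h N _) ?_ ?_
    · exact h1.trans (min_le_left _ _)
    · exact (h1.trans (min_le_right _ _)).trans (by linarith)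
  have p1 := h.am1pos z
  have p2 := h.am2pos z
  have b1 := pow_le_pow_left₀ (by positivity) a1 2
  have b2 := pow_le_pow_left₀ (by positivity) a2 2
  unfold Wf
  nlinarith [sq_nonneg (am1 S s z), sq_nonneg (am2 S s z)]

lemma E_ap : Ap K₀ (fun N z => nv (em (nst S k ζ m s (w N) (π N) N) m) z ^ 2 * (1 / Wf S s z))
    (fun N z => ‖(pnt S k ζ m s N z).et'‖ ^ 2 * (1 / Wf S s z)) := by
  have hW : Continuous fun z => 1 / Wf S s z :=
    (contDiff_const.div h.Wfs fun z => (h.Wfpos z).ne').continuous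
  refine ((Ap.sum Finset.univ fun i _ => (hm.e_ap h i).mul (hm.e_ap h i)).mul
    (Ap.const h.hK hW)).congr (fun N _ z _ => ?_) fun N _ z _ => ?_
  · rw [nv_sq_sum]
  · rw [norm_sq_sum]

/-- the bound of the error -/
lemma Y_step {δ₁ : ℝ} (hcut : ∫ z, (1 - ζ z) * (M2 S z + Eh m s S z) ≤ δ₁)
    (hdir : 1 / 4 * YY m s S ≤ ∫ z, s1f S k m z ^ 2 / ((∑ i, k i ^ 2) * Wf S s z)) :
    ∃ (N₀ : ℕ) (C : ℝ), ∀ N : ℕ, N₀ ≤ N → 1 ≤ N →
      YY m s (nst S k ζ m s (w N) (π N) N) ≤ 94 / 100 * YY m s S + 1 / 1000000 * TT s S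
        + 100 * δ₁ + C / N := by
  have hg := h.good
  have hK := h.hK
  obtain ⟨N₀, -, hgood⟩ := hm.good h
  obtain ⟨N₁, hN₁⟩ := hm.W_new h
  obtain ⟨C1, hC10, hC1⟩ := (hm.E_ap h).c
  obtain ⟨hZi, C2, hC2⟩ := h.z0_m m
  refine ⟨N₀ + N₁, 2 * |C2| + 2 * (C1 * (volume : Measure X).real K₀), fun N hN hN1 => ?_⟩
  have hg' := hgood N (by omega)
  have hW' := hN₁ N (by omega)
  set S' := nst S k ζ m s (w N) (π N) N with hS'
  have hlt' : ∀ x, |rho s (S'.r x)| < 1 := hm.rho_lt h N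
  have hMs := (M2_smooth hg).continuous
  have hTs := (Tw_smooth (s := s) hg hK).continuous
  have hEs := (Eh_smooth (m := m) hg hK h.s0 h.s1 h.lt).continuous
  have hζc := h.ζs.continuous
  -- integrability
  have i2 : Integrable (fun z => Tw s S z * M2 S z) :=
    int0 hK (hTs.mul hMs) fun z hz => by simp [M2_zero hg hz]
  have i3 : Integrable (fun z => Eh m s S z) :=
    int0 hK hEs fun z hz => Eh_zero hg hz
  have i4 : Integrable (fun z => (1 - ζ z) * (M2 S z + Eh m s S z)) :=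
    int0 hK ((continuous_const.sub hζc).mul (hMs.add hEs)) fun z hz => by
      simp [M2_zero hg hz, Eh_zero hg hz]
  obtain ⟨i5, e5⟩ := int_ind hK (C1 / N)
  have i6 : Integrable (fun z => Eh m s S' z) :=
    int0 hK (Eh_smooth hg' hK h.s0 h.s1 hlt').continuous fun z hz => Eh_zero hg' hz
  have hs1z : ∀ z, z ∉ K₀ → s1f S k m z = 0 := fun z hz =>
    Finset.sum_eq_zero fun i _ => by rw [h.em_zero hz, zero_mul]
  have i7 : Integrable (fun z => s1f S k m z ^ 2 / ((∑ i, k i ^ 2) * Wf S s z)) := by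
    refine int0 hK ?_ fun z hz => by simp [hs1z z hz]
    exact ((h.s1fs.pow 2).div (contDiff_const.mul h.Wfs) fun z =>
      mul_ne_zero h.n0 (h.Wfpos z).ne').continuous
  -- the pointwise bound
  have hpt : ∀ z, Eh m s S' z ≤ 1000 / 991 * (21 / 20 * (1007 / 1000 * Eh m s S z
      - 1 / 2 * (s1f S k m z ^ 2 / ((∑ i, k i ^ 2) * Wf S s z)) + h.zm m N z)
      + 84 * (11 / 1000000000 * (Tw s S z * M2 S z)) + 1 / 10000000 * Eh m s S z
      + 85 * ((1 - ζ z) * (M2 S z + Eh m s S z)) + K₀.indicator (fun _ => C1 / (N:ℝ)) z) := by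
    intro z
    by_cases hz : z ∈ K₀
    · have hzs := h.hKT hz
      have hok := h.pnt_ok (m := m) N hzs
      have hWp := h.Wfpos z
      have hWl := Wf_le h.s0 h.s1 h.lt z
      have hM0 := M2_nonneg (S := S) z
      have hE0 := Eh_nonneg (m := m) (s := s) (S := S) z
      have z0 := h.ζ0 z
      have z1 : 0 ≤ 1 - ζ z := by linarith [h.ζ1 z]
      have q1 := (abs_le.1 (hC1 N hN1 z hz)).2
      beta_reduce at q1
      -- first: compare the denominators
      have a0 : Eh m s S' z ≤ 1000 / 991 * (nv (em S' m) z ^ 2 * (1 / Wf S s z)) := by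
        have hW2 := hW' z hz
        have hW3 : 0 < Wf S' s z := Wf_pos h.s0 h.s1 hlt' z
        unfold Eh
        rw [div_le_iff₀ hW3]
        have : 1000 / 991 * (nv (em S' m) z ^ 2 * (1 / Wf S s z)) * Wf S' s z
            = nv (em S' m) z ^ 2 * (1000 / 991 * Wf S' s z / Wf S s z) := by ring
        rw [this]
        have h1 : 1 ≤ 1000 / 991 * Wf S' s z / Wf S s z := by
          rw [le_div_iff₀ hWp]; linarith
        have := mul_le_mul_of_nonneg_left h1 (sq_nonneg (nv (em S' m) z))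
        linarith
      -- second: the model error
      have a1 : ‖(pnt S k ζ m s N z).et'‖ ^ 2 ≤ 21 / 20 * ‖(pnt S k ζ m s N z).m‖ ^ 2
          + 21 * ‖(pnt S k ζ m s N z).et' - (pnt S k ζ m s N z).m‖ ^ 2 := by
        have h1 := norm_add_le (pnt S k ζ m s N z).m
          ((pnt S k ζ m s N z).et' - (pnt S k ζ m s N z).m)
        rw [add_sub_cancel] at h1
        have h2 := pow_le_pow_left₀ (norm_nonneg _) h1 2
        have h3 := two_mul_young ‖(pnt S k ζ m s N z).m‖
          ‖(pnt S k ζ m s N z).et' - (pnt S k ζ m s N z).m‖ (μ := 1 / 20) (by norm_num)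
        have h4 : ‖(pnt S k ζ m s N z).et' - (pnt S k ζ m s N z).m‖ ^ 2 / (1 / 20)
            = 20 * ‖(pnt S k ζ m s N z).et' - (pnt S k ζ m s N z).m‖ ^ 2 := by ring
        rw [h4] at h3
        have h5 : (‖(pnt S k ζ m s N z).m‖
            + ‖(pnt S k ζ m s N z).et' - (pnt S k ζ m s N z).m‖) ^ 2
            = ‖(pnt S k ζ m s N z).m‖ ^ 2 + 2 * (‖(pnt S k ζ m s N z).m‖ *
              ‖(pnt S k ζ m s N z).et' - (pnt S k ζ m s N z).m‖)
              + ‖(pnt S k ζ m s N z).et' - (pnt S k ζ m s N z).m‖ ^ 2 := by ring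
        rw [h5] at h2
        linarith
      have b1 : ‖(pnt S k ζ m s N z).b‖ ^ 2 + ‖(pnt S k ζ m s N z).g‖ ^ 2 = M2 S z := rfl
      have b2 : ‖(pnt S k ζ m s N z).e‖ ^ 2 = nv (em S m) z ^ 2 := by
        rw [Req.pnt_e]; rfl
      have b3 : (pnt S k ζ m s N z).W = Wf S s z := rfl
      have b4 : (pnt S k ζ m s N z).ζ = ζ z := rfl
      have b5 : nv (em S m) z ^ 2 = Wf S s z * Eh m s S z := by
        unfold Eh; field_simp
      have a2 := hok.err_sq
      rw [b1, b2, b3, b4] at a2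
      have a3 : ‖(pnt S k ζ m s N z).et' - (pnt S k ζ m s N z).m‖ ^ 2 * (1 / Wf S s z)
          ≤ 4 * ((1 - ζ z) * M2 S z) + 4 * (Wf S s z * M2 S z) + 4 * nv (em S m) z ^ 2 := by
        rw [mul_one_div, div_le_iff₀ hWp]
        linarith
      have a4 := hok.avg'
      rw [b2, b4, Req.pnt_s1, Req.pnt_n1] at a4
      have a5 := h.m_eq (m := m) N z
      have a6 : (‖(pnt S k ζ m s N z).v0‖ ^ 2 + ‖(pnt S k ζ m s N z).v1‖ ^ 2 / 2) / Wf S s z
          ≤ 1007 / 1000 * Eh m s S z - ζ z / 2 * (s1f S k m z ^ 2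
            / ((∑ i, k i ^ 2) * Wf S s z)) := by
        rw [div_le_iff₀ hWp]
        have e1 : (1007 / 1000 * Eh m s S z - ζ z / 2 * (s1f S k m z ^ 2
            / ((∑ i, k i ^ 2) * Wf S s z))) * Wf S s z
            = 1007 / 1000 * (Wf S s z * Eh m s S z)
              - ζ z / 2 * (s1f S k m z ^ 2 / (∑ i, k i ^ 2)) := by
          have := h.n0
          field_simp
        rw [e1, ← b5]
        linarith
      -- the projection is bounded by the error
      have a7 : s1f S k m z ^ 2 / ((∑ i, k i ^ 2) * Wf S s z) ≤ Eh m s S z := by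
        have hn := h.npos
        rw [div_le_iff₀ (by positivity)]
        have e1 : Eh m s S z * ((∑ i, k i ^ 2) * Wf S s z)
            = (∑ i, em S m i z ^ 2) * ∑ i, k i ^ 2 := by
          have e2 : Eh m s S z * ((∑ i, k i ^ 2) * Wf S s z)
            = (Wf S s z * Eh m s S z) * ∑ i, k i ^ 2 := by ring
          rw [e2, ← b5, nv_sq]
        rw [e1]
        exact Finset.sum_mul_sq_le_sq_mul_sq _ _ _
      set P := s1f S k m z ^ 2 / ((∑ i, k i ^ 2) * Wf S s z) with hP
      have hP0 : 0 ≤ P := by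
        have hn := h.npos
        positivity
      have a8 : (1 - ζ z) * P ≤ (1 - ζ z) * Eh m s S z := mul_le_mul_of_nonneg_left a7 z1
      have hWsm : Wf S s z ≤ 1 / 1000000000 := hok.Wle
      have a9 : Wf S s z * Eh m s S z ≤ 1 / 1000000000 * Eh m s S z :=
        mul_le_mul_of_nonneg_right hWsm hE0
      have a10 : Wf S s z * M2 S z ≤ 11 / 1000000000 * (Tw s S z * M2 S z) := by
        have := mul_le_mul_of_nonneg_right hWl hM0
        linarith
      rw [indicator_of_mem hz]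
      refine a0.trans (mul_le_mul_of_nonneg_left ?_ (by norm_num))
      have c1 : nv (em S' m) z ^ 2 * (1 / Wf S s z)
          ≤ ‖(pnt S k ζ m s N z).et'‖ ^ 2 * (1 / Wf S s z) + C1 / N := by
        have : nv (em S' m) z ^ 2 * (1 / Wf S s z)
          = nv (em (nst S k ζ m s (w N) (π N) N) m) z ^ 2 * (1 / Wf S s z) := rfl
        linarith
      have c2 := mul_le_mul_of_nonneg_right a1 (by positivity : 0 ≤ 1 / Wf S s z)
      have c3 : (21 / 20 * ‖(pnt S k ζ m s N z).m‖ ^ 2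
          + 21 * ‖(pnt S k ζ m s N z).et' - (pnt S k ζ m s N z).m‖ ^ 2) * (1 / Wf S s z)
          = 21 / 20 * (‖(pnt S k ζ m s N z).m‖ ^ 2 / Wf S s z)
            + 21 * (‖(pnt S k ζ m s N z).et' - (pnt S k ζ m s N z).m‖ ^ 2
              * (1 / Wf S s z)) := by ring
      rw [c3, a5] at c2
      have c4 : 0 ≤ (1 - ζ z) * M2 S z := by positivity
      have c5 : 0 ≤ (1 - ζ z) * Eh m s S z := by positivity
      rw [b5] at a3
      have c6 : ζ z / 2 * P = 1 / 2 * P - 1 / 2 * ((1 - ζ z) * P) := by ring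
      rw [c6] at a6
      linarith
    · have e1 : Eh m s S' z = 0 := Eh_zero hg' hz
      have e2 : M2 S z = 0 := M2_zero hg hz
      have e3 : Eh m s S z = 0 := Eh_zero hg hz
      have e4 : ζ z = 0 := image_eq_zero_of_notMem_tsupport fun h' => hz (h.htK h')
      have e5 : h.zm m N z = 0 := by
        unfold Req.zm
        simp [h.v1z _ e4]
      rw [e1, e2, e3, e5, hs1z z hz, indicator_of_notMem hz]
      simp
  -- integrate
  have hZi := hZi N
  have iA : Integrable (fun z => 1007 / 1000 * Eh m s S z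
      - 1 / 2 * (s1f S k m z ^ 2 / ((∑ i, k i ^ 2) * Wf S s z))) :=
    (i3.const_mul _).sub (i7.const_mul _)
  have iB : Integrable (fun z => 1007 / 1000 * Eh m s S z
      - 1 / 2 * (s1f S k m z ^ 2 / ((∑ i, k i ^ 2) * Wf S s z)) + h.zm m N z) := iA.add hZi
  have iC : Integrable (fun z => 21 / 20 * (1007 / 1000 * Eh m s S z
      - 1 / 2 * (s1f S k m z ^ 2 / ((∑ i, k i ^ 2) * Wf S s z)) + h.zm m N z)
      + 84 * (11 / 1000000000 * (Tw s S z * M2 S z))) :=
    (iB.const_mul _).add ((i2.const_mul _).const_mul _)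
  have iD : Integrable (fun z => 21 / 20 * (1007 / 1000 * Eh m s S z
      - 1 / 2 * (s1f S k m z ^ 2 / ((∑ i, k i ^ 2) * Wf S s z)) + h.zm m N z)
      + 84 * (11 / 1000000000 * (Tw s S z * M2 S z)) + 1 / 10000000 * Eh m s S z) :=
    iC.add (i3.const_mul _)
  have iE : Integrable (fun z => 21 / 20 * (1007 / 1000 * Eh m s S z
      - 1 / 2 * (s1f S k m z ^ 2 / ((∑ i, k i ^ 2) * Wf S s z)) + h.zm m N z)
      + 84 * (11 / 1000000000 * (Tw s S z * M2 S z)) + 1 / 10000000 * Eh m s S z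
      + 85 * ((1 - ζ z) * (M2 S z + Eh m s S z))) := iD.add (i4.const_mul _)
  have iF : Integrable (fun z => (21 / 20 * (1007 / 1000 * Eh m s S z
      - 1 / 2 * (s1f S k m z ^ 2 / ((∑ i, k i ^ 2) * Wf S s z)) + h.zm m N z)
      + 84 * (11 / 1000000000 * (Tw s S z * M2 S z)) + 1 / 10000000 * Eh m s S z
      + 85 * ((1 - ζ z) * (M2 S z + Eh m s S z))) + K₀.indicator (fun _ => C1 / N) z) :=
    iE.add i5
  have hint := integral_mono i6 (iF.const_mul (1000 / 991)) hpt
  rw [integral_const_mul, integral_add iE i5, integral_add iD (i4.const_mul _),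
    integral_add iC (i3.const_mul _), integral_add (iB.const_mul _)
    ((i2.const_mul _).const_mul _), integral_const_mul, integral_add iA hZi,
    integral_sub (i3.const_mul _) (i7.const_mul _), integral_const_mul, integral_const_mul,
    integral_const_mul, integral_const_mul, integral_const_mul, integral_const_mul, e5] at hint
  have f1 : ∫ z, Eh m s S z = YY m s S := rfl
  have f2 : ∫ z, Tw s S z * M2 S z = TT s S := rfl
  have f3 : ∫ z, Eh m s S' z = YY m s S' := rfl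
  rw [f1, f2, f3] at hint
  have hz := (abs_le.1 (hC2 N hN1)).2
  have hNp : (0:ℝ) < N := by exact_mod_cast hN1
  have hz' : ∫ z, h.zm m N z ≤ |C2| / N := hz.trans
    (div_le_div_of_nonneg_right (le_abs_self C2) hNp.le)
  have hY0 : 0 ≤ YY m s S := YY_nonneg
  have hT0 : 0 ≤ TT s S := TT_nonneg
  have hδ0 : 0 ≤ δ₁ := by
    refine le_trans (integral_nonneg fun z => ?_) hcut
    exact mul_nonneg (by linarith [h.ζ1 z]) (add_nonneg (M2_nonneg z) (Eh_nonneg z))
  have hc0 : 0 ≤ |C2| / N := by positivity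
  have hc1 : 0 ≤ C1 / N * (volume : Measure X).real K₀ := by positivity
  have e7 : (2 * |C2| + 2 * (C1 * (volume : Measure X).real K₀)) / N
      = 2 * (|C2| / N) + 2 * (C1 / N * (volume : Measure X).real K₀) := by ring
  rw [e7]
  linarith

end Mic

end

end Pool.Agent.K6.H24.MH
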