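import Pool.Agent.K6.H24.MH.Ap

open scoped ContDiff
open Set MeasureTheory Filter Topology

namespace Pool.Agent.K6.H24.MH

open Pool.Agent.H729R2 (E3 X ev et D St Good lab vec phx phy slab O1 B1 nv n2 vK)
open Pool.Agent.H729R2

noncomputable section

set_option linter.unusedSectionVars false

variable (S : St) (k : Fin 3 → ℝ) (ζ : X → ℝ) (m s : ℝ)

/-- the error, with the mean density `m` -/
def em (i : Fin 3) (z : X) : ℝ := m * S.acc i z + S.R2 z * S.b i z - S.R1 z * S.gp i z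
/-- amplitudes -/
def am1 (z : X) : ℝ := alf s (S.R1 z)
def am2 (z : X) : ℝ := alf s (S.R2 z)
def Wf (z : X) : ℝ := am1 S s z ^ 2 + am2 S s z ^ 2
/-- gradient of the Lagrangian phase -/
def kap (j : Fin 3) (z : X) : ℝ := D (ev j) (phy S.u k) z
def nk (z : X) : ℝ := ∑ i, kap S k i z ^ 2
def s1f (z : X) : ℝ := ∑ i, em S m i z * k i
def s2f (z : X) : ℝ := ∑ i, em S m i z * kap S k i z
def Q1f (z : X) : ℝ := ζ z * am1 S s z * s1f S k m z / (S.R1 z * Wf S s z * ∑ i, k i ^ 2)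
def Q2f (z : X) : ℝ := -(ζ z * am2 S s z * s2f S k m z / (S.R1 z * Wf S s z * nk S k z))

/-- amplitudes of the viscous force -/
def Af : Fin 5 → Fin 3 → X → ℝ :=
  ![fun i z => -(ζ z * am2 S s z) * S.b i z
      + (S.R1 z / S.R2 z) * Q2f S k ζ m s z * kap S k i z,
    fun i z => (S.R1 z / S.R2 z) * (ζ z * am1 S s z) * S.gp i z
      + (S.R1 z / S.R2 z) * Q1f S k ζ m s z * k i,
    fun i z => (1 / 2 * (S.R1 z / S.R2 z)) * (- (am2 S s z * Q1f S k ζ m s z * k i)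
      + am1 S s z * Q2f S k ζ m s z * kap S k i z),
    fun i z => (1 / 2 * (S.R1 z / S.R2 z)) * (am1 S s z * Q1f S k ζ m s z * k i),
    fun i z => (1 / 2 * (S.R1 z / S.R2 z)) * (-(am2 S s z * Q2f S k ζ m s z * kap S k i z))]

/-- phases -/
def Pf : Fin 5 → X → ℝ :=
  ![phy S.u k, phx k, fun z => phx k z + phy S.u k z, fun z => 2 * phx k z,
    fun z => 2 * phy S.u k z]

/-- data at a point -/
def pnt (N : ℕ) (z : X) : Pt where
  a := vec fun i => m * S.acc i z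
  b := vec fun i => S.b i z
  g := vec fun i => S.gp i z
  k := vec k
  κ := vec fun i => kap S k i z
  R1 := S.R1 z
  R2 := S.R2 z
  a1 := am1 S s z
  a2 := am2 S s z
  ζ := ζ z
  cx := Real.cos (N * phx k z)
  cy := Real.cos (N * phy S.u k z)
  sx := Real.sin (N * phx k z)
  sy := Real.sin (N * phy S.u k z)

/-- the new state -/
def nst (w : Fin 3 → X → ℝ) (π : X → ℝ) (N : ℕ) : St where
  u := fun i z => S.u i z + w i z
  r := fun x => S.r x * (1 + alf s (S.r x) * Real.cos (N * ∑ i, k i * x i))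
  p := fun z => S.p z + (N:ℝ)⁻¹ * (Q1f S k ζ m s z * Real.sin (N * phx k z)
    + Q2f S k ζ m s z * Real.sin (N * phy S.u k z))
  q := fun z => S.q z + π z

/-- requirements for the construction -/
structure Req (K₀ : Set X) (T₀ : ℝ) : Prop where
  good : Good K₀ S
  hK : IsCompact K₀
  hKT : K₀ ⊆ slab T₀
  k0 : k ≠ 0
  ζs : ContDiff ℝ ∞ ζ
  ζc : HasCompactSupport ζ
  ζt : ∀ z ∈ tsupport ζ, (∃ i, S.u i z ≠ 0) ∧ (∑ i, k i * D et (lab S.u i) z ≠ 0 ∧
        ∑ j, (k j + ∑ i, k i * D (ev j) (lab S.u i) z) ^ 2 ≠ 0)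
  ζ0 : ∀ z, 0 ≤ ζ z
  ζ1 : ∀ z, ζ z ≤ 1
  s0 : 0 < s
  s1 : s ≤ 1 / 10000
  lt : ∀ x, |rho s (S.r x)| < 1
  J : ∀ z ∈ slab T₀, ∀ i j, |D (ev j) (lab S.u i) z - (if i = j then 1 else 0)| ≤ 1 / 1000

variable {S k ζ m s}

namespace Req

variable {K₀ : Set X} {T₀ : ℝ} (h : Req S k ζ s K₀ T₀)
include h

lemma n0 : ∑ i, k i ^ 2 ≠ 0 := sum_sq_ne h.k0

lemma npos : 0 < ∑ i, k i ^ 2 :=
  (Finset.sum_nonneg fun i _ => sq_nonneg (k i)).lt_of_ne h.n0.symm

lemma lt1 (z : X) : |rho s (S.R1 z)| < 1 := h.lt _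
lemma lt2 (z : X) : |rho s (S.R2 z)| < 1 := h.lt _
lemma R1lo (z : X) : 9999 / 10000 ≤ S.R1 z := (r_bounds h.s0 h.s1 (h.lt1 z)).1
lemma R1hi (z : X) : S.R1 z ≤ 10001 / 10000 := (r_bounds h.s0 h.s1 (h.lt1 z)).2
lemma R2lo (z : X) : 9999 / 10000 ≤ S.R2 z := (r_bounds h.s0 h.s1 (h.lt2 z)).1
lemma R2hi (z : X) : S.R2 z ≤ 10001 / 10000 := (r_bounds h.s0 h.s1 (h.lt2 z)).2
lemma R1ne (z : X) : S.R1 z ≠ 0 := by linarith [h.R1lo z]
lemma R2ne (z : X) : S.R2 z ≠ 0 := by linarith [h.R2lo z]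

lemma am1pos (z : X) : 0 < am1 S s z := alf_pos h.s0 h.s1 (h.lt1 z)
lemma am2pos (z : X) : 0 < am2 S s z := alf_pos h.s0 h.s1 (h.lt2 z)
lemma Wfpos (z : X) : 0 < Wf S s z := by
  have := h.am1pos z
  unfold Wf; positivity

lemma htK : tsupport ζ ⊆ K₀ := fun z hz' => by
  obtain ⟨i, hi⟩ := (h.ζt z hz').1
  exact h.good.uK i (subset_tsupport _ hi)

lemma hY : IsLabel S.u (lab S.u) := h.good.lab_isLabel h.hK

lemma phys : ContDiff ℝ ∞ (phy S.u k) := phy_smooth h.hY.smooth k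

lemma kaps (j : Fin 3) : ContDiff ℝ ∞ (kap S k j) := D_smooth h.phys (ev j)

lemma nks : ContDiff ℝ ∞ (nk S k) := ContDiff.sum fun i _ => (h.kaps i).pow 2

lemma am1s : ContDiff ℝ ∞ (am1 S s) := alf_smooth h.good.R1s h.R1ne
lemma am2s : ContDiff ℝ ∞ (am2 S s) := alf_smooth (h.good.R2s h.hK) h.R2ne
lemma Wfs : ContDiff ℝ ∞ (Wf S s) := (h.am1s.pow 2).add (h.am2s.pow 2)

lemma ems (i : Fin 3) : ContDiff ℝ ∞ (em S m i) :=
  ((contDiff_const.mul (h.good.accs i)).add ((h.good.R2s h.hK).mul (h.good.bs i))).sub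
    (h.good.R1s.mul (h.good.gps i))

lemma em_zero {z : X} (hz : z ∉ K₀) (i : Fin 3) : em S m i z = 0 := by
  unfold em
  rw [h.good.acc_zero hz, h.good.b_zero hz, h.good.gp_zero hz]
  ring

lemma s1fs : ContDiff ℝ ∞ (s1f S k m) := ContDiff.sum fun i _ => (h.ems i).mul contDiff_const
lemma s2fs : ContDiff ℝ ∞ (s2f S k m) := ContDiff.sum fun i _ => (h.ems i).mul (h.kaps i)

lemma kap_close {z : X} (hz : z ∈ slab T₀) (j : Fin 3) :
    |kap S k j z - k j| ≤ 1 / 1000 * ∑ i, |k i| := by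
  have h1 : kap S k j z = ∑ i, k i * D (ev j) (lab S.u i) z := D_phy h.hY.smooth k _ _
  have h2 : kap S k j z - k j
      = ∑ i, k i * (D (ev j) (lab S.u i) z - (if i = j then 1 else 0)) := by
    rw [h1]
    simp only [mul_sub, Finset.sum_sub_distrib]
    congr 1
    simp
  rw [h2, Finset.mul_sum]
  refine (Finset.abs_sum_le_sum_abs _ _).trans (Finset.sum_le_sum fun i _ => ?_)
  rw [abs_mul, mul_comm]
  exact mul_le_mul_of_nonneg_right (h.J z hz i j) (abs_nonneg _)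

lemma norm_close {z : X} (hz : z ∈ slab T₀) :
    ‖vec (fun i => kap S k i z) - vec k‖ ≤ 3 / 1000 * ‖vec k‖ := by
  have hc := fun j => h.kap_close hz j
  set c := ∑ i, |k i| with hcdef
  have hc2 : c ^ 2 ≤ 3 * ‖vec k‖ ^ 2 := by
    rw [EuclideanSpace.norm_sq_eq]
    have := sq_sum_le_card_mul_sum_sq (s := (Finset.univ : Finset (Fin 3))) (f := fun i => |k i|)
    simpa using this
  have h1 : ‖vec (fun i => kap S k i z) - vec k‖ ^ 2 ≤ (3 / 1000 * ‖vec k‖) ^ 2 := by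
    rw [EuclideanSpace.norm_sq_eq]
    have h3 : ∀ i, ‖(vec (fun i => kap S k i z) - vec k) i‖ ^ 2 ≤ (1 / 1000 * c) ^ 2 := by
      intro i
      refine pow_le_pow_left₀ (norm_nonneg _) ?_ 2
      rw [Real.norm_eq_abs]
      exact hc i
    refine (Finset.sum_le_sum fun i _ => h3 i).trans ?_
    simp only [Finset.sum_const, Finset.card_univ, Fintype.card_fin, nsmul_eq_mul]
    push_cast
    nlinarith
  exact abs_le_of_sq_le_sq' h1 (by positivity) |>.2

lemma veck : vec k ≠ 0 := by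
  intro h0
  apply h.k0
  ext i
  have := congrArg (fun v : E3 => v i) h0
  simpa using this

lemma kap_ne {z : X} (hz : z ∈ slab T₀) : vec (fun i => kap S k i z) ≠ 0 := by
  intro h0
  have h1 := h.norm_close hz
  rw [h0, zero_sub, norm_neg] at h1
  have := norm_pos_iff.2 h.veck
  linarith

lemma nk_pos {z : X} (hz : z ∈ slab T₀) : 0 < nk S k z := by
  have h1 : nk S k z = ‖vec (fun i => kap S k i z)‖ ^ 2 := by
    rw [EuclideanSpace.norm_sq_eq]
    simp [nk]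
  rw [h1]
  have := norm_pos_iff.2 (h.kap_ne hz)
  positivity

lemma Q1fs : ContDiff ℝ ∞ (Q1f S k ζ m s) := by
  unfold Q1f
  refine ((h.ζs.mul h.am1s).mul h.s1fs).div ((h.good.R1s.mul h.Wfs).mul contDiff_const) fun z => ?_
  exact mul_ne_zero (mul_ne_zero (h.R1ne z) (h.Wfpos z).ne') h.n0

lemma Q2fs : ContDiff ℝ ∞ (Q2f S k ζ m s) := by
  unfold Q2f
  refine ContDiff.neg (contDiff_div_of_tsupport ((h.ζs.mul h.am2s).mul h.s2fs)
    ((h.good.R1s.mul h.Wfs).mul h.nks) fun z hz => ?_)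
  have hz' : z ∈ tsupport ζ := by
    refine closure_mono (fun y hy => ?_) hz
    intro h0
    exact hy (by simp [h0])
  exact mul_ne_zero (mul_ne_zero (h.R1ne z) (h.Wfpos z).ne') (h.nk_pos (h.hKT (h.htK hz'))).ne'

lemma Q1f_tsupport : tsupport (Q1f S k ζ m s) ⊆ tsupport ζ := by
  refine closure_minimal (fun z hz => ?_) (isClosed_tsupport _)
  refine subset_tsupport _ fun h0 => hz ?_
  simp [Q1f, h0]

lemma Q2f_tsupport : tsupport (Q2f S k ζ m s) ⊆ tsupport ζ := by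
  refine closure_minimal (fun z hz => ?_) (isClosed_tsupport _)
  refine subset_tsupport _ fun h0 => hz ?_
  simp [Q2f, h0]

lemma ratio : ContDiff ℝ ∞ (fun z => S.R1 z / S.R2 z) :=
  h.good.R1s.div (h.good.R2s h.hK) h.R2ne

lemma Afs (l : Fin 5) (i : Fin 3) : ContDiff ℝ ∞ (Af S k ζ m s l i) := by
  have hr := h.ratio
  have hQ1 := h.Q1fs (m := m)
  have hQ2 := h.Q2fs (m := m)
  have hk := h.kaps i
  have h1 := h.am1s
  have h2 := h.am2s
  fin_cases l
  · exact (((h.ζs.mul h2).neg).mul (h.good.bs i)).add ((hr.mul hQ2).mul hk)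
  · exact ((hr.mul (h.ζs.mul h1)).mul (h.good.gps i)).add ((hr.mul hQ1).mul contDiff_const)
  · exact (contDiff_const.mul hr).mul ((((h2.mul hQ1).mul contDiff_const).neg).add
      ((h1.mul hQ2).mul hk))
  · exact (contDiff_const.mul hr).mul ((h1.mul hQ1).mul contDiff_const)
  · exact (contDiff_const.mul hr).mul (((h2.mul hQ2).mul hk).neg)

lemma Af_tsupport (l : Fin 5) (i : Fin 3) : tsupport (Af S k ζ m s l i) ⊆ tsupport ζ := by
  refine closure_minimal (fun z hz => ?_) (isClosed_tsupport _)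
  refine subset_tsupport _ fun h0 => hz ?_
  fin_cases l <;> simp [Af, Q1f, Q2f, h0]

lemma Pfs (l : Fin 5) : ContDiff ℝ ∞ (Pf S k l) := by
  fin_cases l
  · exact h.phys
  · exact phx_smooth k
  · exact (phx_smooth k).add h.phys
  · exact contDiff_const.mul (phx_smooth k)
  · exact contDiff_const.mul h.phys

lemma Pf_nd (l : Fin 5) (z : X) (hz : z ∈ tsupport ζ) :
    ∑ j, (D (ev j) (Pf S k l) z) ^ 2 ≠ 0 := by
  obtain ⟨h1, h2, h3⟩ := h.ζt z hz
  have hzs : z ∈ slab T₀ := h.hKT (h.htK hz)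
  have hxx : ∑ j, (D (ev j) (phx k) z) ^ 2 ≠ 0 := by
    simp only [D_phx]; exact h.n0
  have hyy : ∑ j, (D (ev j) (phy S.u k) z) ^ 2 ≠ 0 := (h.nk_pos hzs).ne'
  fin_cases l
  · exact hyy
  · exact hxx
  · change ∑ j, (D (ev j) (fun z => phx k z + phy S.u k z) z) ^ 2 ≠ 0
    have : ∀ j, D (ev j) (fun z => phx k z + phy S.u k z) z
        = k j + ∑ i, k i * D (ev j) (lab S.u i) z := by
      intro j
      rw [D_add (phx_smooth k) h.phys]
      simp only [D_phx]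
      unfold phy
      rw [D_phy h.hY.smooth]
    simp only [this]
    exact h3
  · change ∑ j, (D (ev j) (fun z => 2 * phx k z) z) ^ 2 ≠ 0
    have : ∀ j, D (ev j) (fun z => 2 * phx k z) z = 2 * D (ev j) (phx k) z := by
      intro j
      rw [D_const_mul (phx_smooth k)]
    simp only [this, mul_pow, ← Finset.mul_sum]
    exact mul_ne_zero (by norm_num) hxx
  · change ∑ j, (D (ev j) (fun z => 2 * phy S.u k z) z) ^ 2 ≠ 0
    have : ∀ j, D (ev j) (fun z => 2 * phy S.u k z) z = 2 * D (ev j) (phy S.u k) z := by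
      intro j
      rw [D_const_mul h.phys]
    simp only [this, mul_pow, ← Finset.mul_sum]
    exact mul_ne_zero (by norm_num) hyy

omit h in
lemma pnt_e (N : ℕ) (z : X) : (pnt S k ζ m s N z).e = vec fun i => em S m i z := by
  ext i
  simp [Pt.e, pnt, em]

omit h in
lemma pnt_s1 (N : ℕ) (z : X) : (pnt S k ζ m s N z).s1 = s1f S k m z := by
  unfold Pt.s1
  rw [pnt_e]
  rfl

omit h in
lemma pnt_s2 (N : ℕ) (z : X) : (pnt S k ζ m s N z).s2 = s2f S k m z := by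
  unfold Pt.s2
  rw [pnt_e]
  rfl

omit h in
lemma pnt_n1 (N : ℕ) (z : X) : (pnt S k ζ m s N z).n1 = ∑ i, k i ^ 2 := rfl
omit h in
lemma pnt_n2 (N : ℕ) (z : X) : (pnt S k ζ m s N z).n2 = nk S k z := rfl
omit h in
lemma pnt_W (N : ℕ) (z : X) : (pnt S k ζ m s N z).W = Wf S s z := rfl

omit h in
lemma pnt_Q1 (N : ℕ) (z : X) : (pnt S k ζ m s N z).Q1 = Q1f S k ζ m s z := by
  unfold Pt.Q1
  rw [pnt_s1, pnt_n1, pnt_W]
  rfl

omit h in
lemma pnt_Q2 (N : ℕ) (z : X) : (pnt S k ζ m s N z).Q2 = Q2f S k ζ m s z := by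
  unfold Pt.Q2
  rw [pnt_s2, pnt_n2, pnt_W]
  rfl

omit h in
lemma pnt_cs (N : ℕ) (z : X) : (pnt S k ζ m s N z).cs =
    Real.cos (N * (phx k z + phy S.u k z)) := by
  rw [mul_add, Real.cos_add]
  rfl

omit h in
lemma pnt_c2x (N : ℕ) (z : X) : (pnt S k ζ m s N z).c2x =
    Real.cos (N * (2 * phx k z)) := by
  have : (N:ℝ) * (2 * phx k z) = 2 * (N * phx k z) := by ring
  rw [this, Real.cos_two_mul]
  rfl

omit h in
lemma pnt_c2y (N : ℕ) (z : X) : (pnt S k ζ m s N z).c2y =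
    Real.cos (N * (2 * phy S.u k z)) := by
  have : (N:ℝ) * (2 * phy S.u k z) = 2 * (N * phy S.u k z) := by ring
  rw [this, Real.cos_two_mul]
  rfl

omit h in
lemma pnt_cθ (N : ℕ) (z : X) : (pnt S k ζ m s N z).cθ =
    Real.cos (N * (phx k z - phy S.u k z)) := by
  rw [mul_sub, Real.cos_sub]
  rfl

lemma pnt_ok (N : ℕ) {z : X} (hz : z ∈ slab T₀) : (pnt S k ζ m s N z).Ok where
  k0 := h.veck
  κ0 := h.kap_ne hz
  κk := h.norm_close hz
  a10 := h.am1pos z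
  a20 := h.am2pos z
  a11 := alf_le h.s0 h.s1 (h.lt1 z)
  a21 := alf_le h.s0 h.s1 (h.lt2 z)
  R10 := h.R1lo z
  R11 := h.R1hi z
  R20 := h.R2lo z
  R21 := h.R2hi z
  ζ0 := h.ζ0 z
  ζ1 := h.ζ1 z
  hcx := Real.abs_cos_le_one _
  hcy := Real.abs_cos_le_one _
  hcs := by rw [pnt_cs]; exact Real.abs_cos_le_one _
  hcθ := by rw [pnt_cθ]; exact Real.abs_cos_le_one _

omit h in
lemma pnt_q (N : ℕ) (z : X) (i : Fin 3) : (pnt S k ζ m s N z).q i =
    Q1f S k ζ m s z * Real.cos (N * phx k z) * k i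
      + Q2f S k ζ m s z * Real.cos (N * phy S.u k z) * kap S k i z := by
  have hQ1 := pnt_Q1 (S := S) (k := k) (ζ := ζ) (m := m) (s := s) N z
  have hQ2 := pnt_Q2 (S := S) (k := k) (ζ := ζ) (m := m) (s := s) N z
  unfold Pt.q
  rw [hQ1, hQ2]
  simp only [PiLp.add_apply, PiLp.smul_apply, smul_eq_mul]
  simp [pnt]

omit h in
lemma pnt_G (N : ℕ) (z : X) (i : Fin 3) : (pnt S k ζ m s N z).G i =
    ∑ l, Af S k ζ m s l i z * Real.cos (N * Pf S k l z) := by
  have hQ1 := pnt_Q1 (S := S) (k := k) (ζ := ζ) (m := m) (s := s) N z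
  have hQ2 := pnt_Q2 (S := S) (k := k) (ζ := ζ) (m := m) (s := s) N z
  have hcs := pnt_cs (S := S) (k := k) (ζ := ζ) (m := m) (s := s) N z
  have hc2x := pnt_c2x (S := S) (k := k) (ζ := ζ) (m := m) (s := s) N z
  have hc2y := pnt_c2y (S := S) (k := k) (ζ := ζ) (m := m) (s := s) N z
  have hq := pnt_q (S := S) (k := k) (ζ := ζ) (m := m) (s := s) N z i
  unfold Pt.G Pt.H
  rw [hQ1, hQ2, hcs, hc2x, hc2y]
  simp only [Fin.sum_univ_five, PiLp.add_apply, PiLp.smul_apply, smul_eq_mul]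
  rw [hq]
  simp [Af, Pf, pnt]
  ring

end Req

end

end Pool.Agent.K6.H24.MH
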