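import Pool.Agent.K6.H24.MH.Ax

open scoped ContDiff
open Set MeasureTheory Filter Topology

namespace Pool.Agent.K6.H24.MH

open Pool.Agent.H729R2 (E3 X ev et D St Good lab vec phx phy slab O1 B1 nv n2 vK)
open Pool.Agent.H729R2

noncomputable section

set_option linter.unusedSectionVars false

/-- the outcome of `micro4` -/
structure Mic (S : St) (k : Fin 3 → ℝ) (ζ : X → ℝ) (m s : ℝ) (w : ℕ → Fin 3 → X → ℝ)
    (π : ℕ → X → ℝ) (C : ℝ) : Prop where
  C0 : 0 ≤ C
  ws : ∀ N i, ContDiff ℝ ∞ (w N i)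
  πs : ∀ N, ContDiff ℝ ∞ (π N)
  wK : ∀ N i, tsupport (w N i) ⊆ tsupport ζ
  πK : ∀ N, tsupport (π N) ⊆ tsupport ζ
  div : ∀ N z, ∑ i, D (ev i) (w N i) z = 0
  w0 : ∀ N : ℕ, 1 ≤ N → ∀ i z, |w N i z| ≤ C / (N:ℝ) ^ 2
  wt : ∀ N : ℕ, 1 ≤ N → ∀ i z, |D et (w N i) z| ≤ C / N
  wx : ∀ N : ℕ, 1 ≤ N → ∀ i j z, |D (ev j) (w N i) z| ≤ C / N
  ap : ∀ N : ℕ, 1 ≤ N → ∀ i z, |- (∑ j, D (ev j) (D (ev j) (w N i)) z) + D (ev i) (π N) z
          - ∑ l, Af S k ζ m s l i z * Real.cos (N * Pf S k l z)| ≤ C / N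

variable {S : St} {k : Fin 3 → ℝ} {ζ : X → ℝ} {m s : ℝ} {K₀ : Set X} {T₀ : ℝ}

lemma Req.exists_mic (h : Req S k ζ s K₀ T₀) (m : ℝ) : ∃ w π C, Mic S k ζ m s w π C := by
  obtain ⟨w, π, C, h0, h1, h2, h3, h4, h5, h6⟩ := micro4 (K := tsupport ζ) h.ζc
    (A := Af S k ζ m s) (Φ := Pf S k) h.Afs h.Pfs h.Af_tsupport h.Pf_nd
  exact ⟨w, π, C, h0, h1, h2, h3, h4, h5, fun N hN i z => (h6 N hN i z).1,
    fun N hN i z => (h6 N hN i z).2.1, fun N hN i j z => (h6 N hN i z).2.2.1 j,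
    fun N hN i z => (h6 N hN i z).2.2.2⟩

lemma lip_cos (k : Fin 3 → ℝ) (N : ℕ) (x y : E3) :
    |Real.cos (N * ∑ i, k i * x i) - Real.cos (N * ∑ i, k i * y i)|
      ≤ N * ((∑ i, |k i|) * dist x y) := by
  refine (Real.abs_cos_sub_cos_le _ _).trans ?_
  rw [← mul_sub, abs_mul, Nat.abs_cast]
  refine mul_le_mul_of_nonneg_left ?_ (Nat.cast_nonneg N)
  rw [← Finset.sum_sub_distrib, Finset.sum_mul]
  refine (Finset.abs_sum_le_sum_abs _ _).trans (Finset.sum_le_sum fun i _ => ?_)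
  rw [← mul_sub, abs_mul]
  refine mul_le_mul_of_nonneg_left ?_ (abs_nonneg _)
  have := PiLp.norm_apply_le (x - y) i
  rw [dist_eq_norm]
  simpa using this

/-- `r alf(r)` is Lipschitz -/
lemma amp_lip {s a b : ℝ} (hs : 0 < s) (ha : |rho s a| ≤ 1) (hb : |rho s b| ≤ 1) :
    |s * tau (rho s a) - s * tau (rho s b)| ≤ 1 / 500 * |a - b| := by
  have e : s * tau (rho s a) - s * tau (rho s b)
      = -(1 / 1000 * (a - b) * (rho s a + rho s b)) := by
    unfold tau rho
    field_simp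
    ring
  rw [e, abs_neg, abs_mul, abs_mul]
  have h1 : |rho s a + rho s b| ≤ 2 := by
    refine (abs_add_le _ _).trans ?_
    linarith
  have h2 : |a - b| * |rho s a + rho s b| ≤ |a - b| * 2 :=
    mul_le_mul_of_nonneg_left h1 (abs_nonneg _)
  rw [abs_of_pos (by norm_num : (0:ℝ) < 1 / 1000)]
  linarith

lemma r_alf {s r : ℝ} (hr : r ≠ 0) (c : ℝ) :
    r * (1 + alf s r * c) = r + s * tau (rho s r) * c := by
  unfold alf
  field_simp

namespace Req

variable (h : Req S k ζ s K₀ T₀)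
include h

lemma rne (x : E3) : S.r x ≠ 0 := by
  have := (r_bounds h.s0 h.s1 (h.lt x)).1
  linarith

/-- the new specific volume is Lipschitz: quantitative version -/
lemma new_lip {L : NNReal} (hL : LipschitzWith L S.r) (N : ℕ) (x y : E3) :
    |S.r x * (1 + alf s (S.r x) * Real.cos (N * ∑ i, k i * x i))
      - S.r y * (1 + alf s (S.r y) * Real.cos (N * ∑ i, k i * y i))|
      ≤ (2 * L + N * ∑ i, |k i|) * dist x y := by
  have hs0 := h.s0
  have hr := hL.dist_le_mul x y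
  rw [Real.dist_eq] at hr
  have hc := lip_cos k N x y
  have ht := amp_lip h.s0 (h.lt x).le (h.lt y).le
  rw [r_alf (h.rne x), r_alf (h.rne y)]
  have e1 : S.r x + s * tau (rho s (S.r x)) * Real.cos (N * ∑ i, k i * x i)
      - (S.r y + s * tau (rho s (S.r y)) * Real.cos (N * ∑ i, k i * y i))
      = (S.r x - S.r y) + (s * tau (rho s (S.r x)) - s * tau (rho s (S.r y))) *
        Real.cos (N * ∑ i, k i * x i) + s * tau (rho s (S.r y)) *
          (Real.cos (N * ∑ i, k i * x i) - Real.cos (N * ∑ i, k i * y i)) := by ring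
  rw [e1]
  have f1 : |(s * tau (rho s (S.r x)) - s * tau (rho s (S.r y))) *
        Real.cos (N * ∑ i, k i * x i)| ≤ |S.r x - S.r y| := by
    rw [abs_mul]
    have := mul_le_mul ht (Real.abs_cos_le_one (N * ∑ i, k i * x i)) (abs_nonneg _)
      (by positivity)
    have h0 := abs_nonneg (S.r x - S.r y)
    linarith
  have f2 : |s * tau (rho s (S.r y)) *
          (Real.cos (N * ∑ i, k i * x i) - Real.cos (N * ∑ i, k i * y i))|
      ≤ N * ((∑ i, |k i|) * dist x y) := by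
    have hτ := tau_nonneg (h.lt y).le
    have hτ' := tau_le (rho s (S.r y))
    rw [abs_mul, abs_of_nonneg (by positivity)]
    have h1 : s * tau (rho s (S.r y)) ≤ 1 := by
      have := mul_le_mul h.s1 hτ' hτ (by norm_num)
      linarith
    have := mul_le_mul h1 hc (abs_nonneg _) zero_le_one
    linarith
  have f3 := abs_add_le (S.r x - S.r y + (s * tau (rho s (S.r x)) - s * tau (rho s (S.r y))) *
        Real.cos (N * ∑ i, k i * x i)) (s * tau (rho s (S.r y)) *
          (Real.cos (N * ∑ i, k i * x i) - Real.cos (N * ∑ i, k i * y i)))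
  have f4 := abs_add_le (S.r x - S.r y) ((s * tau (rho s (S.r x)) - s * tau (rho s (S.r y))) *
        Real.cos (N * ∑ i, k i * x i))
  have e2 : (2 * L + N * ∑ i, |k i|) * dist x y
      = L * dist x y + L * dist x y + N * ((∑ i, |k i|) * dist x y) := by ring
  rw [e2]
  linarith

end Req

namespace Mic

variable {w : ℕ → Fin 3 → X → ℝ} {π : ℕ → X → ℝ} {C : ℝ}
variable (h : Req S k ζ s K₀ T₀) (hm : Mic S k ζ m s w π C)
include h hm

lemma wz (N : ℕ) (i : Fin 3) {z : X} (hz : z ∉ tsupport ζ) : w N i z = 0 :=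
  image_eq_zero_of_notMem_tsupport fun h' => hz (hm.wK N i h')

/-- for large `N` the zero set does not change -/
lemma zeros : ∃ N₀ : ℕ, 1 ≤ N₀ ∧ ∀ N ≥ N₀, ∀ z, (∃ i, S.u i z ≠ 0) →
    ∃ i, (nst S k ζ m s (w N) (π N) N).u i z ≠ 0 := by
  have hc : ContinuousOn (nv S.u) (tsupport ζ) :=
    (nv_continuous fun i => (h.good.hu i).continuous).continuousOn
  obtain ⟨c, hc0, hc⟩ : ∃ c : ℝ, 0 < c ∧ ∀ z ∈ tsupport ζ, c ≤ nv S.u z := by
    rcases (tsupport ζ).eq_empty_or_nonempty with he | hne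
    · exact ⟨1, one_pos, fun z hz => by rw [he] at hz; exact absurd hz (notMem_empty z)⟩
    · obtain ⟨z₀, hz₀, hmin⟩ := IsCompact.exists_isMinOn (show IsCompact (tsupport ζ) from h.ζc)
        hne hc
      refine ⟨nv S.u z₀, ?_, fun z hz => hmin hz⟩
      obtain ⟨i, hi⟩ := (h.ζt z₀ hz₀).1
      exact (abs_pos.2 hi).trans_le (abs_le_nv S.u i z₀)
  obtain ⟨N₀, hN₀⟩ := exists_nat_gt (2 * C / c)
  refine ⟨N₀ + 1, by omega, fun N hN z hz => ?_⟩
  by_contra hcon
  push Not at hcon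
  have hzt : z ∈ tsupport ζ := by
    by_contra hzt
    obtain ⟨i, hi⟩ := hz
    apply hi
    have := hcon i
    simp only [nst, hm.wz h N i hzt, add_zero] at this
    exact this
  have hN1 : 1 ≤ N := by omega
  have hNr : (N₀:ℝ) + 1 ≤ N := by exact_mod_cast hN
  have hN0 : (0:ℝ) ≤ N₀ := by positivity
  have h1 : nv S.u z ≤ 2 * (C / (N:ℝ) ^ 2) := by
    refine norm_vec_le fun i => ?_
    have h2 := hcon i
    simp only [nst] at h2
    have h3 : S.u i z = - w N i z := by linarith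
    rw [h3, abs_neg]
    exact hm.w0 N hN1 i z
  have h2 := hc z hzt
  have h3 : c * (N:ℝ) ^ 2 ≤ 2 * C := by
    have h4 : c ≤ 2 * C / (N:ℝ) ^ 2 := by rw [mul_div_assoc]; exact h2.trans h1
    rwa [le_div_iff₀ (by positivity)] at h4
  have h5 : 2 * C < c * N := by
    have h6 : 2 * C / c < N := by linarith
    rw [div_lt_iff₀ hc0] at h6
    linarith
  have h6 : c * (N:ℝ) ≤ c * (N:ℝ) ^ 2 := mul_le_mul_of_nonneg_left (by nlinarith) hc0.le
  linarith

lemma rho_lt (N : ℕ) (x : E3) : |rho s ((nst S k ζ m s (w N) (π N) N).r x)| < 1 := by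
  change |rho s (S.r x * (1 + alf s (S.r x) * Real.cos (N * ∑ i, k i * x i)))| < 1
  rw [rho_new h.s0 (h.rne x)]
  exact rho_new_lt (h.lt x) (Real.abs_cos_le_one _)

/-- the new state is admissible -/
lemma good : ∃ N₀ : ℕ, 1 ≤ N₀ ∧ ∀ N ≥ N₀, Good K₀ (nst S k ζ m s (w N) (π N) N) := by
  obtain ⟨N₀, h1, hz⟩ := hm.zeros h
  refine ⟨N₀, h1, fun N hN => ?_⟩
  have hg := h.good
  have hs1 := h.Q1fs (m := m)
  have hs2 := h.Q2fs (m := m)
  have ht : tsupport ζ ⊆ {z | ∃ i, (nst S k ζ m s (w N) (π N) N).u i z ≠ 0} := fun z hz' =>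
    hz N hN z (h.ζt z hz').1
  have htK := h.htK
  have hsx : ContDiff ℝ ∞ (fun x : E3 => ∑ i, k i * x i) :=
    ContDiff.sum fun i _ => contDiff_const.mul (contDiff_euclidean.1 contDiff_id i)
  have hcl : ∀ {F G : X → ℝ}, tsupport G ⊆ tsupport ζ → tsupport (fun z => F z + G z) ⊆
      tsupport F ∪ tsupport ζ := by
    intro F G hG
    refine closure_minimal (fun z hz => ?_) ((isClosed_tsupport _).union (isClosed_tsupport _))
    by_contra hcon
    simp only [mem_union, not_or] at hcon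
    apply hz
    have e1 : F z = 0 := image_eq_zero_of_notMem_tsupport hcon.1
    have e2 : G z = 0 := image_eq_zero_of_notMem_tsupport fun h' => hcon.2 (hG h')
    simp [e1, e2]
  have hpt : tsupport (fun z => (N:ℝ)⁻¹ * (Q1f S k ζ m s z * Real.sin (N * phx k z)
      + Q2f S k ζ m s z * Real.sin (N * phy S.u k z))) ⊆ tsupport ζ := by
    refine closure_minimal (fun z hz => ?_) (isClosed_tsupport _)
    by_contra hcon
    apply hz
    have e1 : Q1f S k ζ m s z = 0 :=
      image_eq_zero_of_notMem_tsupport fun h' => hcon (h.Q1f_tsupport h')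
    have e2 : Q2f S k ζ m s z = 0 :=
      image_eq_zero_of_notMem_tsupport fun h' => hcon (h.Q2f_tsupport h')
    simp [e1, e2]
  have hb := fun x => r_bounds h.s0 h.s1 (hm.rho_lt h N x)
  refine ⟨fun i => (hg.hu i).add (hm.ws N i), ?_, ?_, hg.hq.add (hm.πs N), ?_, ?_, ?_, ?_, ?_,
    ?_, ?_⟩
  · exact hg.hr.mul (contDiff_const.add ((alf_smooth hg.hr h.rne).mul
      (Real.contDiff_cos.comp (contDiff_const.mul hsx))))
  · exact hg.hp.add (contDiff_const.mul ((hs1.mul (Real.contDiff_sin.comp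
      (contDiff_const.mul (phx_smooth k)))).add (hs2.mul (Real.contDiff_sin.comp
      (contDiff_const.mul h.phys)))))
  · intro i
    exact (hcl (hm.wK N i)).trans (union_subset (hg.uK i) htK)
  · exact (hcl hpt).trans (union_subset (fun z hz' => hz N hN z (hg.pu hz')) ht)
  · exact (hcl (hm.πK N)).trans (union_subset (fun z hz' => hz N hN z (hg.qu hz')) ht)
  · intro z
    have : ∀ i, D (ev i) ((nst S k ζ m s (w N) (π N) N).u i) z
        = D (ev i) (S.u i) z + D (ev i) (w N i) z := by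
      intro i
      exact congrFun (D_add (hg.hu i) (hm.ws N i) (ev i)) z
    rw [Finset.sum_congr rfl fun i _ => this i, Finset.sum_add_distrib, hg.div, hm.div, add_zero]
  · obtain ⟨L, hL⟩ := hg.rlip
    refine ⟨2 * L + Real.toNNReal (N * ∑ i, |k i|), ?_⟩
    refine LipschitzWith.of_dist_le_mul fun x y => ?_
    have hk0 : 0 ≤ ∑ i, |k i| := Finset.sum_nonneg fun i _ => abs_nonneg _
    rw [NNReal.coe_add, NNReal.coe_mul, Real.coe_toNNReal _ (by positivity), Real.dist_eq]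
    exact h.new_lip hL N x y
  · intro x
    linarith [(hb x).1]
  · intro x
    linarith [(hb x).2]

end Mic

end

end Pool.Agent.K6.H24.MH
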