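import Pool.Agent.K6.H24.MH.Ax2

open scoped ContDiff
open Set MeasureTheory Filter Topology

namespace Pool.Agent.K6.H24.MH

open Pool.Agent.H729R2 (E3 X ev et D St Good lab vec phx phy slab O1 B1 nv n2 vK)
open Pool.Agent.H729R2

noncomputable section

set_option linter.unusedSectionVars false

variable {S : St} {k : Fin 3 → ℝ} {ζ : X → ℝ} {m s : ℝ} {K₀ : Set X} {T₀ : ℝ}

lemma Ap.of_sub {A : Set X} {F G : ℕ → X → ℝ} (h : O1 A (fun N z => F N z - G N z))
    (hb : B1 A G) : Ap A F G := ⟨h, hb⟩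

namespace Mic

variable {w : ℕ → Fin 3 → X → ℝ} {π : ℕ → X → ℝ} {C : ℝ}
variable (h : Req S k ζ s K₀ T₀) (hm : Mic S k ζ m s w π C)
include h hm

lemma b_eq (N : ℕ) (i : Fin 3) (z : X) : (nst S k ζ m s (w N) (π N) N).b i z
    = S.b i z + (- (∑ j, D (ev j) (D (ev j) (w N i)) z) + D (ev i) (π N) z) := by
  have hg := h.good
  unfold St.b
  have e1 : ∀ j, D (ev j) (D (ev j) ((nst S k ζ m s (w N) (π N) N).u i)) z
      = D (ev j) (D (ev j) (S.u i)) z + D (ev j) (D (ev j) (w N i)) z := by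
    intro j
    have : (nst S k ζ m s (w N) (π N) N).u i = fun z => S.u i z + w N i z := rfl
    rw [this, D_add (hg.hu i) (hm.ws N i),
      D_add (D_smooth (hg.hu i) (ev j)) (D_smooth (hm.ws N i) (ev j))]
  have e2 : D (ev i) (nst S k ζ m s (w N) (π N) N).q z = D (ev i) S.q z + D (ev i) (π N) z := by
    have : (nst S k ζ m s (w N) (π N) N).q = fun z => S.q z + π N z := rfl
    rw [this, D_add hg.hq (hm.πs N)]
  rw [e2, Finset.sum_congr rfl fun j _ => e1 j, Finset.sum_add_distrib]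
  ring

lemma b_ap (i : Fin 3) : Ap K₀ (fun N z => (nst S k ζ m s (w N) (π N) N).b i z)
    (fun N z => ((pnt S k ζ m s N z).b + (pnt S k ζ m s N z).G) i) := by
  have e : ∀ N z, ((pnt S k ζ m s N z).b + (pnt S k ζ m s N z).G) i
      = S.b i z + ∑ l, Af S k ζ m s l i z * Real.cos (N * Pf S k l z) := by
    intro N z
    rw [PiLp.add_apply, Req.pnt_G]
    rfl
  refine ⟨⟨C, hm.C0, fun N hN z _ => ?_⟩, ?_⟩
  · beta_reduce
    rw [hm.b_eq h, e]
    have := hm.ap N hN i z
    convert this using 2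
    ring
  · refine ((B1.const h.hK (h.good.bs i).continuous).add (B1.sum (Finset.univ : Finset (Fin 5))
      fun l _ => (B1.const h.hK (h.Afs (m := m) l i).continuous).mul
        (B1.cos (fun N z => N * Pf S k l z)))).congr fun N hN z _ => ?_
    rw [e]

lemma gp_eq {N : ℕ} (hN : 1 ≤ N) (i : Fin 3) (z : X) : (nst S k ζ m s (w N) (π N) N).gp i z
    = S.gp i z + ((N:ℝ)⁻¹ * (D (ev i) (Q1f S k ζ m s) z * Real.sin (N * phx k z)
        + D (ev i) (Q2f S k ζ m s) z * Real.sin (N * phy S.u k z))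
      + (Q1f S k ζ m s z * Real.cos (N * phx k z) * k i
        + Q2f S k ζ m s z * Real.cos (N * phy S.u k z) * kap S k i z)) := by
  have hg := h.good
  have hN' : (N:ℝ) ≠ 0 := by
    have : (1:ℝ) ≤ N := by exact_mod_cast hN
    linarith
  have hsin1 : ContDiff ℝ ∞ (fun z => Real.sin (N * phx k z)) :=
    Real.contDiff_sin.comp (contDiff_const.mul (phx_smooth k))
  have hsin2 : ContDiff ℝ ∞ (fun z => Real.sin (N * phy S.u k z)) :=
    Real.contDiff_sin.comp (contDiff_const.mul h.phys)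
  have hQ1 := h.Q1fs (m := m)
  have hQ2 := h.Q2fs (m := m)
  unfold St.gp
  have : (nst S k ζ m s (w N) (π N) N).p =
      fun z => S.p z + (N:ℝ)⁻¹ * (Q1f S k ζ m s z * Real.sin (N * phx k z)
        + Q2f S k ζ m s z * Real.sin (N * phy S.u k z)) := rfl
  rw [this, D_add hg.hp (contDiff_const.mul ((hQ1.mul hsin1).add (hQ2.mul hsin2))),
    D_const_mul ((hQ1.mul hsin1).add (hQ2.mul hsin2)), D_add (hQ1.mul hsin1) (hQ2.mul hsin2),
    D_mul hQ1 hsin1, D_mul hQ2 hsin2, D_sin (phx_smooth k), D_sin h.phys]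
  simp only [D_phx]
  have hk : D (ev i) (phy S.u k) z = kap S k i z := rfl
  rw [hk]
  field_simp
  ring

lemma gp_ap (i : Fin 3) : Ap K₀ (fun N z => (nst S k ζ m s (w N) (π N) N).gp i z)
    (fun N z => ((pnt S k ζ m s N z).g + (pnt S k ζ m s N z).q) i) := by
  have e : ∀ N z, ((pnt S k ζ m s N z).g + (pnt S k ζ m s N z).q) i
      = S.gp i z + (Q1f S k ζ m s z * Real.cos (N * phx k z) * k i
        + Q2f S k ζ m s z * Real.cos (N * phy S.u k z) * kap S k i z) := by
    intro N z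
    rw [PiLp.add_apply, Req.pnt_q]
    rfl
  have hQ1 := h.Q1fs (m := m)
  have hQ2 := h.Q2fs (m := m)
  refine ⟨?_, ?_⟩
  · have h1 : O1 K₀ (fun N z => (N:ℝ)⁻¹ * (D (ev i) (Q1f S k ζ m s) z * Real.sin (N * phx k z)
        + D (ev i) (Q2f S k ζ m s) z * Real.sin (N * phy S.u k z))) :=
      O1.inv.mul (((B1.const h.hK (D_smooth hQ1 (ev i)).continuous).mul (B1.sin _)).add
        ((B1.const h.hK (D_smooth hQ2 (ev i)).continuous).mul (B1.sin _)))
    refine h1.congr fun N hN z _ => ?_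
    rw [hm.gp_eq h hN, e]
    ring
  · refine ((B1.const h.hK (h.good.gps i).continuous).add
      ((((B1.const h.hK hQ1.continuous).mul (B1.cos (fun N z => N * phx k z))).mul
        (B1.real (k i))).add
      (((B1.const h.hK hQ2.continuous).mul (B1.cos (fun N z => N * phy S.u k z))).mul
        (B1.const h.hK (h.kaps i).continuous)))).congr fun N hN z _ => ?_
    rw [e]

lemma w_close (i : Fin 3) : O1 K₀ (fun N z => w N i z) := by
  refine ⟨C, hm.C0, fun N hN z _ => (hm.w0 N hN i z).trans ?_⟩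
  have hN' : (1:ℝ) ≤ N := by exact_mod_cast hN
  refine div_le_div_of_nonneg_left hm.C0 (by linarith) (by nlinarith)

lemma acc_close (i : Fin 3) : O1 K₀ (fun N z => (nst S k ζ m s (w N) (π N) N).acc i z
    - S.acc i z) := by
  have hg := h.good
  have h1 : O1 K₀ (fun N z => D et (w N i) z) := ⟨C, hm.C0, fun N hN z _ => hm.wt N hN i z⟩
  have h2 : ∀ j, O1 K₀ (fun N z => D (ev j) (w N i) z) := fun j =>
    ⟨C, hm.C0, fun N hN z _ => hm.wx N hN i j z⟩
  have h3 : ∀ j, O1 K₀ (fun N z => D (ev j) (w N i) z * S.u j z) := fun j =>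
    (h2 j).mul (B1.const h.hK (hg.hu j).continuous)
  have h4 : ∀ j, O1 K₀ (fun N z => w N j z * D (ev j) (S.u i) z) := fun j =>
    (hm.w_close h j).mul (B1.const h.hK (D_smooth (hg.hu i) (ev j)).continuous)
  have h5 : ∀ j, O1 K₀ (fun N z => w N j z * D (ev j) (w N i) z) := fun j =>
    (hm.w_close h j).mul (h2 j).toB1
  refine (h1.add (O1.sum Finset.univ fun j _ => ((h3 j).add (h4 j)).add (h5 j))).congr
    fun N hN z _ => ?_
  unfold St.acc
  have : ∀ l, (nst S k ζ m s (w N) (π N) N).u l = fun z => S.u l z + w N l z := fun _ => rfl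
  simp only [this]
  rw [D_add (hg.hu i) (hm.ws N i)]
  have e1 : ∀ j, D (ev j) (fun z => S.u i z + w N i z) z
      = D (ev j) (S.u i) z + D (ev j) (w N i) z := fun j =>
    congrFun (D_add (hg.hu i) (hm.ws N i) (ev j)) z
  simp only [e1]
  have e2 : ∀ j, (S.u j z + w N j z) * (D (ev j) (S.u i) z + D (ev j) (w N i) z)
      = S.u j z * D (ev j) (S.u i) z + (D (ev j) (w N i) z * S.u j z
        + w N j z * D (ev j) (S.u i) z + w N j z * D (ev j) (w N i) z) := fun j => by ring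
  rw [Finset.sum_congr rfl fun j _ => e2 j, Finset.sum_add_distrib (f := fun j =>
    S.u j z * D (ev j) (S.u i) z)]
  ring

lemma acc_ap (i : Fin 3) : Ap K₀ (fun N z => m * (nst S k ζ m s (w N) (π N) N).acc i z)
    (fun _ z => m * S.acc i z) :=
  (Ap.refl (B1.real m)).mul ⟨hm.acc_close h i, B1.const h.hK (h.good.accs i).continuous⟩

lemma ucl (N : ℕ) (i : Fin 3) : tsupport (fun z => S.u i z + w N i z) ⊆ K₀ := by
  refine closure_minimal (fun z hz => ?_) h.hK.isClosed
  by_contra hcon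
  apply hz
  have e1 : S.u i z = 0 := image_eq_zero_of_notMem_tsupport fun h' => hcon (h.good.uK i h')
  have e2 : w N i z = 0 := hm.wz h N i fun h' => hcon (h.htK h')
  simp [e1, e2]

/-- closeness of the labels -/
lemma lab_ap : ∃ CL : ℝ, 0 ≤ CL ∧ ∀ N : ℕ, 1 ≤ N → ∀ z ∈ slab T₀, ∀ i,
    |lab (nst S k ζ m s (w N) (π N) N).u i z - lab S.u i z| ≤ CL / (N:ℝ) ^ 2 := by
  have hg := h.good
  obtain ⟨CL, hCL0, hCL⟩ := lab_close hg.hu (hg.ucs h.hK) T₀
  refine ⟨CL * C, mul_nonneg hCL0 hm.C0, fun N hN z hz i => ?_⟩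
  have hY := hCL (fun i z => S.u i z + w N i z) (fun i => (hg.hu i).add (hm.ws N i))
    (fun i => hcs_of_tsupport_subset h.hK (hm.ucl h N i)) (C / (N:ℝ) ^ 2)
    (fun i z => by simpa using hm.w0 N hN i z) z hz.1 hz.2 i
  rw [mul_div_assoc]
  exact hY

lemma R2_close : O1 (slab T₀) (fun N z => (nst S k ζ m s (w N) (π N) N).R2 z
    - S.R2 z * (1 + am2 S s z * Real.cos (N * phy S.u k z))) := by
  have hg := h.good
  obtain ⟨L, hL⟩ := hg.rlip
  obtain ⟨CL, hCL0, hCL⟩ := hm.lab_ap h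
  have hk0 : 0 ≤ ∑ i, |k i| := Finset.sum_nonneg fun i _ => abs_nonneg _
  refine ⟨(2 * L + ∑ i, |k i|) * (2 * CL), by positivity, fun N hN z hz => ?_⟩
  have hN' : (1:ℝ) ≤ N := by exact_mod_cast hN
  have hY := hCL N hN z hz
  set y' : E3 := vec fun i => lab (nst S k ζ m s (w N) (π N) N).u i z with hy'
  set y : E3 := vec fun i => lab S.u i z with hy
  have hd : dist y' y ≤ 2 * (CL / (N:ℝ) ^ 2) := by
    rw [dist_eq_norm]
    have : y' - y = vec fun i => lab (nst S k ζ m s (w N) (π N) N).u i z - lab S.u i z := by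
      ext i; simp [hy', hy]
    rw [this]
    exact norm_vec_le hY
  have f1 : (nst S k ζ m s (w N) (π N) N).R2 z
      = S.r y' * (1 + alf s (S.r y') * Real.cos (N * ∑ i, k i * y' i)) := rfl
  have f2 : S.R2 z * (1 + am2 S s z * Real.cos (N * phy S.u k z))
      = S.r y * (1 + alf s (S.r y) * Real.cos (N * ∑ i, k i * y i)) := rfl
  beta_reduce
  rw [f1, f2]
  refine (h.new_lip hL N y' y).trans ?_
  have h1 : (2 * (L:ℝ) + N * ∑ i, |k i|) ≤ N * (2 * L + ∑ i, |k i|) := by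
    have : 2 * (L:ℝ) * 1 ≤ 2 * (L:ℝ) * N := mul_le_mul_of_nonneg_left hN' (by positivity)
    linarith
  calc (2 * (L:ℝ) + N * ∑ i, |k i|) * dist y' y
      ≤ (N * (2 * L + ∑ i, |k i|)) * (2 * (CL / (N:ℝ) ^ 2)) := by
        refine mul_le_mul h1 hd dist_nonneg (by positivity)
    _ = (2 * L + ∑ i, |k i|) * (2 * CL) / N := by field_simp

lemma R2_ap : Ap K₀ (fun N z => (nst S k ζ m s (w N) (π N) N).R2 z)
    (fun N z => S.R2 z * (1 + am2 S s z * Real.cos (N * phy S.u k z))) := by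
  refine ⟨?_, ?_⟩
  · obtain ⟨C, h0, hC⟩ := hm.R2_close h
    exact ⟨C, h0, fun N hN z hz => hC N hN z (h.hKT hz)⟩
  · exact (B1.const h.hK (h.good.R2s h.hK).continuous).mul ((B1.real 1).add
      ((B1.const h.hK h.am2s.continuous).mul (B1.cos _)))

lemma R1_ap : Ap K₀ (fun N z => (nst S k ζ m s (w N) (π N) N).R1 z)
    (fun N z => S.R1 z * (1 + am1 S s z * Real.cos (N * phx k z))) :=
  Ap.refl ((B1.const h.hK h.good.R1s.continuous).mul ((B1.real 1).add
      ((B1.const h.hK h.am1s.continuous).mul (B1.cos _))))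

/-- the new error is close to the model error -/
lemma e_ap (i : Fin 3) : Ap K₀ (fun N z => em (nst S k ζ m s (w N) (π N) N) m i z)
    (fun N z => (pnt S k ζ m s N z).et' i) := by
  refine (((hm.acc_ap h i).add ((hm.R2_ap h).mul (hm.b_ap h i))).sub
    ((hm.R1_ap h).mul (hm.gp_ap h i))).congr (fun N _ z _ => rfl) fun N _ z _ => ?_
  unfold Pt.et'
  simp only [PiLp.add_apply, PiLp.sub_apply, PiLp.smul_apply, smul_eq_mul]
  rfl

/-- normalised specific volumes -/
lemma h2_ap : Ap K₀ (fun N z => hh (rho s ((nst S k ζ m s (w N) (π N) N).R2 z)))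
    (fun N z => hh (rho s (S.R2 z) + tau (rho s (S.R2 z)) * Real.cos (N * phy S.u k z))) := by
  have h1 : Ap K₀ (fun N z => ((nst S k ζ m s (w N) (π N) N).R2 z + -1) * s⁻¹)
      (fun N z => (S.R2 z * (1 + am2 S s z * Real.cos (N * phy S.u k z)) + -1) * s⁻¹) :=
    ((hm.R2_ap h).add (Ap.refl (B1.real (-1)))).mul (Ap.refl (B1.real _))
  refine ((Ap.refl (B1.real 2)).sub (h1.mul h1)).congr (fun N _ z _ => ?_) fun N _ z _ => ?_
  · unfold hh rho
    ring
  · rw [← rho_new h.s0 (h.R2ne z)]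
    unfold hh rho am2
    ring

lemma h1_ap : Ap K₀ (fun N z => hh (rho s ((nst S k ζ m s (w N) (π N) N).R1 z)))
    (fun N z => hh (rho s (S.R1 z) + tau (rho s (S.R1 z)) * Real.cos (N * phx k z))) := by
  have h1 : Ap K₀ (fun N z => ((nst S k ζ m s (w N) (π N) N).R1 z + -1) * s⁻¹)
      (fun N z => (S.R1 z * (1 + am1 S s z * Real.cos (N * phx k z)) + -1) * s⁻¹) :=
    ((hm.R1_ap h).add (Ap.refl (B1.real (-1)))).mul (Ap.refl (B1.real _))
  refine ((Ap.refl (B1.real 2)).sub (h1.mul h1)).congr (fun N _ z _ => ?_) fun N _ z _ => ?_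
  · unfold hh rho
    ring
  · rw [← rho_new h.s0 (h.R1ne z)]
    unfold hh rho am1
    ring

end Mic

end

end Pool.Agent.K6.H24.MH
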