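import Pool.Agent.K6.H24.MH.MP

open scoped ContDiff ENNReal
open Set MeasureTheory Filter Topology

namespace Pool.Agent.K6.H24.MH

open Pool.Agent.H729R2 (E3 X ev et D St Good lab vec phx phy slab O1 B1 nv n2 vK)
open Pool.Agent.H729R2

noncomputable section

set_option linter.unusedSectionVars false

/-- convergence of compositions with maps of bounded distortion -/
lemma comp_conv {α ι : Type} [MeasurableSpace α] {μ : Measure α} [IsFiniteMeasure μ]
    {ν : Measure E3} [ν.Regular] {l : Filter ι} {f : ι → α → E3} {g : α → E3}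
    (hf : ∀ i, Measurable (f i)) (hg : Measurable g) (hfν : ∀ i, μ.map (f i) ≤ ν)
    (hgν : μ.map g ≤ ν) (hfg : ∀ ε > 0, ∀ᶠ i in l, ∀ᵐ x ∂μ, ‖f i x - g x‖ ≤ ε)
    {p : ℝ≥0∞} (hp1 : 1 ≤ p) (hp : p ≠ ⊤) {r : ι → E3 → ℝ} {rL : E3 → ℝ}
    (rm : ∀ i, Measurable (r i)) (rLm : Measurable rL) (rLp : MemLp rL p ν)
    (hr : Tendsto (fun i => eLpNorm (fun x => r i x - rL x) p ν) l (𝓝 0)) :
    Tendsto (fun i => eLpNorm (fun x => r i (f i x) - rL (g x)) p μ) l (𝓝 0) := by
  rw [ENNReal.tendsto_nhds_zero]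
  intro ε hε
  rcases eq_or_ne ε ⊤ with rfl | hεt
  · exact Eventually.of_forall fun _ => le_top
  have hε4 : ε / 4 ≠ 0 := (ENNReal.div_pos hε.ne' (by norm_num)).ne'
  obtain ⟨h, hhs, hhε, hhc, hhm⟩ := rLp.exists_hasCompactSupport_eLpNorm_sub_le hp hε4
  have hmap : ∀ {F : E3 → ℝ} {w : α → E3}, Measurable F → Measurable w → μ.map w ≤ ν →
      eLpNorm (fun x => F (w x)) p μ ≤ eLpNorm F p ν := by
    intro F w hF hw hwν
    have h1 := eLpNorm_map_measure (p := p) (μ := μ) hF.aestronglyMeasurable hw.aemeasurable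
    have h2 : eLpNorm (fun x => F (w x)) p μ = eLpNorm F p (μ.map w) := h1.symm
    rw [h2]
    exact eLpNorm_mono_measure F hwν
  -- uniform continuity
  have huc : UniformContinuous h := hhs.uniformContinuous_of_continuous hhc
  obtain ⟨κ, hκ0, hκ⟩ : ∃ κ : ℝ, 0 < κ ∧ μ univ ^ p.toReal⁻¹ * ENNReal.ofReal κ ≤ ε / 4 := by
    have hc : μ univ ^ p.toReal⁻¹ ≠ ⊤ := by
      refine (ENNReal.rpow_lt_top_of_nonneg (by positivity) (measure_ne_top μ univ)).ne
    have ht : Tendsto (fun κ : ℝ => μ univ ^ p.toReal⁻¹ * ENNReal.ofReal κ) (𝓝[>] 0)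
        (𝓝 (μ univ ^ p.toReal⁻¹ * ENNReal.ofReal 0)) := by
      refine ENNReal.Tendsto.const_mul ?_ (Or.inr hc)
      exact (ENNReal.continuous_ofReal.tendsto 0).mono_left nhdsWithin_le_nhds
    rw [ENNReal.ofReal_zero, mul_zero] at ht
    have h1 := (ENNReal.tendsto_nhds_zero.1 ht) (ε / 4) (pos_iff_ne_zero.2 hε4)
    obtain ⟨κ, h2, h3⟩ := (h1.and self_mem_nhdsWithin).exists
    exact ⟨κ, h3, h2⟩
  obtain ⟨δ, hδ0, hδ⟩ := Metric.uniformContinuous_iff.1 huc κ hκ0
  filter_upwards [(ENNReal.tendsto_nhds_zero.1 hr) (ε / 4) (pos_iff_ne_zero.2 hε4),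
    hfg (δ / 2) (by positivity)] with i h1 h2
  have hhme : Measurable h := hhc.measurable
  have e : (fun x => r i (f i x) - rL (g x)) = fun x => ((r i (f i x) - rL (f i x))
      + (rL (f i x) - h (f i x))) + ((h (f i x) - h (g x)) + (h (g x) - rL (g x))) := by
    ext x; ring
  have t1 : eLpNorm (fun x => r i (f i x) - rL (f i x)) p μ ≤ ε / 4 :=
    (hmap ((rm i).sub rLm) (hf i) (hfν i)).trans h1
  have t2 : eLpNorm (fun x => rL (f i x) - h (f i x)) p μ ≤ ε / 4 :=
    (hmap (rLm.sub hhme) (hf i) (hfν i)).trans hhε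
  have t3 : eLpNorm (fun x => h (f i x) - h (g x)) p μ ≤ ε / 4 := by
    refine (eLpNorm_le_of_ae_bound (C := κ) ?_).trans hκ
    filter_upwards [h2] with x hx
    have := hδ (a := f i x) (b := g x) (by rw [dist_eq_norm]; linarith)
    rw [Real.dist_eq] at this
    rw [Real.norm_eq_abs]
    exact this.le
  have t4 : eLpNorm (fun x => h (g x) - rL (g x)) p μ ≤ ε / 4 := by
    refine (hmap (hhme.sub rLm) hg hgν).trans ?_
    rw [← neg_sub rL h, eLpNorm_neg]
    exact hhε
  have m1 : AEStronglyMeasurable (fun x => r i (f i x) - rL (f i x)) μ :=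
    (((rm i).comp (hf i)).sub (rLm.comp (hf i))).aestronglyMeasurable
  have m2 : AEStronglyMeasurable (fun x => rL (f i x) - h (f i x)) μ :=
    ((rLm.comp (hf i)).sub (hhme.comp (hf i))).aestronglyMeasurable
  have m3 : AEStronglyMeasurable (fun x => h (f i x) - h (g x)) μ :=
    ((hhme.comp (hf i)).sub (hhme.comp hg)).aestronglyMeasurable
  have m4 : AEStronglyMeasurable (fun x => h (g x) - rL (g x)) μ :=
    ((hhme.comp hg).sub (rLm.comp hg)).aestronglyMeasurable
  rw [e]
  have s1 := eLpNorm_add_le (m1.add m2) (m3.add m4) hp1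
  have s2 := eLpNorm_add_le m1 m2 hp1
  have s3 := eLpNorm_add_le m3 m4 hp1
  refine s1.trans (((add_le_add s2 s3).trans (add_le_add (add_le_add t1 t2)
    (add_le_add t3 t4))).trans (le_of_eq ?_))
  have h4 : ε = 4 * (ε / 4) := (ENNReal.mul_div_cancel (by norm_num) (by norm_num)).symm
  conv_rhs => rw [h4]
  ring

/-- bounded almost everywhere convergence on a set -/
structure BA (A : Set X) (F : ℕ → X → ℝ) (f : X → ℝ) : Prop where
  meas : ∀ n, AEStronglyMeasurable (F n) (volume.restrict A)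
  bdd : ∃ C : ℝ, 0 ≤ C ∧ ∀ n, ∀ z ∈ A, |F n z| ≤ C
  lim : ∀ᵐ z ∂((volume : Measure X).restrict A), Tendsto (fun n => F n z) atTop (𝓝 (f z))

variable {A : Set X} {F G : ℕ → X → ℝ} {f g : X → ℝ}

lemma BA.of_BT (hA : MeasurableSet A) (h : BT A F f) : BA A F f :=
  ⟨fun n => (h.cont n).aestronglyMeasurable, h.bdd,
    (ae_restrict_iff' hA).2 (Eventually.of_forall fun z hz => h.lim z hz)⟩

lemma BA.add (hF : BA A F f) (hG : BA A G g) : BA A (fun n z => F n z + G n z)
    (fun z => f z + g z) := by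
  refine ⟨fun n => (hF.meas n).add (hG.meas n), ?_, ?_⟩
  · obtain ⟨C, h0, h⟩ := hF.bdd
    obtain ⟨C', h0', h'⟩ := hG.bdd
    exact ⟨C + C', by positivity, fun n z hz =>
      (abs_add_le _ _).trans (add_le_add (h n z hz) (h' n z hz))⟩
  · filter_upwards [hF.lim, hG.lim] with z h1 h2
    exact h1.add h2

lemma BA.mul (hF : BA A F f) (hG : BA A G g) : BA A (fun n z => F n z * G n z)
    (fun z => f z * g z) := by
  refine ⟨fun n => (hF.meas n).mul (hG.meas n), ?_, ?_⟩
  · obtain ⟨C, h0, h⟩ := hF.bdd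
    obtain ⟨C', h0', h'⟩ := hG.bdd
    refine ⟨C * C', by positivity, fun n z hz => ?_⟩
    rw [abs_mul]
    exact mul_le_mul (h n z hz) (h' n z hz) (abs_nonneg _) h0
  · filter_upwards [hF.lim, hG.lim] with z h1 h2
    exact h1.mul h2

lemma BA.mono {B : Set X} (h : BA A F f) (hB : B ⊆ A) : BA B F f := by
  obtain ⟨C, h0, hC⟩ := h.bdd
  exact ⟨fun n => (h.meas n).mono_measure (Measure.restrict_mono hB le_rfl),
    ⟨C, h0, fun n z hz => hC n z (hB hz)⟩, ae_restrict_of_ae_restrict_of_subset hB h.lim⟩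

/-- reciprocals -/
lemma BA.inv (h : BA A F f) (hF : ∀ n z, 1 / 2 ≤ F n z) :
    BA A (fun n z => 1 / F n z) (fun z => 1 / f z) := by
  refine ⟨fun n => (aestronglyMeasurable_const.div₀ (h.meas n)),
    ⟨2, by norm_num, fun n z _ => ?_⟩, ?_⟩
  · have := hF n z
    rw [abs_of_nonneg (by positivity), div_le_iff₀ (by linarith)]
    linarith
  · filter_upwards [h.lim] with z hz
    have : 1 / 2 ≤ f z := ge_of_tendsto' hz fun n => hF n z
    exact tendsto_const_nhds.div hz (by linarith)

lemma BA.int (hA : IsCompact A) (h : BA A F f) :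
    Tendsto (fun n => ∫ z in A, F n z) atTop (𝓝 (∫ z in A, f z)) := by
  obtain ⟨C, h0, hC⟩ := h.bdd
  refine tendsto_integral_of_dominated_convergence (fun _ => C) h.meas ?_ (fun n => ?_) h.lim
  · exact integrableOn_const hA.measure_lt_top.ne
  · exact (ae_restrict_iff' hA.measurableSet).2 (Eventually.of_forall fun z hz => hC n z hz)

lemma BA.lim_meas (h : BA A F f) : AEStronglyMeasurable f (volume.restrict A) :=
  aestronglyMeasurable_of_tendsto_ae atTop h.meas h.lim

lemma BA.lim_bdd (hA : MeasurableSet A) (h : BA A F f) :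
    ∃ C : ℝ, 0 ≤ C ∧ ∀ᵐ z ∂((volume : Measure X).restrict A), |f z| ≤ C := by
  obtain ⟨C, h0, hC⟩ := h.bdd
  refine ⟨C, h0, ?_⟩
  filter_upwards [h.lim, ae_restrict_mem hA] with z h1 h2
  exact le_of_tendsto' h1.abs fun n => hC n z h2

/-- pairing with a sequence tending to zero in `L²` -/
lemma BA.int_zero (hA : IsCompact A) (h : BA A F f) {G : ℕ → X → ℝ}
    (hG : ∀ n, MemLp (G n) 2 (volume : Measure X))
    (ht : Tendsto (fun n => n2 (G n)) atTop (𝓝 0)) :
    Tendsto (fun n => ∫ z in A, F n z * G n z) atTop (𝓝 0) := by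
  obtain ⟨C, h0, hC⟩ := h.bdd
  refine squeeze_zero_norm (a := fun n => C * vK A * n2 (G n)) (fun n => ?_) ?_
  · exact cs_bound hA (hG n) h0 (hC n)
  · have := ht.const_mul (C * vK A)
    simpa using this

/-- Cauchy-Schwarz -/
lemma cs_X {a b : X → ℝ} (ha : MemLp a 2 (volume : Measure X))
    (hb : MemLp b 2 (volume : Measure X)) : |∫ z, a z * b z| ≤ n2 a * n2 b := by
  have h1 : |∫ z, a z * b z| ≤ ∫ z, ‖a z‖ * ‖b z‖ := by
    rw [← Real.norm_eq_abs]
    refine (norm_integral_le_integral_norm (fun z => a z * b z)).trans (le_of_eq ?_)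
    simp only [norm_mul]
  have h4 := integral_mul_norm_le_Lp_mul_Lq (μ := (volume : Measure X))
    (f := a) (g := b) Real.HolderConjugate.two_two (by simpa using ha) (by simpa using hb)
  refine h1.trans (h4.trans (le_of_eq ?_))
  have h5 : ∀ {f : X → ℝ}, MemLp f 2 (volume : Measure X) →
      (∫ z, ‖f z‖ ^ (2:ℝ)) ^ (1 / (2:ℝ)) = n2 f := by
    intro f hf
    have h6 := n2_sq hf
    have h7 : ∫ z, ‖f z‖ ^ (2:ℝ) = n2 f ^ 2 := by
      rw [h6]
      refine integral_congr_ae (Eventually.of_forall fun z => ?_)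
      beta_reduce
      rw [Real.rpow_two, Real.norm_eq_abs, sq_abs]
    rw [h7, ← Real.sqrt_eq_rpow, Real.sqrt_sq (n2_nonneg _)]
  rw [h5 ha, h5 hb]

/-- pairing with a weakly convergent sequence -/
lemma BA.intW (hA : IsCompact A) (h : BA A F f) {G : ℕ → X → ℝ} {g : X → ℝ} {l : Filter ℕ}
    (hl : l ≤ atTop) (hG : ∀ n, MemLp (G n) 2 (volume : Measure X)) {C' : ℝ}
    (hGb : ∀ n, n2 (G n) ≤ C')
    (ht : ∀ h, MemLp h 2 (volume : Measure X) →
      Tendsto (fun n => ∫ z, G n z * h z) l (𝓝 (∫ z, g z * h z))) :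
    Tendsto (fun n => ∫ z in A, F n z * G n z) l (𝓝 (∫ z in A, f z * g z)) := by
  obtain ⟨C, h0, hC⟩ := h.bdd
  have hfin : IsFiniteMeasure ((volume : Measure X).restrict A) :=
    ⟨by rw [Measure.restrict_apply_univ]; exact hA.measure_lt_top⟩
  have hfm := h.lim_meas
  obtain ⟨Cf, hCf0, hCf⟩ := h.lim_bdd hA.measurableSet
  have hfM : MemLp (A.indicator f) 2 (volume : Measure X) := by
    rw [memLp_indicator_iff_restrict hA.measurableSet]
    exact MemLp.of_bound hfm Cf hCf
  have hFM : ∀ n, MemLp (A.indicator (F n)) 2 (volume : Measure X) := by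
    intro n
    rw [memLp_indicator_iff_restrict hA.measurableSet]
    exact MemLp.of_bound (h.meas n) C
      ((ae_restrict_iff' hA.measurableSet).2 (Eventually.of_forall fun z hz => hC n z hz))
  have hdM : ∀ n, MemLp (fun z => A.indicator (F n) z - A.indicator f z) 2
      (volume : Measure X) := fun n => (hFM n).sub hfM
  -- strong convergence of the factor
  have hs : Tendsto (fun n => n2 (fun z => A.indicator (F n) z - A.indicator f z)) atTop
      (𝓝 0) := by
    have h1 : Tendsto (fun n => ∫ z in A, (F n z - f z) ^ 2) atTop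
        (𝓝 (∫ z in A, (0:ℝ))) := by
      refine tendsto_integral_of_dominated_convergence (fun _ => (C + Cf) ^ 2)
        (fun n => ((h.meas n).sub hfm).pow 2) (integrable_const _) (fun n => ?_) ?_
      · filter_upwards [hCf, ae_restrict_mem hA.measurableSet] with z h2 h3
        rw [Real.norm_eq_abs, abs_of_nonneg (sq_nonneg _), ← sq_abs]
        refine pow_le_pow_left₀ (abs_nonneg _) ?_ 2
        have h4 := hC n z h3
        have h5 : |F n z - f z| ≤ |F n z| + |f z| := abs_sub _ _
        linarith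
      · filter_upwards [h.lim] with z hz
        have h2 := (hz.sub_const (f z)).pow 2
        simpa using h2
    rw [integral_zero] at h1
    have h2 : ∀ n, n2 (fun z => A.indicator (F n) z - A.indicator f z)
        = Real.sqrt (∫ z in A, (F n z - f z) ^ 2) := by
      intro n
      rw [← Real.sqrt_sq (n2_nonneg _), n2_sq (hdM n), ← integral_indicator hA.measurableSet]
      congr 1
      refine integral_congr_ae (Eventually.of_forall fun z => ?_)
      by_cases hz : z ∈ A <;> simp [hz]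
    simp only [h2]
    have h3 := (Real.continuous_sqrt.tendsto 0).comp h1
    simpa [Function.comp_def] using h3
  have e1 : ∀ n, ∫ z in A, F n z * G n z
      = (∫ z, (A.indicator (F n) z - A.indicator f z) * G n z)
        + ∫ z, G n z * A.indicator f z := by
    intro n
    have j1 : Integrable (fun z => (A.indicator (F n) z - A.indicator f z) * G n z) :=
      (hdM n).integrable_mul (hG n)
    have j2 : Integrable (fun z => G n z * A.indicator f z) := (hG n).integrable_mul hfM
    rw [← integral_indicator hA.measurableSet, ← integral_add j1 j2]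
    refine integral_congr_ae (Eventually.of_forall fun z => ?_)
    by_cases hz : z ∈ A
    · simp [hz]; ring
    · simp [hz]
  have e2 : ∫ z in A, f z * g z = ∫ z, g z * A.indicator f z := by
    rw [← integral_indicator hA.measurableSet]
    refine integral_congr_ae (Eventually.of_forall fun z => ?_)
    by_cases hz : z ∈ A
    · simp [hz]; ring
    · simp [hz]
  simp only [e1, e2]
  have t1 : Tendsto (fun n => ∫ z, (A.indicator (F n) z - A.indicator f z) * G n z) l (𝓝 0) := by
    refine Tendsto.mono_left ?_ hl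
    refine squeeze_zero_norm (a := fun n =>
      n2 (fun z => A.indicator (F n) z - A.indicator f z) * C') (fun n => ?_) ?_
    · refine (cs_X (hdM n) (hG n)).trans ?_
      exact mul_le_mul_of_nonneg_left (hGb n) (n2_nonneg _)
    · have := hs.mul_const C'
      simpa using this
  have := t1.add (ht _ hfM)
  simpa using this

/-- weak limits in `L²` along an ultrafilter -/
lemma exists_weak {G : ℕ → X → ℝ} (hG : ∀ n, MemLp (G n) 2 (volume : Measure X)) {C : ℝ}
    (hGb : ∀ n, n2 (G n) ≤ C) (l : Ultrafilter ℕ) :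
    ∃ g : X → ℝ, MemLp g 2 (volume : Measure X) ∧ ∀ h, MemLp h 2 (volume : Measure X) →
      Tendsto (fun n => ∫ z, G n z * h z) l (𝓝 (∫ z, g z * h z)) := by
  set H := Lp ℝ 2 (volume : Measure X) with hH
  set v : ℕ → H := fun n => (hG n).toLp (G n) with hv
  have hvn : ∀ n, ‖v n‖ ≤ C := fun n => by
    rw [hv, Lp.norm_toLp]
    exact hGb n
  set w : ℕ → WeakDual ℝ H := fun n => StrongDual.toWeakDual (InnerProductSpace.toDual ℝ H (v n))
    with hw
  have hmem : ∀ n, w n ∈ WeakDual.toStrongDual ⁻¹' Metric.closedBall (0 : StrongDual ℝ H) C := by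
    intro n
    simp only [mem_preimage, mem_closedBall_zero_iff]
    change ‖InnerProductSpace.toDual ℝ H (v n)‖ ≤ C
    rw [LinearIsometryEquiv.norm_map]
    exact hvn n
  obtain ⟨x, -, hx⟩ := (WeakDual.isCompact_closedBall (0 : StrongDual ℝ H) C).ultrafilter_le_nhds'
    (l.map w) (by
      rw [Ultrafilter.mem_map]
      exact Filter.univ_mem' hmem)
  set g : H := (InnerProductSpace.toDual ℝ H).symm (WeakDual.toStrongDual x) with hg
  refine ⟨g, Lp.memLp g, fun h hh => ?_⟩
  have h1 : Tendsto w l (𝓝 x) := hx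
  have h2 : Tendsto (fun n => w n (hh.toLp h)) l (𝓝 (x (hh.toLp h))) :=
    ((WeakDual.eval_continuous (hh.toLp h)).tendsto x).comp h1
  have e1 : ∀ n, w n (hh.toLp h) = ∫ z, G n z * h z := by
    intro n
    change (InnerProductSpace.toDual ℝ H (v n)) (hh.toLp h) = _
    rw [InnerProductSpace.toDual_apply_apply, L2.inner_def]
    refine integral_congr_ae ?_
    filter_upwards [(hG n).coeFn_toLp, hh.coeFn_toLp] with z h3 h4
    simp only [hv, RCLike.inner_apply, conj_trivial]
    rw [h3, h4]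
    ring
  have e2 : x (hh.toLp h) = ∫ z, g z * h z := by
    have h5 : x (hh.toLp h) = inner ℝ g (hh.toLp h) := by
      rw [hg, ← InnerProductSpace.toDual_apply_apply, LinearIsometryEquiv.apply_symm_apply]
      rfl
    rw [h5, L2.inner_def]
    refine integral_congr_ae ?_
    filter_upwards [hh.coeFn_toLp] with z h4
    simp only [RCLike.inner_apply, conj_trivial]
    rw [h4]
    ring
  simp only [e1, e2] at h2
  exact h2

end

end Pool.Agent.K6.H24.MH
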