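import Pool.Agent.K6.H24.MH.Fn2

open scoped ContDiff ENNReal
open Set MeasureTheory Filter Topology

namespace Pool.Agent.K6.H24.MH

open Pool.Agent.H729R2 (E3 X ev et D St Good lab vec phx phy slab O1 B1 nv n2 vK)
open Pool.Agent.H729R2 Pool.Agent.H729R2.MHD

noncomputable section

set_option linter.unusedSectionVars false

/-- the weak form of the second momentum equation for one state -/
lemma second_eqm {K₀ : Set X} {S : St} (h : Good K₀ S) (hK : IsCompact K₀) (m : ℝ)
    {φ : Fin 3 → X → ℝ} (hφ : ∀ i, ContDiff ℝ ∞ (φ i))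
    (hc : ∀ i, HasCompactSupport (φ i)) (hdiv : ∀ z ∈ K₀, ∑ i, D (ev i) (φ i) z = 0) :
    m * (∑ i, ∫ z in K₀, P2 S z * (S.u i z * (D et (φ i) z + ∑ j, S.u j z * D (ev j) (φ i) z)))
      - (∑ i, ∑ j, ∫ z in K₀, (D (ev j) (S.u i) z + D (ev i) (S.u j) z) * D (ev j) (φ i) z)
      + ∑ i, ∫ z in K₀, (P2 S z * φ i z) * ff S i z
      = - ∑ i, ∫ z in K₀, (P2 S z * φ i z) * em S m i z := by
  have h1 := h.second_eq hK hφ hc hdiv
  have hu0 : ∀ i z, z ∉ K₀ → S.u i z = 0 := fun i z hz =>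
    image_eq_zero_of_notMem_tsupport fun h' => hz (h.uK i h')
  have r1 : ∀ i, ∫ z in K₀, P2 S z * (S.u i z * (D et (φ i) z + ∑ j, S.u j z * D (ev j) (φ i) z))
      = - ∫ z, P2 S z * (S.acc i z * φ i z) := fun i => by
    rw [setIntegral_eq_integral_of_forall_compl_eq_zero (fun z hz => by simp [hu0 i z hz]),
      h.acc_eq hK hφ hc i, neg_neg]
  have i1 : ∀ i, Integrable (fun z => P2 S z * (S.acc i z * φ i z)) (volume : Measure X) :=
    fun i => int_cc ((h.P2s hK).mul ((h.accs i).mul (hφ i))) (hc i).mul_left.mul_left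
  have i2 : ∀ i, Integrable (fun z => (P2 S z * φ i z) * S.e i z) (volume : Measure X) := fun i =>
    int_cc (((h.P2s hK).mul (hφ i)).mul (h.es hK i)) ((hc i).mul_left).mul_right
  have r4 : ∀ i, ∫ z in K₀, (P2 S z * φ i z) * S.e i z
      = ∫ z, (P2 S z * φ i z) * S.e i z := fun i =>
    setIntegral_eq_integral_of_forall_compl_eq_zero (fun z hz => by simp [h.e_zero hz])
  have r5 : ∀ i, ∫ z in K₀, (P2 S z * φ i z) * em S m i z
      = (m - 1) * (∫ z, P2 S z * (S.acc i z * φ i z)) + ∫ z in K₀, (P2 S z * φ i z) * S.e i z := by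
    intro i
    rw [r4, setIntegral_eq_integral_of_forall_compl_eq_zero (fun z hz => by
      simp [em_zero' h hz]), ← integral_const_mul, ← integral_add ((i1 i).const_mul _) (i2 i)]
    refine integral_congr_ae (Eventually.of_forall fun z => ?_)
    beta_reduce
    unfold em St.e
    ring
  simp only [r1, Finset.sum_neg_distrib] at h1 ⊢
  simp only [r5, Finset.sum_add_distrib, ← Finset.mul_sum]
  linarith

namespace LL

variable {K₀ : Set X} {R T s m : ℝ} {l : Filter ℕ} {S : ℕ → St} {uL tL : Fin 3 → X → ℝ}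
    {xL : Fin 3 → Fin 3 → X → ℝ} {YL : Fin 3 → X → ℝ} {rL : E3 → ℝ} {fL : Fin 3 → X → ℝ}
    (h : LL K₀ R T s m l S uL tL xL YL rL fL) (hK : IsCompact K₀)
    (hKA : K₀ ⊆ Icc 0 T ×ˢ Metric.closedBall (0:E3) R)
include h

lemma ba_P2 : BA (Icc 0 T ×ˢ Metric.closedBall (0:E3) R) (fun n => P2 (S n))
    (fun z => 1 / rL (vec fun i => YL i z)) :=
  BA.inv h.R2l fun n z => (h.good n).rlo _

lemma ba_P1 : BA (Icc 0 T ×ˢ Metric.closedBall (0:E3) R) (fun n => P1 (S n))
    (fun z => 1 / rL z.2) :=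
  BA.inv h.R1l fun n z => (h.good n).rlo _

lemma ba_u {A : Set X} (hA : IsCompact A) (i : Fin 3) : BA A (fun n => (S n).u i) (uL i) :=
  BA.of_BT hA.measurableSet (h.bt_u hA i)

omit h in
lemma ba_c {A : Set X} (hA : IsCompact A) {F : X → ℝ} (hF : Continuous F) :
    BA A (fun _ => F) F := BA.of_BT hA.measurableSet (BT.const hA hF)

include hK

lemma transport_lim {ψ : X → ℝ} (hψ : ContDiff ℝ ∞ ψ) (hc : HasCompactSupport ψ)
    (hT : tsupport ψ ⊆ Icc 0 T ×ˢ Metric.closedBall (0:E3) R) :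
    ∫ z in tsupport ψ, 1 / rL (vec fun i => YL i z) * (D et ψ z + ∑ j, uL j z * D (ev j) ψ z)
      = 0 := by
  have hA : IsCompact (tsupport ψ) := hc
  have h0 : BT (tsupport ψ) (fun n z => D et ψ z + ∑ j, (S n).u j z * D (ev j) ψ z)
      (fun z => D et ψ z + ∑ j, uL j z * D (ev j) ψ z) :=
    (BT.const hA (D_smooth hψ et).continuous).add
      (BT.sum Finset.univ fun j _ => (h.bt_u hA j).mul
        (BT.const hA (D_smooth hψ (ev j)).continuous))
  have h1 := (h.ba_P2.mono hT).mul (BA.of_BT hA.measurableSet h0)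
  have h2 := h1.int hA
  have h3 : ∀ n, ∫ z in tsupport ψ, P2 (S n) z * (D et ψ z + ∑ j, (S n).u j z * D (ev j) ψ z)
      = 0 := by
    intro n
    rw [setIntegral_eq_integral_of_forall_compl_eq_zero (fun z hz => ?_)]
    · exact (h.good n).transport_eq hK hψ hc
    · rw [D_eq_zero_of_notMem _ hz]
      have : ∀ j, D (ev j) ψ z = 0 := fun j => D_eq_zero_of_notMem _ hz
      simp [this]
  simp only [h3] at h2
  exact (tendsto_nhds_unique h2 tendsto_const_nhds)

lemma ffm (n : ℕ) (i : Fin 3) : MemLp (ff (S n) i) 2 (volume : Measure X) :=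
  memLp_cc (((h.good n).R1s.mul ((h.good n).gps i)).continuous)
    (HasCompactSupport.intro hK fun z hz => by simp [ff, (h.good n).gp_zero hz])

include hKA

lemma second_lim {φ : Fin 3 → X → ℝ} (hφ : ∀ i, ContDiff ℝ ∞ (φ i))
    (hc : ∀ i, HasCompactSupport (φ i)) (hdiv : ∀ z ∈ K₀, ∑ i, D (ev i) (φ i) z = 0) :
    m * (∑ i, ∫ z in K₀, 1 / rL (vec fun i => YL i z) *
        (uL i z * (D et (φ i) z + ∑ j, uL j z * D (ev j) (φ i) z)))
      - (∑ i, ∑ j, ∫ z in K₀, (xL i j z + xL j i z) * D (ev j) (φ i) z)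
      + ∑ i, ∫ z in K₀, (1 / rL (vec fun i => YL i z) * φ i z) * fL i z = 0 := by
  have := h.ln
  have hP := h.ba_P2.mono hKA
  have hφc : ∀ i, BA K₀ (fun _ => φ i) (φ i) := fun i => ba_c hK (hφ i).continuous
  have t1 : ∀ i, Tendsto (fun n => ∫ z in K₀, P2 (S n) z * ((S n).u i z * (D et (φ i) z
      + ∑ j, (S n).u j z * D (ev j) (φ i) z))) atTop
      (𝓝 (∫ z in K₀, 1 / rL (vec fun i => YL i z) *
        (uL i z * (D et (φ i) z + ∑ j, uL j z * D (ev j) (φ i) z)))) := by
    intro i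
    have b : BT K₀ (fun n z => (S n).u i z * (D et (φ i) z
      + ∑ j, (S n).u j z * D (ev j) (φ i) z))
      (fun z => uL i z * (D et (φ i) z + ∑ j, uL j z * D (ev j) (φ i) z)) :=
      (h.bt_u hK i).mul ((BT.const hK (D_smooth (hφ i) et).continuous).add
        (BT.sum Finset.univ fun j _ => (h.bt_u hK j).mul
          (BT.const hK (D_smooth (hφ i) (ev j)).continuous)))
    exact (hP.mul (BA.of_BT hK.measurableSet b)).int hK
  have t2 : ∀ i j, Tendsto (fun n => ∫ z in K₀, (D (ev j) ((S n).u i) z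
      + D (ev i) ((S n).u j) z) * D (ev j) (φ i) z) atTop
      (𝓝 (∫ z in K₀, (xL i j z + xL j i z) * D (ev j) (φ i) z)) :=
    fun i j => BT.int hK (((h.bt_x hK i j).add (h.bt_x hK j i)).mul
      (BT.const hK (D_smooth (hφ i) (ev j)).continuous))
  obtain ⟨C, hC⟩ := h.fb
  have t3 : ∀ i, Tendsto (fun n => ∫ z in K₀, (P2 (S n) z * φ i z) * ff (S n) i z) l
      (𝓝 (∫ z in K₀, (1 / rL (vec fun i => YL i z) * φ i z) * fL i z)) := fun i =>
    BA.intW hK (hP.mul (hφc i)) h.la (fun n => h.ffm hK n i) (fun n => hC n i) (h.fl i)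
  have t4 : ∀ i, Tendsto (fun n => ∫ z in K₀, (P2 (S n) z * φ i z) * em (S n) m i z) atTop
      (𝓝 0) := fun i => BA.int_zero hK (hP.mul (hφc i)) (fun n =>
      memLp_cc (em_smooth (h.good n) hK i).continuous
      (HasCompactSupport.intro hK fun z hz => em_zero' (h.good n) hz i)) (h.el i)
  have T1 := (tendsto_finsetSum Finset.univ fun i _ => t1 i).const_mul m
  have T2 := tendsto_finsetSum Finset.univ fun i _ =>
    tendsto_finsetSum Finset.univ fun j _ => t2 i j
  have T3 := tendsto_finsetSum Finset.univ fun i _ => t3 i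
  have T4 := (tendsto_finsetSum Finset.univ fun i _ => t4 i).neg
  have T := ((T1.sub T2).mono_left h.la).add T3
  have T' := T.congr fun n => second_eqm (h.good n) hK m hφ hc hdiv
  have := tendsto_nhds_unique T' (T4.mono_left h.la)
  simpa using this

lemma first_lim {φ : Fin 3 → X → ℝ} (hφ : ∀ i, ContDiff ℝ ∞ (φ i))
    (hc : ∀ i, HasCompactSupport (φ i)) (hdiv : ∀ z ∈ K₀, ∑ i, D (ev i) (φ i) z = 0) :
    ∑ i, ∫ z in K₀, (1 / rL z.2 * φ i z) * fL i z = 0 := by
  have := h.ln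
  have hP := h.ba_P1.mono hKA
  have hφc : ∀ i, BA K₀ (fun _ => φ i) (φ i) := fun i => ba_c hK (hφ i).continuous
  obtain ⟨C, hC⟩ := h.fb
  have t3 : ∀ i, Tendsto (fun n => ∫ z in K₀, (P1 (S n) z * φ i z) * ff (S n) i z) l
      (𝓝 (∫ z in K₀, (1 / rL z.2 * φ i z) * fL i z)) := fun i =>
    BA.intW hK (hP.mul (hφc i)) h.la (fun n => h.ffm hK n i) (fun n => hC n i) (h.fl i)
  have T3 := tendsto_finsetSum Finset.univ fun i _ => t3 i
  have T' := T3.congr fun n => (h.good n).first_eq hK hφ hc hdiv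
  exact (tendsto_nhds_unique T' tendsto_const_nhds)

omit hK hKA

lemma gcont : Continuous fun z => vec fun i => YL i z := by
  have h1 := contDiff_vec (n := 0) (f := YL) fun i => contDiff_zero.2 (h.Yc i)
  exact h1.continuous

lemma P2m : Measurable fun z => 1 / rL (vec fun i => YL i z) :=
  measurable_const.div (h.rm.comp h.gcont.measurable)

lemma P1m : Measurable fun z : X => 1 / rL z.2 :=
  measurable_const.div (h.rm.comp measurable_snd)

lemma inv_bdd (hs : 0 < s) (hs1 : s ≤ 1 / 10000) (x : E3) :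
    1 / 2 ≤ 1 / rL x ∧ 1 / rL x ≤ 2 := by
  rcases h.r2 x with hx | hx
  · rw [hx]
    constructor
    · rw [le_div_iff₀ (by linarith)]; linarith
    · rw [div_le_iff₀ (by linarith)]; linarith
  · rw [hx]
    constructor
    · rw [le_div_iff₀ (by linarith)]; linarith
    · rw [div_le_iff₀ (by linarith)]; linarith

lemma bdd_mul {P : X → ℝ} (hP : Measurable P) (hb : ∀ z, 1 / 2 ≤ P z ∧ P z ≤ 2) {F : X → ℝ}
    (hF : IntegrableOn F K₀) : IntegrableOn (fun z => P z * F z) K₀ := by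
  refine Integrable.bdd_mul (c := 2) hF hP.aestronglyMeasurable ?_
  exact Eventually.of_forall fun z => by
    rw [Real.norm_eq_abs, abs_of_nonneg (by linarith [(hb z).1])]
    exact (hb z).2

include hK

lemma force_int (i : Fin 3) {a : X → ℝ} (ha : Continuous a) :
    IntegrableOn (fun z => a z * fL i z) K₀ := by
  obtain ⟨C, hC⟩ := bounded_on hK ha
  have h1 : IntegrableOn (fL i) K₀ := by
    have : Integrable (fun z => K₀.indicator (fun _ => (1:ℝ)) z * fL i z) :=
      (memLp_ind hK).integrable_mul (h.fm i)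
    refine (integrable_indicator_iff hK.measurableSet).1 (this.congr
      (Eventually.of_forall fun z => ?_))
    by_cases hz : z ∈ K₀ <;> simp [hz]
  refine Integrable.bdd_mul (c := C) h1 ha.aestronglyMeasurable ?_
  exact (ae_restrict_iff' hK.measurableSet).2 (Eventually.of_forall fun z hz => hC z hz)

include hKA

/-- the momentum equation for the second solution -/
lemma momentum2 {Ω : Set E3} (hΩ : IsOpen Ω) (hKΩ : K₀ ⊆ Cyl Ω T) (hs : 0 < s)
    (hs1 : s ≤ 1 / 10000) (hm : 0 < m) {ν : ℝ} {η : ℝ → ℝ}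
    (hην : ∀ x, η (ν * m / rL x) = ν) (ρ₀ : E3 → ℝ) :
    Momentum Ω T η ρ₀ 0 (fun t x => vec fun i => fL i (t, x) / m)
      (fun t x => ν * m / rL (vec fun i => YL i (t, x))) (fun t x => vec fun i => uL i (t, x))
      (fun t x i j => xL i j (t, x)) 0 (fun _ _ _ _ => 0) := by
  intro φ hφ hdiv
  have hsm := test_smooth hφ
  have hc := test_hcs hφ
  have hdiv' : ∀ z ∈ K₀, ∑ i, D (ev i) (fun y => φ y i) z = 0 := fun z hz =>
    hdiv z ⟨⟨(hKΩ hz).1.1.le, (hKΩ hz).1.2⟩, (hKΩ hz).2⟩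
  have hmain := h.second_lim hK hKA (φ := fun i y => φ y i) hsm hc hdiv'
  set P : X → ℝ := fun z => 1 / rL (vec fun i => YL i z) with hP
  have hPe : ∀ z, ν * m / rL (vec fun i => YL i (z.1, z.2)) = ν * m * P z := fun z => by
    simp only [hP]; ring
  have hPb : ∀ z, 1 / 2 ≤ P z ∧ P z ≤ 2 := fun z => h.inv_bdd hs hs1 _
  have hDc : ∀ i v, Continuous (D v (fun y => φ y i)) := fun i v =>
    (D_smooth (hsm i) v).continuous
  have hφc : ∀ i, Continuous fun y => φ y i := fun i => (hsm i).continuous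
  have hI : ∀ {F : X → ℝ}, Continuous F → IntegrableOn F K₀ := fun hF =>
    hF.continuousOn.integrableOn_compact hK
  have i1 : ∀ i, IntegrableOn (fun z => P z * (uL i z * D et (fun y => φ y i) z)) K₀ :=
    fun i => h.bdd_mul h.P2m hPb (hI ((h.uc i).mul (hDc i et)))
  have i3 : ∀ i, IntegrableOn (fun z => P z * (uL i z *
      ∑ j, uL j z * D (ev j) (fun y => φ y i) z)) K₀ := fun i => h.bdd_mul h.P2m hPb
        (hI ((h.uc i).mul (continuous_finsetSum _ fun j _ => (h.uc j).mul (hDc i (ev j)))))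
  have i4 : ∀ i j, IntegrableOn (fun z => (xL i j z + xL j i z) *
      D (ev j) (fun y => φ y i) z) K₀ := fun i j =>
    hI (((h.xc i j).add (h.xc j i)).mul (hDc i (ev j)))
  have i4' : ∀ i, IntegrableOn (fun z => ∑ j, (xL i j z + xL j i z) *
      D (ev j) (fun y => φ y i) z) K₀ := fun i => hI (continuous_finsetSum _ fun j _ =>
      ((h.xc i j).add (h.xc j i)).mul (hDc i (ev j)))
  -- the terms
  have T1 : ∫ z in Cyl Ω T, ν * m / rL (vec fun i => YL i (z.1, z.2)) *
      ∑ i, (vec fun i => uL i (z.1, z.2)) i * dt (fun y => φ y i) z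
      = ν * m * ∑ i, ∫ z in K₀, P z * (uL i z * D et (fun y => φ y i) z) := by
    rw [cyl_to_K hΩ hKΩ fun z hz => by simp [h.u_zero hK _ hz],
      ← integral_finsetSum _ fun i _ => i1 i, ← integral_const_mul]
    refine integral_congr_ae (Eventually.of_forall fun z => ?_)
    beta_reduce
    rw [hPe, mul_assoc, Finset.mul_sum]
    rfl
  have T3 : ∫ z in Cyl Ω T, ν * m / rL (vec fun i => YL i (z.1, z.2)) *
      ∑ i, ∑ j, (vec fun i => uL i (z.1, z.2)) i *
      (vec fun i => uL i (z.1, z.2)) j * dx j (fun y => φ y i) z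
      = ν * m * ∑ i, ∫ z in K₀, P z * (uL i z * ∑ j, uL j z * D (ev j) (fun y => φ y i) z) := by
    rw [cyl_to_K hΩ hKΩ fun z hz => by simp [h.u_zero hK _ hz],
      ← integral_finsetSum _ fun i _ => i3 i, ← integral_const_mul]
    refine integral_congr_ae (Eventually.of_forall fun z => ?_)
    beta_reduce
    rw [hPe, mul_assoc, Finset.mul_sum]
    congr 1
    refine Finset.sum_congr rfl fun i _ => ?_
    congr 1
    rw [Finset.mul_sum]
    refine Finset.sum_congr rfl fun j _ => ?_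
    simp only [vec_apply]
    rw [mul_assoc]
    rfl
  have T4 : ∫ z in Cyl Ω T, η (ν * m / rL (vec fun i => YL i (z.1, z.2))) *
      ∑ i, ∑ j, (xL i j (z.1, z.2) + xL j i (z.1, z.2)) * dx j (fun y => φ y i) z
      = ν * ∑ i, ∑ j, ∫ z in K₀, (xL i j z + xL j i z) * D (ev j) (fun y => φ y i) z := by
    rw [cyl_to_K hΩ hKΩ fun z hz => by simp [h.x_zero hK _ _ hz]]
    have : ∀ i, ∑ j, ∫ z in K₀, (xL i j z + xL j i z) * D (ev j) (fun y => φ y i) z
        = ∫ z in K₀, ∑ j, (xL i j z + xL j i z) * D (ev j) (fun y => φ y i) z := fun i =>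
      (integral_finsetSum _ fun j _ => i4 i j).symm
    simp only [this]
    rw [← integral_finsetSum _ fun i _ => i4' i, ← integral_const_mul]
    refine integral_congr_ae (Eventually.of_forall fun z => ?_)
    beta_reduce
    rw [hην]
    rfl
  have i5 : ∀ i, IntegrableOn (fun z => (P z * φ z i) * fL i z) K₀ := fun i => by
    have := h.bdd_mul h.P2m hPb (h.force_int hK i (hφc i))
    refine this.congr (Eventually.of_forall fun z => ?_)
    simp only [hP]
    ring
  have T5 : ∫ z in Cyl Ω T, ν * m / rL (vec fun i => YL i (z.1, z.2)) *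
      ∑ i, (vec fun i => fL i (z.1, z.2) / m) i * φ z i
      = ν * ∑ i, ∫ z in K₀, (P z * φ z i) * fL i z := by
    rw [cyl_to_K hΩ hKΩ fun z hz => by simp [h.fz _ _ hz],
      ← integral_finsetSum _ fun i _ => i5 i, ← integral_const_mul]
    refine integral_congr_ae (Eventually.of_forall fun z => ?_)
    beta_reduce
    rw [hPe, Finset.mul_sum, Finset.mul_sum]
    refine Finset.sum_congr rfl fun i _ => ?_
    simp only [vec_apply]
    field_simp
  have T13 : ∑ i, ∫ z in K₀, P z * (uL i z * (D et (fun y => φ y i) z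
      + ∑ j, uL j z * D (ev j) (fun y => φ y i) z))
      = (∑ i, ∫ z in K₀, P z * (uL i z * D et (fun y => φ y i) z))
        + ∑ i, ∫ z in K₀, P z * (uL i z * ∑ j, uL j z * D (ev j) (fun y => φ y i) z) := by
    rw [← Finset.sum_add_distrib]
    refine Finset.sum_congr rfl fun i _ => ?_
    rw [← integral_add (i1 i) (i3 i)]
    refine integral_congr_ae (Eventually.of_forall fun z => ?_)
    beta_reduce
    ring
  rw [T13] at hmain
  have e1 : ∫ z in Cyl Ω T, ∑ i, crossProduct (curl (fun _ _ => (0:ℝ)))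
      ((0 : ℝ → E3 → E3) z.1 z.2).ofLp i * φ z i = 0 := by
    simp [curl_zero]
  have e2 : ∫ x in Ω, ρ₀ x * ∑ i, (0 : E3 → E3) x i * φ (0, x) i = 0 := by simp
  rw [e1, e2, T1, T3, T4, T5]
  linear_combination (-ν) * hmain

/-- the momentum equation for the first solution -/
lemma momentum1 {Ω : Set E3} (hΩ : IsOpen Ω) (hKΩ : K₀ ⊆ Cyl Ω T) (hs : 0 < s)
    (hs1 : s ≤ 1 / 10000) (hm : 0 < m) (ν : ℝ) (η : ℝ → ℝ) (ρ₀ : E3 → ℝ) :
    Momentum Ω T η ρ₀ 0 (fun t x => vec fun i => fL i (t, x) / m)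
      (fun _ x => ν * m / rL x) 0 (fun _ _ _ _ => 0) 0 (fun _ _ _ _ => 0) := by
  intro φ hφ hdiv
  have hsm := test_smooth hφ
  have hc := test_hcs hφ
  have hdiv' : ∀ z ∈ K₀, ∑ i, D (ev i) (fun y => φ y i) z = 0 := fun z hz =>
    hdiv z ⟨⟨(hKΩ hz).1.1.le, (hKΩ hz).1.2⟩, (hKΩ hz).2⟩
  have hmain := h.first_lim hK hKA (φ := fun i y => φ y i) hsm hc hdiv'
  set P : X → ℝ := fun z => 1 / rL z.2 with hP
  have hPb : ∀ z, 1 / 2 ≤ P z ∧ P z ≤ 2 := fun z => h.inv_bdd hs hs1 _
  have hφc : ∀ i, Continuous fun y => φ y i := fun i => (hsm i).continuous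
  have i5 : ∀ i, IntegrableOn (fun z => (P z * φ z i) * fL i z) K₀ := fun i => by
    have := h.bdd_mul h.P1m hPb (h.force_int hK i (hφc i))
    refine this.congr (Eventually.of_forall fun z => ?_)
    simp only [hP]
    ring
  have T5 : ∫ z in Cyl Ω T, ν * m / rL z.2 * ∑ i, (vec fun i => fL i (z.1, z.2) / m) i * φ z i
      = ν * ∑ i, ∫ z in K₀, (P z * φ z i) * fL i z := by
    rw [cyl_to_K hΩ hKΩ fun z hz => by simp [h.fz _ _ hz],
      ← integral_finsetSum _ fun i _ => i5 i, ← integral_const_mul]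
    refine integral_congr_ae (Eventually.of_forall fun z => ?_)
    beta_reduce
    rw [Finset.mul_sum, Finset.mul_sum]
    refine Finset.sum_congr rfl fun i _ => ?_
    simp only [vec_apply, hP]
    field_simp
  rw [T5, hmain]
  simp [curl_zero]

omit hKA

lemma transport2 {Ω : Set E3} (hΩ : IsOpen Ω) (hΩR : Ω ⊆ Metric.closedBall (0:E3) R) (c : ℝ) :
    Transport Ω T (fun t x => c / rL (vec fun i => YL i (t, x)))
      (fun t x => vec fun i => uL i (t, x)) := by
  intro ψ hψ hc hsub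
  have hT : tsupport ψ ⊆ Icc 0 T ×ˢ Metric.closedBall (0:E3) R := fun z hz =>
    ⟨⟨(hsub hz).1.1.le, (hsub hz).1.2.le⟩, hΩR (hsub hz).2⟩
  have h1 := h.transport_lim hK hψ hc hT
  rw [cyl_to_K hΩ hsub fun z hz => ?_]
  · have e : ∫ z in tsupport ψ, c / rL (vec fun i => YL i (z.1, z.2)) *
        (dt ψ z + ∑ j, (vec fun i => uL i (z.1, z.2)) j * dx j ψ z)
        = c * ∫ z in tsupport ψ, 1 / rL (vec fun i => YL i z) *
          (D et ψ z + ∑ j, uL j z * D (ev j) ψ z) := by
      rw [← integral_const_mul]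
      refine integral_congr_ae (Eventually.of_forall fun z => ?_)
      beta_reduce
      have : c / rL (vec fun i => YL i (z.1, z.2)) = c * (1 / rL (vec fun i => YL i z)) := by
        rw [mul_one_div]
      rw [this, mul_assoc]
      rfl
    rw [h1, mul_zero] at e
    exact e
  · have e1 : dt ψ z = 0 := D_eq_zero_of_notMem et hz
    have e2 : ∀ j, dx j ψ z = 0 := fun j => D_eq_zero_of_notMem (ev j) hz
    simp [e1, e2]

omit h hK in
lemma Dt_P1' {S : St} (hg : Good K₀ S) (z : X) : D et (P1 S) z = 0 := by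
  have hr : ContDiff ℝ ∞ (fun y => 1 / S.r y) :=
    contDiff_const.div hg.hr fun z => by linarith [hg.rlo z]
  have h1 : HasFDerivAt (fun z : X => 1 / S.r z.2)
      ((fderiv ℝ (fun y => 1 / S.r y) z.2).comp (ContinuousLinearMap.snd ℝ ℝ E3)) z := by
    have h2 : HasFDerivAt (fun z : X => z.2) (ContinuousLinearMap.snd ℝ ℝ E3) z :=
      hasFDerivAt_snd
    exact ((hr.differentiable (by simp)) z.2).hasFDerivAt.comp z h2
  unfold D
  have : P1 S = fun z : X => 1 / S.r z.2 := rfl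
  rw [this, h1.fderiv]
  simp [et]

lemma transport1 {Ω : Set E3} (hΩ : IsOpen Ω) (hΩR : Ω ⊆ Metric.closedBall (0:E3) R) (c : ℝ) :
    Transport Ω T (fun _ x => c / rL x) 0 := by
  intro ψ hψ hc hsub
  have hT : tsupport ψ ⊆ Icc 0 T ×ˢ Metric.closedBall (0:E3) R := fun z hz =>
    ⟨⟨(hsub hz).1.1.le, (hsub hz).1.2.le⟩, hΩR (hsub hz).2⟩
  rw [cyl_to_K hΩ hsub fun z hz => ?_]
  · have hA : IsCompact (tsupport ψ) := hc
    have h1 := (h.ba_P1.mono hT).mul (ba_c hA (D_smooth hψ et).continuous)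
    have h2 := h1.int hA
    have h3 : ∀ n, ∫ z in tsupport ψ, P1 (S n) z * D et ψ z = 0 := by
      intro n
      rw [setIntegral_eq_integral_of_forall_compl_eq_zero (fun z hz => by
        rw [D_eq_zero_of_notMem _ hz, mul_zero]),
        ibp ((h.good n).P1s hK) hψ hc et]
      simp [Dt_P1' (h.good n)]
    simp only [h3] at h2
    have h4 := tendsto_nhds_unique h2 tendsto_const_nhds
    have e : ∫ z in tsupport ψ, c / rL z.2 *
        (dt ψ z + ∑ j, (0 : ℝ → E3 → E3) z.1 z.2 j * dx j ψ z)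
        = c * ∫ z in tsupport ψ, 1 / rL z.2 * D et ψ z := by
      rw [← integral_const_mul]
      refine integral_congr_ae (Eventually.of_forall fun z => ?_)
      simp [dt, D, et]
      ring
    rw [h4, mul_zero] at e
    exact e
  · have e1 : dt ψ z = 0 := D_eq_zero_of_notMem et hz
    simp [e1]

end LL

end

end Pool.Agent.K6.H24.MH
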