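import Pool.Agent.K6.H24.MH.Fn3

open scoped ContDiff ENNReal
open Set MeasureTheory Filter Topology

namespace Pool.Agent.K6.H24.MH

open Pool.Agent.H729R2 (E3 X ev et D St Good lab vec phx phy slab O1 B1 nv n2 vK)
open Pool.Agent.H729R2 Pool.Agent.H729R2.MHD

noncomputable section

set_option linter.unusedSectionVars false

/-- the linear form with the given partial derivatives -/
def lf (t : ℝ) (x : Fin 3 → ℝ) : X →L[ℝ] ℝ :=
  t • ContinuousLinearMap.fst ℝ ℝ E3 +
    ∑ j, x j • ((EuclideanSpace.proj j : E3 →L[ℝ] ℝ).comp (ContinuousLinearMap.snd ℝ ℝ E3))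

lemma lf_apply (t : ℝ) (x : Fin 3 → ℝ) (w : X) : lf t x w = t * w.1 + ∑ j, x j * w.2 j := by
  simp [lf]

lemma fderiv_eq (F : X → ℝ) (z : X) :
    fderiv ℝ F z = lf (D et F z) (fun j => D (ev j) F z) := by
  refine ContinuousLinearMap.ext fun w => ?_
  have h1 : w = w.1 • et + (0, vec fun j => w.2 j) := by
    refine Prod.ext ?_ ?_
    · simp [et]
    · ext j
      simp [et]
  rw [lf_apply]
  conv_lhs => rw [h1]
  rw [map_add, map_smul, D_vec]
  have e1 : w.1 • (fderiv ℝ F z) et = D et F z * w.1 := by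
    rw [smul_eq_mul, mul_comm]
    rfl
  have e2 : ∑ j, w.2 j * D (ev j) F z = ∑ j, D (ev j) F z * w.2 j :=
    Finset.sum_congr rfl fun j _ => mul_comm (w.2 j) _
  rw [e1, e2]

lemma norm_lf_le {t : ℝ} {x : Fin 3 → ℝ} {a : ℝ} (ha : 0 ≤ a) (ht : |t| ≤ a) (hx : ∀ j, |x j| ≤ a) :
    ‖lf t x‖ ≤ 4 * a := by
  refine ContinuousLinearMap.opNorm_le_bound _ (by positivity) fun w => ?_
  rw [lf_apply, Real.norm_eq_abs]
  have h1 : |w.1| ≤ ‖w‖ := norm_fst_le w
  have h2 : ∀ j, |w.2 j| ≤ ‖w‖ := fun j => by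
    have := PiLp.norm_apply_le w.2 j
    exact this.trans (norm_snd_le w)
  calc |t * w.1 + ∑ j, x j * w.2 j| ≤ |t * w.1| + ∑ j, |x j * w.2 j| :=
        (abs_add_le _ _).trans (add_le_add le_rfl (Finset.abs_sum_le_sum_abs _ _))
    _ ≤ a * ‖w‖ + ∑ _j : Fin 3, a * ‖w‖ := by
        refine add_le_add ?_ (Finset.sum_le_sum fun j _ => ?_)
        · rw [abs_mul]
          exact mul_le_mul ht h1 (abs_nonneg _) ha
        · rw [abs_mul]
          exact mul_le_mul (hx j) (h2 j) (abs_nonneg _) ha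
    _ = 4 * a * ‖w‖ := by
        simp
        ring

lemma lf_sub (t t' : ℝ) (x x' : Fin 3 → ℝ) :
    lf t x - lf t' x' = lf (t - t') (fun j => x j - x' j) := by
  refine ContinuousLinearMap.ext fun w => ?_
  rw [ContinuousLinearMap.sub_apply, lf_apply, lf_apply, lf_apply]
  have : ∑ j, (x j - x' j) * w.2 j = ∑ j, x j * w.2 j - ∑ j, x' j * w.2 j := by
    rw [← Finset.sum_sub_distrib]
    exact Finset.sum_congr rfl fun j _ => by ring
  rw [this]
  ring

lemma lf_cont {t : X → ℝ} {x : Fin 3 → X → ℝ} (ht : Continuous t) (hx : ∀ j, Continuous (x j)) :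
    Continuous fun z => lf (t z) (fun j => x j z) := by
  unfold lf
  exact (ht.smul continuous_const).add (continuous_finsetSum _ fun j _ =>
    (hx j).smul continuous_const)

/-- norm of a vector valued derivative -/
lemma norm_fderiv_vec_le {u : Fin 3 → X → ℝ} {z : X} {L : Fin 3 → X →L[ℝ] ℝ}
    (h : ∀ i, HasFDerivAt (u i) (L i) z) {a : ℝ} (ha : ∀ i, ‖L i‖ ≤ a) :
    ‖fderiv ℝ (fun z => vec fun i => u i z) z‖ ≤ 2 * a := by
  have ha0 : 0 ≤ a := (norm_nonneg _).trans (ha 0)
  have h1 : ∀ w : X, fderiv ℝ (fun z => vec fun i => u i z) z w = vec fun i => L i w := by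
    intro w
    have h2 : HasFDerivAt (fun z => vec fun i => u i z)
        ((PiLp.continuousLinearEquiv 2 ℝ (fun _ : Fin 3 => ℝ)).symm.toContinuousLinearMap.comp
          (ContinuousLinearMap.pi L)) z := by
      have h3 : HasFDerivAt (fun z => fun i => u i z) (ContinuousLinearMap.pi L) z :=
        hasFDerivAt_pi.2 h
      exact ((PiLp.continuousLinearEquiv 2 ℝ
        (fun _ : Fin 3 => ℝ)).symm.toContinuousLinearMap.hasFDerivAt).comp z h3
    rw [h2.fderiv]
    rfl
  refine ContinuousLinearMap.opNorm_le_bound _ (by positivity) fun w => ?_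
  rw [h1]
  refine (norm_vec_le (c := a * ‖w‖) fun i => ?_).trans (le_of_eq (by ring))
  exact ((L i).le_opNorm w).trans (mul_le_mul_of_nonneg_right (ha i) (norm_nonneg _))

namespace LL

variable {K₀ : Set X} {R T s m : ℝ} {l : Filter ℕ} {S : ℕ → St} {uL tL : Fin 3 → X → ℝ}
    {xL : Fin 3 → Fin 3 → X → ℝ} {YL : Fin 3 → X → ℝ} {rL : E3 → ℝ} {fL : Fin 3 → X → ℝ}
    (h : LL K₀ R T s m l S uL tL xL YL rL fL) (hK : IsCompact K₀)
include h hK

lemma hasFDeriv_lim (i : Fin 3) (z : X) :
    HasFDerivAt (uL i) (lf (tL i z) (fun j => xL i j z)) z := by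
  obtain ⟨a, ha0, ha⟩ := h.tl
  obtain ⟨a', ha0', ha'⟩ := h.xl
  refine hasFDerivAt_of_tendstoUniformly (l := atTop) (f := fun n => (S n).u i)
    (f' := fun n z => fderiv ℝ ((S n).u i) z)
    (g' := fun z => lf (tL i z) (fun j => xL i j z)) ?_
    (fun n z => ((smooth_diff ((h.good n).hu i)) z).hasFDerivAt)
    (fun z => h.tendsto_u hK i z) z
  rw [Metric.tendstoUniformly_iff]
  intro ε hε
  have h1 : Tendsto (fun n => 4 * (|a n| + |a' n|)) atTop (𝓝 0) := by
    have := (ha0.abs.add ha0'.abs).const_mul 4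
    simpa using this
  filter_upwards [h1.eventually (gt_mem_nhds hε)] with n hn z
  rw [dist_comm, dist_eq_norm, fderiv_eq, lf_sub]
  refine lt_of_le_of_lt (norm_lf_le (a := |a n| + |a' n|) (by positivity) ?_ fun j => ?_) hn
  · exact (ha i n z).trans ((le_abs_self _).trans (by linarith [abs_nonneg (a' n)]))
  · exact (ha' i j n z).trans ((le_abs_self _).trans (by linarith [abs_nonneg (a n)]))

lemma c1_lim (i : Fin 3) : ContDiff ℝ 1 (uL i) := by
  rw [contDiff_one_iff_hasFDerivAt]
  exact ⟨_, lf_cont (h.tc i) (h.xc i), fun z => h.hasFDeriv_lim hK i z⟩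

omit hK

/-- the transported density -/
lemma dens2 (hs : 0 < s) (hs1 : s ≤ 1 / 10000) {c : ℝ} (hc : 0 < c) {Ω : Set E3}
    (hΩ : IsOpen Ω) (hΩR : Ω ⊆ Metric.closedBall (0:E3) R) :
    InDens Ω T (fun t x => c / rL (vec fun i => YL i (t, x))) := by
  have hfin := finite_vol ((Metric.isBounded_closedBall (x := (0:E3)) (r := R)).subset hΩR)
  set F : E3 → ℝ := fun x => c / rL x with hF
  have hFm : Measurable F := measurable_const.div h.rm
  have hFb : ∀ x, 0 ≤ F x ∧ F x ≤ 2 * c := by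
    intro x
    have h1 := h.inv_bdd hs hs1 x
    have h2 : F x = c * (1 / rL x) := by simp only [hF]; ring
    rw [h2]
    constructor
    · have : 0 ≤ 1 / rL x := by linarith [h1.1]
      positivity
    · have := mul_le_mul_of_nonneg_left h1.2 hc.le
      linarith
  have hFa : ∀ x, |F x| ≤ 2 * c := fun x => by rw [abs_of_nonneg (hFb x).1]; exact (hFb x).2
  have hg := h.gcont
  have hgt : ∀ t, Measurable fun x : E3 => vec fun i => YL i (t, x) := fun t =>
    (hg.comp (continuous_const.prodMk continuous_id)).measurable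
  refine ⟨(hFm.comp hg.measurable).aestronglyMeasurable,
    ⟨2 * c, Eventually.of_forall fun z => hFb _⟩, fun p _ _ t _ => ?_, ?_⟩
  · exact memLp_bdd (hFm.comp (hgt t)).aestronglyMeasurable (fun x => hFa _) p
  · intro p hp hp' t₀ _
    obtain ⟨c', hc'⟩ := h.near
    have hfinB : IsFiniteMeasure ((volume : Measure E3).restrict
        (Metric.closedBall (0:E3) (R + c'))) :=
      ⟨by rw [Measure.restrict_apply_univ]; exact (isCompact_closedBall _ _).measure_lt_top⟩
    refine comp_conv (μ := (volume : Measure E3).restrict Ω)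
      (ν := (volume : Measure E3).restrict (Metric.closedBall (0:E3) (R + c')))
      (l := 𝓝[Icc 0 T] t₀) (f := fun t x => vec fun i => YL i (t, x))
      (g := fun x => vec fun i => YL i (t₀, x)) hgt (hgt t₀)
      (fun t => map_le_slice hΩR (h.mp t) (hc' t)) (map_le_slice hΩR (h.mp t₀) (hc' t₀))
      (fun ε hε => ?_) hp hp' (r := fun _ => F) (rL := F) (fun _ => hFm) hFm
      (memLp_bdd hFm.aestronglyMeasurable hFa p) ?_
    · have hK : IsCompact (Icc (t₀ - 1) (t₀ + 1) ×ˢ Metric.closedBall (0:E3) R) :=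
        isCompact_Icc.prod (isCompact_closedBall _ _)
      have hu := hK.uniformContinuousOn_of_continuous (f := fun z : X => vec fun i => YL i z)
        hg.continuousOn
      rw [Metric.uniformContinuousOn_iff] at hu
      obtain ⟨δ, hδ, hu⟩ := hu ε hε
      have h3 : ∀ᶠ t in 𝓝[Icc 0 T] t₀, dist t t₀ < min δ 1 :=
        nhdsWithin_le_nhds (Metric.ball_mem_nhds t₀ (lt_min hδ one_pos))
      filter_upwards [h3] with t ht
      refine (ae_restrict_iff' hΩ.measurableSet).2 (Eventually.of_forall fun x hx => ?_)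
      have ht' : |t - t₀| < 1 := lt_of_lt_of_le (by rwa [Real.dist_eq] at ht) (min_le_right _ _)
      have h4 := hu (t, x) ⟨⟨by linarith [(abs_lt.1 ht').1], by linarith [(abs_lt.1 ht').2]⟩,
        hΩR hx⟩ (t₀, x) ⟨⟨by linarith, by linarith⟩, hΩR hx⟩
        (by rw [Prod.dist_eq]; simp only [dist_self]
            exact max_lt (lt_of_lt_of_le ht (min_le_left _ _)) hδ)
      rw [dist_eq_norm] at h4
      exact h4.le
    · simp only [sub_self, eLpNorm_zero']
      exact tendsto_const_nhds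

/-- the density at rest -/
lemma dens1 (hs : 0 < s) (hs1 : s ≤ 1 / 10000) {c : ℝ} (hc : 0 < c) {Ω : Set E3}
    (hΩR : Ω ⊆ Metric.closedBall (0:E3) R) : InDens Ω T (fun _ x => c / rL x) := by
  have hfin := finite_vol ((Metric.isBounded_closedBall (x := (0:E3)) (r := R)).subset hΩR)
  set F : E3 → ℝ := fun x => c / rL x with hF
  have hFm : Measurable F := measurable_const.div h.rm
  have hFb : ∀ x, 0 ≤ F x ∧ F x ≤ 2 * c := by
    intro x
    have h1 := h.inv_bdd hs hs1 x
    have h2 : F x = c * (1 / rL x) := by simp only [hF]; ring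
    rw [h2]
    constructor
    · have : 0 ≤ 1 / rL x := by linarith [h1.1]
      positivity
    · have := mul_le_mul_of_nonneg_left h1.2 hc.le
      linarith
  have hFa : ∀ x, |F x| ≤ 2 * c := fun x => by rw [abs_of_nonneg (hFb x).1]; exact (hFb x).2
  refine ⟨(hFm.comp measurable_snd).aestronglyMeasurable,
    ⟨2 * c, Eventually.of_forall fun z => hFb _⟩, fun p _ _ t _ => ?_, ?_⟩
  · exact memLp_bdd hFm.aestronglyMeasurable hFa p
  · intro p hp hp' t₀ _
    simp only [sub_self, eLpNorm_zero']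
    exact tendsto_const_nhds

end LL

end

end Pool.Agent.K6.H24.MH
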