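import Pool.Agent.K6.H24.MH.Fn4

open scoped ContDiff ENNReal
open Set MeasureTheory Filter Topology

namespace Pool.Agent.K6.H24.MH

open Pool.Agent.H729R2 (E3 X ev et D St Good lab vec phx phy slab O1 B1 nv n2 vK)
open Pool.Agent.H729R2 Pool.Agent.H729R2.MHD

noncomputable section

set_option linter.unusedSectionVars false

lemma tsup_smul {F : X → ℝ} (κ : ℝ) : tsupport (fun z => κ * F z) ⊆ tsupport F :=
  closure_mono fun z hz => by
    intro h0
    exact hz (by simp [h0])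

/-- scaling of the initial state -/
lemma exists_init' {U : Set X} (hU : IsOpen U) (hne : U.Nonempty) {ε : ℝ} (hε : 0 < ε) :
    ∃ (K₀ : Set X) (S₀ : St), IsCompact K₀ ∧ K₀ ⊆ U ∧ Good K₀ S₀ ∧ (∀ x, S₀.r x = 1) ∧
      (∀ i z, |S₀.u i z| ≤ ε) ∧ (∀ i j z, |D (ev j) (S₀.u i) z| ≤ ε) ∧
      (∀ i z, |D et (S₀.u i) z| ≤ ε) ∧ ∃ z i, S₀.u i z ≠ 0 := by
  obtain ⟨K₀, S, hK, hKU, hg, -, z₀, i₀, hz₀⟩ := exists_init hU hne
  obtain ⟨M1, h10, h1⟩ := bdd3 hg.hu (hg.ucs hK)
  obtain ⟨M3, h30, h3⟩ := bdd3 (fun i => D_smooth (hg.hu i) et) (fun i => D_hcs (hg.ucs hK i) et)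
  choose C2 h20 h2 using fun j : Fin 3 =>
    bdd3 (fun i => D_smooth (hg.hu i) (ev j)) (fun i => D_hcs (hg.ucs hK i) (ev j))
  set M := M1 + (C2 0 + C2 1 + C2 2) + M3 + 1 with hM
  have a0 := h20 0
  have a1 := h20 1
  have a2 := h20 2
  have hMp : 0 < M := by positivity
  set κ := ε / M with hκ
  have hκp : 0 < κ := by positivity
  have hle : ∀ a : ℝ, |a| ≤ M → |κ * a| ≤ ε := by
    intro a ha
    rw [abs_mul, abs_of_pos hκp]
    calc κ * |a| ≤ κ * M := mul_le_mul_of_nonneg_left ha hκp.le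
      _ = ε := by rw [hκ]; field_simp
  have hDk : ∀ i v z, D v (fun z => κ * S.u i z) z = κ * D v (S.u i) z := fun i v z => by
    rw [D_const_mul (hg.hu i)]
  have h0 : tsupport (fun _ : X => (0:ℝ)) = ∅ := tsupport_eq_empty_iff.2 rfl
  refine ⟨K₀, ⟨fun i z => κ * S.u i z, fun _ => 1, fun _ => 0, fun _ => 0⟩, hK, hKU, ?_,
    fun _ => rfl, ?_, ?_, ?_, z₀, i₀, mul_ne_zero hκp.ne' hz₀⟩
  · refine ⟨fun i => contDiff_const.mul (hg.hu i), contDiff_const, contDiff_const, contDiff_const,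
      fun i => (tsup_smul κ).trans (hg.uK i), ?_, ?_, ?_, ⟨0, ?_⟩, ?_, ?_⟩
    · rw [h0]; exact empty_subset _
    · rw [h0]; exact empty_subset _
    · intro z
      change ∑ i, D (ev i) (fun z => κ * S.u i z) z = 0
      simp only [hDk, ← Finset.mul_sum, hg.div, mul_zero]
    · exact LipschitzWith.const _
    · intro x; norm_num
    · intro x; norm_num
  · intro i z
    exact hle _ ((h1 i z).trans (by linarith))
  · intro i j z
    change |D (ev j) (fun z => κ * S.u i z) z| ≤ ε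
    rw [hDk]
    refine hle _ ((h2 j i z).trans ?_)
    fin_cases j <;> simp only [Fin.zero_eta, Fin.mk_one, Fin.reduceFinMk] <;> linarith
  · intro i z
    change |D et (fun z => κ * S.u i z) z| ≤ ε
    rw [hDk]
    exact hle _ ((h3 i z).trans (by linarith))

/-- the main result -/
theorem main {Ω : Set R3} (hΩ : IsOpen Ω) (hbd : Bornology.IsBounded Ω) (hne : Ω.Nonempty)
    {T : ℝ} (hT : 0 < T) {η σ : ℝ → ℝ} (hη : Coeff η) (hσ : Coeff σ) {α β : ℝ} (hα : 0 < α)
    (hαβ : α < β) (hr : (β - α) / (β + α) ≤ 1 / 10000) (hηαβ : η α = η β) {ε : ℝ} (hε : 0 < ε) :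
    ∃ (ρ₀ : R3 → ℝ) (f : ℝ → R3 → R3) (Y : ℝ → R3 → R3) (u : ℝ → R3 → R3),
      Measurable ρ₀ ∧ (∀ x, ρ₀ x = α ∨ ρ₀ x = β) ∧
      0 < volume {x ∈ Ω | ρ₀ x = α} ∧ 0 < volume {x ∈ Ω | ρ₀ x = β} ∧
      IsData Ω T η σ ρ₀ 0 0 f ∧
      WeakSol Ω T η σ ρ₀ 0 0 f (fun _ => ρ₀) 0 0 ∧
      WeakSol Ω T η σ ρ₀ 0 0 f (fun t x => ρ₀ (Y t x)) u 0 ∧
      (Continuous (fun z : ℝ × R3 => Y z.1 z.2) ∧ (∀ x, Y 0 x = x) ∧
        ∀ t, MeasurePreserving (Y t) volume volume) ∧
      (ContDiff ℝ 1 (fun z : ℝ × R3 => u z.1 z.2) ∧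
        HasCompactSupport (fun z : ℝ × R3 => u z.1 z.2) ∧
        tsupport (fun z : ℝ × R3 => u z.1 z.2) ⊆ Cyl Ω T ∧
        ∀ z : ℝ × R3, ‖u z.1 z.2‖ ≤ ε ∧ ‖fderiv ℝ (fun z : ℝ × R3 => u z.1 z.2) z‖ ≤ ε) ∧
      ¬ ∀ᵐ z ∂(volume.restrict (Cyl Ω T)), u z.1 z.2 = 0 := by
  have hUo : IsOpen (Cyl Ω T) := isOpen_Ioo.prod hΩ
  have hUne : (Cyl Ω T).Nonempty := by
    obtain ⟨x, hx⟩ := hne
    exact ⟨(T / 2, x), ⟨by constructor <;> linarith, hx⟩⟩
  -- parameters
  have hβ : 0 < β := hα.trans hαβ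
  set s : ℝ := (β - α) / (β + α) with hs
  have hs0 : 0 < s := div_pos (by linarith) (by linarith)
  obtain ⟨ν, hν, hηα⟩ : ∃ ν : ℝ, 0 < ν ∧ η α = ν := by
    obtain ⟨a, b, ha, hab⟩ := hη.2
    exact ⟨η α, ha.trans_le (hab α hα.le).1, rfl⟩
  have hηβ : η β = ν := by rw [← hηαβ, hηα]
  set m : ℝ := 2 * α * β / (α + β) / ν with hm
  have hm0 : 0 < m := by positivity
  have hνm : ν * m = 2 * α * β / (α + β) := by rw [hm]; field_simp
  have hνm0 : 0 < ν * m := by positivity
  have hvα : ν * m / (1 + s) = α := by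
    rw [hνm, hs]
    have h1 : β + α ≠ 0 := by positivity
    have h2 : α + β ≠ 0 := by positivity
    have h3 : 1 + (β - α) / (β + α) = 2 * β / (α + β) := by field_simp; ring
    rw [h3]
    field_simp
  have hvβ : ν * m / (1 - s) = β := by
    rw [hνm, hs]
    have h1 : β + α ≠ 0 := by positivity
    have h2 : α + β ≠ 0 := by positivity
    have h3 : 1 - (β - α) / (β + α) = 2 * α / (α + β) := by field_simp; ring
    rw [h3]
    field_simp
  -- the ball
  obtain ⟨R, hR⟩ := hbd.subset_closedBall (0 : R3)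
  -- the bump
  obtain ⟨x₁, hx₁⟩ := hne
  obtain ⟨g₀, g₀s, g₀c, g₀0, g₀1, g₀x, g₀Ω⟩ := exists_bump (isCompact_singleton (x := x₁)) hΩ
    (singleton_subset_iff.2 hx₁)
  have g₀i : Integrable g₀ := g₀s.continuous.integrable_of_hasCompactSupport g₀c
  have hI₀ : 0 < ∫ x, g₀ x := by
    refine (g₀s.continuous.integral_pos_of_hasCompactSupport_nonneg_nonzero (x := x₁) g₀c
      (fun x => g₀0 x) ?_)
    rw [g₀x x₁ rfl]
    norm_num
  -- the initial state
  set η' : ℝ := 1 / (10000 * (T + 1)) with hη'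
  have hη'0 : 0 < η' := by positivity
  have hη'T : η' * T ≤ 1 / 10000 := by
    rw [hη', one_div, inv_mul_le_iff₀ (by positivity)]
    have : 10000 * (T + 1) * (1 / 10000) = T + 1 := by ring
    rw [this]
    linarith
  set ε' : ℝ := min (η' / 2) (ε / 16) with hε'
  have hε'0 : 0 < ε' := lt_min (by positivity) (by positivity)
  obtain ⟨K₀, S₀, hK, hKU, hg, hr1, hu1, hx1, ht1, z₀, i₀, hz₀⟩ := exists_init' hUo hUne hε'0
  have hKT : K₀ ⊆ slab T := fun z hz => ⟨(hKU hz).1.1.le, (hKU hz).1.2.le⟩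
  have hKA : K₀ ⊆ Icc 0 T ×ˢ Metric.closedBall (0:E3) R := fun z hz =>
    ⟨⟨(hKU hz).1.1.le, (hKU hz).1.2.le⟩, hR (hKU hz).2⟩
  have hz₀' := abs_pos.2 hz₀
  set d : ℝ := min ε' (min (|S₀.u i₀ z₀| / 2) ((∫ x, g₀ x) / 2)) with hd
  have hd0 : 0 < d := lt_min hε'0 (lt_min (by positivity) (by positivity))
  have hd1 : d ≤ ε' := min_le_left _ _
  have hd2 : d ≤ |S₀.u i₀ z₀| / 2 := (min_le_right _ _).trans (min_le_left _ _)
  have hd3 : d ≤ (∫ x, g₀ x) / 2 := (min_le_right _ _).trans (min_le_right _ _)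
  have hε'η : ε' ≤ η' / 2 := min_le_left _ _
  have hε'ε : ε' ≤ ε / 16 := min_le_right _ _
  obtain ⟨S, uL, tL, xL, YL, rL, fL, h, hu, hx, ht, hmean⟩ := exists_LL (R := R) hT hK hKT m hs0 hr
    hη'0 hη'T hg hr1 hd0 (fun i j z => (hx1 i j z).trans (by linarith)) g₀s g₀c
    (fun x => by rw [abs_of_nonneg (g₀0 x)]; exact g₀1 x)
    (fun x hx => g₀Ω x fun h' => hx (hR h'))
  set ρ₀ : R3 → ℝ := fun x => ν * m / rL x with hρ₀
  have hρm : Measurable ρ₀ := measurable_const.div h.rm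
  have hρα : ∀ x, rL x = 1 + s → ρ₀ x = α := fun x hx => by
    simp only [hρ₀]; rw [hx, hvα]
  have hρβ : ∀ x, rL x = 1 - s → ρ₀ x = β := fun x hx => by
    simp only [hρ₀]; rw [hx, hvβ]
  have hρ2 : ∀ x, ρ₀ x = α ∨ ρ₀ x = β := fun x => (h.r2 x).imp (hρα x) (hρβ x)
  have hην : ∀ x, η (ν * m / rL x) = ν := fun x => by
    rcases hρ2 x with h1 | h1
    · simp only [hρ₀] at h1; rw [h1, hηα]
    · simp only [hρ₀] at h1; rw [h1, hηβ]
  -- both phases are present
  have hphase : ∀ c : ℝ, c = s ∨ c = -s → volume {x ∈ Ω | rL x = 1 + c} ≠ 0 := by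
    intro c hc h0
    have h1 : ∀ᵐ x : R3, (rL x - 1) / s * g₀ x = (-c / s) * g₀ x := by
      have h2 : ∀ᵐ x : R3, ¬ (x ∈ Ω ∧ rL x = 1 + c) := by
        rw [ae_iff]
        simpa using h0
      filter_upwards [h2] with x hx
      by_cases hxΩ : x ∈ Ω
      · have h3 : rL x ≠ 1 + c := fun h4 => hx ⟨hxΩ, h4⟩
        have h4 : rL x = 1 - c := by
          rcases hc with rfl | rfl
          · exact (h.r2 x).resolve_left h3
          · rcases h.r2 x with h5 | h5
            · rw [h5]; ring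
            · exact absurd (by rw [h5]; ring) h3
        rw [h4]
        congr 2
        ring
      · rw [g₀Ω x hxΩ, mul_zero, mul_zero]
    rw [integral_congr_ae h1, integral_const_mul, abs_mul, abs_of_pos hI₀] at hmean
    have h5 : |-c / s| = 1 := by
      rcases hc with rfl | rfl
      · rw [neg_div, div_self hs0.ne', abs_neg, abs_one]
      · rw [neg_neg, div_self hs0.ne', abs_one]
    rw [h5, one_mul] at hmean
    linarith
  have hposα : 0 < volume {x ∈ Ω | ρ₀ x = α} := by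
    refine lt_of_lt_of_le (pos_iff_ne_zero.2 (hphase s (Or.inl rfl)))
      (measure_mono fun x hx => ⟨hx.1, hρα x hx.2⟩)
  have hposβ : 0 < volume {x ∈ Ω | ρ₀ x = β} := by
    refine lt_of_lt_of_le (pos_iff_ne_zero.2 (hphase (-s) (Or.inr rfl)))
      (measure_mono fun x hx => ⟨hx.1, hρβ x (by rw [hx.2]; ring)⟩)
  -- the force
  have hf : MemLp (fun z : X => vec fun i => fL i (z.1, z.2) / m) 2
      (volume.restrict (Cyl Ω T)) := by
    refine (memLp_vec (f := fun i z => fL i z / m) fun i => ?_).restrict _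
    have := (h.fm i).const_mul m⁻¹
    refine this.congr_norm (this.1.congr (Eventually.of_forall fun z => ?_))
      (Eventually.of_forall fun z => ?_)
    · beta_reduce; ring
    · beta_reduce
      congr 1
      ring
  have hdata : IsData Ω T η σ ρ₀ 0 0 (fun t x => vec fun i => fL i (t, x) / m) := by
    refine ⟨hη, hσ, ⟨hρm.aestronglyMeasurable, α, β, hα, Eventually.of_forall fun x => ?_⟩,
      zero_inH Ω, zero_inH Ω, hf⟩
    rcases hρ2 x with h1 | h1 <;> rw [h1] <;> constructor <;> linarith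
  refine ⟨ρ₀, fun t x => vec fun i => fL i (t, x) / m, fun t x => vec fun i => YL i (t, x),
    fun t x => vec fun i => uL i (t, x), hρm, hρ2, hposα, hposβ, hdata, ?_, ?_, ?_, ?_, ?_⟩
  · exact ⟨h.dens1 hs0 hr hνm0 hR, zero_inCw Ω T, zero_inCw Ω T, Eventually.of_forall fun x => rfl,
      h.transport1 hK hΩ hR _, fun _ _ _ _ => 0, fun _ _ _ _ => 0, zero_inL2V Ω T, zero_inL2W Ω T,
      h.momentum1 hK hKA hΩ hKU hs0 hr hm0 ν η _, zero_induction Ω T σ _ _⟩
  · refine ⟨h.dens2 hs0 hr hνm0 hΩ hR, h.inCw hK hΩ hbd hKU, zero_inCw Ω T, ?_,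
      h.transport2 hK hΩ hR _, fun t x i j => xL i j (t, x), fun _ _ _ _ => 0,
      h.inL2V hK hΩ hbd hKU, zero_inL2W Ω T,
      h.momentum2 hK hKA hΩ hKU hs0 hr hm0 hην _, zero_induction Ω T σ _ _⟩
    refine Eventually.of_forall fun x => ?_
    have h1 : (vec fun i => YL i (0, x)) = x := by
      ext i
      exact h.Y0 x i
    beta_reduce
    rw [h1]
  · refine ⟨h.gcont, fun x => ?_, h.mp⟩
    ext i
    exact h.Y0 x i
  · have hzero : ∀ z, z ∉ K₀ → (vec fun i => uL i z) = 0 := fun z hz => by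
      ext i
      exact h.u_zero hK i hz
    refine ⟨contDiff_vec fun i => h.c1_lim hK i, HasCompactSupport.intro hK hzero, ?_, ?_⟩
    · refine subset_trans (closure_minimal (fun z hz => ?_) hK.isClosed) hKU
      by_contra hcon
      exact hz (hzero z hcon)
    · intro z
      constructor
      · refine (norm_vec_le (c := ε' + d) fun i => ?_).trans (by linarith)
        have h1 := hu1 i z
        have h2 := hu i z
        have h3 : |uL i z| ≤ |S₀.u i z| + |S₀.u i z - uL i z| := by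
          have := abs_sub (S₀.u i z) (S₀.u i z - uL i z)
          rwa [sub_sub_cancel] at this
        change |uL i z| ≤ _
        linarith
      · have h4 : ∀ i, ‖lf (tL i z) (fun j => xL i j z)‖ ≤ 4 * (ε' + d) := by
          intro i
          refine norm_lf_le (by positivity) ?_ fun j => ?_
          · have h1 := ht1 i z
            have h2 := ht i z
            have h3 : |tL i z| ≤ |D et (S₀.u i) z| + |D et (S₀.u i) z - tL i z| := by
              have := abs_sub (D et (S₀.u i) z) (D et (S₀.u i) z - tL i z)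
              rwa [sub_sub_cancel] at this
            linarith
          · have h1 := hx1 i j z
            have h2 := hx i j z
            have h3 : |xL i j z| ≤ |D (ev j) (S₀.u i) z| + |D (ev j) (S₀.u i) z - xL i j z| := by
              have := abs_sub (D (ev j) (S₀.u i) z) (D (ev j) (S₀.u i) z - xL i j z)
              rwa [sub_sub_cancel] at this
            linarith
        refine (norm_fderiv_vec_le (fun i => h.hasFDeriv_lim hK i z) h4).trans ?_
        linarith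
  · intro hae
    have hz1 : uL i₀ z₀ ≠ 0 := by
      intro h0
      have := hu i₀ z₀
      rw [h0, sub_zero] at this
      linarith
    set V : Set X := {z | uL i₀ z ≠ 0} with hV
    have hVo : IsOpen V := isOpen_ne_fun (h.uc i₀) continuous_const
    have hVpos : 0 < volume V := hVo.measure_pos volume ⟨z₀, hz1⟩
    have hVK : V ⊆ Cyl Ω T := fun z hz => by
      by_contra hcon
      exact hz (h.u_zero hK i₀ fun h' => hcon (hKU h'))
    rw [ae_restrict_iff' hUo.measurableSet, ae_iff] at hae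
    have hsub : V ⊆ {z : X | ¬ (z ∈ Cyl Ω T → (vec fun i => uL i (z.1, z.2)) = 0)} := by
      intro z hz hcon
      have h1 := hcon (hVK hz)
      have h2 := congrArg (fun v : E3 => v i₀) h1
      exact hz h2
    exact absurd (measure_mono_null hsub hae) hVpos.ne'

end

end Pool.Agent.K6.H24.MH
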