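import Pool.Agent.K6.H24.MH.Av3

open scoped ContDiff
open Set MeasureTheory Filter Topology

namespace Pool.Agent.K6.H24.MH

open Pool.Agent.H729R2 (E3 X ev et D St Good lab vec phx phy slab O1 B1 nv n2 vK)
open Pool.Agent.H729R2
open Pool.Agent.H664.Flow

noncomputable section

variable {u : Fin 3 → X → ℝ}

lemma D_lab_zero {Y : Fin 3 → X → ℝ} (hY : IsLabel u Y) (x : E3) (i j : Fin 3) :
    D (ev j) (Y i) (0, x) = if i = j then 1 else 0 := by
  have hcd : HasDerivAt (fun s : ℝ => ((0:ℝ), x) + s • ev j) (ev j) 0 := by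
    have := ((hasDerivAt_id (0:ℝ)).smul_const (ev j)).const_add ((0:ℝ), x)
    simpa using this
  have h2 := ((smooth_diff (hY.smooth i)) (((0:ℝ), x) + (0:ℝ) • ev j)).hasFDerivAt.comp_hasDerivAt
    0 hcd
  have h3 : (Y i ∘ fun s : ℝ => ((0:ℝ), x) + s • ev j) =
      fun s => x i + s * (if i = j then 1 else 0) := by
    ext s
    have : ((0:ℝ), x) + s • ev j = (0, x + s • EuclideanSpace.single j (1:ℝ)) := by
      simp [ev]
    simp only [Function.comp]
    rw [this, hY.init]
    simp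
  rw [h3] at h2
  have h4 : HasDerivAt (fun s : ℝ => x i + s * (if i = j then 1 else 0))
      (if i = j then 1 else 0) 0 := by
    have := ((hasDerivAt_id (0:ℝ)).mul_const (if i = j then (1:ℝ) else 0)).const_add (x i)
    simpa using this
  have h5 := h2.unique h4
  simp only [zero_smul, add_zero] at h5
  exact h5

lemma D_transport {Y : Fin 3 → X → ℝ} (hu : ∀ i, ContDiff ℝ ∞ (u i)) (hY : IsLabel u Y)
    (i j : Fin 3) (z : X) :
    D et (D (ev j) (Y i)) z + ∑ l, u l z * D (ev l) (D (ev j) (Y i)) z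
      = - ∑ l, D (ev j) (u l) z * D (ev l) (Y i) z := by
  have h0 : (fun z => D et (Y i) z + ∑ l, u l z * D (ev l) (Y i) z) = fun _ => 0 := by
    ext z; exact hY.transport i z
  have h1 : D (ev j) (fun z => D et (Y i) z + ∑ l, u l z * D (ev l) (Y i) z) z = 0 := by
    rw [h0, D_const]
  have s1 : ∀ l, ContDiff ℝ ∞ (fun z => u l z * D (ev l) (Y i) z) := fun l =>
    (hu l).mul (D_smooth (hY.smooth i) (ev l))
  rw [D_add (D_smooth (hY.smooth i) et) (ContDiff.sum fun l _ => s1 l),
    D_sum _ (fun l _ => s1 l)] at h1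
  have h2 : ∀ l, D (ev j) (fun z => u l z * D (ev l) (Y i) z) z
      = D (ev j) (u l) z * D (ev l) (Y i) z + u l z * D (ev l) (D (ev j) (Y i)) z := by
    intro l
    rw [D_mul (hu l) (D_smooth (hY.smooth i) (ev l)), D_comm (hY.smooth i) (ev j) (ev l)]
  simp only [h2, Finset.sum_add_distrib] at h1
  rw [D_comm (hY.smooth i) (ev j) et] at h1
  linarith

lemma lab_grad (hu : ∀ i, ContDiff ℝ ∞ (u i)) (hc : ∀ i, HasCompactSupport (u i)) {η T₀ : ℝ}
    (hη : 0 < η) (hηT : η * T₀ ≤ 1 / 10000) (hD : ∀ i j z, |D (ev j) (u i) z| ≤ η) :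
    ∀ z ∈ slab T₀, ∀ i j, |D (ev j) (lab u i) z - (if i = j then 1 else 0)| ≤ 1 / 1000 := by
  intro z hz i j
  have hY := isLabel_lab hu hc
  have hf := flw_isFlow hu hc
  set t := z.1 with ht
  set γ : ℝ → X := fun s => flw u (s - t) z with hγ
  have hγt : γ t = z := by simp [hγ, hf.zero]
  have hγ0 : (γ 0).1 = 0 := by simp [hγ, flw_fst hu hc, ht]
  have hγd : ∀ s, HasDerivAt γ (fld u (γ s)) s := by
    intro s
    have h1 := (hf.deriv z (s - t)).scomp s ((hasDerivAt_id s).sub_const t)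
    rw [one_smul] at h1
    exact h1
  set f : ℝ → (Fin 3 → ℝ) := fun s j => D (ev j) (lab u i) (γ s) - (if i = j then 1 else 0)
    with hfdef
  set f' : ℝ → (Fin 3 → ℝ) := fun s j => - ∑ l, D (ev j) (u l) (γ s) * D (ev l) (lab u i) (γ s)
    with hf'def
  have hder : ∀ s, HasDerivAt f (f' s) s := by
    intro s
    rw [hasDerivAt_pi]
    intro j
    have h1 := ((smooth_diff (D_smooth (hY.smooth i) (ev j))) (γ s)).hasFDerivAt.comp_hasDerivAt s
      (hγd s)
    rw [D_fld, D_transport hu hY i j (γ s)] at h1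
    exact h1.sub_const _
  have h0 : ‖f 0‖ ≤ 0 := by
    have : f 0 = 0 := by
      ext j
      have e1 : γ 0 = (0, (γ 0).2) := Prod.ext hγ0 rfl
      simp only [hfdef, Pi.zero_apply]
      rw [e1, D_lab_zero hY, sub_self]
    rw [this, norm_zero]
  have hb : ∀ s ∈ Ico 0 t, ‖f' s‖ ≤ 3 * η * ‖f s‖ + η := by
    intro s _
    have hn := norm_nonneg (f s)
    rw [pi_norm_le_iff_of_nonneg (by positivity)]
    intro j
    rw [Real.norm_eq_abs]
    simp only [hf'def, abs_neg]
    refine (Finset.abs_sum_le_sum_abs _ _).trans ?_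
    have h3 : ∀ l, |D (ev j) (u l) (γ s) * D (ev l) (lab u i) (γ s)|
        ≤ η * ‖f s‖ + η * (if i = l then 1 else 0) := by
      intro l
      rw [abs_mul, ← mul_add]
      refine mul_le_mul (hD l j _) ?_ (abs_nonneg _) hη.le
      have h4 : |f s l| ≤ ‖f s‖ := norm_le_pi_norm (f s) l
      have h5 : D (ev l) (lab u i) (γ s) = f s l + (if i = l then 1 else 0) := by
        simp [hfdef]
      rw [h5]
      refine (abs_add_le _ _).trans (add_le_add h4 ?_)
      split_ifs <;> simp
    refine (Finset.sum_le_sum fun l _ => h3 l).trans (le_of_eq ?_)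
    rw [Finset.sum_add_distrib]
    simp
    ring
  have h1 := norm_le_gronwallBound_of_norm_deriv_right_le (f := f) (f' := f') (δ := 0)
    (K := 3 * η) (ε := η) (a := 0) (b := t)
    (fun s _ => (hder s).continuousAt.continuousWithinAt)
    (fun s _ => (hder s).hasDerivWithinAt) h0 hb t ⟨hz.1, le_rfl⟩
  rw [gronwallBound_of_K_ne_0 (by positivity)] at h1
  have h2 : |D (ev j) (lab u i) z - (if i = j then 1 else 0)| ≤ ‖f t‖ := by
    have := norm_le_pi_norm (f t) j
    rw [Real.norm_eq_abs] at this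
    simp only [hfdef, hγt] at this ⊢
    exact this
  have ht0 : 0 ≤ t := hz.1
  have htT : η * t ≤ 1 / 10000 := (mul_le_mul_of_nonneg_left hz.2 hη.le).trans hηT
  have h3 : Real.exp (3 * η * (t - 0)) - 1 ≤ 2 * (3 * η * t) := by
    have h4 : |3 * η * (t - 0)| ≤ 1 := by
      rw [sub_zero, abs_of_nonneg (by positivity)]
      linarith
    have h5 := Real.abs_exp_sub_one_le h4
    rw [sub_zero, abs_of_nonneg (a := 3 * η * t) (by positivity)] at h5
    rw [sub_zero]
    exact (le_abs_self _).trans h5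
  have h4 : η / (3 * η) = 1 / 3 := by field_simp
  simp only [zero_mul, zero_add, h4] at h1
  linarith

end

end Pool.Agent.K6.H24.MH
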