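import Pool.Agent.K6.H24.MH.Stp

open scoped ContDiff
open Set MeasureTheory Filter Topology

namespace Pool.Agent.K6.H24.MH

open Pool.Agent.H729R2 (E3 X ev et D St Good lab vec phx phy slab O1 B1 nv n2 vK)
open Pool.Agent.H729R2

noncomputable section

set_option linter.unusedSectionVars false

/-- the rates -/
def dl (d : ℝ) (n : ℕ) : ℝ := d * (1 / 2) ^ (n + 1)

lemma dl_pos {d : ℝ} (hd : 0 < d) (n : ℕ) : 0 < dl d n := by unfold dl; positivity

lemma dl_summable (d : ℝ) : Summable (dl d) := by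
  have : Summable (fun n : ℕ => (1 / 2 : ℝ) ^ n) := summable_geometric_two
  have h2 := (this.mul_left (d * (1 / 2)))
  refine h2.congr fun n => ?_
  unfold dl
  rw [pow_succ]; ring

lemma dl_sum (d : ℝ) (n : ℕ) : ∑ j ∈ Finset.range n, dl d j = d * (1 - (1 / 2) ^ n) := by
  induction n with
  | zero => simp
  | succ n ih =>
    rw [Finset.sum_range_succ, ih]
    unfold dl
    rw [pow_succ]; ring

lemma dl_tail (d : ℝ) (n : ℕ) : ∑' j, dl d (n + j) = d * (1 / 2) ^ n := by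
  have h1 : ∀ j : ℕ, dl d (n + j) = d * (1 / 2) ^ n / 2 / 2 ^ j := by
    intro j
    unfold dl
    rw [pow_succ, pow_add]
    simp only [one_div, inv_pow]
    field_simp
  simp only [h1]
  exact tsum_geometric_two' _

/-- invariants of the iteration -/
structure Inv (K₀ : Set X) (s η d Λ₀ : ℝ) (n : ℕ) (p : St × ℝ) : Prop where
  good : Good K₀ p.1
  lt : ∀ x, |rho s (p.1.r x)| < 1
  hD : ∀ i j z, |D (ev j) (p.1.u i) z| ≤ η - d * (1 / 2) ^ n
  Λ0 : Λ₀ ≤ p.2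
  lip : ∀ x y, |rho s (p.1.r x) - rho s (p.1.r y)| ≤ p.2 * dist x y

/-- relations between successive states -/
structure Rel (T₀ m s d : ℝ) (ψ : E3 → ℝ) (n : ℕ) (p p' : St × ℝ) : Prop where
  hX : XX s p'.1 ≤ XX s p.1 - 4 / 10 * TT s p.1 + 1800 * YY m s p.1 + dl d n
  hY : YY m s p'.1 ≤ 94 / 100 * YY m s p.1 + 1 / 1000000 * TT s p.1 + dl d n
  u : ∀ i z, |p'.1.u i z - p.1.u i z| ≤ dl d n
  ux : ∀ i j z, |D (ev j) (p'.1.u i) z - D (ev j) (p.1.u i) z| ≤ dl d n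
  ut : ∀ i z, |D et (p'.1.u i) z - D et (p.1.u i) z| ≤ dl d n
  lb : ∀ z ∈ slab T₀, ∀ i, |lab p'.1.u i z - lab p.1.u i z| ≤ dl d n
  mono : p.2 ≤ p'.2
  wk : ∀ g : E3 → ℝ, (∀ x y, |g x - g y| ≤ p.2 * dist x y) → (∀ x, |g x| ≤ 1) →
        |∫ x, ψ x * (rho s (p'.1.r x) - rho s (p.1.r x)) * g x| ≤ dl d n
  en : (∫ x, ψ x * rho s (p.1.r x) ^ 2) + 1 / 2 * (∫ x, ψ x * tau (rho s (p.1.r x)) ^ 2) - dl d n
        ≤ ∫ x, ψ x * rho s (p'.1.r x) ^ 2

/-- the iteration -/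
theorem iterate {T₀ : ℝ} {K₀ : Set X} (hK : IsCompact K₀) (hKT : K₀ ⊆ slab T₀) {s η : ℝ} (m : ℝ)
    (hs : 0 < s) (hs1 : s ≤ 1 / 10000) (hη : 0 < η) (hηT : η * T₀ ≤ 1 / 10000)
    {ψ : E3 → ℝ} (hψ : ContDiff ℝ ∞ ψ) (hψc : HasCompactSupport ψ) (ψ0 : ∀ x, 0 ≤ ψ x)
    (ψ1 : ∀ x, ψ x ≤ 1) {S₀ : St} (hg : Good K₀ S₀) (hr : ∀ x, S₀.r x = 1) {d : ℝ} (hd : 0 < d)
    (hD : ∀ i j z, |D (ev j) (S₀.u i) z| ≤ η - d) {Λ₀ : ℝ} (hΛ : 0 ≤ Λ₀) :
    ∃ p : ℕ → St × ℝ, p 0 = (S₀, Λ₀) ∧ (∀ n, Inv K₀ s η d Λ₀ n (p n)) ∧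
      ∀ n, Rel T₀ m s d ψ n (p n) (p (n + 1)) := by
  have key : ∀ n (p : St × ℝ), Inv K₀ s η d Λ₀ n p → ∃ p', Inv K₀ s η d Λ₀ (n + 1) p' ∧
      Rel T₀ m s d ψ n p p' := by
    intro n p hp
    have hpn : 0 < d * (1 / 2) ^ n := by positivity
    obtain ⟨S', h1, h2, h3, h4, h5, h6, h7, h8, h9, h10⟩ := step hK hKT m hs hs1 hη hηT hψ hψc ψ0 ψ1
      hp.good hp.lt (fun i j z => (hp.hD i j z).trans (by linarith)) (hΛ.trans hp.Λ0)
      (dl_pos hd n)
    obtain ⟨L, hL⟩ := h1.rlip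
    refine ⟨(S', max p.2 (L / s)), ⟨h1, h2, ?_, hp.Λ0.trans (le_max_left _ _), ?_⟩,
      ⟨h3, h4, h5, h6, h7, h8, le_max_left _ _, h9, h10⟩⟩
    · intro i j z
      have a1 := h6 i j z
      have a2 := hp.hD i j z
      have a3 : |D (ev j) (S'.u i) z| ≤ |D (ev j) (S'.u i) z - D (ev j) (p.1.u i) z|
          + |D (ev j) (p.1.u i) z| := by
        have := abs_add_le (D (ev j) (S'.u i) z - D (ev j) (p.1.u i) z) (D (ev j) (p.1.u i) z)
        simpa using this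
      unfold dl at a1
      have e : d * (1 / 2) ^ (n + 1) = d * (1 / 2) ^ n / 2 := by rw [pow_succ]; ring
      change |D (ev j) (S'.u i) z| ≤ _
      rw [e] at a1 ⊢
      linarith
    · intro x y
      have a1 := hL.dist_le_mul x y
      rw [Real.dist_eq] at a1
      have e : rho s (S'.r x) - rho s (S'.r y) = (S'.r x - S'.r y) / s := by
        unfold rho; ring
      change |rho s (S'.r x) - rho s (S'.r y)| ≤ max p.2 (L / s) * dist x y
      rw [e, abs_div, abs_of_pos hs]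
      have a2 : |S'.r x - S'.r y| / s ≤ L / s * dist x y := by
        rw [div_le_iff₀ hs]
        refine a1.trans (le_of_eq ?_)
        field_simp
      exact a2.trans (mul_le_mul_of_nonneg_right (le_max_right _ _) dist_nonneg)
  choose! nx h1 h2 using key
  set p : ℕ → St × ℝ := fun n => Nat.rec (S₀, Λ₀) (fun n p => nx n p) n with hpdef
  have hI : ∀ n, Inv K₀ s η d Λ₀ n (p n) := by
    intro n
    induction n with
    | zero =>
      refine ⟨hg, ?_, ?_, le_rfl, ?_⟩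
      · intro x
        change |rho s (S₀.r x)| < 1
        rw [hr]
        simp [rho]
      · intro i j z
        rw [pow_zero, mul_one]
        exact hD i j z
      · intro x y
        change |rho s (S₀.r x) - rho s (S₀.r y)| ≤ Λ₀ * dist x y
        rw [hr, hr, sub_self, abs_zero]
        exact mul_nonneg hΛ dist_nonneg
    | succ n ih => exact h1 n (p n) ih
  exact ⟨p, rfl, hI, fun n => h2 n (p n) (hI n)⟩

/-- consequences for the size and for the error -/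
lemma bounds {T₀ m s d : ℝ} {ψ : E3 → ℝ} {K₀ : Set X} {η Λ₀ : ℝ} {p : ℕ → St × ℝ} (hd : 0 < d)
    (hI : ∀ n, Inv K₀ s η d Λ₀ n (p n)) (hR : ∀ n, Rel T₀ m s d ψ n (p n) (p (n + 1))) :
    (∃ C : ℝ, ∀ n, XX s (p n).1 ≤ C) ∧ Tendsto (fun n => YY m s (p n).1) atTop (𝓝 0) := by
  set Φ : ℕ → ℝ := fun n => XX s (p n).1 + 40000 * YY m s (p n).1 with hΦ
  have hstep : ∀ n, Φ (n + 1) + 600 * YY m s (p n).1 ≤ Φ n + 40001 * dl d n := by
    intro n
    have h1 := (hR n).hX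
    have h2 := (hR n).hY
    have h3 : 0 ≤ TT s (p n).1 := TT_nonneg
    simp only [hΦ]
    linarith
  have hY0 : ∀ n, 0 ≤ YY m s (p n).1 := fun n => YY_nonneg
  have hX0 : ∀ n, 0 ≤ XX s (p n).1 := fun n => XX_nonneg (hI n).lt
  have hsum : ∀ n, Φ n + 600 * ∑ j ∈ Finset.range n, YY m s (p j).1
      ≤ Φ 0 + 40001 * (d * (1 - (1 / 2) ^ n)) := by
    intro n
    induction n with
    | zero => simp
    | succ n ih =>
      rw [Finset.sum_range_succ]
      have h1 := hstep n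
      have h2 : dl d n = d * (1 / 2) ^ (n + 1) := rfl
      have h3 : (1 / 2 : ℝ) ^ (n + 1) = (1 / 2) ^ n / 2 := by rw [pow_succ]; ring
      rw [h2, h3] at h1
      rw [h3]
      linarith
  have hle : ∀ n : ℕ, d * (1 - (1 / 2 : ℝ) ^ n) ≤ d := by
    intro n
    have : 0 ≤ d * (1 / 2 : ℝ) ^ n := by positivity
    linarith
  constructor
  · refine ⟨Φ 0 + 40001 * d, fun n => ?_⟩
    have h1 := hsum n
    have h2 := hle n
    have h3 : 0 ≤ ∑ j ∈ Finset.range n, YY m s (p j).1 := Finset.sum_nonneg fun j _ => hY0 j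
    have h4 := hY0 n
    simp only [hΦ] at h1 ⊢
    linarith
  · have hs : Summable fun n => YY m s (p n).1 := by
      refine summable_of_sum_range_le (c := (Φ 0 + 40001 * d) / 600) hY0 fun n => ?_
      rw [le_div_iff₀ (by norm_num)]
      have h1 := hsum n
      have h2 := hle n
      have h4 := hY0 n
      have h5 := hX0 n
      have h6 : 0 ≤ Φ n := by simp only [hΦ]; linarith
      linarith
    exact hs.tendsto_atTop_zero

end

end Pool.Agent.K6.H24.MH
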