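import Pool.Agent.K6.H24.MH.Lms

open scoped ContDiff ENNReal Manifold
open Set MeasureTheory Filter Topology

namespace Pool.Agent.K6.H24.MH

open Pool.Agent.H729R2 (E3 X ev et D St Good lab vec phx phy slab O1 B1 nv n2 vK)
open Pool.Agent.H729R2 Pool.Agent.H729R2.MHD

noncomputable section

set_option linter.unusedSectionVars false

lemma bdd3 {u : Fin 3 → X → ℝ} (hu : ∀ i, ContDiff ℝ ∞ (u i)) (hc : ∀ i, HasCompactSupport (u i)) :
    ∃ M : ℝ, 0 ≤ M ∧ ∀ i z, |u i z| ≤ M := by
  choose C hC using fun i => (hc i).exists_bound_of_continuous (hu i).continuous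
  refine ⟨|C 0| + |C 1| + |C 2|, by positivity, fun i z => ?_⟩
  have h1 := hC i z
  have h2 : |u i z| ≤ |C i| := h1.trans (le_abs_self _)
  have a0 := abs_nonneg (C 0)
  have a1 := abs_nonneg (C 1)
  have a2 := abs_nonneg (C 2)
  fin_cases i <;> simp only [Fin.zero_eta, Fin.mk_one, Fin.reduceFinMk] at h2 ⊢ <;> linarith

/-- uniform limits with the rates of the iteration -/
lemma ulim {α : Type} [TopologicalSpace α] (F : ℕ → α → ℝ) (hc : ∀ n, Continuous (F n)) {d : ℝ}
    (h : ∀ n x, |F (n + 1) x - F n x| ≤ dl d n) :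
    ∃ f : α → ℝ, Continuous f ∧ (∀ x, Tendsto (fun n => F n x) atTop (𝓝 (f x))) ∧
      ∀ n x, |F n x - f x| ≤ d * (1 / 2) ^ n := by
  obtain ⟨f, h1, h2, h3⟩ := exists_ulim F hc (dl d) (dl_summable d) h
  exact ⟨f, h1, h2, fun n x => (h3 n x).trans (le_of_eq (dl_tail d n))⟩

lemma rate_zero (d : ℝ) : Tendsto (fun n : ℕ => d * (1 / 2 : ℝ) ^ n) atTop (𝓝 0) := by
  have := (tendsto_pow_atTop_nhds_zero_of_lt_one (r := (1 / 2 : ℝ)) (by norm_num)
      (by norm_num)).const_mul d
  simpa using this

/-- the limit of the labels preserves the measure -/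
lemma mp_lim {f : ℕ → E3 → E3} {g : E3 → E3} (hf : ∀ n, Continuous (f n)) (hg : Continuous g)
    (hl : ∀ x, Tendsto (fun n => f n x) atTop (𝓝 (g x))) {c : ℝ} (hc : ∀ n x, ‖f n x - x‖ ≤ c)
    (h : ∀ n (φ : E3 → ℝ), ContDiff ℝ ∞ φ → HasCompactSupport φ →
      ∫ x, φ (f n x) = ∫ x, φ x) : MeasurePreserving g volume volume := by
  have hgc : ∀ x, ‖g x - x‖ ≤ c := fun x =>
    le_of_tendsto' ((hl x).sub_const x).norm fun n => hc n x
  refine mp_of_smooth hg hgc fun φ hφ hφc => ?_
  obtain ⟨R, hR⟩ := ball_of_cs hφc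
  obtain ⟨C, hC⟩ := hφc.exists_bound_of_continuous hφ.continuous
  have hC0 : 0 ≤ C := (norm_nonneg _).trans (hC 0)
  have h1 : Tendsto (fun n => ∫ x, φ (f n x)) atTop (𝓝 (∫ x, φ (g x))) := by
    refine tendsto_integral_of_dominated_convergence
      ((Metric.closedBall (0:E3) (R + c)).indicator fun _ => C)
      (fun n => (hφ.continuous.comp (hf n)).aestronglyMeasurable)
      ((integrable_indicator_iff Metric.isClosed_closedBall.measurableSet).2
        (integrableOn_const (isCompact_closedBall _ _).measure_lt_top.ne))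
      (fun n => Eventually.of_forall fun x => ?_)
      (Eventually.of_forall fun x => (hφ.continuous.tendsto _).comp (hl x))
    by_cases hx : x ∈ Metric.closedBall (0:E3) (R + c)
    · rw [indicator_of_mem hx]; exact hC _
    · rw [indicator_of_notMem hx, hR (f n x) fun hm => hx ?_, norm_zero]
      rw [mem_closedBall_zero_iff] at hm ⊢
      have h2 := norm_sub_le (f n x) (f n x - x)
      rw [sub_sub_cancel] at h2
      linarith [hc n x]
  have h2 : ∀ n, ∫ x, φ (f n x) = ∫ x, φ x := fun n => h n φ hφ hφc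
  simp only [h2] at h1
  exact tendsto_nhds_unique h1 tendsto_const_nhds

/-- properties of the labels of one state -/
lemma lab_props {T M : ℝ} (hT : 0 ≤ T) {K₀ : Set X} (hK : IsCompact K₀) {S : St} (hg : Good K₀ S)
    (hM : ∀ i z, |S.u i z| ≤ M) :
    (∀ t x, ‖(vec fun i => lab S.u i (cl T (t, x))) - x‖ ≤ 2 * (M * T)) ∧
    (∀ t (φ : E3 → ℝ), ContDiff ℝ ∞ φ → HasCompactSupport φ →
      ∫ x, φ (vec fun i => lab S.u i (cl T (t, x))) = ∫ x, φ x) ∧
    Continuous (fun z => vec fun i => lab S.u i (cl T z)) := by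
  have hM0 : 0 ≤ M := (abs_nonneg _).trans (hM 0 0)
  refine ⟨fun t x => ?_, fun t φ hφ hφc => ?_, ?_⟩
  · have h1 : (vec fun i => lab S.u i (cl T (t, x))) - x
        = vec fun i => lab S.u i (cl T (t, x)) - x i := by ext i; simp
    rw [h1]
    refine norm_vec_le fun i => ?_
    refine (lab_near hg.hu (hg.ucs hK) i (hM i) (cl T (t, x))).trans ?_
    have h2 := cl_slab hT (t, x)
    rw [abs_of_nonneg h2.1]
    exact mul_le_mul_of_nonneg_left h2.2 hM0
  · exact int_lab hg.hu (hg.ucs hK) hg.div hφ hφc (max 0 (min t T))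
  · have h1 := contDiff_vec (n := 0) (f := fun i z => lab S.u i (cl T z)) fun i =>
      contDiff_zero.2 (((hg.lab_isLabel hK).smooth i).continuous.comp (cl_cont T))
    exact h1.continuous

theorem exists_LL {T R : ℝ} (hT : 0 < T) {K₀ : Set X} (hK : IsCompact K₀) (hKT : K₀ ⊆ slab T)
    {s η : ℝ} (m : ℝ) (hs : 0 < s) (hs1 : s ≤ 1 / 10000) (hη : 0 < η) (hηT : η * T ≤ 1 / 10000)
    {S₀ : St} (hg : Good K₀ S₀) (hr : ∀ x, S₀.r x = 1) {d : ℝ} (hd : 0 < d)
    (hD : ∀ i j z, |D (ev j) (S₀.u i) z| ≤ η - d)
    {g₀ : E3 → ℝ} (g₀s : ContDiff ℝ ∞ g₀) (g₀c : HasCompactSupport g₀) (g₀1 : ∀ x, |g₀ x| ≤ 1)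
    (g₀R : ∀ x, x ∉ Metric.closedBall (0:E3) R → g₀ x = 0) :
    ∃ S uL tL xL YL rL fL, LL K₀ R T s m (hyperfilter ℕ) S uL tL xL YL rL fL ∧
      (∀ i z, |S₀.u i z - uL i z| ≤ d) ∧ (∀ i j z, |D (ev j) (S₀.u i) z - xL i j z| ≤ d) ∧
      (∀ i z, |D et (S₀.u i) z - tL i z| ≤ d) ∧ |∫ x, (rL x - 1) / s * g₀ x| ≤ d := by
  obtain ⟨M₀, hM₀0, hM₀⟩ := bdd3 hg.hu (hg.ucs hK)
  set M := M₀ + d with hMdef
  have hM0 : 0 ≤ M := by positivity
  set c := 2 * (M * T) with hc
  have hc0 : 0 ≤ c := by positivity
  set B : Set E3 := Metric.closedBall (0:E3) (R + c) with hB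
  have hBm : MeasurableSet B := Metric.isClosed_closedBall.measurableSet
  obtain ⟨ψ, hψ, hψc, ψ0, ψ1, ψB, -⟩ := exists_bump (isCompact_closedBall (0:E3) (R + c))
    isOpen_univ (subset_univ _)
  obtain ⟨Λ₀, hΛ₀, hlip⟩ := lip_of_cs g₀s g₀c
  obtain ⟨p, hp0, hI, hR⟩ := iterate hK hKT m hs hs1 hη hηT hψ hψc ψ0 ψ1 hg hr hd hD hΛ₀
  obtain ⟨⟨CX, hCX⟩, hYY⟩ := bounds hd hI hR
  set S : ℕ → St := fun n => (p n).1 with hS
  have hS0 : S 0 = S₀ := by simp only [hS, hp0]
  have hgood : ∀ n, Good K₀ (S n) := fun n => (hI n).good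
  have hlt : ∀ n x, |rho s ((S n).r x)| < 1 := fun n => (hI n).lt
  -- uniform limits
  choose uL uc ul ub using fun i => ulim (fun n => (S n).u i)
    (fun n => ((hgood n).hu i).continuous) (fun n z => (hR n).u i z)
  choose xL xc xl xb using fun i j => ulim (fun n => D (ev j) ((S n).u i))
    (fun n => (D_smooth ((hgood n).hu i) (ev j)).continuous) (fun n z => (hR n).ux i j z)
  choose tL tc tl tb using fun i => ulim (fun n => D et ((S n).u i))
    (fun n => (D_smooth ((hgood n).hu i) et).continuous) (fun n z => (hR n).ut i z)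
  choose YL Yc Yl Yb using fun i => ulim (fun n z => lab (S n).u i (cl T z))
    (fun n => (((hgood n).lab_isLabel hK).smooth i).continuous.comp (cl_cont T))
    (fun n z => (hR n).lb (cl T z) (cl_slab hT.le z) i)
  have hM : ∀ n i z, |(S n).u i z| ≤ M := by
    intro n i z
    have h1 : |(S n).u i z| ≤ M₀ + d * (1 - (1 / 2) ^ n) := by
      induction n with
      | zero => rw [hS0]; simpa using hM₀ i z
      | succ n ih =>
        have h2 := (hR n).u i z
        have h3 : |(S (n + 1)).u i z| ≤ |(S (n + 1)).u i z - (S n).u i z| + |(S n).u i z| := by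
          have := abs_add_le ((S (n + 1)).u i z - (S n).u i z) ((S n).u i z)
          simpa using this
        have h4 : dl d n = d * (1 / 2) ^ (n + 1) := rfl
        have h5 : (1 / 2 : ℝ) ^ (n + 1) = (1 / 2) ^ n / 2 := by rw [pow_succ]; ring
        rw [h4, h5] at h2
        rw [h5]
        change |(S (n + 1)).u i z - (S n).u i z| ≤ _ at h2
        linarith
    have h2 : 0 ≤ d * (1 / 2 : ℝ) ^ n := by positivity
    linarith
  have hlp := fun n => lab_props hT.le hK (hgood n) (hM n)
  set fn : ℕ → X → E3 := fun n z => vec fun i => lab (S n).u i (cl T z) with hfn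
  set gL : X → E3 := fun z => vec fun i => YL i z with hgL
  have hfc : ∀ n, Continuous (fn n) := fun n => (hlp n).2.2
  have hgc : Continuous gL := by
    have h1 := contDiff_vec (n := 0) (f := YL) fun i => contDiff_zero.2 (Yc i)
    exact h1.continuous
  have hfg : ∀ n z, ‖fn n z - gL z‖ ≤ 2 * (d * (1 / 2) ^ n) := by
    intro n z
    have h1 : fn n z - gL z = vec fun i => lab (S n).u i (cl T z) - YL i z := by
      ext i; simp [hfn, hgL]
    rw [h1]
    exact norm_vec_le fun i => Yb i n z
  have hfl : ∀ z, Tendsto (fun n => fn n z) atTop (𝓝 (gL z)) := by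
    intro z
    rw [tendsto_iff_norm_sub_tendsto_zero]
    refine squeeze_zero (fun n => norm_nonneg _) (fun n => hfg n z) ?_
    have := (rate_zero d).const_mul 2
    simpa using this
  have hmpn : ∀ n t, MeasurePreserving (fun x => fn n (t, x)) volume volume := fun n t =>
    mp_of_smooth ((hfc n).comp (continuous_const.prodMk continuous_id)) ((hlp n).1 t)
      ((hlp n).2.1 t)
  have hmpL : ∀ t, MeasurePreserving (fun x => gL (t, x)) volume volume := fun t =>
    mp_lim (f := fun n x => fn n (t, x))
      (fun n => (hfc n).comp (continuous_const.prodMk continuous_id))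
      (hgc.comp (continuous_const.prodMk continuous_id)) (fun x => hfl (t, x))
      (fun n => (hlp n).1 t) (fun n => (hlp n).2.1 t)
  have hnearL : ∀ t x, ‖gL (t, x) - x‖ ≤ c := fun t x =>
    le_of_tendsto' ((hfl (t, x)).sub_const x).norm fun n => (hlp n).1 t x
  -- the specific volume
  have hρc : ∀ n, Continuous fun x => rho s ((S n).r x) := fun n =>
    (rho_smooth (hgood n).hr s).continuous
  obtain ⟨ρL, hρm, hρ1, hρl⟩ := exists_rlim (ρ := fun n x => rho s ((S n).r x)) hρc
    (fun n x => (hlt n x).le) hψ.continuous hψc ψ0 hBm ψB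
    (Λ := fun n => (p n).2) (monotone_nat_of_le_succ fun n => (hR n).mono)
    (fun n => (hI n).lip) hd (fun n => (hR n).wk) (fun n => (hR n).en)
  set rL : E3 → ℝ := fun x => 1 + s * ρL x with hrL
  have hrm : Measurable rL := measurable_const.add (measurable_const.mul hρm)
  have hr2 : ∀ x, rL x = 1 + s ∨ rL x = 1 - s := fun x => by
    rcases hρ1 x with h | h
    · left; simp only [hrL]; rw [h]; ring
    · right; simp only [hrL]; rw [h]; ring
  have hrb : ∀ x, |rL x| ≤ 2 := fun x => by
    rcases hr2 x with h | h <;> rw [h, abs_le] <;> constructor <;> linarith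
  have hrl : Tendsto (fun n => eLpNorm (fun x => (S n).r x - rL x) 2 (volume.restrict B)) atTop
      (𝓝 0) := by
    have h1 : ∀ n, eLpNorm (fun x => (S n).r x - rL x) 2 (volume.restrict B)
        ≤ ENNReal.ofReal s * eLpNorm (fun x => rho s ((S n).r x) - ρL x) 2 (volume.restrict B) := by
      intro n
      have h2 : (fun x => (S n).r x - rL x) = s • (fun x => rho s ((S n).r x) - ρL x) := by
        ext x
        simp only [hrL, Pi.smul_apply, smul_eq_mul]
        unfold rho
        field_simp
        ring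
      rw [h2]
      refine eLpNorm_const_smul_le.trans (le_of_eq ?_)
      rw [Real.enorm_eq_ofReal hs.le]
    have h2 : Tendsto (fun n => ENNReal.ofReal s *
        eLpNorm (fun x => rho s ((S n).r x) - ρL x) 2 (volume.restrict B)) atTop (𝓝 0) := by
      have := ENNReal.Tendsto.const_mul hρl (Or.inr (ENNReal.ofReal_ne_top (r := s)))
      rwa [mul_zero] at this
    exact tendsto_of_tendsto_of_tendsto_of_le_of_le tendsto_const_nhds h2 (fun n => zero_le)
      h1
  -- convergence on the space-time domain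
  set A : Set X := Icc 0 T ×ˢ Metric.closedBall (0:E3) R with hA
  have hAc : IsCompact A := isCompact_Icc.prod (isCompact_closedBall _ _)
  have hAs : A ⊆ slab T := fun z hz => ⟨hz.1.1, hz.1.2⟩
  set μA : Measure X := (volume : Measure X).restrict A with hμA
  have : IsFiniteMeasure μA := ⟨by rw [hμA, Measure.restrict_apply_univ]; exact hAc.measure_lt_top⟩
  set ν : Measure E3 := ENNReal.ofReal T • (volume : Measure E3).restrict B with hν
  have : IsFiniteMeasure ((volume : Measure E3).restrict B) :=
    ⟨by rw [Measure.restrict_apply_univ]; exact (isCompact_closedBall _ _).measure_lt_top⟩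
  have : IsFiniteMeasure ν := by
    refine ⟨?_⟩
    rw [hν, Measure.smul_apply, smul_eq_mul]
    exact ENNReal.mul_lt_top ENNReal.ofReal_lt_top (measure_lt_top _ _)
  have hrlν : Tendsto (fun n => eLpNorm (fun x => (S n).r x - rL x) 2 ν) atTop (𝓝 0) := by
    have h1 : ∀ n, eLpNorm (fun x => (S n).r x - rL x) 2 ν = ENNReal.ofReal T ^ (1 / (2:ℝ≥0∞)).toReal
        * eLpNorm (fun x => (S n).r x - rL x) 2 (volume.restrict B) := by
      intro n
      rw [hν, eLpNorm_smul_measure_of_ne_top (by norm_num), smul_eq_mul]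
    simp only [h1]
    have hTt : ENNReal.ofReal T ^ (1 / (2:ℝ≥0∞)).toReal ≠ ⊤ :=
      ENNReal.rpow_ne_top_of_nonneg (by positivity) ENNReal.ofReal_ne_top
    have := ENNReal.Tendsto.const_mul hrl (Or.inr hTt)
    rwa [mul_zero] at this
  have hrLp : MemLp rL 2 ν := memLp_bdd hrm.aestronglyMeasurable hrb 2
  have c2 := comp_conv (μ := μA) (ν := ν) (l := atTop) (f := fn) (g := gL)
    (fun n => (hfc n).measurable) hgc.measurable
    (fun n => map_le (hfc n).measurable (hmpn n) (hlp n).1)
    (map_le hgc.measurable hmpL hnearL)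
    (fun ε hε => by
      have h1 : Tendsto (fun n : ℕ => 2 * (d * (1 / 2 : ℝ) ^ n)) atTop (𝓝 0) := by
        have := (rate_zero d).const_mul 2
        simpa using this
      filter_upwards [h1.eventually (ge_mem_nhds hε)] with n hn
      exact Eventually.of_forall fun z => (hfg n z).trans hn)
    (p := 2) (by norm_num) (by norm_num) (r := fun n => (S n).r) (rL := rL)
    (fun n => (hgood n).hr.continuous.measurable) hrm hrLp hrlν
  have c1 := comp_conv (μ := μA) (ν := ν) (l := atTop) (f := fun _ z => z.2) (g := fun z => z.2)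
    (fun n => measurable_snd) measurable_snd
    (fun n => map_le measurable_snd (fun _ => MeasurePreserving.id _) (fun t x => by
      simpa using hc0))
    (map_le measurable_snd (fun _ => MeasurePreserving.id _) (fun t x => by simpa using hc0))
    (fun ε hε => Eventually.of_forall fun n => Eventually.of_forall fun z => by
      simpa using hε.le)
    (p := 2) (by norm_num) (by norm_num) (r := fun n => (S n).r) (rL := rL)
    (fun n => (hgood n).hr.continuous.measurable) hrm hrLp hrlν
  -- subsequences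
  obtain ⟨n1, hn1, hae1⟩ := (tendstoInMeasure_of_tendsto_eLpNorm (p := 2) (by norm_num)
    (fun n => ((hgood n).hr.continuous.comp continuous_snd).aestronglyMeasurable)
    (hrm.comp measurable_snd).aestronglyMeasurable c1).exists_seq_tendsto_ae
  obtain ⟨n2', hn2, hae2⟩ := (tendstoInMeasure_of_tendsto_eLpNorm (p := 2) (by norm_num)
    (fun n => ((hgood (n1 n)).hr.continuous.comp (hfc (n1 n))).aestronglyMeasurable)
    (hrm.comp hgc.measurable).aestronglyMeasurable
    (c2.comp hn1.tendsto_atTop)).exists_seq_tendsto_ae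
  set φ : ℕ → ℕ := fun n => n1 (n2' n) with hφ
  have hφt : Tendsto φ atTop atTop := hn1.tendsto_atTop.comp hn2.tendsto_atTop
  have hae1' : ∀ᵐ z ∂μA, Tendsto (fun n => (S (φ n)).R1 z) atTop (𝓝 (rL z.2)) := by
    filter_upwards [hae1] with z hz
    exact hz.comp hn2.tendsto_atTop
  have hae2' : ∀ᵐ z ∂μA, Tendsto (fun n => (S (φ n)).R2 z) atTop (𝓝 (rL (gL z))) := by
    filter_upwards [hae2, ae_restrict_mem hAc.measurableSet] with z hz hzA
    refine hz.congr fun n => ?_
    have h1 : (S (φ n)).r (fn (n1 (n2' n)) z) = (S (φ n)).R2 z := by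
      simp only [hfn, cl_eq (hAs hzA)]
      rfl
    exact h1
  -- the forces
  have hfb : ∀ n i, n2 (ff (S n) i) ≤ Real.sqrt (4 * CX) := fun n i =>
    ff_bdd hK (hgood n) (hlt n) (hCX n) i
  have hfm : ∀ n i, MemLp (ff (S n) i) 2 (volume : Measure X) := fun n i =>
    memLp_cc (((hgood n).R1s.mul ((hgood n).gps i)).continuous)
      (HasCompactSupport.intro hK fun z hz => by simp [ff, (hgood n).gp_zero hz])
  choose fL₀ fm₀ fl₀ using fun i => exists_weak (G := fun n => ff (S (φ n)) i)
    (fun n => hfm (φ n) i) (fun n => hfb (φ n) i) (hyperfilter ℕ)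
  have hel : ∀ i, Tendsto (fun n => n2 (em (S n) m i)) atTop (𝓝 0) := by
    intro i
    have h1 : Tendsto (fun n => Real.sqrt (YY m s (S n))) atTop (𝓝 0) := by
      have := (Real.continuous_sqrt.tendsto 0).comp hYY
      simpa [Function.comp_def] using this
    exact squeeze_zero (fun n => n2_nonneg _) (fun n => em_bdd hK (hgood n) hs hs1 (hlt n) i) h1
  refine ⟨fun n => S (φ n), uL, tL, xL, YL, rL, fun i => K₀.indicator (fL₀ i), ?_, ?_, ?_, ?_, ?_⟩
  · refine ⟨fun n => hgood _, inferInstance, Nat.hyperfilter_le_atTop, uc,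
      ⟨_, (rate_zero d).comp hφt, fun i n z => ub i (φ n) z⟩, xc,
      ⟨_, (rate_zero d).comp hφt, fun i j n z => xb i j (φ n) z⟩, tc,
      ⟨_, (rate_zero d).comp hφt, fun i n z => tb i (φ n) z⟩, Yc, ?_, hmpL, ⟨c, hnearL⟩, hrm, hr2,
      ?_, ?_, fun i => (fm₀ i).indicator hK.measurableSet, fun i z hz => by simp [hz],
      ⟨_, fun n i => hfb (φ n) i⟩, ?_, fun i => (hel i).comp hφt⟩
    · intro x i
      refine tendsto_nhds_unique (Yl i (0, x)) ?_
      have : ∀ n, lab (S n).u i (cl T (0, x)) = x i := by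
        intro n
        rw [cl_eq ⟨le_rfl, hT.le⟩]
        exact ((hgood n).lab_isLabel hK).init x i
      simp only [this]
      exact tendsto_const_nhds
    · exact ⟨fun n => (hgood _).R1s.continuous.aestronglyMeasurable,
        ⟨2, by norm_num, fun n z _ => abs_le.2 ⟨by
          have : 1 / 2 ≤ (S (φ n)).R1 z := (hgood _).rlo _
          linarith, (hgood _).rhi _⟩⟩, hae1'⟩
    · exact ⟨fun n => ((hgood _).R2s hK).continuous.aestronglyMeasurable,
        ⟨2, by norm_num, fun n z _ => abs_le.2 ⟨by
          have : 1 / 2 ≤ (S (φ n)).R2 z := (hgood _).rlo _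
          linarith, (hgood _).rhi _⟩⟩, hae2'⟩
    · intro i h hh
      have h1 := fl₀ i (K₀.indicator h) (hh.indicator hK.measurableSet)
      have e1 : ∀ n, ∫ z, ff (S (φ n)) i z * K₀.indicator h z = ∫ z, ff (S (φ n)) i z * h z := by
        intro n
        refine integral_congr_ae (Eventually.of_forall fun z => ?_)
        by_cases hz : z ∈ K₀
        · simp [hz]
        · simp [hz, ff, (hgood (φ n)).gp_zero hz]
      have e2 : ∫ z, fL₀ i z * K₀.indicator h z = ∫ z, K₀.indicator (fL₀ i) z * h z := by
        refine integral_congr_ae (Eventually.of_forall fun z => ?_)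
        by_cases hz : z ∈ K₀ <;> simp [hz]
      simp only [e1, e2] at h1
      exact h1
  · intro i z
    have := ub i 0 z
    rw [hS0] at this
    simpa using this
  · intro i j z
    have := xb i j 0 z
    rw [hS0] at this
    simpa using this
  · intro i z
    have := tb i 0 z
    rw [hS0] at this
    simpa using this
  · -- the mean of the specific volume
    have hii : ∀ {F : E3 → ℝ}, Continuous F → Integrable (fun x => ψ x * F x) := fun hF =>
      (hψ.continuous.mul hF).integrable_of_hasCompactSupport hψc.mul_right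
    have hwk : ∀ n, |∫ x, ψ x * rho s ((S n).r x) * g₀ x| ≤ d * (1 - (1 / 2) ^ n) := by
      intro n
      induction n with
      | zero =>
        have : ∀ x, rho s ((S 0).r x) = 0 := fun x => by rw [hS0, hr]; simp [rho]
        simp [this]
      | succ n ih =>
        have h1 := (hR n).wk g₀ (fun x y => (hlip x y).trans
          (mul_le_mul_of_nonneg_right (hI n).Λ0 dist_nonneg)) g₀1
        have i1 : Integrable (fun x => ψ x * (rho s ((S (n + 1)).r x) - rho s ((S n).r x))
            * g₀ x) := by
          have := hii (((hρc (n + 1)).sub (hρc n)).mul g₀s.continuous)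
          refine this.congr (Eventually.of_forall fun x => ?_)
          simp only [Pi.mul_apply, Pi.sub_apply]
          ring
        have i2 : Integrable (fun x => ψ x * rho s ((S n).r x) * g₀ x) := by
          have := hii ((hρc n).mul g₀s.continuous)
          refine this.congr (Eventually.of_forall fun x => ?_)
          simp only [Pi.mul_apply]
          ring
        have e1 : ∫ x, ψ x * rho s ((S (n + 1)).r x) * g₀ x
            = (∫ x, ψ x * (rho s ((S (n + 1)).r x) - rho s ((S n).r x)) * g₀ x)
              + ∫ x, ψ x * rho s ((S n).r x) * g₀ x := by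
          rw [← integral_add i1 i2]
          refine integral_congr_ae (Eventually.of_forall fun x => ?_)
          beta_reduce
          ring
        rw [e1]
        refine (abs_add_le _ _).trans ?_
        have h4 : dl d n = d * (1 / 2) ^ (n + 1) := rfl
        have h5 : (1 / 2 : ℝ) ^ (n + 1) = (1 / 2) ^ n / 2 := by rw [pow_succ]; ring
        rw [h4, h5] at h1
        rw [h5]
        change |∫ x, ψ x * (rho s ((S (n + 1)).r x) - rho s ((S n).r x)) * g₀ x| ≤ _ at h1
        linarith
    obtain ⟨n3, -, hae3⟩ := (tendstoInMeasure_of_tendsto_eLpNorm (p := 2) (by norm_num)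
      (fun n => (hρc n).aestronglyMeasurable) hρm.aestronglyMeasurable hρl).exists_seq_tendsto_ae
    have hRB : Metric.closedBall (0:E3) R ⊆ B := Metric.closedBall_subset_closedBall (by linarith)
    have hz : ∀ x, x ∉ B → g₀ x = 0 := fun x hx => g₀R x fun h' => hx (hRB h')
    have h1 : Tendsto (fun n => ∫ x in B, rho s ((S (n3 n)).r x) * g₀ x) atTop
        (𝓝 (∫ x in B, ρL x * g₀ x)) := by
      refine tendsto_integral_of_dominated_convergence (fun _ => (1:ℝ))
        (fun n => ((hρc _).mul g₀s.continuous).aestronglyMeasurable) (integrable_const _)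
        (fun n => Eventually.of_forall fun x => ?_) ?_
      · rw [norm_mul, Real.norm_eq_abs, Real.norm_eq_abs]
        have := mul_le_mul (hlt (n3 n) x).le (g₀1 x) (abs_nonneg _) zero_le_one
        linarith
      · filter_upwards [hae3] with x hx
        exact hx.mul_const _
    have e1 : ∀ n, ∫ x in B, rho s ((S n).r x) * g₀ x = ∫ x, ψ x * rho s ((S n).r x) * g₀ x := by
      intro n
      rw [← integral_indicator hBm]
      refine integral_congr_ae (Eventually.of_forall fun x => ?_)
      beta_reduce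
      by_cases hx : x ∈ B
      · rw [indicator_of_mem hx, ψB x hx, one_mul]
      · rw [indicator_of_notMem hx, hz x hx, mul_zero]
    have e2 : ∫ x in B, ρL x * g₀ x = ∫ x, (rL x - 1) / s * g₀ x := by
      rw [← integral_indicator hBm]
      refine integral_congr_ae (Eventually.of_forall fun x => ?_)
      beta_reduce
      by_cases hx : x ∈ B
      · rw [indicator_of_mem hx]
        simp only [hrL]
        field_simp
        ring
      · rw [indicator_of_notMem hx, hz x hx, mul_zero]
    rw [← e2]
    refine le_of_tendsto' h1.abs fun n => ?_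
    rw [e1]
    refine (hwk (n3 n)).trans ?_
    have : 0 ≤ d * (1 / 2 : ℝ) ^ (n3 n) := by positivity
    linarith

end

end Pool.Agent.K6.H24.MH
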