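import Pool.Agent.K6.H24.MH.Cv

open scoped ContDiff ENNReal Manifold
open Set MeasureTheory Filter Topology

namespace Pool.Agent.K6.H24.MH

open Pool.Agent.H729R2 (E3 X ev et D St Good lab vec phx phy slab O1 B1 nv n2 vK)
open Pool.Agent.H729R2 Pool.Agent.H729R2.MHD

noncomputable section

set_option linter.unusedSectionVars false

/-- bump functions -/
lemma exists_bump {K U : Set E3} (hK : IsCompact K) (hU : IsOpen U) (hKU : K ⊆ U) :
    ∃ φ : E3 → ℝ, ContDiff ℝ ∞ φ ∧ HasCompactSupport φ ∧ (∀ x, 0 ≤ φ x) ∧ (∀ x, φ x ≤ 1) ∧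
      (∀ x ∈ K, φ x = 1) ∧ ∀ x, x ∉ U → φ x = 0 := by
  obtain ⟨K', hK', hKK', hK'U⟩ := exists_compact_between hK hU hKU
  obtain ⟨g, hg1, hg0, hg⟩ := exists_contMDiffMap_one_nhds_of_subset_interior (n := ⊤)
    𝓘(ℝ, E3) hK.isClosed hKK'
  exact ⟨g, g.contMDiff.contDiff, HasCompactSupport.intro hK' fun x hx => hg0 x hx,
    fun x => (hg x).1, fun x => (hg x).2, fun x hx => hg1.self_of_nhdsSet x hx,
    fun x hx => hg0 x fun h' => hx (hK'U h')⟩

/-- clamping the time -/
def cl (T : ℝ) (z : X) : X := (max 0 (min z.1 T), z.2)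

lemma cl_cont (T : ℝ) : Continuous (cl T) :=
  (continuous_const.max (continuous_fst.min continuous_const)).prodMk continuous_snd

lemma cl_slab {T : ℝ} (hT : 0 ≤ T) (z : X) : cl T z ∈ slab T :=
  ⟨le_max_left _ _, max_le hT (min_le_right _ _)⟩

lemma cl_eq {T : ℝ} {z : X} (hz : z ∈ slab T) : cl T z = z := by
  refine Prod.ext ?_ rfl
  simp only [cl]
  rw [min_eq_left hz.2, max_eq_right hz.1]

/-- images of the restricted measure -/
lemma map_le {R c T : ℝ} {f : X → E3} (hf : Measurable f)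
    (hmp : ∀ t, MeasurePreserving (fun x => f (t, x)) volume volume)
    (hn : ∀ t x, ‖f (t, x) - x‖ ≤ c) :
    ((volume : Measure X).restrict (Icc 0 T ×ˢ Metric.closedBall (0:E3) R)).map f
      ≤ ENNReal.ofReal T • (volume : Measure E3).restrict (Metric.closedBall (0:E3) (R + c)) := by
  refine Measure.le_iff.2 fun A hA => ?_
  have hB : MeasurableSet (Metric.closedBall (0:E3) (R + c)) :=
    Metric.isClosed_closedBall.measurableSet
  rw [Measure.map_apply hf hA, Measure.volume_eq_prod, ← Measure.prod_restrict,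
    Measure.prod_apply (hf hA)]
  calc ∫⁻ t, ((volume : Measure E3).restrict (Metric.closedBall (0:E3) R))
        (Prod.mk t ⁻¹' (f ⁻¹' A)) ∂((volume : Measure ℝ).restrict (Icc 0 T))
      ≤ ∫⁻ _t, ((volume : Measure E3).restrict (Metric.closedBall (0:E3) (R + c))) A
        ∂((volume : Measure ℝ).restrict (Icc 0 T)) := by
        refine lintegral_mono fun t => ?_
        have hmt : MeasurableSet (Prod.mk t ⁻¹' (f ⁻¹' A)) := measurable_prodMk_left (hf hA)
        rw [Measure.restrict_apply hmt, Measure.restrict_apply hA]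
        have h1 := (hmp t).measure_preimage (hA.inter hB).nullMeasurableSet
        rw [← h1]
        refine measure_mono fun x hx => ⟨hx.1, ?_⟩
        have h2 := hx.2
        rw [mem_closedBall_zero_iff] at h2 ⊢
        have h3 := norm_add_le x (f (t, x) - x)
        rw [add_sub_cancel] at h3
        linarith [hn t x]
    _ = (ENNReal.ofReal T • (volume : Measure E3).restrict
          (Metric.closedBall (0:E3) (R + c))) A := by
        rw [lintegral_const, Measure.restrict_apply_univ, Real.volume_Icc, sub_zero,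
          Measure.smul_apply, smul_eq_mul, mul_comm]

lemma map_le_slice {R c : ℝ} {Ω : Set E3} (hΩR : Ω ⊆ Metric.closedBall (0:E3) R) {f : E3 → E3}
    (hmp : MeasurePreserving f volume volume) (hn : ∀ x, ‖f x - x‖ ≤ c) :
    ((volume : Measure E3).restrict Ω).map f
      ≤ (volume : Measure E3).restrict (Metric.closedBall (0:E3) (R + c)) := by
  refine Measure.le_iff.2 fun A hA => ?_
  have hB : MeasurableSet (Metric.closedBall (0:E3) (R + c)) :=
    Metric.isClosed_closedBall.measurableSet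
  have hf := hmp.measurable
  rw [Measure.map_apply hf hA, Measure.restrict_apply (hf hA), Measure.restrict_apply hA,
    ← hmp.measure_preimage (hA.inter hB).nullMeasurableSet]
  refine measure_mono fun x hx => ⟨hx.1, ?_⟩
  have h2 := hΩR hx.2
  rw [mem_closedBall_zero_iff] at h2 ⊢
  have h3 := norm_add_le x (f x - x)
  rw [add_sub_cancel] at h3
  linarith [hn x]

/-- the limits of the iteration -/
structure LL (K₀ : Set X) (R T s m : ℝ) (l : Filter ℕ) (S : ℕ → St) (uL tL : Fin 3 → X → ℝ)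
    (xL : Fin 3 → Fin 3 → X → ℝ) (YL : Fin 3 → X → ℝ) (rL : E3 → ℝ) (fL : Fin 3 → X → ℝ) :
    Prop where
  good : ∀ n, Good K₀ (S n)
  ln : l.NeBot
  la : l ≤ atTop
  uc : ∀ i, Continuous (uL i)
  ul : ∃ c : ℕ → ℝ, Tendsto c atTop (𝓝 0) ∧ ∀ i n z, |(S n).u i z - uL i z| ≤ c n
  xc : ∀ i j, Continuous (xL i j)
  xl : ∃ c : ℕ → ℝ, Tendsto c atTop (𝓝 0) ∧ ∀ i j n z, |D (ev j) ((S n).u i) z - xL i j z| ≤ c n
  tc : ∀ i, Continuous (tL i)
  tl : ∃ c : ℕ → ℝ, Tendsto c atTop (𝓝 0) ∧ ∀ i n z, |D et ((S n).u i) z - tL i z| ≤ c n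
  Yc : ∀ i, Continuous (YL i)
  Y0 : ∀ x i, YL i (0, x) = x i
  mp : ∀ t, MeasurePreserving (fun x => vec fun i => YL i (t, x)) volume volume
  near : ∃ c : ℝ, ∀ t x, ‖vec (fun i => YL i (t, x)) - x‖ ≤ c
  rm : Measurable rL
  r2 : ∀ x, rL x = 1 + s ∨ rL x = 1 - s
  R1l : BA (Icc 0 T ×ˢ Metric.closedBall (0:E3) R) (fun n => (S n).R1) (fun z => rL z.2)
  R2l : BA (Icc 0 T ×ˢ Metric.closedBall (0:E3) R) (fun n => (S n).R2)
    (fun z => rL (vec fun i => YL i z))
  fm : ∀ i, MemLp (fL i) 2 (volume : Measure X)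
  fz : ∀ i z, z ∉ K₀ → fL i z = 0
  fb : ∃ C : ℝ, ∀ n i, n2 (ff (S n) i) ≤ C
  fl : ∀ i h, MemLp h 2 (volume : Measure X) →
    Tendsto (fun n => ∫ z, ff (S n) i z * h z) l (𝓝 (∫ z, fL i z * h z))
  el : ∀ i, Tendsto (fun n => n2 (em (S n) m i)) atTop (𝓝 0)

/-- bound of the force -/
lemma ff_bdd {K₀ : Set X} (hK : IsCompact K₀) {S : St} (hg : Good K₀ S) {s C : ℝ}
    (hlt : ∀ x, |rho s (S.r x)| < 1) (hX : XX s S ≤ C) (i : Fin 3) :
    n2 (ff S i) ≤ Real.sqrt (4 * C) := by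
  have hm : MemLp (ff S i) 2 (volume : Measure X) :=
    memLp_cc ((hg.R1s.mul (hg.gps i)).continuous)
      (HasCompactSupport.intro hK fun z hz => by simp [ff, hg.gp_zero hz])
  have hX0 := XX_nonneg hlt
  refine abs_le_of_sq_le_sq' ?_ (Real.sqrt_nonneg _) |>.2
  rw [n2_sq hm, Real.sq_sqrt (by linarith)]
  have i1 : Integrable (fun z => ff S i z ^ 2) := hm.integrable_sq
  have i2 : Integrable (fun z => M2 S z * Hw s S z) :=
    int0 hK ((M2_smooth hg).continuous.mul (Hw_smooth hg hK).continuous)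
      fun z hz => by simp [M2_zero hg hz]
  have h1 : ∫ z, ff S i z ^ 2 ≤ ∫ z, 4 * (M2 S z * Hw s S z) := by
    refine integral_mono i1 (i2.const_mul 4) fun z => ?_
    have h2 := abs_le_nv S.gp i z
    have h3 : S.R1 z ≤ 2 := hg.rhi _
    have h4 : 1 / 2 ≤ S.R1 z := hg.rlo _
    have h5 : ff S i z ^ 2 ≤ 4 * nv S.gp z ^ 2 := by
      have e1 : ff S i z ^ 2 = S.R1 z ^ 2 * |S.gp i z| ^ 2 := by
        rw [sq_abs]; unfold ff; ring
      rw [e1]
      have h6 := pow_le_pow_left₀ (abs_nonneg _) h2 2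
      have h7 : S.R1 z ^ 2 ≤ 4 := by nlinarith
      exact mul_le_mul h7 h6 (by positivity) (by norm_num)
    have h6 : nv S.gp z ^ 2 ≤ M2 S z := by
      unfold M2
      have := sq_nonneg (nv S.b z)
      linarith
    have h7 : M2 S z ≤ M2 S z * Hw s S z := le_mul_of_one_le_right (M2_nonneg z) (Hw_ge hlt z)
    beta_reduce
    linarith
  rw [integral_const_mul] at h1
  refine h1.trans ?_
  have : ∫ z, M2 S z * Hw s S z = XX s S := rfl
  rw [this]
  linarith

/-- bound of the error -/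
lemma em_bdd {K₀ : Set X} (hK : IsCompact K₀) {S : St} (hg : Good K₀ S) {s m : ℝ} (hs : 0 < s)
    (hs1 : s ≤ 1 / 10000) (hlt : ∀ x, |rho s (S.r x)| < 1) (i : Fin 3) :
    n2 (em S m i) ≤ Real.sqrt (YY m s S) := by
  have hm : MemLp (em S m i) 2 (volume : Measure X) :=
    memLp_cc (em_smooth hg hK i).continuous
      (HasCompactSupport.intro hK fun z hz => em_zero' hg hz i)
  have hY0 := YY_nonneg (m := m) (s := s) (S := S)
  refine abs_le_of_sq_le_sq' ?_ (Real.sqrt_nonneg _) |>.2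
  rw [n2_sq hm, Real.sq_sqrt hY0]
  refine integral_mono hm.integrable_sq
    (int0 hK (Eh_smooth hg hK hs hs1 hlt).continuous fun z hz => Eh_zero hg hz) fun z => ?_
  have h2 := abs_le_nv (em S m) i z
  have h3 := pow_le_pow_left₀ (abs_nonneg _) h2 2
  rw [sq_abs] at h3
  have hW := Wf_pos hs hs1 hlt z
  have hW1 : Wf S s z ≤ 1 := by
    have a1 : am1 S s z ≤ 1 / 100000 := alf_le hs hs1 (hlt _)
    have a2 : am2 S s z ≤ 1 / 100000 := alf_le hs hs1 (hlt _)
    have b1 : 0 < am1 S s z := alf_pos hs hs1 (hlt _)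
    have b2 : 0 < am2 S s z := alf_pos hs hs1 (hlt _)
    unfold Wf
    nlinarith
  beta_reduce
  unfold Eh
  rw [le_div_iff₀ hW]
  have h4 : em S m i z ^ 2 * Wf S s z ≤ em S m i z ^ 2 * 1 :=
    mul_le_mul_of_nonneg_left hW1 (sq_nonneg _)
  linarith

end

end Pool.Agent.K6.H24.MH
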