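import Pool.Agent.K6.H24.MH.RLim
import Pool.Agent.H729R2.Fin1

open scoped ContDiff Manifold ENNReal
open Set MeasureTheory Filter Topology

namespace Pool.Agent.K6.H24.MH

open Pool.Agent.H729R2 (E3 X ev et D St Good lab vec phx phy slab O1 B1 nv n2 vK)
open Pool.Agent.H729R2 Pool.Agent.H729R2.MHD
open Pool.Agent.H664.Flow

noncomputable section

variable {u : Fin 3 → X → ℝ}

/-- displacement of the labels -/
lemma lab_near (hu : ∀ i, ContDiff ℝ ∞ (u i)) (hc : ∀ i, HasCompactSupport (u i)) {M : ℝ}
    (i : Fin 3) (hM : ∀ z, |u i z| ≤ M) (z : X) : |lab u i z - z.2 i| ≤ M * |z.1| := by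
  have hf := flw_isFlow hu hc
  have hder : ∀ s : ℝ, HasDerivAt (fun s => (flw u (-s) z).2 i) (- u i (flw u (-s) z)) s := by
    intro s
    have h1 := (hf.deriv z (-s)).scomp s (hasDerivAt_neg s)
    rw [neg_one_smul] at h1
    have h2 := ((EuclideanSpace.proj i : E3 →L[ℝ] ℝ).comp
      (ContinuousLinearMap.snd ℝ ℝ E3)).hasFDerivAt.comp_hasDerivAt s h1
    refine h2.congr_deriv ?_
    simp [fld]
  have h3 := Convex.norm_image_sub_le_of_norm_hasDerivWithin_le (s := univ)
    (f := fun s => (flw u (-s) z).2 i) (f' := fun s => - u i (flw u (-s) z)) (x := 0) (y := z.1)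
    (C := M) (fun s _ => (hder s).hasDerivWithinAt) (fun s _ => by
      rw [norm_neg]; exact hM _) convex_univ (mem_univ _) (mem_univ _)
  rw [sub_zero, neg_zero, hf.zero] at h3
  exact h3

/-- functions of the labels have constant integrals -/
lemma int_lab (hu : ∀ i, ContDiff ℝ ∞ (u i)) (hc : ∀ i, HasCompactSupport (u i))
    (hdiv : ∀ z, ∑ i, D (ev i) (u i) z = 0) {φ : E3 → ℝ} (hφ : ContDiff ℝ ∞ φ)
    (hφc : HasCompactSupport φ) (t : ℝ) :
    ∫ x, φ (vec fun i => lab u i (t, x)) = ∫ x, φ x := by
  have hY := isLabel_lab hu hc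
  set F : X → ℝ := fun z => φ (vec fun i => lab u i z) with hF
  have hFs : ContDiff ℝ ∞ F := hφ.comp (contDiff_vec hY.smooth)
  have hT := transport_comp hY hφ
  obtain ⟨M, hM⟩ : ∃ M : ℝ, ∀ i z, |u i z| ≤ M := by
    choose C hC using fun i => (hc i).exists_bound_of_continuous (hu i).continuous
    refine ⟨|C 0| + |C 1| + |C 2|, fun i z => ?_⟩
    have h1 := hC i z
    have h2 : |u i z| ≤ |C i| := h1.trans (le_abs_self _)
    have a0 := abs_nonneg (C 0)
    have a1 := abs_nonneg (C 1)
    have a2 := abs_nonneg (C 2)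
    fin_cases i <;> simp only [Fin.zero_eta, Fin.mk_one, Fin.reduceFinMk] at h2 ⊢ <;> linarith
  have hM0 : 0 ≤ M := (abs_nonneg _).trans (hM 0 0)
  obtain ⟨R, hR⟩ := ball_of_cs hφc
  -- support
  have hsupp : ∀ s : ℝ, ∀ x : E3, x ∉ Metric.closedBall (0:E3) (R + 2 * (M * |s|)) →
      F (s, x) = 0 := by
    intro s x hx
    refine hR _ fun hmem => hx ?_
    rw [mem_closedBall_zero_iff] at hmem ⊢
    have h1 : ‖vec (fun i => lab u i (s, x) - x i)‖ ≤ 2 * (M * |s|) :=
      norm_vec_le fun i => lab_near hu hc i (hM i) (s, x)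
    have h2 : x = vec (fun i => lab u i (s, x)) - vec (fun i => lab u i (s, x) - x i) := by
      ext i; simp
    calc ‖x‖ = ‖vec (fun i => lab u i (s, x)) - vec (fun i => lab u i (s, x) - x i)‖ := by
          rw [← h2]
      _ ≤ ‖vec (fun i => lab u i (s, x))‖ + ‖vec (fun i => lab u i (s, x) - x i)‖ :=
          norm_sub_le _ _
      _ ≤ R + 2 * (M * |s|) := add_le_add hmem h1
  have hsuppD : ∀ s : ℝ, ∀ x : E3, x ∉ Metric.closedBall (0:E3) (R + 2 * (M * |s|)) →
      ∀ τ, |τ| ≤ |s| → F (τ, x) = 0 := by
    intro s x hx τ hτ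
    refine hsupp τ x fun hm => hx ?_
    rw [mem_closedBall_zero_iff] at hm ⊢
    have : M * |τ| ≤ M * |s| := mul_le_mul_of_nonneg_left hτ hM0
    linarith
  -- the derivative of the integral
  have hzero : ∀ s : ℝ, ∫ x, D et F (s, x) = 0 := by
    intro s
    have e1 : ∀ x, D et F (s, x) = - ∑ j, u j (s, x) * pdx j (fun y => F (s, y)) x := by
      intro x
      have h1 := hT (s, x)
      simp only [pdx_slice hFs]
      linarith
    have usl : ∀ j, HasCompactSupport fun x : E3 => u j (s, x) := by
      intro j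
      refine HasCompactSupport.intro (K := Prod.snd '' tsupport (u j))
        (IsCompact.image (hc j) continuous_snd) fun x hx => ?_
      exact image_eq_zero_of_notMem_tsupport fun h' => hx ⟨(s, x), h', rfl⟩
    have e2 : ∀ j, ∫ x, u j (s, x) * pdx j (fun y => F (s, y)) x
        = - ∫ x, D (ev j) (u j) (s, x) * F (s, x) := by
      intro j
      have := ibp3 (slice_smooth (hu j) s) (slice_smooth hFs s) (Or.inl (usl j)) j
      rw [this]
      simp only [pdx_slice (hu j)]
    have i1 : ∀ j, Integrable fun x => u j (s, x) * pdx j (fun y => F (s, y)) x := fun j =>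
      ((slice_cont (hu j).continuous s).mul
        (pdx_cont (slice_smooth hFs s) j)).integrable_of_hasCompactSupport (usl j).mul_right
    have i2 : ∀ j, Integrable fun x => D (ev j) (u j) (s, x) * F (s, x) := by
      intro j
      refine ((slice_cont (D_smooth (hu j) (ev j)).continuous s).mul
        (slice_cont hFs.continuous s)).integrable_of_hasCompactSupport ?_
      exact HasCompactSupport.intro (isCompact_closedBall (0:E3) (R + 2 * (M * |s|)))
        fun x hx => by simp [hsupp s x hx]
    simp only [e1]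
    rw [integral_neg, integral_finsetSum _ fun j _ => i1 j]
    simp only [e2, Finset.sum_neg_distrib, neg_neg]
    rw [← integral_finsetSum _ fun j _ => i2 j]
    have e3 : ∀ x, ∑ j, D (ev j) (u j) (s, x) * F (s, x) = 0 := by
      intro x
      rw [← Finset.sum_mul, hdiv, zero_mul]
    simp only [e3, integral_zero]
  have hder : ∀ s : ℝ, HasDerivAt (fun s => ∫ x, F (s, x)) 0 s := by
    intro s
    set Kc : Set X := Metric.closedBall (0:ℝ) (|s| + 1) ×ˢ
      Metric.closedBall (0:E3) (R + 2 * (M * (|s| + 1))) with hKc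
    have hKcc : IsCompact Kc := (isCompact_closedBall _ _).prod (isCompact_closedBall _ _)
    obtain ⟨C, hC⟩ := bounded_on hKcc (D_smooth hFs et).continuous
    have hs1 : |(|s| + 1)| = |s| + 1 := abs_of_nonneg (by positivity)
    have key := hasDerivAt_integral_of_dominated_loc_of_deriv_le (μ := (volume : Measure E3))
      (F := fun s x => F (s, x)) (F' := fun s x => D et F (s, x)) (x₀ := s)
      (s := Metric.ball s 1)
      (bound := (Metric.closedBall (0:E3) (R + 2 * (M * (|s| + 1)))).indicator fun _ => |C|)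
      (Metric.ball_mem_nhds s one_pos)
      (Eventually.of_forall fun τ => (slice_cont hFs.continuous τ).aestronglyMeasurable)
      ((slice_cont hFs.continuous s).integrable_of_hasCompactSupport
        (HasCompactSupport.intro (isCompact_closedBall (0:E3) (R + 2 * (M * |s|)))
        fun x hx => hsupp s x hx))
      (slice_cont (D_smooth hFs et).continuous s).aestronglyMeasurable
      (Eventually.of_forall fun x τ hτ => by
        have hτ1 : |τ| < |s| + 1 := by
          rw [Metric.mem_ball, Real.dist_eq] at hτ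
          have := abs_add_le (τ - s) s
          rw [sub_add_cancel] at this
          linarith
        by_cases hx : x ∈ Metric.closedBall (0:E3) (R + 2 * (M * (|s| + 1)))
        · rw [indicator_of_mem hx]
          refine (hC (τ, x) ⟨?_, hx⟩).trans (le_abs_self C)
          rw [mem_closedBall_zero_iff, Real.norm_eq_abs]
          exact hτ1.le
        · rw [indicator_of_notMem hx]
          have h0 : D et F (τ, x) = 0 := by
            have hloc : F =ᶠ[𝓝 (τ, x)] fun _ => 0 := by
              have o1 : IsOpen {z : X | |z.1| < |s| + 1 ∧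
                  z.2 ∉ Metric.closedBall (0:E3) (R + 2 * (M * (|s| + 1)))} :=
                (isOpen_lt continuous_fst.abs continuous_const).inter
                  ((Metric.isClosed_closedBall.isOpen_compl).preimage continuous_snd)
              filter_upwards [o1.mem_nhds ⟨hτ1, hx⟩] with z hz
              have := hsuppD (|s| + 1) z.2 (by rw [hs1]; exact hz.2) z.1 (by
                rw [hs1]; exact hz.1.le)
              exact this
            rw [D_congr_nhds et hloc, D_const]
          rw [h0, norm_zero])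
      ((integrable_indicator_iff Metric.isClosed_closedBall.measurableSet).2
        (integrableOn_const (isCompact_closedBall _ _).measure_lt_top.ne))
      (Eventually.of_forall fun x τ _ => by
        have hcd : HasDerivAt (fun τ : ℝ => ((τ, x) : X)) et τ :=
          (hasDerivAt_id τ).prodMk (hasDerivAt_const τ x)
        exact ((smooth_diff hFs) (τ, x)).hasFDerivAt.comp_hasDerivAt τ hcd)
    have h2 := key.2
    rw [hzero s] at h2
    exact h2
  have h1 := is_const_of_deriv_eq_zero (fun s => (hder s).differentiableAt)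
    (fun s => (hder s).deriv) t 0
  beta_reduce at h1
  rw [hF] at h1
  refine h1.trans ?_
  refine integral_congr_ae (Eventually.of_forall fun x => ?_)
  beta_reduce
  congr 1
  ext i
  simp [hY.init]

/-- maps close to the identity which preserve integrals of test functions preserve the measure -/
lemma mp_of_smooth {f : E3 → E3} (hf : Continuous f) {c : ℝ} (hfc : ∀ x, ‖f x - x‖ ≤ c)
    (h : ∀ φ : E3 → ℝ, ContDiff ℝ ∞ φ → HasCompactSupport φ → ∫ x, φ (f x) = ∫ x, φ x) :
    MeasurePreserving f volume volume := by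
  refine ⟨hf.measurable, ?_⟩
  set ν : Measure E3 := Measure.map f volume with hν
  have hνA : ∀ {A : Set E3}, MeasurableSet A → ν A = volume (f ⁻¹' A) := fun hA =>
    Measure.map_apply hf.measurable hA
  have hpre : ∀ K : Set E3, IsCompact K → IsCompact (f ⁻¹' K) := by
    intro K hK
    obtain ⟨R, hR⟩ := hK.isBounded.exists_norm_le
    refine Metric.isCompact_of_isClosed_isBounded (hK.isClosed.preimage hf) ?_
    refine (Metric.isBounded_closedBall (x := (0:E3)) (r := R + c)).subset fun x hx => ?_
    rw [mem_closedBall_zero_iff]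
    have h1 := hR _ hx
    have h2 := norm_sub_le (f x) (f x - x)
    rw [sub_sub_cancel] at h2
    linarith [hfc x]
  have hfin : IsFiniteMeasureOnCompacts ν := ⟨fun K hK => by
    rw [hνA hK.measurableSet]
    exact (hpre K hK).measure_lt_top⟩
  have hsm : ∀ {φ : E3 → ℝ}, ContDiff ℝ ∞ φ → HasCompactSupport φ → (∀ x, 0 ≤ φ x) →
      ∫⁻ x, ENNReal.ofReal (φ x) ∂ν = ∫⁻ x, ENNReal.ofReal (φ x) := by
    intro φ hφ hφc h0
    have hφm : Measurable fun x => ENNReal.ofReal (φ x) :=
      ENNReal.measurable_ofReal.comp hφ.continuous.measurable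
    rw [lintegral_map hφm hf.measurable]
    have i1 : Integrable φ := hφ.continuous.integrable_of_hasCompactSupport hφc
    have i2 : Integrable (fun x => φ (f x)) :=
      (hφ.continuous.comp hf).integrable_of_hasCompactSupport
        (HasCompactSupport.intro (hpre _ hφc) fun x hx =>
          image_eq_zero_of_notMem_tsupport (f := φ) (x := f x) hx)
    rw [← ofReal_integral_eq_lintegral_ofReal i1 (Eventually.of_forall h0),
      ← ofReal_integral_eq_lintegral_ofReal i2 (Eventually.of_forall fun x => h0 _), h φ hφ hφc]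
  have hex : ∀ K U : Set E3, IsCompact K → IsOpen U → K ⊆ U → ∃ φ : E3 → ℝ, ContDiff ℝ ∞ φ ∧
      HasCompactSupport φ ∧ (∀ x, 0 ≤ φ x) ∧ (∀ x, φ x ≤ 1) ∧ (∀ x ∈ K, φ x = 1) ∧
      ∀ x, x ∉ U → φ x = 0 := by
    intro K U hK hU hKU
    obtain ⟨K', hK', hKK', hK'U⟩ := exists_compact_between hK hU hKU
    obtain ⟨g, hg1, hg0, hg⟩ := exists_contMDiffMap_one_nhds_of_subset_interior (n := ⊤)
      𝓘(ℝ, E3) hK.isClosed hKK'
    refine ⟨g, g.contMDiff.contDiff, HasCompactSupport.intro hK' fun x hx => hg0 x hx,
      fun x => (hg x).1, fun x => (hg x).2, fun x hx => hg1.self_of_nhdsSet x hx,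
      fun x hx => hg0 x fun h' => hx (hK'U h')⟩
  have hcomp : ∀ (m₁ m₂ : Measure E3), (∀ {φ : E3 → ℝ}, ContDiff ℝ ∞ φ → HasCompactSupport φ →
      (∀ x, 0 ≤ φ x) → ∫⁻ x, ENNReal.ofReal (φ x) ∂m₁ = ∫⁻ x, ENNReal.ofReal (φ x) ∂m₂) →
      ∀ K U : Set E3, IsCompact K → IsOpen U → K ⊆ U → m₁ K ≤ m₂ U := by
    intro m₁ m₂ hm K U hK hU hKU
    obtain ⟨φ, p1, p2, p3, p4, p5, p6⟩ := hex K U hK hU hKU
    calc m₁ K = ∫⁻ x, K.indicator 1 x ∂m₁ := (lintegral_indicator_one hK.measurableSet).symm
      _ ≤ ∫⁻ x, ENNReal.ofReal (φ x) ∂m₁ := by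
          refine lintegral_mono fun x => ?_
          by_cases hx : x ∈ K
          · simp [hx, p5 x hx]
          · simp [hx]
      _ = ∫⁻ x, ENNReal.ofReal (φ x) ∂m₂ := hm p1 p2 p3
      _ ≤ ∫⁻ x, U.indicator 1 x ∂m₂ := by
          refine lintegral_mono fun x => ?_
          by_cases hx : x ∈ U
          · simp only [hx, indicator_of_mem, Pi.one_apply]
            exact ENNReal.ofReal_le_one.2 (p4 x)
          · simp [hx, p6 x hx]
      _ = m₂ U := lintegral_indicator_one hU.measurableSet
  refine Measure.OuterRegular.ext_isOpen fun U hU => ?_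
  refine le_antisymm ?_ ?_
  · rw [hU.measure_eq_iSup_isCompact]
    exact iSup₂_le fun K hK => iSup_le fun hKc => hcomp ν volume hsm K U hKc hU hK
  · rw [hU.measure_eq_iSup_isCompact (μ := volume)]
    exact iSup₂_le fun K hK => iSup_le fun hKc => hcomp volume ν
      (fun h1 h2 h3 => (hsm h1 h2 h3).symm) K U hKc hU hK

end

end Pool.Agent.K6.H24.MH
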