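import Pool.Agent.H729R2.Weak

/-!
# Pointwise identities for the two-phase construction

All quantities at one point of space-time.  The specific volumes are changed by the factors
`1 + a1 cx` and `1 + a2 cy`, the gradient of the pressure of the first solution by
`q = Q1 cx k + Q2 cy κ` and the viscous force of the second solution by `G`.
-/

open scoped ContDiff
open Set MeasureTheory Filter Topology

namespace Pool.Agent.K6.H24.MH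

open Pool.Agent.H729R2

noncomputable section

/-- the values at one point -/
structure Pt where
  a : E3
  b : E3
  g : E3
  k : E3
  κ : E3
  R1 : ℝ
  R2 : ℝ
  a1 : ℝ
  a2 : ℝ
  ζ : ℝ
  cx : ℝ
  cy : ℝ
  sx : ℝ
  sy : ℝ

namespace Pt

variable (P : Pt)

def e : E3 := P.a + P.R2 • P.b - P.R1 • P.g
def W : ℝ := P.a1 ^ 2 + P.a2 ^ 2
def s1 : ℝ := ∑ i, P.e i * P.k i
def s2 : ℝ := ∑ i, P.e i * P.κ i
def n1 : ℝ := ∑ i, P.k i ^ 2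
def n2 : ℝ := ∑ i, P.κ i ^ 2
def Q1 : ℝ := P.ζ * P.a1 * P.s1 / (P.R1 * P.W * P.n1)
def Q2 : ℝ := -(P.ζ * P.a2 * P.s2 / (P.R1 * P.W * P.n2))
def cs : ℝ := P.cx * P.cy - P.sx * P.sy
def cθ : ℝ := P.cx * P.cy + P.sx * P.sy
def c2x : ℝ := 2 * P.cx ^ 2 - 1
def c2y : ℝ := 2 * P.cy ^ 2 - 1
/-- oscillating part of the gradient of the pressure -/
def q : E3 := (P.Q1 * P.cx) • P.k + (P.Q2 * P.cy) • P.κ
/-- the part of `G` which compensates the products of oscillations -/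
def H : E3 := (-(P.R1 / (2 * P.R2) * (P.a2 * P.cs - P.a1 * P.c2x) * P.Q1)) • P.k
  + (-(P.R1 / (2 * P.R2) * (P.a2 * P.c2y - P.a1 * P.cs) * P.Q2)) • P.κ
def G : E3 := (-(P.ζ * P.a2 * P.cy)) • P.b + ((P.R1 / P.R2) * (P.ζ * P.a1) * P.cx) • P.g
  + (P.R1 / P.R2) • P.q + P.H
/-- the new error -/
def et' : E3 := P.a + (P.R2 * (1 + P.a2 * P.cy)) • (P.b + P.G)
  - (P.R1 * (1 + P.a1 * P.cx)) • (P.g + P.q)
/-- projection of the error to `k` -/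
def x : E3 := (P.s1 / P.n1) • P.k
/-- projection of the error to `κ` -/
def y : E3 := (P.s2 / P.n2) • P.κ
def v0 : E3 := P.e - (P.ζ / 2 * (P.a1 ^ 2 / P.W)) • P.x - (P.ζ / 2 * (P.a2 ^ 2 / P.W)) • P.y
def v1 : E3 := (P.ζ / 2 * (P.a1 * P.a2 / P.W)) • P.x + (P.ζ / 2 * (P.a1 * P.a2 / P.W)) • P.y
/-- main part of the new error -/
def m : E3 := P.v0 + P.cθ • P.v1
def E1 : E3 := ((1 - P.ζ) * P.R2 * P.a2 * P.cy) • P.b
  + (-((1 - P.ζ) * P.R1 * P.a1 * P.cx)) • P.g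
def E2 : E3 := (-(P.ζ * P.a2 * P.cy * (P.R2 * P.a2 * P.cy))) • P.b
  + (P.ζ * P.a2 * P.cy * (P.R1 * P.a1 * P.cx)) • P.g
def E3' : E3 := (P.R2 * P.a2 * P.cy) • P.H

structure Ok : Prop where
  k0 : P.k ≠ 0
  κ0 : P.κ ≠ 0
  κk : ‖P.κ - P.k‖ ≤ 3 / 1000 * ‖P.k‖
  a10 : 0 < P.a1
  a20 : 0 < P.a2
  a11 : P.a1 ≤ 1 / 100000
  a21 : P.a2 ≤ 1 / 100000
  R10 : 9999 / 10000 ≤ P.R1
  R11 : P.R1 ≤ 10001 / 10000
  R20 : 9999 / 10000 ≤ P.R2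
  R21 : P.R2 ≤ 10001 / 10000
  ζ0 : 0 ≤ P.ζ
  ζ1 : P.ζ ≤ 1
  hcx : |P.cx| ≤ 1
  hcy : |P.cy| ≤ 1
  hcs : |P.cs| ≤ 1
  hcθ : |P.cθ| ≤ 1

variable {P}

namespace Ok

variable (h : P.Ok)
include h

omit h in
lemma n1_eq : P.n1 = ‖P.k‖ ^ 2 := by
  rw [EuclideanSpace.norm_sq_eq]
  simp [n1]

omit h in
lemma n2_eq : P.n2 = ‖P.κ‖ ^ 2 := by
  rw [EuclideanSpace.norm_sq_eq]
  simp [n2]

lemma kpos : 0 < ‖P.k‖ := norm_pos_iff.2 h.k0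
lemma κpos : 0 < ‖P.κ‖ := norm_pos_iff.2 h.κ0
lemma n1pos : 0 < P.n1 := by rw [n1_eq]; have := h.kpos; positivity
lemma n2pos : 0 < P.n2 := by rw [n2_eq]; have := h.κpos; positivity
lemma Wpos : 0 < P.W := by have := h.a10; unfold W; positivity
lemma R1pos : 0 < P.R1 := by linarith [h.R10]
lemma R2pos : 0 < P.R2 := by linarith [h.R20]

omit h in
lemma s1_eq : P.s1 = inner ℝ P.e P.k := by
  simp [s1, PiLp.inner_apply, mul_comm]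

omit h in
lemma s2_eq : P.s2 = inner ℝ P.e P.κ := by
  simp [s2, PiLp.inner_apply, mul_comm]

omit h in
lemma s1_le : |P.s1| ≤ ‖P.e‖ * ‖P.k‖ := by
  rw [s1_eq]
  exact abs_real_inner_le_norm _ _

omit h in
lemma s2_le : |P.s2| ≤ ‖P.e‖ * ‖P.κ‖ := by
  rw [s2_eq]
  exact abs_real_inner_le_norm _ _

lemma Q1_le : P.R1 * (|P.Q1| * ‖P.k‖) ≤ P.a1 * ‖P.e‖ / P.W := by
  have hk := h.kpos
  have hs := s1_le (P := P)
  have r0 := h.R1pos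
  have w0 := h.Wpos
  have a0 := h.a10
  have z0 := h.ζ0
  have h1 : |P.Q1| = P.ζ * P.a1 * |P.s1| / (P.R1 * P.W * ‖P.k‖ ^ 2) := by
    unfold Q1
    rw [n1_eq, abs_div, abs_mul, abs_mul, abs_of_nonneg z0, abs_of_pos a0,
      abs_of_pos (by positivity : 0 < P.R1 * P.W * ‖P.k‖ ^ 2)]
  rw [h1]
  have h2 : P.R1 * (P.ζ * P.a1 * |P.s1| / (P.R1 * P.W * ‖P.k‖ ^ 2) * ‖P.k‖)
      = P.ζ * (P.a1 * (|P.s1| / ‖P.k‖) / P.W) := by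
    field_simp
  rw [h2]
  have h3 : |P.s1| / ‖P.k‖ ≤ ‖P.e‖ := by
    rw [div_le_iff₀ hk]; exact hs
  have h4 : P.a1 * (|P.s1| / ‖P.k‖) / P.W ≤ P.a1 * ‖P.e‖ / P.W := by gcongr
  have h5 : 0 ≤ P.a1 * (|P.s1| / ‖P.k‖) / P.W := by positivity
  calc P.ζ * (P.a1 * (|P.s1| / ‖P.k‖) / P.W) ≤ 1 * (P.a1 * (|P.s1| / ‖P.k‖) / P.W) :=
        mul_le_mul_of_nonneg_right h.ζ1 h5
    _ ≤ _ := by rw [one_mul]; exact h4

lemma Q2_le : P.R1 * (|P.Q2| * ‖P.κ‖) ≤ P.a2 * ‖P.e‖ / P.W := by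
  have hk := h.κpos
  have hs := s2_le (P := P)
  have r0 := h.R1pos
  have w0 := h.Wpos
  have a0 := h.a20
  have z0 := h.ζ0
  have h1 : |P.Q2| = P.ζ * P.a2 * |P.s2| / (P.R1 * P.W * ‖P.κ‖ ^ 2) := by
    unfold Q2
    rw [n2_eq, abs_neg, abs_div, abs_mul, abs_mul, abs_of_nonneg z0, abs_of_pos a0,
      abs_of_pos (by positivity : 0 < P.R1 * P.W * ‖P.κ‖ ^ 2)]
  rw [h1]
  have h2 : P.R1 * (P.ζ * P.a2 * |P.s2| / (P.R1 * P.W * ‖P.κ‖ ^ 2) * ‖P.κ‖)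
      = P.ζ * (P.a2 * (|P.s2| / ‖P.κ‖) / P.W) := by
    field_simp
  rw [h2]
  have h3 : |P.s2| / ‖P.κ‖ ≤ ‖P.e‖ := by
    rw [div_le_iff₀ hk]; exact hs
  have h4 : P.a2 * (|P.s2| / ‖P.κ‖) / P.W ≤ P.a2 * ‖P.e‖ / P.W := by gcongr
  have h5 : 0 ≤ P.a2 * (|P.s2| / ‖P.κ‖) / P.W := by positivity
  calc P.ζ * (P.a2 * (|P.s2| / ‖P.κ‖) / P.W) ≤ 1 * (P.a2 * (|P.s2| / ‖P.κ‖) / P.W) :=
        mul_le_mul_of_nonneg_right h.ζ1 h5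
    _ ≤ _ := by rw [one_mul]; exact h4

/-- the exact form of the new error -/
lemma identity : P.et' = P.m + (P.E1 + P.E2 + P.E3') := by
  have hn1 := h.n1pos.ne'
  have hn2 := h.n2pos.ne'
  have hW := h.Wpos.ne'
  have r1 := h.R1pos.ne'
  have r2 := h.R2pos.ne'
  have hWd : P.W = P.a1 ^ 2 + P.a2 ^ 2 := rfl
  ext i
  simp only [et', m, v0, v1, x, y, E1, E2, E3', G, H, q, PiLp.add_apply, PiLp.sub_apply,
    PiLp.smul_apply, smul_eq_mul]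
  have he : P.e i = P.a i + P.R2 * P.b i - P.R1 * P.g i := by
    simp [e]
  rw [he]
  have hQ1 : P.Q1 = P.ζ * P.a1 * P.s1 / (P.R1 * P.W * P.n1) := rfl
  have hQ2 : P.Q2 = -(P.ζ * P.a2 * P.s2 / (P.R1 * P.W * P.n2)) := rfl
  rw [hQ1, hQ2]
  unfold cs c2x c2y cθ
  field_simp
  ring

end Ok

end Pt

end

end Pool.Agent.K6.H24.MH
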