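import Pool.Agent.K6.H24.MH.Pt

open scoped ContDiff
open Set MeasureTheory Filter Topology

namespace Pool.Agent.K6.H24.MH

open Pool.Agent.H729R2

noncomputable section

lemma abs_le_one_sq {c : ℝ} (h : |c| ≤ 1) : c ^ 2 ≤ 1 := by
  have := abs_nonneg c
  have h2 : c ^ 2 = |c| ^ 2 := (sq_abs c).symm
  rw [h2]; nlinarith

lemma abs_two_sq {c : ℝ} (h : |c| ≤ 1) : |2 * c ^ 2 - 1| ≤ 1 := by
  have h1 := abs_le_one_sq h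
  rw [abs_le]
  constructor <;> nlinarith [sq_nonneg c]

namespace Pt

variable {P : Pt}

namespace Ok

variable (h : P.Ok)
include h

lemma hc2x : |P.c2x| ≤ 1 := abs_two_sq h.hcx
lemma hc2y : |P.c2y| ≤ 1 := abs_two_sq h.hcy

/-- `(a1 + a2)² ≤ 2 W` -/
lemma sumsq : (P.a1 + P.a2) ^ 2 ≤ 2 * P.W := by
  have : P.W = P.a1 ^ 2 + P.a2 ^ 2 := rfl
  rw [this]
  nlinarith [sq_nonneg (P.a1 - P.a2)]

lemma Wle : P.W ≤ 1 / 1000000000 := by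
  have : P.W = P.a1 ^ 2 + P.a2 ^ 2 := rfl
  rw [this]
  have h1 : P.a1 ^ 2 ≤ (1 / 100000) ^ 2 := pow_le_pow_left₀ h.a10.le h.a11 2
  have h2 : P.a2 ^ 2 ≤ (1 / 100000) ^ 2 := pow_le_pow_left₀ h.a20.le h.a21 2
  norm_num at h1 h2 ⊢
  linarith

lemma Q_sum : P.R1 * (|P.Q1| * ‖P.k‖ + |P.Q2| * ‖P.κ‖) ≤ (P.a1 + P.a2) * ‖P.e‖ / P.W := by
  have h1 := h.Q1_le
  have h2 := h.Q2_le
  have : (P.a1 + P.a2) * ‖P.e‖ / P.W = P.a1 * ‖P.e‖ / P.W + P.a2 * ‖P.e‖ / P.W := by ring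
  rw [this]
  linarith

lemma q_le : ‖P.q‖ ≤ |P.Q1| * ‖P.k‖ + |P.Q2| * ‖P.κ‖ := by
  unfold q
  refine (norm_add_le _ _).trans ?_
  rw [norm_smul, norm_smul, Real.norm_eq_abs, Real.norm_eq_abs, abs_mul, abs_mul]
  have h1 : |P.Q1| * |P.cx| * ‖P.k‖ ≤ |P.Q1| * 1 * ‖P.k‖ := by gcongr; exact h.hcx
  have h2 : |P.Q2| * |P.cy| * ‖P.κ‖ ≤ |P.Q2| * 1 * ‖P.κ‖ := by gcongr; exact h.hcy
  linarith

lemma q_sq : ‖P.q‖ ^ 2 ≤ 201 / 100 * (‖P.e‖ ^ 2 / P.W) := by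
  have h1 := h.q_le
  have h2 := h.Q_sum
  have r0 := h.R10
  have w0 := h.Wpos
  have hs := h.sumsq
  have ha : 0 ≤ P.a1 + P.a2 := by linarith [h.a10, h.a20]
  have h3 : P.R1 * ‖P.q‖ ≤ (P.a1 + P.a2) * ‖P.e‖ / P.W :=
    (mul_le_mul_of_nonneg_left h1 h.R1pos.le).trans h2
  have h4 : (P.R1 * ‖P.q‖) ^ 2 ≤ ((P.a1 + P.a2) * ‖P.e‖ / P.W) ^ 2 :=
    pow_le_pow_left₀ (mul_nonneg h.R1pos.le (norm_nonneg _)) h3 2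
  have h5 : ((P.a1 + P.a2) * ‖P.e‖ / P.W) ^ 2 ≤ 2 * (‖P.e‖ ^ 2 / P.W) := by
    have : ((P.a1 + P.a2) * ‖P.e‖ / P.W) ^ 2 = (P.a1 + P.a2) ^ 2 * (‖P.e‖ ^ 2 / P.W ^ 2) := by
      field_simp
    rw [this]
    have h6 : (P.a1 + P.a2) ^ 2 * (‖P.e‖ ^ 2 / P.W ^ 2) ≤ 2 * P.W * (‖P.e‖ ^ 2 / P.W ^ 2) :=
      mul_le_mul_of_nonneg_right hs (by positivity)
    refine h6.trans (le_of_eq ?_)
    field_simp
  have h7 : 0 ≤ ‖P.e‖ ^ 2 / P.W := by positivity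
  have h8 : (999 / 1000 : ℝ) ≤ P.R1 ^ 2 := by nlinarith
  have h9 : (999 / 1000 : ℝ) * ‖P.q‖ ^ 2 ≤ P.R1 ^ 2 * ‖P.q‖ ^ 2 :=
    mul_le_mul_of_nonneg_right h8 (by positivity)
  have h10 : (P.R1 * ‖P.q‖) ^ 2 = P.R1 ^ 2 * ‖P.q‖ ^ 2 := by ring
  rw [h10] at h4
  linarith

lemma H_le : ‖P.H‖ * P.R2 ≤ ‖P.e‖ := by
  have h2 := h.Q_sum
  have r1 := h.R1pos
  have r2 := h.R2pos
  have w0 := h.Wpos
  have hs := h.sumsq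
  have a10 := h.a10
  have a20 := h.a20
  have ha : 0 ≤ P.a1 + P.a2 := by linarith [h.a10, h.a20]
  have b1 : |P.a2 * P.cs - P.a1 * P.c2x| ≤ P.a1 + P.a2 := by
    refine (abs_sub _ _).trans ?_
    rw [abs_mul, abs_mul, abs_of_pos a10, abs_of_pos a20]
    have e1 : P.a2 * |P.cs| ≤ P.a2 * 1 := by gcongr; exact h.hcs
    have e2 : P.a1 * |P.c2x| ≤ P.a1 * 1 := by gcongr; exact h.hc2x
    linarith
  have b2 : |P.a2 * P.c2y - P.a1 * P.cs| ≤ P.a1 + P.a2 := by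
    refine (abs_sub _ _).trans ?_
    rw [abs_mul, abs_mul, abs_of_pos a10, abs_of_pos a20]
    have e1 : P.a2 * |P.c2y| ≤ P.a2 * 1 := by gcongr; exact h.hc2y
    have e2 : P.a1 * |P.cs| ≤ P.a1 * 1 := by gcongr; exact h.hcs
    linarith
  have h3 : ‖P.H‖ ≤ P.R1 / (2 * P.R2) * (P.a1 + P.a2) * |P.Q1| * ‖P.k‖
      + P.R1 / (2 * P.R2) * (P.a1 + P.a2) * |P.Q2| * ‖P.κ‖ := by
    unfold H
    refine (norm_add_le _ _).trans ?_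
    rw [norm_smul, norm_smul, Real.norm_eq_abs, Real.norm_eq_abs, abs_neg, abs_neg, abs_mul,
      abs_mul, abs_mul, abs_mul, abs_of_pos (by positivity : 0 < P.R1 / (2 * P.R2))]
    gcongr
  have h4 : ‖P.H‖ * P.R2 ≤ (P.a1 + P.a2) / 2 * (P.R1 * (|P.Q1| * ‖P.k‖ + |P.Q2| * ‖P.κ‖)) := by
    have := mul_le_mul_of_nonneg_right h3 r2.le
    refine this.trans (le_of_eq ?_)
    field_simp
  refine h4.trans ?_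
  have h5 : (P.a1 + P.a2) / 2 * (P.R1 * (|P.Q1| * ‖P.k‖ + |P.Q2| * ‖P.κ‖))
      ≤ (P.a1 + P.a2) / 2 * ((P.a1 + P.a2) * ‖P.e‖ / P.W) :=
    mul_le_mul_of_nonneg_left h2 (by linarith)
  refine h5.trans ?_
  have h6 : (P.a1 + P.a2) / 2 * ((P.a1 + P.a2) * ‖P.e‖ / P.W)
      = (P.a1 + P.a2) ^ 2 * (‖P.e‖ / (2 * P.W)) := by field_simp
  rw [h6]
  have h7 : (P.a1 + P.a2) ^ 2 * (‖P.e‖ / (2 * P.W)) ≤ 2 * P.W * (‖P.e‖ / (2 * P.W)) :=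
    mul_le_mul_of_nonneg_right hs (by positivity)
  refine h7.trans (le_of_eq ?_)
  field_simp

/-- Cauchy-Schwarz for the combination of `b` and `g` -/
lemma cs_bg {c1 c2 : ℝ} (h1 : 0 ≤ c1) (h1' : c1 ≤ 1001 / 1000) (h2 : 0 ≤ c2)
    (h2' : c2 ≤ 1001 / 1000) :
    (c2 * P.a2 * ‖P.b‖ + c1 * P.a1 * ‖P.g‖) ^ 2
      ≤ 101 / 100 * (P.W * (‖P.b‖ ^ 2 + ‖P.g‖ ^ 2)) := by
  have a1 := h.a10
  have a2 := h.a20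
  have hb := norm_nonneg P.b
  have hg := norm_nonneg P.g
  have h3 : c2 * P.a2 * ‖P.b‖ + c1 * P.a1 * ‖P.g‖
      ≤ 1001 / 1000 * (P.a2 * ‖P.b‖ + P.a1 * ‖P.g‖) := by
    have e1 : c2 * (P.a2 * ‖P.b‖) ≤ 1001 / 1000 * (P.a2 * ‖P.b‖) :=
      mul_le_mul_of_nonneg_right h2' (by positivity)
    have e2 : c1 * (P.a1 * ‖P.g‖) ≤ 1001 / 1000 * (P.a1 * ‖P.g‖) :=
      mul_le_mul_of_nonneg_right h1' (by positivity)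
    linarith
  have h4 : (c2 * P.a2 * ‖P.b‖ + c1 * P.a1 * ‖P.g‖) ^ 2
      ≤ (1001 / 1000 * (P.a2 * ‖P.b‖ + P.a1 * ‖P.g‖)) ^ 2 :=
    pow_le_pow_left₀ (by positivity) h3 2
  have h5 : (P.a2 * ‖P.b‖ + P.a1 * ‖P.g‖) ^ 2 ≤ P.W * (‖P.b‖ ^ 2 + ‖P.g‖ ^ 2) := by
    have : P.W = P.a1 ^ 2 + P.a2 ^ 2 := rfl
    rw [this]
    nlinarith [sq_nonneg (P.a1 * ‖P.b‖ - P.a2 * ‖P.g‖)]
  have h6 : 0 ≤ (P.a2 * ‖P.b‖ + P.a1 * ‖P.g‖) ^ 2 := sq_nonneg _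
  nlinarith

/-- bound of the new error -/
lemma err_sq : ‖P.et' - P.m‖ ^ 2 ≤ P.W * (4 * ((1 - P.ζ) * (‖P.b‖ ^ 2 + ‖P.g‖ ^ 2))
    + 4 * (P.W * (‖P.b‖ ^ 2 + ‖P.g‖ ^ 2)) + 4 * ‖P.e‖ ^ 2) := by
  have e0 : P.et' - P.m = P.E1 + P.E2 + P.E3' := by rw [h.identity]; abel
  rw [e0]
  have a1 := h.a10
  have a2 := h.a20
  have z0 := h.ζ0
  have z1 : 0 ≤ 1 - P.ζ := by linarith [h.ζ1]
  have z2 : 1 - P.ζ ≤ 1 := by linarith [h.ζ0]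
  have r1 := h.R1pos
  have r2 := h.R2pos
  have w0 := h.Wpos
  set t : ℝ := P.R2 * P.a2 * ‖P.b‖ + P.R1 * P.a1 * ‖P.g‖ with ht
  have ht0 : 0 ≤ t := by positivity
  have htsq : t ^ 2 ≤ 101 / 100 * (P.W * (‖P.b‖ ^ 2 + ‖P.g‖ ^ 2)) :=
    h.cs_bg r1.le (by linarith [h.R11]) r2.le (by linarith [h.R21])
  have b1 : ‖P.E1‖ ≤ (1 - P.ζ) * t := by
    unfold E1
    refine (norm_add_le _ _).trans ?_
    rw [norm_smul, norm_smul, Real.norm_eq_abs, Real.norm_eq_abs, abs_neg, abs_mul, abs_mul,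
      abs_mul, abs_mul, abs_mul, abs_mul, abs_of_nonneg z1, abs_of_pos r1, abs_of_pos r2,
      abs_of_pos a1, abs_of_pos a2]
    have e1 : (1 - P.ζ) * P.R2 * P.a2 * |P.cy| * ‖P.b‖ ≤ (1 - P.ζ) * P.R2 * P.a2 * 1 * ‖P.b‖ := by
      gcongr; exact h.hcy
    have e2 : (1 - P.ζ) * P.R1 * P.a1 * |P.cx| * ‖P.g‖ ≤ (1 - P.ζ) * P.R1 * P.a1 * 1 * ‖P.g‖ := by
      gcongr; exact h.hcx
    rw [ht]
    linarith
  have b2 : ‖P.E2‖ ≤ P.a2 * t := by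
    unfold E2
    refine (norm_add_le _ _).trans ?_
    rw [norm_smul, norm_smul]
    simp only [Real.norm_eq_abs, abs_neg, abs_mul, abs_of_nonneg z0, abs_of_pos r1,
      abs_of_pos r2, abs_of_pos a1, abs_of_pos a2]
    have e1 : P.ζ * P.a2 * |P.cy| * (P.R2 * P.a2 * |P.cy|) * ‖P.b‖
        ≤ 1 * P.a2 * 1 * (P.R2 * P.a2 * 1) * ‖P.b‖ := by
      gcongr
      · exact h.ζ1
      · exact h.hcy
      · exact h.hcy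
    have e2 : P.ζ * P.a2 * |P.cy| * (P.R1 * P.a1 * |P.cx|) * ‖P.g‖
        ≤ 1 * P.a2 * 1 * (P.R1 * P.a1 * 1) * ‖P.g‖ := by
      gcongr
      · exact h.ζ1
      · exact h.hcy
      · exact h.hcx
    rw [ht]
    linarith
  have b3 : ‖P.E3'‖ ≤ P.a2 * ‖P.e‖ := by
    unfold E3'
    rw [norm_smul, Real.norm_eq_abs, abs_mul, abs_mul, abs_of_pos r2, abs_of_pos a2]
    have e1 : P.R2 * P.a2 * |P.cy| * ‖P.H‖ ≤ P.R2 * P.a2 * 1 * ‖P.H‖ := by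
      gcongr; exact h.hcy
    have e2 := mul_le_mul_of_nonneg_left h.H_le a2.le
    linarith
  have c1 : ‖P.E1‖ ^ 2 ≤ (1 - P.ζ) * t ^ 2 := by
    have := pow_le_pow_left₀ (norm_nonneg _) b1 2
    have h3 : (1 - P.ζ) ^ 2 ≤ (1 - P.ζ) := by nlinarith
    have h4 : ((1 - P.ζ) * t) ^ 2 = (1 - P.ζ) ^ 2 * t ^ 2 := by ring
    rw [h4] at this
    exact this.trans (mul_le_mul_of_nonneg_right h3 (sq_nonneg t))
  have hW2 : P.a2 ^ 2 ≤ P.W := by unfold W; nlinarith [sq_nonneg P.a1]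
  have c2 : ‖P.E2‖ ^ 2 ≤ P.W * t ^ 2 := by
    have := pow_le_pow_left₀ (norm_nonneg _) b2 2
    have h4 : (P.a2 * t) ^ 2 = P.a2 ^ 2 * t ^ 2 := by ring
    rw [h4] at this
    exact this.trans (mul_le_mul_of_nonneg_right hW2 (sq_nonneg t))
  have c3 : ‖P.E3'‖ ^ 2 ≤ P.W * ‖P.e‖ ^ 2 := by
    have := pow_le_pow_left₀ (norm_nonneg _) b3 2
    have h4 : (P.a2 * ‖P.e‖) ^ 2 = P.a2 ^ 2 * ‖P.e‖ ^ 2 := by ring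
    rw [h4] at this
    exact this.trans (mul_le_mul_of_nonneg_right hW2 (sq_nonneg _))
  have c4 : ‖P.E1 + P.E2 + P.E3'‖ ≤ ‖P.E1‖ + ‖P.E2‖ + ‖P.E3'‖ :=
    (norm_add_le _ _).trans (add_le_add (norm_add_le _ _) le_rfl)
  have c5 : ‖P.E1 + P.E2 + P.E3'‖ ^ 2 ≤ 3 * (‖P.E1‖ ^ 2 + ‖P.E2‖ ^ 2 + ‖P.E3'‖ ^ 2) := by
    have := pow_le_pow_left₀ (norm_nonneg _) c4 2
    nlinarith [sq_nonneg (‖P.E1‖ - ‖P.E2‖), sq_nonneg (‖P.E1‖ - ‖P.E3'‖),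
      sq_nonneg (‖P.E2‖ - ‖P.E3'‖)]
  have d1 : (1 - P.ζ) * t ^ 2 ≤ (1 - P.ζ) * (101 / 100 * (P.W * (‖P.b‖ ^ 2 + ‖P.g‖ ^ 2))) :=
    mul_le_mul_of_nonneg_left htsq z1
  have d2 : P.W * t ^ 2 ≤ P.W * (101 / 100 * (P.W * (‖P.b‖ ^ 2 + ‖P.g‖ ^ 2))) :=
    mul_le_mul_of_nonneg_left htsq w0.le
  have f1 : 0 ≤ (1 - P.ζ) * (P.W * (‖P.b‖ ^ 2 + ‖P.g‖ ^ 2)) := by positivity
  have f2 : 0 ≤ P.W * (P.W * (‖P.b‖ ^ 2 + ‖P.g‖ ^ 2)) := by positivity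
  have f3 : 0 ≤ P.W * ‖P.e‖ ^ 2 := by positivity
  have g1 : P.W * (4 * ((1 - P.ζ) * (‖P.b‖ ^ 2 + ‖P.g‖ ^ 2))
    + 4 * (P.W * (‖P.b‖ ^ 2 + ‖P.g‖ ^ 2)) + 4 * ‖P.e‖ ^ 2)
    = 4 * ((1 - P.ζ) * (P.W * (‖P.b‖ ^ 2 + ‖P.g‖ ^ 2)))
      + 4 * (P.W * (P.W * (‖P.b‖ ^ 2 + ‖P.g‖ ^ 2))) + 4 * (P.W * ‖P.e‖ ^ 2) := by ring
  rw [g1]
  linarith

omit h in
lemma m_sq : ‖P.m‖ ^ 2 = ‖P.v0‖ ^ 2 + 2 * P.cθ * inner ℝ P.v0 P.v1 + P.cθ ^ 2 * ‖P.v1‖ ^ 2 := by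
  unfold m
  rw [norm_add_sq_real, norm_smul, inner_smul_right, mul_pow, Real.norm_eq_abs, sq_abs]
  ring

lemma x_sq : ‖P.x‖ ^ 2 = P.s1 ^ 2 / P.n1 := by
  have hn := h.n1pos
  unfold x
  rw [norm_smul, mul_pow, Real.norm_eq_abs, sq_abs, ← n1_eq]
  field_simp

lemma y_sq : ‖P.y‖ ^ 2 = P.s2 ^ 2 / P.n2 := by
  have hn := h.n2pos
  unfold y
  rw [norm_smul, mul_pow, Real.norm_eq_abs, sq_abs, ← n2_eq]
  field_simp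

lemma ex : inner ℝ P.e P.x = ‖P.x‖ ^ 2 := by
  rw [h.x_sq]
  unfold x
  rw [inner_smul_right, ← s1_eq]
  ring

lemma ey : inner ℝ P.e P.y = ‖P.y‖ ^ 2 := by
  rw [h.y_sq]
  unfold y
  rw [inner_smul_right, ← s2_eq]
  ring

/-- the average of the square of the main part -/
lemma avg : ‖P.v0‖ ^ 2 + ‖P.v1‖ ^ 2 / 2 ≤ ‖P.e‖ ^ 2 - P.ζ / 2 *
    (P.a1 ^ 2 / P.W * ‖P.x‖ ^ 2 + P.a2 ^ 2 / P.W * ‖P.y‖ ^ 2) := by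
  have w0 := h.Wpos
  have z0 := h.ζ0
  have z1 := h.ζ1
  have hx := h.ex
  have hy := h.ey
  set w1 : ℝ := P.a1 ^ 2 / P.W with hw1
  set w2 : ℝ := P.a2 ^ 2 / P.W with hw2
  set c : ℝ := P.a1 * P.a2 / P.W with hc
  have hw10 : 0 ≤ w1 := by positivity
  have hw20 : 0 ≤ w2 := by positivity
  have hsum : w1 + w2 = 1 := by
    rw [hw1, hw2, ← add_div]
    exact div_self w0.ne'
  have hcc : c ^ 2 = w1 * w2 := by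
    rw [hc, hw1, hw2]; ring
  have e0 : ‖P.v0‖ ^ 2 = ‖P.e‖ ^ 2 - P.ζ * (w1 * ‖P.x‖ ^ 2 + w2 * ‖P.y‖ ^ 2)
      + P.ζ ^ 2 / 4 * (w1 ^ 2 * ‖P.x‖ ^ 2 + w2 ^ 2 * ‖P.y‖ ^ 2
        + 2 * w1 * w2 * inner ℝ P.x P.y) := by
    unfold v0
    rw [norm_sub_sq_real, norm_sub_sq_real, inner_sub_left, norm_smul, norm_smul, mul_pow,
      mul_pow, Real.norm_eq_abs, Real.norm_eq_abs, sq_abs, sq_abs, inner_smul_right,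
      inner_smul_right, inner_smul_left, inner_smul_right, hx, hy]
    simp only [conj_trivial]
    ring
  have e1 : ‖P.v1‖ ^ 2 = P.ζ ^ 2 / 4 * c ^ 2 * (‖P.x‖ ^ 2 + ‖P.y‖ ^ 2
      + 2 * inner ℝ P.x P.y) := by
    unfold v1
    rw [← hc, norm_add_sq_real, norm_smul, norm_smul, mul_pow, mul_pow, Real.norm_eq_abs, sq_abs,
      inner_smul_left, inner_smul_right]
    simp only [conj_trivial]
    ring
  rw [e0, e1, hcc]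
  set X := ‖P.x‖ ^ 2 with hX
  set Y := ‖P.y‖ ^ 2 with hY
  set I := inner ℝ P.x P.y with hI
  have hI2 : 2 * I ≤ X + Y := by
    have h1 := real_inner_le_norm P.x P.y
    have h2 : 2 * (‖P.x‖ * ‖P.y‖) ≤ ‖P.x‖ ^ 2 + ‖P.y‖ ^ 2 := by
      nlinarith [sq_nonneg (‖P.x‖ - ‖P.y‖)]
    linarith
  have hX0 : 0 ≤ X := by positivity
  have hY0 : 0 ≤ Y := by positivity
  have hw1' : w1 ≤ 1 := by linarith
  have hw2' : w2 ≤ 1 := by linarith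
  -- first
  have f1 : w1 ^ 2 * X + w2 ^ 2 * Y + 2 * w1 * w2 * I ≤ w1 * X + w2 * Y := by
    have g1 : w1 * w2 * (2 * I) ≤ w1 * w2 * (X + Y) :=
      mul_le_mul_of_nonneg_left hI2 (by positivity)
    have g2 : w1 ^ 2 * X + w1 * w2 * X = w1 * X := by
      have : w1 ^ 2 * X + w1 * w2 * X = w1 * X * (w1 + w2) := by ring
      rw [this, hsum, mul_one]
    have g3 : w2 ^ 2 * Y + w1 * w2 * Y = w2 * Y := by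
      have : w2 ^ 2 * Y + w1 * w2 * Y = w2 * Y * (w1 + w2) := by ring
      rw [this, hsum, mul_one]
    linarith
  have f2 : w1 * w2 * (X + Y + 2 * I) ≤ 2 * (w1 * X + w2 * Y) := by
    have g1 : w1 * w2 * (X + Y + 2 * I) ≤ w1 * w2 * (2 * (X + Y)) :=
      mul_le_mul_of_nonneg_left (by linarith) (by positivity)
    have g2 : w1 * w2 * X ≤ w1 * X := by
      have := mul_le_mul_of_nonneg_left hw2' (mul_nonneg hw10 hX0)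
      nlinarith
    have g3 : w1 * w2 * Y ≤ w2 * Y := by
      have := mul_le_mul_of_nonneg_left hw1' (mul_nonneg hw20 hY0)
      nlinarith
    linarith
  have f0 : 0 ≤ w1 * X + w2 * Y := by positivity
  have k1 : P.ζ ^ 2 / 4 * (w1 ^ 2 * X + w2 ^ 2 * Y + 2 * w1 * w2 * I)
      ≤ P.ζ ^ 2 / 4 * (w1 * X + w2 * Y) := mul_le_mul_of_nonneg_left f1 (by positivity)
  have k2 : P.ζ ^ 2 / 8 * (w1 * w2 * (X + Y + 2 * I))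
      ≤ P.ζ ^ 2 / 8 * (2 * (w1 * X + w2 * Y)) := mul_le_mul_of_nonneg_left f2 (by positivity)
  have k3 : P.ζ ^ 2 ≤ P.ζ := by nlinarith
  have k4 : P.ζ ^ 2 * (w1 * X + w2 * Y) ≤ P.ζ * (w1 * X + w2 * Y) :=
    mul_le_mul_of_nonneg_right k3 f0
  nlinarith

/-- the projections to `k` and `κ` are close -/
lemma proj_close : ‖P.x‖ ^ 2 - 13 / 1000 * ‖P.e‖ ^ 2 ≤ ‖P.y‖ ^ 2 := by
  rw [h.x_sq, h.y_sq]
  have hk := h.kpos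
  have hκ := h.κpos
  have hn1 := h.n1pos
  have hn2 := h.n2pos
  have hd := h.κk
  have ne0 := norm_nonneg P.e
  have e1 : |P.s2 - P.s1| ≤ 3 / 1000 * (‖P.e‖ * ‖P.k‖) := by
    rw [s1_eq, s2_eq, ← inner_sub_right]
    refine (abs_real_inner_le_norm _ _).trans ?_
    have := mul_le_mul_of_nonneg_left hd ne0
    linarith
  have e2 : ‖P.κ‖ ≤ 1003 / 1000 * ‖P.k‖ := by
    have h1 := norm_add_le P.k (P.κ - P.k)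
    rw [add_sub_cancel] at h1
    linarith
  have e3 : P.n2 ≤ (1003 / 1000) ^ 2 * P.n1 := by
    rw [n1_eq, n2_eq]
    have := pow_le_pow_left₀ (norm_nonneg _) e2 2
    rw [mul_pow] at this
    exact this
  have hs1 := s1_le (P := P)
  -- s2² ≥ s1² - 0.006 |s1| ‖e‖ ‖k‖
  have e4 : P.s1 ^ 2 - 6 / 1000 * (‖P.e‖ ^ 2 * P.n1) ≤ P.s2 ^ 2 := by
    have h1 : P.s2 ^ 2 = P.s1 ^ 2 + 2 * P.s1 * (P.s2 - P.s1) + (P.s2 - P.s1) ^ 2 := by ring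
    have h2 : |P.s1 * (P.s2 - P.s1)| ≤ (‖P.e‖ * ‖P.k‖) * (3 / 1000 * (‖P.e‖ * ‖P.k‖)) := by
      rw [abs_mul]
      exact mul_le_mul hs1 e1 (abs_nonneg _) (by positivity)
    have h3 := (abs_le.1 h2).1
    rw [n1_eq]
    nlinarith [sq_nonneg (P.s2 - P.s1)]
  have hs1sq : P.s1 ^ 2 ≤ ‖P.e‖ ^ 2 * P.n1 := by
    rw [n1_eq, ← sq_abs]
    have := pow_le_pow_left₀ (abs_nonneg _) hs1 2
    rw [mul_pow] at this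
    exact this
  by_cases hneg : P.s1 ^ 2 - 6 / 1000 * (‖P.e‖ ^ 2 * P.n1) ≤ 0
  · have h1 : P.s1 ^ 2 / P.n1 ≤ 6 / 1000 * ‖P.e‖ ^ 2 := by
      rw [div_le_iff₀ hn1]; linarith
    have h2 : 0 ≤ P.s2 ^ 2 / P.n2 := by positivity
    nlinarith [sq_nonneg ‖P.e‖]
  · push Not at hneg
    have h1 : (P.s1 ^ 2 - 6 / 1000 * (‖P.e‖ ^ 2 * P.n1)) / ((1003 / 1000) ^ 2 * P.n1)
        ≤ P.s2 ^ 2 / P.n2 := by
      have := div_le_div₀ (by positivity : 0 ≤ P.s2 ^ 2) e4 hn2 e3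
      exact this
    refine le_trans ?_ h1
    rw [le_div_iff₀ (by positivity)]
    have h2 : (P.s1 ^ 2 / P.n1 - 13 / 1000 * ‖P.e‖ ^ 2) * ((1003 / 1000) ^ 2 * P.n1)
        = (1003 / 1000) ^ 2 * (P.s1 ^ 2 - 13 / 1000 * (‖P.e‖ ^ 2 * P.n1)) := by
      field_simp
    rw [h2]
    nlinarith

/-- contraction at one point -/
lemma avg' : ‖P.v0‖ ^ 2 + ‖P.v1‖ ^ 2 / 2 ≤ ‖P.e‖ ^ 2 - P.ζ / 2 *
    (P.s1 ^ 2 / P.n1) + 7 / 1000 * ‖P.e‖ ^ 2 := by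
  have h1 := h.avg
  have h2 := h.proj_close
  have w0 := h.Wpos
  rw [← h.x_sq]
  have hw20 : 0 ≤ P.a2 ^ 2 / P.W := by positivity
  have hw21 : P.a2 ^ 2 / P.W ≤ 1 := by
    rw [div_le_one w0]; unfold W; nlinarith [sq_nonneg P.a1]
  have hsum : P.a1 ^ 2 / P.W + P.a2 ^ 2 / P.W = 1 := by
    rw [← add_div]
    exact div_self w0.ne'
  have h3 : P.a2 ^ 2 / P.W * (‖P.x‖ ^ 2 - 13 / 1000 * ‖P.e‖ ^ 2) ≤ P.a2 ^ 2 / P.W * ‖P.y‖ ^ 2 :=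
    mul_le_mul_of_nonneg_left h2 hw20
  have h4 : P.a2 ^ 2 / P.W * (13 / 1000 * ‖P.e‖ ^ 2) ≤ 1 * (13 / 1000 * ‖P.e‖ ^ 2) :=
    mul_le_mul_of_nonneg_right hw21 (by positivity)
  have h5 : ‖P.x‖ ^ 2 - 13 / 1000 * ‖P.e‖ ^ 2 ≤
      P.a1 ^ 2 / P.W * ‖P.x‖ ^ 2 + P.a2 ^ 2 / P.W * ‖P.y‖ ^ 2 := by
    have : ‖P.x‖ ^ 2 = (P.a1 ^ 2 / P.W + P.a2 ^ 2 / P.W) * ‖P.x‖ ^ 2 := by rw [hsum, one_mul]
    nlinarith
  have h6 := mul_le_mul_of_nonneg_left h5 (by linarith [h.ζ0] : 0 ≤ P.ζ / 2)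
  have h7 : P.ζ / 2 * (13 / 1000 * ‖P.e‖ ^ 2) ≤ 1 / 2 * (13 / 1000 * ‖P.e‖ ^ 2) :=
    mul_le_mul_of_nonneg_right (by linarith [h.ζ1]) (by positivity)
  nlinarith [sq_nonneg ‖P.e‖]

end Ok

end Pt

end

end Pool.Agent.K6.H24.MH
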