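import Pool.Agent.K6.H24.MH.Pt2

open scoped ContDiff
open Set MeasureTheory Filter Topology

namespace Pool.Agent.K6.H24.MH

open Pool.Agent.H729R2

noncomputable section

/-- the profile of the amplitude, as a function of the normalised specific volume -/
def tau (ρ : ℝ) : ℝ := 1 / 1000 * (1 - ρ ^ 2)
/-- the weight -/
def hh (ρ : ℝ) : ℝ := 2 - ρ ^ 2

lemma hh_ge {ρ : ℝ} (h : |ρ| ≤ 1) : 1 ≤ hh ρ := by
  have := abs_le_one_sq h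
  unfold hh; linarith

lemma hh_le (ρ : ℝ) : hh ρ ≤ 2 := by
  unfold hh; nlinarith [sq_nonneg ρ]

lemma tau_nonneg {ρ : ℝ} (h : |ρ| ≤ 1) : 0 ≤ tau ρ := by
  have := abs_le_one_sq h
  unfold tau; linarith

lemma tau_le (ρ : ℝ) : tau ρ ≤ 1 / 1000 := by
  unfold tau; nlinarith [sq_nonneg ρ]

lemma add_sq_le' (a b : ℝ) : (a + b) ^ 2 ≤ 2 * a ^ 2 + 2 * b ^ 2 := by
  nlinarith [sq_nonneg (a - b)]

lemma norm_add_sq_le' (v w : E3) : ‖v + w‖ ^ 2 ≤ 2 * ‖v‖ ^ 2 + 2 * ‖w‖ ^ 2 :=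
  (pow_le_pow_left₀ (norm_nonneg _) (norm_add_le v w) 2).trans (add_sq_le' _ _)

lemma sum_tau_sq (a b : ℝ) : (41 / 10 * (a + b)) ^ 2 ≤ 34 * (a ^ 2 + b ^ 2) := by
  nlinarith [sq_nonneg (a - b), sq_nonneg a, sq_nonneg b]

lemma third_order {c1 c2 x y : ℝ} (h1 : 0 ≤ x) (h1' : x ≤ 1 / 1000) (h2 : 0 ≤ y)
    (h2' : y ≤ 1 / 1000) (hc1 : c1 ≤ 2 * x * y ^ 2) (hc2 : c2 ≤ 2 * y * x ^ 2) :
    c1 + c2 + x ^ 2 * y ^ 2 ≤ 3 / 1000 * (x ^ 2 + y ^ 2) := by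
  have g4 : 2 * x * y ^ 2 ≤ 2 / 1000 * y ^ 2 := by
    have := mul_le_mul_of_nonneg_right h1' (sq_nonneg y)
    linarith
  have g5 : 2 * y * x ^ 2 ≤ 2 / 1000 * x ^ 2 := by
    have := mul_le_mul_of_nonneg_right h2' (sq_nonneg x)
    linarith
  have g6 : x ^ 2 * y ^ 2 ≤ 1 / 1000 * y ^ 2 := by
    have : x ^ 2 ≤ 1 / 1000 := by nlinarith
    exact mul_le_mul_of_nonneg_right this (sq_nonneg y)
  linarith [sq_nonneg x, sq_nonneg y]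

lemma two_mul_young (x y : ℝ) {μ : ℝ} (hμ : 0 < μ) : 2 * (x * y) ≤ μ * x ^ 2 + y ^ 2 / μ := by
  have h : 0 ≤ (μ * x - y) ^ 2 / μ := by positivity
  have e : (μ * x - y) ^ 2 / μ = μ * x ^ 2 + y ^ 2 / μ - 2 * (x * y) := by
    field_simp
    ring
  linarith

lemma hh_new {ρ c : ℝ} (hρ : |ρ| ≤ 1) (hc : |c| ≤ 1) :
    |hh (ρ + tau ρ * c) - hh ρ| ≤ 2001 / 1000 * tau ρ := by
  have h0 := tau_nonneg hρ
  have h1 := tau_le ρ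
  have e : hh (ρ + tau ρ * c) - hh ρ = -(tau ρ * (c * (2 * ρ + tau ρ * c))) := by
    unfold hh; ring
  rw [e, abs_neg, abs_mul, abs_of_nonneg h0, abs_mul]
  have h2 : |2 * ρ + tau ρ * c| ≤ 2001 / 1000 := by
    refine (abs_add_le _ _).trans ?_
    rw [abs_mul, abs_mul, abs_of_nonneg h0]
    have : tau ρ * |c| ≤ 1 / 1000 * 1 := mul_le_mul h1 hc (abs_nonneg _) (by norm_num)
    norm_num
    linarith
  have h3 : |c| * |2 * ρ + tau ρ * c| ≤ 1 * (2001 / 1000) :=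
    mul_le_mul hc h2 (abs_nonneg _) (by norm_num)
  have := mul_le_mul_of_nonneg_left h3 h0
  linarith

namespace Pt

variable {P : Pt}

namespace Ok

variable (h : P.Ok)
include h

lemma G_le : ‖P.G‖ ≤ (1 * P.a2 * ‖P.b‖ + 1001 / 1000 * P.a1 * ‖P.g‖)
    + 1001 / 1000 * (‖P.q‖ + ‖P.e‖) := by
  have r1 := h.R1pos
  have r2 := h.R2pos
  have a1 := h.a10
  have a2 := h.a20
  have z0 := h.ζ0
  have hr : P.R1 / P.R2 ≤ 1001 / 1000 := by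
    rw [div_le_iff₀ r2]
    linarith [h.R11, h.R20]
  have hr0 : 0 < P.R1 / P.R2 := by positivity
  have b1 : |-(P.ζ * P.a2 * P.cy)| ≤ P.a2 := by
    simp only [abs_neg, abs_mul, abs_of_nonneg z0, abs_of_pos a2]
    have : P.ζ * P.a2 * |P.cy| ≤ 1 * P.a2 * 1 := by
      gcongr
      · exact h.ζ1
      · exact h.hcy
    linarith
  have b2 : |(P.R1 / P.R2) * (P.ζ * P.a1) * P.cx| ≤ 1001 / 1000 * P.a1 := by
    rw [abs_mul, abs_mul, abs_mul, abs_of_pos hr0, abs_of_nonneg z0, abs_of_pos a1]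
    have : P.R1 / P.R2 * (P.ζ * P.a1) * |P.cx| ≤ 1001 / 1000 * (1 * P.a1) * 1 := by
      gcongr
      · exact h.ζ1
      · exact h.hcx
    linarith
  have c1 : ‖(-(P.ζ * P.a2 * P.cy)) • P.b‖ ≤ P.a2 * ‖P.b‖ := by
    rw [norm_smul, Real.norm_eq_abs]
    exact mul_le_mul_of_nonneg_right b1 (norm_nonneg _)
  have c2 : ‖((P.R1 / P.R2) * (P.ζ * P.a1) * P.cx) • P.g‖ ≤ 1001 / 1000 * P.a1 * ‖P.g‖ := by
    rw [norm_smul, Real.norm_eq_abs]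
    exact mul_le_mul_of_nonneg_right b2 (norm_nonneg _)
  have c3 : ‖(P.R1 / P.R2) • P.q‖ ≤ 1001 / 1000 * ‖P.q‖ := by
    rw [norm_smul, Real.norm_eq_abs, abs_of_pos hr0]
    exact mul_le_mul_of_nonneg_right hr (norm_nonneg _)
  have c4 : ‖P.H‖ ≤ 1001 / 1000 * ‖P.e‖ := by
    have h1 := h.H_le
    have h2 : (9999 / 10000 : ℝ) * ‖P.H‖ ≤ P.R2 * ‖P.H‖ :=
      mul_le_mul_of_nonneg_right h.R20 (norm_nonneg _)
    have h3 := norm_nonneg P.H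
    nlinarith [norm_nonneg P.e]
  unfold G
  have t1 := norm_add_le ((-(P.ζ * P.a2 * P.cy)) • P.b
    + ((P.R1 / P.R2) * (P.ζ * P.a1) * P.cx) • P.g + (P.R1 / P.R2) • P.q) P.H
  have t2 := norm_add_le ((-(P.ζ * P.a2 * P.cy)) • P.b
    + ((P.R1 / P.R2) * (P.ζ * P.a1) * P.cx) • P.g) ((P.R1 / P.R2) • P.q)
  have t3 := norm_add_le ((-(P.ζ * P.a2 * P.cy)) • P.b)
    (((P.R1 / P.R2) * (P.ζ * P.a1) * P.cx) • P.g)
  linarith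

lemma β_sq : (1001 / 1000 * (‖P.q‖ + ‖P.e‖)) ^ 2 ≤ 21 / 10 * (‖P.e‖ ^ 2 / P.W) := by
  have w0 := h.Wpos
  have hq := h.q_sq
  set Eh := ‖P.e‖ ^ 2 / P.W with hEh
  have hE0 : 0 ≤ Eh := by positivity
  have he : ‖P.e‖ ^ 2 ≤ 1 / 1000000000 * Eh := by
    have : ‖P.e‖ ^ 2 = P.W * Eh := by rw [hEh]; field_simp
    rw [this]
    exact mul_le_mul_of_nonneg_right h.Wle hE0
  have h1 : 2 * (‖P.q‖ * ‖P.e‖) ≤ 1 / 100 * ‖P.q‖ ^ 2 + ‖P.e‖ ^ 2 / (1 / 100) :=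
    two_mul_young _ _ (by norm_num)
  have h2 : (1001 / 1000 * (‖P.q‖ + ‖P.e‖)) ^ 2
      = (1001 / 1000) ^ 2 * (‖P.q‖ ^ 2 + 2 * (‖P.q‖ * ‖P.e‖) + ‖P.e‖ ^ 2) := by ring
  rw [h2]
  have h3 : ‖P.e‖ ^ 2 / (1 / 100) = 100 * ‖P.e‖ ^ 2 := by ring
  rw [h3] at h1
  nlinarith

/-- bound of the growth of the highest derivatives -/
lemma X_le {s ρ1 ρ2 : ℝ} (hs0 : 0 < s) (hs : s ≤ 1 / 10000) (hρ1 : |ρ1| ≤ 1) (hρ2 : |ρ2| ≤ 1)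
    (ha1 : P.a1 = s * tau ρ1 / P.R1) (ha2 : P.a2 = s * tau ρ2 / P.R2) :
    (‖P.b + P.G‖ ^ 2 + ‖P.g + P.q‖ ^ 2)
      * (hh (ρ1 + tau ρ1 * P.cx) * hh (ρ2 + tau ρ2 * P.cy))
    ≤ (‖P.b‖ ^ 2 + ‖P.g‖ ^ 2) * (hh ρ1 * hh ρ2)
      + ((‖P.b‖ ^ 2 + ‖P.g‖ ^ 2) * (- (2 * ρ1 * tau ρ1 * hh ρ2) * P.cx
          - (2 * ρ2 * tau ρ2 * hh ρ1) * P.cy
          + (4 * ρ1 * ρ2 * tau ρ1 * tau ρ2) * (P.cx * P.cy)
          - (tau ρ1 ^ 2 * hh ρ2 / 2) * P.c2x - (tau ρ2 ^ 2 * hh ρ1 / 2) * P.c2y)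
        + hh ρ1 * hh ρ2 * (2 * inner ℝ P.b P.G + 2 * inner ℝ P.g P.q))
      - 4 / 10 * ((tau ρ1 ^ 2 + tau ρ2 ^ 2) * (‖P.b‖ ^ 2 + ‖P.g‖ ^ 2))
      + 1800 * (‖P.e‖ ^ 2 / P.W) := by
  have w0 := h.Wpos
  have hq := h.q_sq
  have hβ := h.β_sq
  have hG := h.G_le
  have hα : (1 * P.a2 * ‖P.b‖ + 1001 / 1000 * P.a1 * ‖P.g‖) ^ 2
      ≤ 101 / 100 * (P.W * (‖P.b‖ ^ 2 + ‖P.g‖ ^ 2)) :=
    h.cs_bg (by norm_num) le_rfl (by norm_num) (by norm_num)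
  set α := 1 * P.a2 * ‖P.b‖ + 1001 / 1000 * P.a1 * ‖P.g‖ with hαd
  set β := 1001 / 1000 * (‖P.q‖ + ‖P.e‖) with hβd
  set Eh := ‖P.e‖ ^ 2 / P.W with hEh
  set M := ‖P.b‖ ^ 2 + ‖P.g‖ ^ 2 with hM
  have hE0 : 0 ≤ Eh := by positivity
  have hM0 : 0 ≤ M := by positivity
  have a1p := h.a10
  have a2p := h.a20
  have hα0 : 0 ≤ α := by positivity
  have hβ0 : 0 ≤ β := by positivity
  -- τ
  set τ1 := tau ρ1 with hτ1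
  set τ2 := tau ρ2 with hτ2
  have t1 : 0 ≤ τ1 := tau_nonneg hρ1
  have t2 : 0 ≤ τ2 := tau_nonneg hρ2
  have t1' : τ1 ≤ 1 / 1000 := tau_le ρ1
  have t2' : τ2 ≤ 1 / 1000 := tau_le ρ2
  set T := τ1 ^ 2 + τ2 ^ 2 with hT
  have hT0 : 0 ≤ T := by positivity
  have hW : P.W ≤ 1001 / 1000 * (s ^ 2 * T) := by
    have hW' : P.W = P.a1 ^ 2 + P.a2 ^ 2 := rfl
    have key : ∀ {R τ : ℝ}, 9999 / 10000 ≤ R → (s * τ / R) ^ 2 ≤ 1001 / 1000 * (s ^ 2 * τ ^ 2) := by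
      intro R τ hR
      have hRp : 0 < R := by linarith
      rw [div_pow, div_le_iff₀ (by positivity), mul_pow]
      have : 1 ≤ 1001 / 1000 * R ^ 2 := by nlinarith
      have h0 : 0 ≤ s ^ 2 * τ ^ 2 := by positivity
      nlinarith
    rw [hW', ha1, ha2, hT]
    have k1 := key (τ := τ1) h.R10
    have k2 := key (τ := τ2) h.R20
    linarith
  have hs2 : s ^ 2 ≤ 1 / 100000000 := by
    have := pow_le_pow_left₀ hs0.le hs 2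
    norm_num at this ⊢
    linarith
  have hWT : P.W ≤ 11 / 1000000000 * T := by
    have : s ^ 2 * T ≤ 1 / 100000000 * T := mul_le_mul_of_nonneg_right hs2 hT0
    linarith
  have hWM : P.W * M ≤ 11 / 1000000000 * (T * M) := by
    have := mul_le_mul_of_nonneg_right hWT hM0
    linarith
  have hTM : 0 ≤ T * M := by positivity
  -- weights
  set h1 := hh ρ1 with hh1
  set h2 := hh ρ2 with hh2
  set k1 := hh (ρ1 + τ1 * P.cx) with hk1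
  set k2 := hh (ρ2 + τ2 * P.cy) with hk2
  have p1 : 1 ≤ h1 := hh_ge hρ1
  have p2 : 1 ≤ h2 := hh_ge hρ2
  have p1' : h1 ≤ 2 := hh_le _
  have p2' : h2 ≤ 2 := hh_le _
  have n1 : |k1 - h1| ≤ 2001 / 1000 * τ1 := hh_new hρ1 h.hcx
  have n2 : |k2 - h2| ≤ 2001 / 1000 * τ2 := hh_new hρ2 h.hcy
  have k1' : k1 ≤ 2 := hh_le _
  have k2' : k2 ≤ 2 := hh_le _
  have k10 : 0 ≤ k1 := by linarith [(abs_le.1 n1).1]
  have k20 : 0 ≤ k2 := by linarith [(abs_le.1 n2).1]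
  set Dd := k1 * k2 - h1 * h2 with hD
  have hDle : |Dd| ≤ 41 / 10 * (τ1 + τ2) := by
    have e : Dd = (k1 - h1) * k2 + h1 * (k2 - h2) := by rw [hD]; ring
    rw [e]
    refine (abs_add_le _ _).trans ?_
    rw [abs_mul, abs_mul, abs_of_nonneg k20, abs_of_nonneg (by linarith : 0 ≤ h1)]
    have e1 : |k1 - h1| * k2 ≤ 2001 / 1000 * τ1 * 2 :=
      mul_le_mul n1 k2' k20 (by positivity)
    have e2 : h1 * |k2 - h2| ≤ 2 * (2001 / 1000 * τ2) :=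
      mul_le_mul p1' n2 (abs_nonneg _) (by norm_num)
    linarith
  have hDsq : Dd ^ 2 ≤ 34 * T := by
    rw [← sq_abs]
    have := pow_le_pow_left₀ (abs_nonneg _) hDle 2
    exact this.trans (sum_tau_sq τ1 τ2)
  -- expansion of the weights
  have hexp : k1 * k2 = h1 * h2 + (- (2 * ρ1 * τ1 * h2) * P.cx
          - (2 * ρ2 * τ2 * h1) * P.cy
          + (4 * ρ1 * ρ2 * τ1 * τ2) * (P.cx * P.cy)
          - (τ1 ^ 2 * h2 / 2) * P.c2x - (τ2 ^ 2 * h1 / 2) * P.c2y)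
        - τ1 ^ 2 * h2 / 2 - τ2 ^ 2 * h1 / 2
        + (2 * ρ1 * τ1 * P.cx * (τ2 ^ 2 * P.cy ^ 2) + 2 * ρ2 * τ2 * P.cy * (τ1 ^ 2 * P.cx ^ 2)
          + τ1 ^ 2 * P.cx ^ 2 * (τ2 ^ 2 * P.cy ^ 2)) := by
    rw [hk1, hk2, hh1, hh2]
    unfold hh c2x c2y
    ring
  set o1 := - (2 * ρ1 * τ1 * h2) * P.cx
          - (2 * ρ2 * τ2 * h1) * P.cy
          + (4 * ρ1 * ρ2 * τ1 * τ2) * (P.cx * P.cy)
          - (τ1 ^ 2 * h2 / 2) * P.c2x - (τ2 ^ 2 * h1 / 2) * P.c2y with ho1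
  have hcx2 := abs_le_one_sq h.hcx
  have hcy2 := abs_le_one_sq h.hcy
  have hr3 : 2 * ρ1 * τ1 * P.cx * (τ2 ^ 2 * P.cy ^ 2) + 2 * ρ2 * τ2 * P.cy * (τ1 ^ 2 * P.cx ^ 2)
          + τ1 ^ 2 * P.cx ^ 2 * (τ2 ^ 2 * P.cy ^ 2) ≤ 3 / 1000 * T := by
    have f1 : |ρ1 * P.cx| ≤ 1 := by
      rw [abs_mul]
      have := mul_le_mul hρ1 h.hcx (abs_nonneg _) zero_le_one
      linarith
    have f2 : |ρ2 * P.cy| ≤ 1 := by
      rw [abs_mul]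
      have := mul_le_mul hρ2 h.hcy (abs_nonneg _) zero_le_one
      linarith
    have g1 : 2 * ρ1 * τ1 * P.cx * (τ2 ^ 2 * P.cy ^ 2) ≤ 2 * τ1 * τ2 ^ 2 := by
      have e : 2 * ρ1 * τ1 * P.cx * (τ2 ^ 2 * P.cy ^ 2) = (2 * τ1 * τ2 ^ 2) * ((ρ1 * P.cx) *
        P.cy ^ 2) := by ring
      rw [e]
      have e2 : (ρ1 * P.cx) * P.cy ^ 2 ≤ 1 * 1 := by
        have := mul_le_mul ((le_abs_self _).trans f1) hcy2 (sq_nonneg _) zero_le_one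
        exact this
      have := mul_le_mul_of_nonneg_left e2 (by positivity : 0 ≤ 2 * τ1 * τ2 ^ 2)
      linarith
    have g2 : 2 * ρ2 * τ2 * P.cy * (τ1 ^ 2 * P.cx ^ 2) ≤ 2 * τ2 * τ1 ^ 2 := by
      have e : 2 * ρ2 * τ2 * P.cy * (τ1 ^ 2 * P.cx ^ 2) = (2 * τ2 * τ1 ^ 2) * ((ρ2 * P.cy) *
        P.cx ^ 2) := by ring
      rw [e]
      have e2 : (ρ2 * P.cy) * P.cx ^ 2 ≤ 1 * 1 := by
        have := mul_le_mul ((le_abs_self _).trans f2) hcx2 (sq_nonneg _) zero_le_one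
        exact this
      have := mul_le_mul_of_nonneg_left e2 (by positivity : 0 ≤ 2 * τ2 * τ1 ^ 2)
      linarith
    have g3 : τ1 ^ 2 * P.cx ^ 2 * (τ2 ^ 2 * P.cy ^ 2) ≤ τ1 ^ 2 * τ2 ^ 2 := by
      have e : τ1 ^ 2 * P.cx ^ 2 * (τ2 ^ 2 * P.cy ^ 2) = (τ1 ^ 2 * τ2 ^ 2) * (P.cx ^ 2 *
        P.cy ^ 2) := by ring
      rw [e]
      have e2 : P.cx ^ 2 * P.cy ^ 2 ≤ 1 * 1 :=
        mul_le_mul hcx2 hcy2 (sq_nonneg _) zero_le_one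
      have := mul_le_mul_of_nonneg_left e2 (by positivity : 0 ≤ τ1 ^ 2 * τ2 ^ 2)
      linarith
    have g4 := third_order t1 t1' t2 t2' g1 g2
    rw [hT]
    linarith
  set r3 := 2 * ρ1 * τ1 * P.cx * (τ2 ^ 2 * P.cy ^ 2) + 2 * ρ2 * τ2 * P.cy * (τ1 ^ 2 * P.cx ^ 2)
          + τ1 ^ 2 * P.cx ^ 2 * (τ2 ^ 2 * P.cy ^ 2) with hr3d
  -- first part
  have A1 : M * (k1 * k2) ≤ M * (h1 * h2) + M * o1 - 497 / 1000 * (T * M) := by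
    have e1 : τ1 ^ 2 * 1 ≤ τ1 ^ 2 * h2 := mul_le_mul_of_nonneg_left p2 (sq_nonneg τ1)
    have e2 : τ2 ^ 2 * 1 ≤ τ2 ^ 2 * h1 := mul_le_mul_of_nonneg_left p1 (sq_nonneg τ2)
    have e3 : k1 * k2 ≤ h1 * h2 + o1 - 497 / 1000 * T := by
      rw [hexp, hT]
      rw [hT] at hr3
      linarith
    have := mul_le_mul_of_nonneg_left e3 hM0
    linarith
  -- second part
  set V := 2 * inner ℝ P.b P.G + 2 * inner ℝ P.g P.q with hV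
  have hVle : |V| ≤ 2 * (‖P.b‖ * (α + β)) + 2 * (‖P.g‖ * ‖P.q‖) := by
    have e1 := abs_real_inner_le_norm P.b P.G
    have e2 := abs_real_inner_le_norm P.g P.q
    have e3 : ‖P.b‖ * ‖P.G‖ ≤ ‖P.b‖ * (α + β) := mul_le_mul_of_nonneg_left hG (norm_nonneg _)
    rw [hV]
    refine (abs_add_le _ _).trans ?_
    rw [abs_mul, abs_mul, abs_of_pos (by norm_num : (0:ℝ) < 2)]
    linarith
  have A2 : V * Dd ≤ 9 / 100 * (T * M) + 1750 * Eh := by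
    have e0 : V * Dd ≤ |V| * |Dd| := by
      rw [← abs_mul]; exact le_abs_self _
    have e1 : |V| * |Dd| ≤ (2 * (‖P.b‖ * (α + β)) + 2 * (‖P.g‖ * ‖P.q‖)) * |Dd| :=
      mul_le_mul_of_nonneg_right hVle (abs_nonneg _)
    have y1 := two_mul_young (‖P.b‖ * |Dd|) α (μ := 1 / 10000) (by norm_num)
    have y2 := two_mul_young (‖P.b‖ * |Dd|) β (μ := 1 / 400) (by norm_num)
    have y3 := two_mul_young (‖P.g‖ * |Dd|) ‖P.q‖ (μ := 1 / 400) (by norm_num)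
    have q1 : (‖P.b‖ * |Dd|) ^ 2 ≤ ‖P.b‖ ^ 2 * (34 * T) := by
      rw [mul_pow, sq_abs]
      exact mul_le_mul_of_nonneg_left hDsq (sq_nonneg _)
    have q2 : (‖P.g‖ * |Dd|) ^ 2 ≤ ‖P.g‖ ^ 2 * (34 * T) := by
      rw [mul_pow, sq_abs]
      exact mul_le_mul_of_nonneg_left hDsq (sq_nonneg _)
    have d1 : α ^ 2 / (1 / 10000) = 10000 * α ^ 2 := by ring
    have d2 : β ^ 2 / (1 / 400) = 400 * β ^ 2 := by ring
    have d3 : ‖P.q‖ ^ 2 / (1 / 400) = 400 * ‖P.q‖ ^ 2 := by ring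
    rw [d1] at y1
    rw [d2] at y2
    rw [d3] at y3
    have q3 : ‖P.b‖ ^ 2 * (34 * T) + ‖P.g‖ ^ 2 * (34 * T) = 34 * (T * M) := by rw [hM]; ring
    have q4 : 0 ≤ ‖P.g‖ ^ 2 * (34 * T) := by positivity
    have s1 : (2 * (‖P.b‖ * (α + β)) + 2 * (‖P.g‖ * ‖P.q‖)) * |Dd|
        = 2 * (‖P.b‖ * |Dd| * α) + 2 * (‖P.b‖ * |Dd| * β) + 2 * (‖P.g‖ * |Dd| * ‖P.q‖) := by ring
    rw [s1] at e1
    linarith
  -- third part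
  have A3 : (‖P.G‖ ^ 2 + ‖P.q‖ ^ 2) * (k1 * k2) ≤ 1 / 1000 * (T * M) + 30 * Eh := by
    have e1 : ‖P.G‖ ^ 2 ≤ (α + β) ^ 2 := pow_le_pow_left₀ (norm_nonneg _) hG 2
    have e2 : (α + β) ^ 2 ≤ 2 * α ^ 2 + 2 * β ^ 2 := add_sq_le' α β
    have e3 : k1 * k2 ≤ 4 := by
      have := mul_le_mul k1' k2' k20 (by norm_num)
      linarith
    have e4 : (‖P.G‖ ^ 2 + ‖P.q‖ ^ 2) * (k1 * k2) ≤ (‖P.G‖ ^ 2 + ‖P.q‖ ^ 2) * 4 :=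
      mul_le_mul_of_nonneg_left e3 (by positivity)
    linarith
  -- conclusion
  have F : (‖P.b + P.G‖ ^ 2 + ‖P.g + P.q‖ ^ 2) * (k1 * k2)
      = M * (k1 * k2) + (h1 * h2 * V + V * Dd) + (‖P.G‖ ^ 2 + ‖P.q‖ ^ 2) * (k1 * k2) := by
    rw [norm_add_sq_real, norm_add_sq_real, hD, hV, hM]
    ring
  rw [F]
  linarith

/-- a crude bound -/
lemma X_crude {ρ1 ρ2 : ℝ} (hρ1 : |ρ1| ≤ 1) (hρ2 : |ρ2| ≤ 1) :
    (‖P.b + P.G‖ ^ 2 + ‖P.g + P.q‖ ^ 2)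
      * (hh (ρ1 + tau ρ1 * P.cx) * hh (ρ2 + tau ρ2 * P.cy))
    ≤ 9 * (‖P.b‖ ^ 2 + ‖P.g‖ ^ 2) + 60 * (‖P.e‖ ^ 2 / P.W) := by
  have w0 := h.Wpos
  have hq := h.q_sq
  have hβ := h.β_sq
  have hG := h.G_le
  have hα : (1 * P.a2 * ‖P.b‖ + 1001 / 1000 * P.a1 * ‖P.g‖) ^ 2
      ≤ 101 / 100 * (P.W * (‖P.b‖ ^ 2 + ‖P.g‖ ^ 2)) :=
    h.cs_bg (by norm_num) le_rfl (by norm_num) (by norm_num)
  set α := 1 * P.a2 * ‖P.b‖ + 1001 / 1000 * P.a1 * ‖P.g‖ with hαd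
  set β := 1001 / 1000 * (‖P.q‖ + ‖P.e‖) with hβd
  set Eh := ‖P.e‖ ^ 2 / P.W with hEh
  set M := ‖P.b‖ ^ 2 + ‖P.g‖ ^ 2 with hM
  have hE0 : 0 ≤ Eh := by positivity
  have hM0 : 0 ≤ M := by positivity
  have hWM : P.W * M ≤ 1 / 1000000000 * M := mul_le_mul_of_nonneg_right h.Wle hM0
  have n1 := hh_new hρ1 h.hcx
  have n2 := hh_new hρ2 h.hcy
  have p1 : 1 ≤ hh ρ1 := hh_ge hρ1
  have p2 : 1 ≤ hh ρ2 := hh_ge hρ2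
  have t1' := tau_le ρ1
  have t2' := tau_le ρ2
  set k1 := hh (ρ1 + tau ρ1 * P.cx) with hk1
  set k2 := hh (ρ2 + tau ρ2 * P.cy) with hk2
  have k1' : k1 ≤ 2 := hh_le _
  have k2' : k2 ≤ 2 := hh_le _
  have k10 : 0 ≤ k1 := by linarith [(abs_le.1 n1).1]
  have k20 : 0 ≤ k2 := by linarith [(abs_le.1 n2).1]
  have e3 : k1 * k2 ≤ 4 := by
    have := mul_le_mul k1' k2' k20 (by norm_num)
    linarith
  have e5 : ‖P.b + P.G‖ ^ 2 ≤ 2 * ‖P.b‖ ^ 2 + 2 * ‖P.G‖ ^ 2 := norm_add_sq_le' _ _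
  have e6 : ‖P.g + P.q‖ ^ 2 ≤ 2 * ‖P.g‖ ^ 2 + 2 * ‖P.q‖ ^ 2 := norm_add_sq_le' _ _
  have e1 : ‖P.G‖ ^ 2 ≤ (α + β) ^ 2 := pow_le_pow_left₀ (norm_nonneg _) hG 2
  have e2 : (α + β) ^ 2 ≤ 2 * α ^ 2 + 2 * β ^ 2 := add_sq_le' α β
  have e4 : (‖P.b + P.G‖ ^ 2 + ‖P.g + P.q‖ ^ 2) * (k1 * k2)
      ≤ (‖P.b + P.G‖ ^ 2 + ‖P.g + P.q‖ ^ 2) * 4 :=
    mul_le_mul_of_nonneg_left e3 (by positivity)
  rw [hM] at hWM hα ⊢
  linarith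

end Ok

end Pt

end

end Pool.Agent.K6.H24.MH
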