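import Pool.Agent.K6.H24.MH.Grad

open scoped ContDiff
open Set MeasureTheory Filter Topology

namespace Pool.Agent.K6.H24.MH

open Pool.Agent.H729R2 (E3 X ev et D St Good lab vec phx phy slab O1 B1 nv n2 vK)
open Pool.Agent.H729R2

noncomputable section

/-- quantitative Riemann-Lebesgue lemma for Lipschitz functions supported in a ball -/
lemma rl_lip {k : Fin 3 → ℝ} (hk : k ≠ 0) (R L : ℝ) : ∃ C : ℝ, 0 ≤ C ∧ ∀ N : ℕ, 1 ≤ N →
    ∀ F : E3 → ℝ, (∀ x y, |F x - F y| ≤ L * dist x y) →
    (∀ x, x ∉ Metric.closedBall (0:E3) R → F x = 0) →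
    |∫ x, F x * Real.cos (N * ∑ i, k i * x i)| ≤ C / N := by
  set n := ∑ i, k i ^ 2 with hn
  have hn0 : 0 < n := (Finset.sum_nonneg fun i _ => sq_nonneg (k i)).lt_of_ne (sum_sq_ne hk).symm
  set a : E3 := vec k with ha
  set c : ℝ := Real.pi / n * ‖a‖ with hc
  have hc0 : 0 ≤ c := by have := Real.pi_pos; positivity
  set B : Set E3 := Metric.closedBall (0:E3) (R + c) with hB
  have hBf : (volume : Measure E3) B < ⊤ := (isCompact_closedBall _ _).measure_lt_top
  refine ⟨|L| * c * (volume : Measure E3).real B, by positivity, fun N hN F hF hFz => ?_⟩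
  have hN' : (1:ℝ) ≤ N := by exact_mod_cast hN
  have hNp : (0:ℝ) < N := by linarith
  set h : E3 := (Real.pi / (N * n)) • a with hh
  have hhn : ‖h‖ = c / N := by
    have hp : 0 < Real.pi / (N * n) := by have := Real.pi_pos; positivity
    rw [hh, norm_smul, Real.norm_eq_abs, abs_of_pos hp, hc]
    field_simp
  have hhc : ‖h‖ ≤ c := by rw [hhn]; exact div_le_self hc0 hN'
  set θ : E3 → ℝ := fun x => N * ∑ i, k i * x i with hθ
  have hθh : ∀ x, θ (x + h) = θ x + Real.pi := by
    intro x
    have e1 : ∑ i, k i * (x + h) i = ∑ i, k i * x i + Real.pi / N := by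
      have : ∀ i, k i * (x + h) i = k i * x i + (Real.pi / (N * n)) * k i ^ 2 := by
        intro i
        simp only [hh, ha, PiLp.add_apply, PiLp.smul_apply, smul_eq_mul, vec_apply]
        ring
      simp only [this, Finset.sum_add_distrib, ← Finset.mul_sum]
      rw [← hn]
      field_simp
    simp only [hθ]
    rw [e1, mul_add]
    congr 1
    field_simp
  have hFc : Continuous F := by
    have : LipschitzWith (Real.toNNReal |L|) F := by
      refine LipschitzWith.of_dist_le_mul fun x y => ?_
      rw [Real.coe_toNNReal _ (abs_nonneg _), Real.dist_eq]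
      exact (hF x y).trans (mul_le_mul_of_nonneg_right (le_abs_self L) dist_nonneg)
    exact this.continuous
  have hθc : Continuous θ := by
    simp only [hθ]
    fun_prop
  have hcs : HasCompactSupport F := HasCompactSupport.intro (isCompact_closedBall (0:E3) R) hFz
  have i1 : Integrable (fun x => F x * Real.cos (θ x)) :=
    (hFc.mul (Real.continuous_cos.comp hθc)).integrable_of_hasCompactSupport hcs.mul_right
  have e2 : ∫ x, F x * Real.cos (θ x) = - ∫ x, F (x + h) * Real.cos (θ x) := by
    rw [← integral_add_right_eq_self (fun x => F x * Real.cos (θ x)) h, ← integral_neg]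
    refine integral_congr_ae (Eventually.of_forall fun x => ?_)
    beta_reduce
    rw [hθh, Real.cos_add_pi]
    ring
  have i2 : Integrable (fun x => F (x + h) * Real.cos (θ x)) := by
    have := i1.comp_add_right h
    refine this.neg.congr (Eventually.of_forall fun x => ?_)
    simp only [Pi.neg_apply]
    rw [hθh, Real.cos_add_pi]
    ring
  have e3 : 2 * ∫ x, F x * Real.cos (θ x) = ∫ x, (F x - F (x + h)) * Real.cos (θ x) := by
    have : ∫ x, (F x - F (x + h)) * Real.cos (θ x)
        = (∫ x, F x * Real.cos (θ x)) - ∫ x, F (x + h) * Real.cos (θ x) := by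
      rw [← integral_sub i1 i2]
      refine integral_congr_ae (Eventually.of_forall fun x => ?_)
      beta_reduce
      ring
    rw [this]
    linarith
  have e4 : |∫ x, (F x - F (x + h)) * Real.cos (θ x)| ≤ ∫ x, B.indicator (fun _ => |L| * ‖h‖) x := by
    rw [← Real.norm_eq_abs]
    refine norm_integral_le_of_norm_le ?_ (Eventually.of_forall fun x => ?_)
    · exact (integrable_indicator_iff Metric.isClosed_closedBall.measurableSet).2
        (integrableOn_const hBf.ne)
    · by_cases hx : x ∈ B
      · rw [indicator_of_mem hx, norm_mul, Real.norm_eq_abs, Real.norm_eq_abs]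
        have h1 : |F x - F (x + h)| ≤ |L| * ‖h‖ := by
          refine (hF _ _).trans ?_
          rw [dist_self_add_right]
          exact mul_le_mul_of_nonneg_right (le_abs_self L) (norm_nonneg _)
        have := mul_le_mul h1 (Real.abs_cos_le_one (θ x)) (abs_nonneg _) (by positivity)
        linarith
      · rw [indicator_of_notMem hx]
        have h1 : ¬ ‖x‖ ≤ R + c := by simpa [hB] using hx
        push Not at h1
        have h2 : F x = 0 := hFz x (by simp only [mem_closedBall_zero_iff, not_le]; linarith)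
        have h3 : F (x + h) = 0 := hFz _ (by
          simp only [mem_closedBall_zero_iff, not_le]
          have h4 := norm_sub_le (x + h) h
          rw [add_sub_cancel_right] at h4
          linarith)
        rw [h2, h3]
        simp
  rw [integral_indicator Metric.isClosed_closedBall.measurableSet, setIntegral_const,
    smul_eq_mul] at e4
  rw [← e3, abs_mul, abs_two] at e4
  have e5 : (volume : Measure E3).real B * (|L| * ‖h‖) = |L| * c * (volume : Measure E3).real B / N := by
    rw [hhn]; ring
  rw [e5] at e4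
  have := abs_nonneg (∫ x, F x * Real.cos (θ x))
  change |∫ x, F x * Real.cos (θ x)| ≤ _
  linarith

/-- compactly supported smooth functions are Lipschitz -/
lemma lip_of_cs {F : E3 → ℝ} (hF : ContDiff ℝ ∞ F) (hc : HasCompactSupport F) :
    ∃ L : ℝ, 0 ≤ L ∧ ∀ x y, |F x - F y| ≤ L * dist x y := by
  obtain ⟨C, hC⟩ := ContDiff.lipschitzWith_of_hasCompactSupport hc hF (by simp)
  exact ⟨C, C.2, fun x y => by simpa [Real.dist_eq] using hC.dist_le_mul x y⟩

lemma ball_of_cs {F : E3 → ℝ} (hc : HasCompactSupport F) :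
    ∃ R : ℝ, ∀ x, x ∉ Metric.closedBall (0:E3) R → F x = 0 := by
  obtain ⟨R, hR⟩ := hc.isBounded.exists_norm_le
  refine ⟨R, fun x hx => ?_⟩
  by_contra h0
  exact hx (by simpa using hR x (subset_tsupport _ h0))

/-- Riemann-Lebesgue for smooth functions -/
lemma rl_smooth {k : Fin 3 → ℝ} (hk : k ≠ 0) {F : E3 → ℝ} (hF : ContDiff ℝ ∞ F)
    (hc : HasCompactSupport F) : ∃ C : ℝ, 0 ≤ C ∧ ∀ N : ℕ, 1 ≤ N →
    |∫ x, F x * Real.cos (N * ∑ i, k i * x i)| ≤ C / N := by
  obtain ⟨L, -, hL⟩ := lip_of_cs hF hc
  obtain ⟨R, hR⟩ := ball_of_cs hc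
  obtain ⟨C, h0, h⟩ := rl_lip hk R L
  exact ⟨C, h0, fun N hN => h N hN F hL hR⟩

end

end Pool.Agent.K6.H24.MH
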