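import Pool.Agent.K6.H24.MH.Itr

open scoped ContDiff ENNReal
open Set MeasureTheory Filter Topology

namespace Pool.Agent.K6.H24.MH

open Pool.Agent.H729R2 (E3 X ev et D St Good lab vec phx phy slab O1 B1 nv n2 vK)
open Pool.Agent.H729R2

noncomputable section

lemma norm2_sq {α : Type} [MeasurableSpace α] {μ : Measure α} {f : α → ℝ} (hf : MemLp f 2 μ) :
    (eLpNorm f 2 μ).toReal ^ 2 = ∫ x, f x ^ 2 ∂μ := by
  have h1 := hf.eLpNorm_eq_integral_rpow_norm (by norm_num) (by norm_num)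
  have h0 : 0 ≤ ∫ x, ‖f x‖ ^ (2:ℝ) ∂μ := integral_nonneg fun x => by positivity
  rw [h1]
  simp only [ENNReal.toReal_ofNat]
  rw [ENNReal.toReal_ofReal (Real.rpow_nonneg h0 _), ← Real.rpow_natCast, ← Real.rpow_mul h0]
  norm_num

lemma eLpNorm_two_le {α : Type} [MeasurableSpace α] {μ : Measure α} {f : α → ℝ} {c : ℝ}
    (hf : MemLp f 2 μ) (hc : 0 ≤ c) (h : ∫ x, f x ^ 2 ∂μ ≤ c ^ 2) :
    eLpNorm f 2 μ ≤ ENNReal.ofReal c := by
  rw [← norm2_sq hf] at h
  have h2 := abs_le_of_sq_le_sq' h hc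
  exact (ENNReal.le_ofReal_iff_toReal_le hf.2.ne hc).2 h2.2

lemma memLp_bdd {α : Type} [MeasurableSpace α] {μ : Measure α} [IsFiniteMeasure μ] {f : α → ℝ}
    (hf : AEStronglyMeasurable f μ) {C : ℝ} (hC : ∀ x, |f x| ≤ C) (p : ℝ≥0∞) : MemLp f p μ :=
  MemLp.of_bound hf C (Eventually.of_forall fun x => by simpa using hC x)

theorem exists_rlim {ρ : ℕ → E3 → ℝ} (hc : ∀ n, Continuous (ρ n)) (h1 : ∀ n x, |ρ n x| ≤ 1)
    {ψ : E3 → ℝ} (hψ : Continuous ψ) (hψc : HasCompactSupport ψ) (ψ0 : ∀ x, 0 ≤ ψ x)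
    {B : Set E3} (hB : MeasurableSet B) (hBψ : ∀ x ∈ B, ψ x = 1)
    {Λ : ℕ → ℝ} (hΛ : Monotone Λ) (lip : ∀ n x y, |ρ n x - ρ n y| ≤ Λ n * dist x y)
    {d : ℝ} (hd : 0 < d)
    (wk : ∀ n (g : E3 → ℝ), (∀ x y, |g x - g y| ≤ Λ n * dist x y) → (∀ x, |g x| ≤ 1) →
        |∫ x, ψ x * (ρ (n + 1) x - ρ n x) * g x| ≤ dl d n)
    (en : ∀ n, (∫ x, ψ x * ρ n x ^ 2) + 1 / 2 * (∫ x, ψ x * tau (ρ n x) ^ 2) - dl d n
        ≤ ∫ x, ψ x * ρ (n + 1) x ^ 2) :
    ∃ ρL : E3 → ℝ, Measurable ρL ∧ (∀ x, ρL x = 1 ∨ ρL x = -1) ∧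
      Tendsto (fun n => eLpNorm (fun x => ρ n x - ρL x) 2 (volume.restrict B)) atTop (𝓝 0) := by
  have ii : ∀ {F : E3 → ℝ}, Continuous F → Integrable (fun x => ψ x * F x) := fun hF =>
    (hψ.mul hF).integrable_of_hasCompactSupport hψc.mul_right
  have hτc : ∀ n, Continuous fun x => tau (ρ n x) := fun n => by
    unfold tau
    exact continuous_const.mul (continuous_const.sub ((hc n).pow 2))
  set E : ℕ → ℝ := fun n => ∫ x, ψ x * ρ n x ^ 2 with hE
  set a : ℕ → ℝ := fun n => E n - d * (1 / 2) ^ n with ha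
  have hp : ∀ n : ℕ, 0 < d * (1 / 2 : ℝ) ^ n := fun n => by positivity
  have hps : ∀ n : ℕ, d * (1 / 2 : ℝ) ^ (n + 1) = d * (1 / 2) ^ n / 2 := fun n => by
    rw [pow_succ]; ring
  have hen : ∀ n, 1 / 2 * (∫ x, ψ x * tau (ρ n x) ^ 2) ≤ a (n + 1) - a n := by
    intro n
    have h2 := en n
    have h3 := hps n
    unfold dl at h2
    simp only [ha, hE]
    rw [h3] at h2 ⊢
    linarith
  have hτ0 : ∀ n, 0 ≤ ∫ x, ψ x * tau (ρ n x) ^ 2 := fun n =>
    integral_nonneg fun x => mul_nonneg (ψ0 x) (sq_nonneg _)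
  have hmono : Monotone a := monotone_nat_of_le_succ fun n => by
    have h2 := hen n
    have h3 := hτ0 n
    linarith
  have hEle : ∀ n, E n ≤ ∫ x, ψ x := by
    intro n
    have i1 := ii (F := fun _ => 1) continuous_const
    simp only [mul_one] at i1
    refine integral_mono (ii ((hc n).pow 2)) i1 fun x => ?_
    have h2 : ρ n x ^ 2 ≤ 1 := abs_le_one_sq (h1 n x)
    have := mul_le_mul_of_nonneg_left h2 (ψ0 x)
    linarith
  have hbdd : BddAbove (range a) := ⟨∫ x, ψ x, by
    rintro _ ⟨n, rfl⟩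
    have h2 := hEle n
    have h3 := hp n
    simp only [ha]
    linarith⟩
  set A := ⨆ n, a n with hA
  have hlim : Tendsto a atTop (𝓝 A) := tendsto_atTop_ciSup hmono hbdd
  have haA : ∀ n, a n ≤ A := fun n => le_ciSup hbdd n
  have hpow : Tendsto (fun n : ℕ => d * (1 / 2 : ℝ) ^ n) atTop (𝓝 0) := by
    have := (tendsto_pow_atTop_nhds_zero_of_lt_one (r := (1 / 2 : ℝ)) (by norm_num)
        (by norm_num)).const_mul d
    simpa using this
  -- cross terms
  have hcr : ∀ j n, |∫ x, ψ x * (ρ (j + n) x - ρ j x) * ρ j x|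
      ≤ d * (1 / 2) ^ j - d * (1 / 2) ^ (j + n) := by
    intro j n
    induction n with
    | zero => simp
    | succ n ih =>
      have i1 : Integrable (fun x => ψ x * (ρ (j + n + 1) x - ρ (j + n) x) * ρ j x) := by
        have := ii (((hc (j + n + 1)).sub (hc (j + n))).mul (hc j))
        refine this.congr (Eventually.of_forall fun x => ?_)
        simp only [Pi.mul_apply, Pi.sub_apply]
        ring
      have i2 : Integrable (fun x => ψ x * (ρ (j + n) x - ρ j x) * ρ j x) := by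
        have := ii (((hc (j + n)).sub (hc j)).mul (hc j))
        refine this.congr (Eventually.of_forall fun x => ?_)
        simp only [Pi.mul_apply, Pi.sub_apply]
        ring
      have e1 : ∫ x, ψ x * (ρ (j + (n + 1)) x - ρ j x) * ρ j x
          = (∫ x, ψ x * (ρ (j + n + 1) x - ρ (j + n) x) * ρ j x)
            + ∫ x, ψ x * (ρ (j + n) x - ρ j x) * ρ j x := by
        rw [← integral_add i1 i2]
        refine integral_congr_ae (Eventually.of_forall fun x => ?_)
        beta_reduce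
        rw [show j + (n + 1) = j + n + 1 from rfl]
        ring
      rw [e1]
      refine (abs_add_le _ _).trans ?_
      have h2 := wk (j + n) (ρ j) (fun x y => (lip j x y).trans
        (mul_le_mul_of_nonneg_right (hΛ (Nat.le_add_right j n)) dist_nonneg)) (h1 j)
      unfold dl at h2
      have h3 := hps (j + n)
      rw [show j + (n + 1) = j + n + 1 from rfl, h3]
      rw [h3] at h2
      linarith
  have hdist : ∀ j n, j ≤ n → ∫ x, ψ x * (ρ n x - ρ j x) ^ 2 ≤ A - a j + 2 * (d * (1 / 2) ^ j) := by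
    intro j n hjn
    obtain ⟨l, rfl⟩ := Nat.exists_eq_add_of_le hjn
    have h2 := (abs_le.1 (hcr j l)).1
    have i1 : Integrable (fun x => ψ x * ρ (j + l) x ^ 2) := ii ((hc (j + l)).pow 2)
    have i2 : Integrable (fun x => ψ x * ρ j x ^ 2) := ii ((hc j).pow 2)
    have i3 : Integrable (fun x => ψ x * (ρ (j + l) x - ρ j x) * ρ j x) := by
      have := ii (((hc (j + l)).sub (hc j)).mul (hc j))
      refine this.congr (Eventually.of_forall fun x => ?_)
      simp only [Pi.mul_apply, Pi.sub_apply]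
      ring
    have e1 : ∫ x, ψ x * (ρ (j + l) x - ρ j x) ^ 2
        = E (j + l) - E j - 2 * ∫ x, ψ x * (ρ (j + l) x - ρ j x) * ρ j x := by
      have i4 : Integrable (fun x => ψ x * ρ (j + l) x ^ 2 - ψ x * ρ j x ^ 2) := i1.sub i2
      simp only [hE]
      rw [← integral_const_mul, ← integral_sub i1 i2, ← integral_sub i4 (i3.const_mul 2)]
      refine integral_congr_ae (Eventually.of_forall fun x => ?_)
      beta_reduce
      ring
    rw [e1]
    have h3 := haA (j + l)
    have h4 := hp (j + l)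
    have h5 := hp j
    simp only [ha] at h3 ⊢
    linarith
  set b : ℕ → ℝ := fun j => A - a j + 2 * (d * (1 / 2) ^ j) with hb
  have hb0 : ∀ j, 0 ≤ b j := fun j => by
    have h2 := haA j
    have h3 := hp j
    simp only [hb]
    linarith
  have hblim : Tendsto b atTop (𝓝 0) := by
    have h2 : Tendsto b atTop (𝓝 (A - A + 2 * 0)) :=
      (tendsto_const_nhds.sub hlim).add (hpow.const_mul 2)
    simpa using h2
  -- the space
  set μ : Measure E3 := volume.restrict B with hμ
  have hBK : B ⊆ tsupport ψ := fun x hx => subset_tsupport _ (by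
    rw [Function.mem_support, hBψ x hx]; norm_num)
  have hfin : IsFiniteMeasure μ := by
    refine ⟨?_⟩
    rw [hμ, Measure.restrict_apply_univ]
    exact (measure_mono hBK).trans_lt (IsCompact.measure_lt_top hψc)
  have hm : ∀ n, MemLp (ρ n) 2 μ := fun n => memLp_bdd (hc n).aestronglyMeasurable (h1 n) 2
  have hle : ∀ j n, j ≤ n → eLpNorm (fun x => ρ n x - ρ j x) 2 μ ≤ ENNReal.ofReal (Real.sqrt (b j)) := by
    intro j n hjn
    refine eLpNorm_two_le ((hm n).sub (hm j)) (Real.sqrt_nonneg _) ?_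
    rw [Real.sq_sqrt (hb0 j)]
    refine le_trans ?_ (hdist j n hjn)
    have e1 : ∫ x, ((ρ n - ρ j) x) ^ 2 ∂μ = ∫ x in B, ψ x * (ρ n x - ρ j x) ^ 2 := by
      refine setIntegral_congr_fun hB fun x hx => ?_
      simp only [Pi.sub_apply]
      rw [hBψ x hx, one_mul]
    refine (le_of_eq e1).trans ?_
    exact setIntegral_le_integral (ii (((hc n).sub (hc j)).pow 2))
      (Eventually.of_forall fun x => mul_nonneg (ψ0 x) (sq_nonneg _))
  set G : ℕ → Lp ℝ 2 μ := fun n => (hm n).toLp (ρ n) with hG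
  have hdG : ∀ j n, j ≤ n → dist (G n) (G j) ≤ Real.sqrt (b j) := by
    intro j n hjn
    rw [Lp.dist_def]
    have e1 : eLpNorm (⇑(G n) - ⇑(G j)) 2 μ = eLpNorm (fun x => ρ n x - ρ j x) 2 μ := by
      refine eLpNorm_congr_ae ?_
      filter_upwards [(hm n).coeFn_toLp, (hm j).coeFn_toLp] with x h2 h3
      simp only [hG, Pi.sub_apply]
      rw [h2, h3]
    rw [e1]
    exact ENNReal.toReal_le_of_le_ofReal (Real.sqrt_nonneg _) (hle j n hjn)
  have hsq : Tendsto (fun j => Real.sqrt (b j)) atTop (𝓝 0) := by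
    have := (Real.continuous_sqrt.tendsto 0).comp hblim
    simpa [Function.comp_def] using this
  have hcau : CauchySeq G := by
    rw [Metric.cauchySeq_iff']
    intro ε hε
    obtain ⟨N, hN⟩ := (hsq.eventually (gt_mem_nhds hε)).exists
    exact ⟨N, fun n hn => (hdG N n hn).trans_lt hN⟩
  obtain ⟨g, hg⟩ := cauchySeq_tendsto_of_complete hcau
  have hgm : Measurable (g : E3 → ℝ) := (Lp.stronglyMeasurable g).measurable
  have hgl : Tendsto (fun n => eLpNorm (fun x => ρ n x - g x) 2 μ) atTop (𝓝 0) := by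
    have h2 := (Lp.tendsto_Lp_iff_tendsto_eLpNorm' G g).1 hg
    refine h2.congr fun n => ?_
    refine eLpNorm_congr_ae ?_
    filter_upwards [(hm n).coeFn_toLp] with x h3
    simp only [hG, Pi.sub_apply]
    rw [h3]
  obtain ⟨ns, hns, hae⟩ := (tendstoInMeasure_of_tendsto_eLpNorm (p := 2) (by norm_num)
    (fun n => (hc n).aestronglyMeasurable) hgm.aestronglyMeasurable hgl).exists_seq_tendsto_ae
  have hg1 : ∀ᵐ x ∂μ, |g x| ≤ 1 := by
    filter_upwards [hae] with x hx
    exact le_of_tendsto' hx.abs fun n => h1 _ x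
  -- the limit has absolute value one
  have hτlim : Tendsto (fun n => ∫ x, tau (ρ (ns n) x) ^ 2 ∂μ) atTop (𝓝 0) := by
    have h2 : Tendsto (fun n => 2 * (a (ns n + 1) - a (ns n))) atTop (𝓝 0) := by
      have h3 : Tendsto (fun n => 2 * (a (n + 1) - a n)) atTop (𝓝 (2 * (A - A))) :=
        ((hlim.comp (tendsto_add_atTop_nat 1)).sub hlim).const_mul 2
      have h4 := h3.comp hns.tendsto_atTop
      simpa [Function.comp_def] using h4
    refine squeeze_zero (fun n => integral_nonneg fun x => sq_nonneg _) (fun n => ?_) h2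
    have h3 := hen (ns n)
    have e1 : ∫ x, tau (ρ (ns n) x) ^ 2 ∂μ = ∫ x in B, ψ x * tau (ρ (ns n) x) ^ 2 := by
      refine setIntegral_congr_fun hB fun x hx => ?_
      beta_reduce
      rw [hBψ x hx, one_mul]
    have h4 : ∫ x in B, ψ x * tau (ρ (ns n) x) ^ 2 ≤ ∫ x, ψ x * tau (ρ (ns n) x) ^ 2 :=
      setIntegral_le_integral (ii ((hτc (ns n)).pow 2))
        (Eventually.of_forall fun x => mul_nonneg (ψ0 x) (sq_nonneg _))
    rw [e1]
    linarith
  have hτb : ∀ {t : ℝ}, |t| ≤ 1 → ‖tau t ^ 2‖ ≤ 1 := by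
    intro t ht
    have h2 := tau_nonneg ht
    have h3 := tau_le t
    rw [Real.norm_eq_abs, abs_of_nonneg (sq_nonneg _)]
    nlinarith
  have hτlim2 : Tendsto (fun n => ∫ x, tau (ρ (ns n) x) ^ 2 ∂μ) atTop
      (𝓝 (∫ x, tau (g x) ^ 2 ∂μ)) := by
    refine tendsto_integral_of_dominated_convergence (fun _ => (1:ℝ))
      (fun n => ((hτc (ns n)).pow 2).aestronglyMeasurable) (integrable_const _)
      (fun n => Eventually.of_forall fun x => hτb (h1 _ x)) ?_
    filter_upwards [hae] with x hx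
    have ht : Continuous fun t : ℝ => tau t ^ 2 := by
      unfold tau; fun_prop
    exact (ht.tendsto _).comp hx
  have hτg : ∫ x, tau (g x) ^ 2 ∂μ = 0 := tendsto_nhds_unique hτlim2 hτlim
  have htm : Measurable fun x => tau (g x) ^ 2 := by
    unfold tau
    exact (measurable_const.mul (measurable_const.sub (hgm.pow_const 2))).pow_const 2
  have hτi : Integrable (fun x => tau (g x) ^ 2) μ :=
    Integrable.of_bound htm.aestronglyMeasurable 1 (by
      filter_upwards [hg1] with x hx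
      exact hτb hx)
  have hτae := (integral_eq_zero_iff_of_nonneg (fun x => sq_nonneg (tau (g x))) hτi).1 hτg
  refine ⟨fun x => if 0 ≤ g x then 1 else -1,
    Measurable.ite (measurableSet_le measurable_const hgm) measurable_const measurable_const,
    fun x => ?_, ?_⟩
  · by_cases h : 0 ≤ g x
    · left; simp [h]
    · right; simp [h]
  · refine hgl.congr fun n => ?_
    refine eLpNorm_congr_ae ?_
    filter_upwards [hτae] with x hx
    have hx' : tau (g x) = 0 := by simpa using hx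
    have h2 : g x ^ 2 = 1 := by
      unfold tau at hx'
      linarith
    have h3 : g x = 1 ∨ g x = -1 := by
      have h4 : (g x - 1) * (g x + 1) = 0 := by linarith [sq (g x), h2]
      rcases mul_eq_zero.1 h4 with h5 | h5
      · left; linarith
      · right; linarith
    rcases h3 with h3 | h3
    · simp [h3]
    · rw [h3]; norm_num

end

end Pool.Agent.K6.H24.MH
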