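import Pool.Agent.K6.H24.MH.RL

open scoped ContDiff
open Set MeasureTheory Filter Topology

namespace Pool.Agent.K6.H24.MH

open Pool.Agent.H729R2 (E3 X ev et D St Good lab vec phx phy slab O1 B1 nv n2 vK)
open Pool.Agent.H729R2

noncomputable section

set_option linter.unusedSectionVars false

/-- the choice of the direction -/
lemma exists_dir' {K₀ : Set X} (hK : IsCompact K₀) {S : St} (hg : Good K₀ S) {s : ℝ} (m : ℝ)
    (hs : 0 < s) (hs1 : s ≤ 1 / 10000) (hlt : ∀ x, |rho s (S.r x)| < 1) :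
    ∃ k : Fin 3 → ℝ, k ≠ 0 ∧ (∀ᵐ z : X, (∃ i, S.u i z ≠ 0) →
      (∑ i, k i * D et (lab S.u i) z ≠ 0 ∧
        ∑ j, (k j + ∑ i, k i * D (ev j) (lab S.u i) z) ^ 2 ≠ 0)) ∧
      1 / 4 * YY m s S ≤ ∫ z, s1f S k m z ^ 2 / ((∑ i, k i ^ 2) * Wf S s z) := by
  have hY := hg.lab_isLabel hK
  have hW := Wf_smooth hg hK hs hs1 hlt
  have hWp := Wf_pos hs hs1 hlt
  have hWq : Continuous fun z => Real.sqrt (Wf S s z) := Real.continuous_sqrt.comp hW.continuous
  obtain ⟨k, hk0, hae, hdir⟩ := exists_dir (u := S.u) (fun i => (hg.hu i).continuous) hY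
    (E := fun i z => em S m i z / Real.sqrt (Wf S s z))
    (fun i => (em_smooth hg hK i).continuous.div hWq fun z => (Real.sqrt_pos.2 (hWp z)).ne')
    (fun i => HasCompactSupport.intro hK fun z hz => by
      simp [em_zero' hg hz i])
  refine ⟨k, hk0, hae, ?_⟩
  have e1 : ∫ z, ∑ i, (em S m i z / Real.sqrt (Wf S s z)) ^ 2 = YY m s S := by
    refine integral_congr_ae (Eventually.of_forall fun z => ?_)
    beta_reduce
    unfold Eh
    rw [nv_sq, Finset.sum_div]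
    refine Finset.sum_congr rfl fun i _ => ?_
    rw [div_pow, Real.sq_sqrt (hWp z).le]
  have e2 : ∫ z, (∑ i, k i * (em S m i z / Real.sqrt (Wf S s z))) ^ 2
      = (∑ i, k i ^ 2) * ∫ z, s1f S k m z ^ 2 / ((∑ i, k i ^ 2) * Wf S s z) := by
    rw [← integral_const_mul]
    refine integral_congr_ae (Eventually.of_forall fun z => ?_)
    beta_reduce
    have h1 : ∑ i, k i * (em S m i z / Real.sqrt (Wf S s z))
        = s1f S k m z / Real.sqrt (Wf S s z) := by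
      unfold s1f
      rw [Finset.sum_div]
      refine Finset.sum_congr rfl fun i _ => by ring
    rw [h1, div_pow, Real.sq_sqrt (hWp z).le]
    have h2 := sum_sq_ne hk0
    have h3 := (hWp z).ne'
    field_simp
  rw [e1, e2] at hdir
  have hn : 0 < ∑ i, k i ^ 2 :=
    (Finset.sum_nonneg fun i _ => sq_nonneg (k i)).lt_of_ne (sum_sq_ne hk0).symm
  have h3 : (∑ i, k i ^ 2) * (1 / 4 * YY m s S)
      ≤ (∑ i, k i ^ 2) * ∫ z, s1f S k m z ^ 2 / ((∑ i, k i ^ 2) * Wf S s z) := by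
    refine le_trans (le_of_eq ?_) hdir
    ring
  exact le_of_mul_le_mul_left h3 hn

lemma ae_em {K₀ : Set X} {S : St} (hg : Good K₀ S) (m : ℝ) : ∀ᵐ z : X,
    (¬ ∃ i, S.u i z ≠ 0) → ∀ i, S.b i z = 0 ∧ S.gp i z = 0 ∧ em S m i z = 0 := by
  filter_upwards [hg.ae_zero] with z h hz i
  obtain ⟨h1, h2, h3⟩ := h hz i
  refine ⟨h1, h2, ?_⟩
  have h4 : S.acc i z = 0 := by
    unfold St.e at h3
    rw [h1, h2] at h3
    linarith
  unfold em
  rw [h1, h2, h4]
  ring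

/-- the requirements can be met -/
lemma exists_req {T₀ : ℝ} {K₀ : Set X} (hK : IsCompact K₀) (hKT : K₀ ⊆ slab T₀) {s η : ℝ} (m : ℝ)
    (hs : 0 < s) (hs1 : s ≤ 1 / 10000) (hη : 0 < η) (hηT : η * T₀ ≤ 1 / 10000)
    {S : St} (hg : Good K₀ S) (hlt : ∀ x, |rho s (S.r x)| < 1)
    (hD : ∀ i j z, |D (ev j) (S.u i) z| ≤ η) {δ₁ : ℝ} (hδ : 0 < δ₁) :
    ∃ (k : Fin 3 → ℝ) (ζ : X → ℝ), Req S k ζ s K₀ T₀ ∧
      ∫ z, (1 - ζ z) * (M2 S z + Eh m s S z) ≤ δ₁ ∧
      1 / 4 * YY m s S ≤ ∫ z, s1f S k m z ^ 2 / ((∑ i, k i ^ 2) * Wf S s z) := by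
  have hY := hg.lab_isLabel hK
  obtain ⟨k, hk0, hae, hdir⟩ := exists_dir' hK hg m hs hs1 hlt
  set O : Set X := {z | (∃ i, S.u i z ≠ 0) ∧ (∑ i, k i * D et (lab S.u i) z ≠ 0 ∧
        ∑ j, (k j + ∑ i, k i * D (ev j) (lab S.u i) z) ^ 2 ≠ 0)} with hO
  have hOo : IsOpen O := by
    have c1 : Continuous fun z => ∑ i, k i * D et (lab S.u i) z :=
      continuous_finsetSum _ fun i _ => continuous_const.mul (D_smooth (hY.smooth i) et).continuous
    have c2 : Continuous fun z => ∑ j, (k j + ∑ i, k i * D (ev j) (lab S.u i) z) ^ 2 :=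
      continuous_finsetSum _ fun j _ => (continuous_const.add (continuous_finsetSum _ fun i _ =>
        continuous_const.mul (D_smooth (hY.smooth i) (ev j)).continuous)).pow 2
    have e1 : {z | ∃ i, S.u i z ≠ 0} = ⋃ i, {z | S.u i z ≠ 0} := by ext z; simp
    have o1 : IsOpen {z | ∃ i, S.u i z ≠ 0} := by
      rw [e1]
      exact isOpen_iUnion fun i => isOpen_ne_fun (hg.hu i).continuous continuous_const
    exact o1.inter ((isOpen_ne_fun c1 continuous_const).inter (isOpen_ne_fun c2 continuous_const))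
  obtain ⟨ζ, hζs, hζc, hζO, hζ0, hζ1, hcut⟩ := exists_cutoff hOo
    (G := fun z => M2 S z + Eh m s S z)
    ((M2_smooth hg).continuous.add (Eh_smooth hg hK hs hs1 hlt).continuous)
    (fun z => add_nonneg (M2_nonneg z) (Eh_nonneg z))
    (HasCompactSupport.intro hK fun z hz => by
      rw [M2_zero hg hz, Eh_zero hg hz]; norm_num)
    (by
      filter_upwards [hae, ae_em hg m] with z h1 h2 h3
      by_cases hz : ∃ i, S.u i z ≠ 0
      · exact absurd ⟨hz, h1 hz⟩ h3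
      · unfold M2 Eh
        rw [nv_zero fun i => (h2 hz i).2.2, nv_zero fun i => (h2 hz i).1,
          nv_zero fun i => (h2 hz i).2.1]
        norm_num)
    (δ := δ₁) hδ
  exact ⟨k, ζ, ⟨hg, hK, hKT, hk0, hζs, hζc, fun z hz => hζO hz, hζ0, hζ1, hs, hs1, hlt,
    lab_grad hg.hu (hg.ucs hK) hη hηT hD⟩, hcut, hdir⟩

section weak

variable {S : St} {k : Fin 3 → ℝ} {ζ : X → ℝ} {m s : ℝ} {K₀ : Set X} {T₀ : ℝ}
variable {w : ℕ → Fin 3 → X → ℝ} {π : ℕ → X → ℝ} {C : ℝ}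

lemma Req.rs (h : Req S k ζ s K₀ T₀) : ContDiff ℝ ∞ (fun x => rho s (S.r x)) :=
  rho_smooth h.good.hr s

lemma Req.rho_eq (h : Req S k ζ s K₀ T₀) (m : ℝ) (w : Fin 3 → X → ℝ) (π : X → ℝ) (N : ℕ) (x : E3) :
    rho s ((nst S k ζ m s w π N).r x)
      = rho s (S.r x) + tau (rho s (S.r x)) * Real.cos (N * ∑ i, k i * x i) :=
  rho_new h.s0 (h.rne x)

/-- the new specific volume is weakly close to the old one -/
lemma weak_step (h : Req S k ζ s K₀ T₀) (m : ℝ) {ψ : E3 → ℝ} (hψ : ContDiff ℝ ∞ ψ)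
    (hψc : HasCompactSupport ψ) (ψ0 : ∀ x, 0 ≤ ψ x) (ψ1 : ∀ x, ψ x ≤ 1) {Λ : ℝ} (hΛ : 0 ≤ Λ) :
    ∃ C : ℝ, 0 ≤ C ∧ ∀ N : ℕ, 1 ≤ N → ∀ (w : Fin 3 → X → ℝ) (π : X → ℝ) (g : E3 → ℝ),
      (∀ x y, |g x - g y| ≤ Λ * dist x y) → (∀ x, |g x| ≤ 1) →
      |∫ x, ψ x * (rho s ((nst S k ζ m s w π N).r x) - rho s (S.r x)) * g x| ≤ C / N := by
  obtain ⟨L, hL0, hL⟩ := lip_of_cs (F := fun x => ψ x * tau (rho s (S.r x)))
    (hψ.mul (tau_smooth h.rs)) hψc.mul_right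
  obtain ⟨R, hR⟩ := ball_of_cs hψc
  obtain ⟨C, h0, hC⟩ := rl_lip h.k0 R (L + Λ)
  refine ⟨C, h0, fun N hN w π g hg hg1 => ?_⟩
  have key := hC N hN (fun x => ψ x * tau (rho s (S.r x)) * g x) (fun x y => ?_) (fun x hx => ?_)
  · refine le_trans (le_of_eq ?_) key
    congr 1
    refine integral_congr_ae (Eventually.of_forall fun x => ?_)
    beta_reduce
    rw [h.rho_eq]
    ring
  · have e1 : ψ x * tau (rho s (S.r x)) * g x - ψ y * tau (rho s (S.r y)) * g y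
        = (ψ x * tau (rho s (S.r x)) - ψ y * tau (rho s (S.r y))) * g x
          + ψ y * tau (rho s (S.r y)) * (g x - g y) := by ring
    rw [e1]
    refine (abs_add_le _ _).trans ?_
    rw [abs_mul, abs_mul, add_mul]
    have a1 := mul_le_mul (hL x y) (hg1 x) (abs_nonneg _)
      (mul_nonneg hL0 (dist_nonneg (x := x) (y := y)))
    have t0 := tau_nonneg (h.lt y).le
    have t1 := tau_le (rho s (S.r y))
    have a2 : |ψ y * tau (rho s (S.r y))| ≤ 1 := by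
      rw [abs_of_nonneg (mul_nonneg (ψ0 y) t0)]
      have := mul_le_mul (ψ1 y) t1 t0 zero_le_one
      linarith
    have a3 := mul_le_mul a2 (hg x y) (abs_nonneg _) zero_le_one
    beta_reduce at a1
    linarith
  · simp [hR x hx]

/-- the energy of the specific volume increases -/
lemma energy_step (h : Req S k ζ s K₀ T₀) (m : ℝ) {ψ : E3 → ℝ} (hψ : ContDiff ℝ ∞ ψ)
    (hψc : HasCompactSupport ψ) :
    ∃ C : ℝ, 0 ≤ C ∧ ∀ N : ℕ, 1 ≤ N → ∀ (w : Fin 3 → X → ℝ) (π : X → ℝ),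
      (∫ x, ψ x * rho s (S.r x) ^ 2) + 1 / 2 * (∫ x, ψ x * tau (rho s (S.r x)) ^ 2) - C / N
        ≤ ∫ x, ψ x * rho s ((nst S k ζ m s w π N).r x) ^ 2 := by
  have hr := h.rs
  have ht := tau_smooth hr
  have s1 : ContDiff ℝ ∞ (fun x => 2 * (ψ x * (rho s (S.r x) * tau (rho s (S.r x))))) :=
    contDiff_const.mul (hψ.mul (hr.mul ht))
  have c1 : HasCompactSupport (fun x => 2 * (ψ x * (rho s (S.r x) * tau (rho s (S.r x))))) :=
    (hψc.mul_right (f' := fun x => rho s (S.r x) * tau (rho s (S.r x)))).mul_left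
      (f := fun _ => (2:ℝ))
  have s2 : ContDiff ℝ ∞ (fun x => 1 / 2 * (ψ x * tau (rho s (S.r x)) ^ 2)) :=
    contDiff_const.mul (hψ.mul (ht.pow 2))
  have c2 : HasCompactSupport (fun x => 1 / 2 * (ψ x * tau (rho s (S.r x)) ^ 2)) :=
    (hψc.mul_right (f' := fun x => tau (rho s (S.r x)) ^ 2)).mul_left (f := fun _ => (1 / 2:ℝ))
  obtain ⟨C1, h10, h1⟩ := rl_smooth h.k0 s1 c1
  have hk2 : (fun i => 2 * k i) ≠ 0 := by
    intro h0
    apply h.k0
    ext i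
    have := congrFun h0 i
    simp only [Pi.zero_apply] at this ⊢
    linarith
  obtain ⟨C2, h20, h2⟩ := rl_smooth hk2 s2 c2
  refine ⟨C1 + C2, by positivity, fun N hN w π => ?_⟩
  have k1 := (abs_le.1 (h1 N hN)).1
  have k2 := (abs_le.1 (h2 N hN)).1
  have hθ : Continuous fun x : E3 => (N:ℝ) * ∑ i, k i * x i := by fun_prop
  have hθ2 : Continuous fun x : E3 => (N:ℝ) * ∑ i, 2 * k i * x i := by fun_prop
  have i0 : Integrable (fun x => ψ x * rho s (S.r x) ^ 2) :=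
    (hψ.continuous.mul (hr.continuous.pow 2)).integrable_of_hasCompactSupport hψc.mul_right
  have i1 : Integrable (fun x => 2 * (ψ x * (rho s (S.r x) * tau (rho s (S.r x))))
      * Real.cos (N * ∑ i, k i * x i)) :=
    (s1.continuous.mul (Real.continuous_cos.comp hθ)).integrable_of_hasCompactSupport
    (μ := (volume : Measure E3)) c1.mul_right
  have i2 := s2.continuous.integrable_of_hasCompactSupport (μ := (volume : Measure E3)) c2
  have i3 : Integrable (fun x => 1 / 2 * (ψ x * tau (rho s (S.r x)) ^ 2)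
      * Real.cos (N * ∑ i, 2 * k i * x i)) :=
    (s2.continuous.mul (Real.continuous_cos.comp hθ2)).integrable_of_hasCompactSupport
    (μ := (volume : Measure E3)) c2.mul_right
  have e : ∫ x, ψ x * rho s ((nst S k ζ m s w π N).r x) ^ 2
      = (∫ x, ψ x * rho s (S.r x) ^ 2) + (∫ x, 2 * (ψ x * (rho s (S.r x) * tau (rho s (S.r x))))
        * Real.cos (N * ∑ i, k i * x i)) + (∫ x, 1 / 2 * (ψ x * tau (rho s (S.r x)) ^ 2))
        + ∫ x, 1 / 2 * (ψ x * tau (rho s (S.r x)) ^ 2) * Real.cos (N * ∑ i, 2 * k i * x i) := by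
    have i01 : Integrable (fun x => ψ x * rho s (S.r x) ^ 2 + 2 * (ψ x * (rho s (S.r x)
      * tau (rho s (S.r x)))) * Real.cos (N * ∑ i, k i * x i)) := i0.add i1
    have i02 : Integrable (fun x => ψ x * rho s (S.r x) ^ 2 + 2 * (ψ x * (rho s (S.r x)
      * tau (rho s (S.r x)))) * Real.cos (N * ∑ i, k i * x i)
      + 1 / 2 * (ψ x * tau (rho s (S.r x)) ^ 2)) := i01.add i2
    rw [← integral_add i0 i1, ← integral_add i01 i2, ← integral_add i02 i3]
    refine integral_congr_ae (Eventually.of_forall fun x => ?_)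
    beta_reduce
    rw [h.rho_eq]
    have e1 : (N:ℝ) * ∑ i, 2 * k i * x i = 2 * (N * ∑ i, k i * x i) := by
      simp only [mul_assoc, ← Finset.mul_sum]
      ring
    change _ = ψ x * rho s (S.r x) ^ 2 + 2 * (ψ x * (rho s (S.r x) * tau (rho s (S.r x))))
        * Real.cos (N * ∑ i, k i * x i) + 1 / 2 * (ψ x * tau (rho s (S.r x)) ^ 2)
        + 1 / 2 * (ψ x * tau (rho s (S.r x)) ^ 2) * Real.cos (N * ∑ i, 2 * k i * x i)
    rw [e1, Real.cos_two_mul]
    ring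
  rw [e, add_div]
  have e6 := integral_const_mul (μ := (volume : Measure E3)) (1 / 2 : ℝ)
    (fun x => ψ x * tau (rho s (S.r x)) ^ 2)
  linarith

end weak

/-- the step of the iteration -/
theorem step {T₀ : ℝ} {K₀ : Set X} (hK : IsCompact K₀) (hKT : K₀ ⊆ slab T₀) {s η : ℝ} (m : ℝ)
    (hs : 0 < s) (hs1 : s ≤ 1 / 10000) (hη : 0 < η) (hηT : η * T₀ ≤ 1 / 10000)
    {ψ : E3 → ℝ} (hψ : ContDiff ℝ ∞ ψ) (hψc : HasCompactSupport ψ) (ψ0 : ∀ x, 0 ≤ ψ x)
    (ψ1 : ∀ x, ψ x ≤ 1) {S : St} (hg : Good K₀ S) (hlt : ∀ x, |rho s (S.r x)| < 1)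
    (hD : ∀ i j z, |D (ev j) (S.u i) z| ≤ η) {Λ : ℝ} (hΛ : 0 ≤ Λ) {δ : ℝ} (hδ : 0 < δ) :
    ∃ S' : St, Good K₀ S' ∧ (∀ x, |rho s (S'.r x)| < 1) ∧
      XX s S' ≤ XX s S - 4 / 10 * TT s S + 1800 * YY m s S + δ ∧
      YY m s S' ≤ 94 / 100 * YY m s S + 1 / 1000000 * TT s S + δ ∧
      (∀ i z, |S'.u i z - S.u i z| ≤ δ) ∧
      (∀ i j z, |D (ev j) (S'.u i) z - D (ev j) (S.u i) z| ≤ δ) ∧
      (∀ i z, |D et (S'.u i) z - D et (S.u i) z| ≤ δ) ∧
      (∀ z ∈ slab T₀, ∀ i, |lab S'.u i z - lab S.u i z| ≤ δ) ∧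
      (∀ g : E3 → ℝ, (∀ x y, |g x - g y| ≤ Λ * dist x y) → (∀ x, |g x| ≤ 1) →
        |∫ x, ψ x * (rho s (S'.r x) - rho s (S.r x)) * g x| ≤ δ) ∧
      (∫ x, ψ x * rho s (S.r x) ^ 2) + 1 / 2 * (∫ x, ψ x * tau (rho s (S.r x)) ^ 2) - δ
        ≤ ∫ x, ψ x * rho s (S'.r x) ^ 2 := by
  obtain ⟨k, ζ, h, hcut, hdir⟩ := exists_req hK hKT m hs hs1 hη hηT hg hlt hD
    (δ₁ := δ / 200) (by positivity)
  obtain ⟨w, π, C, hm⟩ := h.exists_mic m
  obtain ⟨N1, C1, h1⟩ := hm.X_step h hcut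
  obtain ⟨N2, C2, h2⟩ := hm.Y_step h hcut hdir
  obtain ⟨C3, hC3, h3⟩ := hm.lab_ap h
  obtain ⟨C4, hC4, h4⟩ := weak_step h m hψ hψc ψ0 ψ1 hΛ
  obtain ⟨C5, hC5, h5⟩ := energy_step h m hψ hψc
  obtain ⟨N6, -, h6⟩ := hm.good h
  have hC0 := hm.C0
  set CC := |C1| + |C2| + C3 + C4 + C5 + C with hCC
  obtain ⟨N7, hN7⟩ := exists_nat_gt (CC / (δ / 2))
  set N : ℕ := N1 + N2 + N6 + N7 + 1 with hN
  have hN1 : 1 ≤ N := by omega
  have hNr : (1:ℝ) ≤ N := by exact_mod_cast hN1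
  have hNp : (0:ℝ) < N := by linarith
  have hN7' : (N7:ℝ) ≤ N := by
    have : N7 ≤ N := by omega
    exact_mod_cast this
  have hCN : CC / N ≤ δ / 2 := by
    rw [div_le_iff₀ hNp]
    rw [div_lt_iff₀ (by positivity)] at hN7
    nlinarith
  have a1 := abs_nonneg C1
  have a2 := abs_nonneg C2
  have hle : ∀ c : ℝ, c ≤ CC → c / N ≤ δ / 2 := fun c hc =>
    (div_le_div_of_nonneg_right hc hNp.le).trans hCN
  have hsq : ∀ c : ℝ, 0 ≤ c → c / (N:ℝ) ^ 2 ≤ c / N := by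
    intro c hc
    refine div_le_div_of_nonneg_left hc hNp ?_
    nlinarith
  have g1 := hle C1 (by linarith [le_abs_self C1])
  have g2 := hle C2 (by linarith [le_abs_self C2])
  have g3 := hle C3 (by linarith)
  have g4 := hle C4 (by linarith)
  have g5 := hle C5 (by linarith)
  have g6 := hle C (by linarith)
  refine ⟨nst S k ζ m s (w N) (π N) N, h6 N (by omega), hm.rho_lt h N, ?_, ?_, ?_, ?_, ?_, ?_,
    ?_, ?_⟩
  · have := h1 N (by omega) hN1
    linarith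
  · have := h2 N (by omega) hN1
    linarith
  · intro i z
    have := hm.w0 N hN1 i z
    have e : (nst S k ζ m s (w N) (π N) N).u i z - S.u i z = w N i z := by simp [nst]
    rw [e]
    linarith [hsq C hC0]
  · intro i j z
    have := hm.wx N hN1 i j z
    have e : D (ev j) ((nst S k ζ m s (w N) (π N) N).u i) z - D (ev j) (S.u i) z
        = D (ev j) (w N i) z := by
      have := congrFun (D_add (hg.hu i) (hm.ws N i) (ev j)) z
      change D (ev j) (fun z => S.u i z + w N i z) z - _ = _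
      rw [this]
      ring
    rw [e]
    linarith
  · intro i z
    have := hm.wt N hN1 i z
    have e : D et ((nst S k ζ m s (w N) (π N) N).u i) z - D et (S.u i) z
        = D et (w N i) z := by
      have := congrFun (D_add (hg.hu i) (hm.ws N i) et) z
      change D et (fun z => S.u i z + w N i z) z - _ = _
      rw [this]
      ring
    rw [e]
    linarith
  · intro z hz i
    have := h3 N hN1 z hz i
    linarith [hsq C3 hC3]
  · intro g hg1 hg2
    have := h4 N hN1 (w N) (π N) g hg1 hg2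
    linarith
  · have := h5 N hN1 (w N) (π N)
    linarith

end

end Pool.Agent.K6.H24.MH
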